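import Mathlib

/-!
# UB-AbC: the Cauchy coefficient argument in a seminormed space

Let `A`, `B` be commuting linear maps, `A_z = A + z B`, and suppose for all `|z| ≤ r`: `N (A_z f) ≤ a N f` and (dissipativity)
`N f ≤ N (f - h A_z f)`.  Then `N (k h B (1 + h A)^(k-1) f) ≤ (1 + a² h²)^k / r N f`.

PLAN.  `T_z = 1 + h A_z`, `N (T_z f) ≤ N (T_z f - h A_z T_z f) = N (f - h² A_z² f) ≤ (1 + h² a²) N f`, so `N (T_z^k f) ≤ (1+a²h²)^k N f`.
`T_z^k = ∑_j z^j (k choose j) h^j B^j (1 + h A)^(k-j)` (`Commute.add_pow` in `Module.End ℂ X`).  With `m = k + 2` and `ζ` a primitive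
`m`-th root of unity: `(1/m) ∑_{l<m} ζ^(-l) T_{r ζ^l}^k f = r k h B (1 + h A)^(k-1) f`, since `∑_l ζ^(l (j-1)) = 0` for `0 ≤ j ≤ k`,
`j ≠ 1` (`IsPrimitiveRoot.geom_sum_eq_zero` or so).  Take the seminorm.
-/

set_option autoImplicit false

namespace Pool.Agent.UB

open Finset

/-- the roots of unity filter -/
private theorem abC_root {k : ℕ} {ζ : ℂ} (hζ : IsPrimitiveRoot ζ (k + 2)) {j : ℕ} (hj : j ≤ k) :
    ∑ l ∈ range (k + 2), ζ ^ (l * (k + 1)) * (ζ ^ l) ^ j = if j = 1 then ((k + 2 : ℕ) : ℂ) else 0 := by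
  have h1 : ∀ l ∈ range (k + 2), ζ ^ (l * (k + 1)) * (ζ ^ l) ^ j = (ζ ^ (k + 1 + j)) ^ l := by
    intro l _
    rw [← pow_mul, ← pow_mul, ← pow_add]
    congr 1
    ring
  rw [sum_congr rfl h1]
  split_ifs with h
  · subst h
    have h2 : ζ ^ (k + 1 + 1) = 1 := hζ.pow_eq_one
    rw [h2]
    simp
  · have h2 : ζ ^ (k + 1 + j) ≠ 1 := by
      intro h3
      rw [hζ.pow_eq_one_iff_dvd] at h3
      obtain ⟨c, hc⟩ := h3
      have hc2 : c = 1 := by
        rcases Nat.lt_or_ge c 1 with h4 | h4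
        · interval_cases c
          omega
        · rcases Nat.lt_or_ge c 2 with h5 | h5
          · omega
          · exfalso
            have h6 : (k + 2) * 2 ≤ (k + 2) * c := Nat.mul_le_mul_left _ h5
            omega
      subst hc2
      omega
    have h3 := geom_sum_mul (ζ ^ (k + 1 + j)) (k + 2)
    rw [← pow_mul, mul_comm (k + 1 + j), pow_mul, hζ.pow_eq_one, one_pow, sub_self] at h3
    exact (mul_eq_zero.1 h3).resolve_right (sub_ne_zero.2 h2)

private theorem abC_sum {X : Type*} [AddCommGroup X] [Module ℂ X] (N : Seminorm ℂ X) (s : Finset ℕ)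
    (g : ℕ → X) : N (∑ i ∈ s, g i) ≤ ∑ i ∈ s, N (g i) := by
  classical
  induction s using Finset.induction_on with
  | empty => simp
  | insert i s hi ih =>
    rw [sum_insert hi, sum_insert hi]
    exact (map_add_le_add N _ _).trans (by linarith)

/-- one step -/
private theorem abC_step {X : Type*} [AddCommGroup X] [Module ℂ X] (N : Seminorm ℂ X)
    (W : Module.End ℂ X) {h a : ℝ} (ha : 0 ≤ a) (hb : ∀ f, N (W f) ≤ a * N f)
    (hd : ∀ f, N f ≤ N (f - (h : ℂ) • W f)) (k : ℕ) (f : X) :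
    N (((1 + (h : ℂ) • W) ^ k : Module.End ℂ X) f) ≤ (1 + a ^ 2 * h ^ 2) ^ k * N f := by
  have h1 : ∀ g, N ((1 + (h : ℂ) • W : Module.End ℂ X) g) ≤ (1 + a ^ 2 * h ^ 2) * N g := by
    intro g
    refine (hd _).trans ?_
    have h2 : (1 + (h : ℂ) • W : Module.End ℂ X) g -
        (h : ℂ) • W ((1 + (h : ℂ) • W : Module.End ℂ X) g) = g - ((h : ℂ) ^ 2) • W (W g) := by
      simp only [LinearMap.add_apply, Module.End.one_apply, LinearMap.smul_apply, map_add, map_smul,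
        smul_add, smul_smul]
      rw [pow_two]
      abel
    rw [h2]
    refine (map_sub_le_add N _ _).trans ?_
    rw [map_smul_eq_mul]
    have h3 : ‖((h : ℂ) ^ 2)‖ = h ^ 2 := by
      rw [norm_pow, Complex.norm_real, Real.norm_eq_abs, sq_abs]
    rw [h3]
    have h4 : N (W (W g)) ≤ a * (a * N g) := (hb _).trans (mul_le_mul_of_nonneg_left (hb _) ha)
    have h5 := mul_le_mul_of_nonneg_left h4 (sq_nonneg h)
    nlinarith
  induction k with
  | zero => simp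
  | succ k ih =>
    rw [pow_succ', Module.End.mul_apply]
    refine (h1 _).trans ?_
    rw [pow_succ' (1 + a ^ 2 * h ^ 2) k, mul_assoc]
    exact mul_le_mul_of_nonneg_left ih (by positivity)

private theorem abC_iter {X : Type*} [AddCommGroup X] [Module ℂ X] (A : X →ₗ[ℂ] X) (c : ℂ) (n : ℕ)
    (f : X) : ((1 + c • A) ^ n : Module.End ℂ X) f = (fun g => g + c • A g)^[n] f := by
  rw [Module.End.pow_apply]
  rfl

theorem absC {X : Type*} [AddCommGroup X] [Module ℂ X] (N : Seminorm ℂ X) (A B : X →ₗ[ℂ] X)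
    (hAB : ∀ f, A (B f) = B (A f)) {r h a : ℝ} {k : ℕ} (hr : 0 < r) (hh : 0 ≤ h) (ha : 0 ≤ a)
    (hk : 1 ≤ k) (hb : ∀ z : ℂ, ‖z‖ ≤ r → ∀ f, N (A f + z • B f) ≤ a * N f)
    (hd : ∀ z : ℂ, ‖z‖ ≤ r → ∀ f, N f ≤ N (f - (h : ℂ) • (A f + z • B f))) (f : X) :
    k * h * N (B ((fun g => g + (h : ℂ) • A g)^[k - 1] f)) ≤ (1 + a ^ 2 * h ^ 2) ^ k / r * N f := by
  set P : Module.End ℂ X := 1 + (h : ℂ) • A with hP
  set Q : Module.End ℂ X := (h : ℂ) • B with hQ
  have hAB' : Commute (A : Module.End ℂ X) B := by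
    ext g
    exact hAB g
  have hPQ : Commute Q P := by
    rw [hP, hQ]
    exact ((Commute.one_right _).add_right (hAB'.symm.smul_right _)).smul_left _
  have hT : ∀ z : ℂ, ((1 : Module.End ℂ X) + (h : ℂ) • ((A : Module.End ℂ X) + z • B)) =
      z • Q + P := by
    intro z
    rw [hP, hQ, smul_add, smul_comm z (h : ℂ)]
    abel
  obtain ⟨c, hc⟩ : ∃ c : ℕ → X,
      c = fun j => (k.choose j : ℂ) • ((Q ^ j * P ^ (k - j) : Module.End ℂ X) f) := ⟨_, rfl⟩
  have hexp : ∀ z : ℂ, ((z • Q + P) ^ k : Module.End ℂ X) f = ∑ j ∈ range (k + 1), z ^ j • c j := by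
    intro z
    rw [(hPQ.smul_left z).add_pow, LinearMap.sum_apply]
    refine sum_congr rfl fun j _ => ?_
    rw [hc]
    simp only
    rw [smul_pow, smul_mul_assoc, ← Nat.cast_comm, Module.End.mul_apply]
    rw [Module.End.natCast_apply, LinearMap.smul_apply, ← Nat.cast_smul_eq_nsmul ℂ, smul_comm]
  have hbound : ∀ z : ℂ, ‖z‖ ≤ r → N (∑ j ∈ range (k + 1), z ^ j • c j) ≤
      (1 + a ^ 2 * h ^ 2) ^ k * N f := by
    intro z hz
    rw [← hexp, ← hT]
    exact abC_step N _ ha (fun g => hb z hz g) (fun g => hd z hz g) k f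
  obtain ⟨ζ, hζ⟩ : ∃ ζ : ℂ, IsPrimitiveRoot ζ (k + 2) :=
    ⟨_, Complex.isPrimitiveRoot_exp (k + 2) (by omega)⟩
  have hζn : ‖ζ‖ = 1 := hζ.norm'_eq_one (by omega)
  have hsum : ∑ l ∈ range (k + 2), ζ ^ (l * (k + 1)) •
      ∑ j ∈ range (k + 1), ((r : ℂ) * ζ ^ l) ^ j • c j = ((k + 2 : ℕ) : ℂ) • (r : ℂ) • c 1 := by
    have h1 : ∀ l ∈ range (k + 2), ζ ^ (l * (k + 1)) •
        ∑ j ∈ range (k + 1), ((r : ℂ) * ζ ^ l) ^ j • c j =
        ∑ j ∈ range (k + 1), (ζ ^ (l * (k + 1)) * (ζ ^ l) ^ j) • ((r : ℂ) ^ j • c j) := by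
      intro l _
      rw [smul_sum]
      refine sum_congr rfl fun j _ => ?_
      rw [smul_smul, smul_smul, mul_pow]
      congr 1
      ring
    rw [sum_congr rfl h1, sum_comm]
    have h2 : ∀ j ∈ range (k + 1), ∑ l ∈ range (k + 2),
        (ζ ^ (l * (k + 1)) * (ζ ^ l) ^ j) • ((r : ℂ) ^ j • c j) =
        if j = 1 then ((k + 2 : ℕ) : ℂ) • (r : ℂ) • c 1 else 0 := by
      intro j hj
      rw [← sum_smul, abC_root hζ (by rw [mem_range] at hj; omega)]
      split_ifs with h3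
      · subst h3
        rw [pow_one]
      · rw [zero_smul]
    rw [sum_congr rfl h2, sum_ite_eq' (range (k + 1)) 1, if_pos (mem_range.2 (by omega))]
  have hN1 : N (((k + 2 : ℕ) : ℂ) • (r : ℂ) • c 1) ≤
      ((k + 2 : ℕ) : ℝ) * ((1 + a ^ 2 * h ^ 2) ^ k * N f) := by
    rw [← hsum]
    refine (abC_sum N _ _).trans ?_
    have h1 : ∀ l ∈ range (k + 2), N (ζ ^ (l * (k + 1)) •
        ∑ j ∈ range (k + 1), ((r : ℂ) * ζ ^ l) ^ j • c j) ≤ (1 + a ^ 2 * h ^ 2) ^ k * N f := by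
      intro l _
      rw [map_smul_eq_mul, norm_pow, hζn, one_pow, one_mul]
      apply hbound
      rw [norm_mul, norm_pow, hζn, one_pow, mul_one, Complex.norm_real, Real.norm_eq_abs,
        abs_of_pos hr]
    refine (sum_le_sum h1).trans (le_of_eq ?_)
    rw [sum_const, card_range, nsmul_eq_mul]
  have hN2 : N (((k + 2 : ℕ) : ℂ) • (r : ℂ) • c 1) = ((k + 2 : ℕ) : ℝ) * (r * N (c 1)) := by
    rw [map_smul_eq_mul, map_smul_eq_mul, Complex.norm_natCast, Complex.norm_real,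
      Real.norm_eq_abs, abs_of_pos hr]
  rw [hN2] at hN1
  have hN3 : r * N (c 1) ≤ (1 + a ^ 2 * h ^ 2) ^ k * N f :=
    le_of_mul_le_mul_left hN1 (by positivity)
  have hc1 : N (c 1) = k * h * N (B ((fun g => g + (h : ℂ) • A g)^[k - 1] f)) := by
    rw [← abC_iter A (h : ℂ) (k - 1) f, hc]
    simp only [Nat.choose_one_right, pow_one, Module.End.mul_apply]
    rw [map_smul_eq_mul, Complex.norm_natCast, hQ, LinearMap.smul_apply, map_smul_eq_mul,
      Complex.norm_real, Real.norm_eq_abs, abs_of_nonneg hh, mul_assoc]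
  rw [← hc1, div_mul_eq_mul_div, le_div_iff₀ hr, mul_comm]
  exact hN3

end Pool.Agent.UB
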