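import Pool.Agent.UB.Defs

/-!
# UB-Chord: chords of unconditional bodies

PLAN.  `0` is in the interior of `K`, `K` is solid (`|z_i| ≤ |y_i|` for all `i` implies `z ∈ K`: change the coordinates one at a
time, `z` is a convex combination of points with `±y_i` in coordinate `i`; or `K` contains the convex hull of the sign images).
`{s | y + s • bv i ∈ K}` is convex, compact and symmetric about `-y i`, so it is empty or `{s | |y i + s| ≤ l}` with `2 l` its length:
`l = hl K i y`.  Measurability of `hl K i`: `measurable_measure_prodMk_left` for the closed set `{(y, s) | y + s • bv i ∈ K}`.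
-/

set_option autoImplicit false

open MeasureTheory Set
open scoped ENNReal NNReal

namespace Pool.Agent.UB

open Pool.Agent.CB

variable {n : ℕ} {K : Set (V n)}

private theorem ch_bv (i j : Fin n) : (bv i : V n) j = if j = i then 1 else 0 := by
  unfold bv
  exact EuclideanSpace.single_apply i (1 : ℝ) j

private theorem ch_at (i j : Fin n) (y : V n) (s : ℝ) :
    (y + s • bv i) j = y j + if j = i then s else 0 := by
  have h : (y + s • bv i) j = y j + s * (bv i : V n) j := rfl
  rw [h, ch_bv]
  split_ifs <;> simp

private theorem ch_self (i : Fin n) (y : V n) (s : ℝ) : (y + s • bv i) i = y i + s := by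
  rw [ch_at, if_pos rfl]

private theorem ch_ne {i j : Fin n} (h : j ≠ i) (y : V n) (s : ℝ) : (y + s • bv i) j = y j := by
  rw [ch_at, if_neg h, add_zero]

theorem Unc.solid (hK : Unc K) {y z : V n} (hy : y ∈ K) (h : ∀ i, |z i| ≤ |y i|) : z ∈ K := by
  have key : ∀ s : Finset (Fin n),
      (WithLp.toLp 2 (fun i => if i ∈ s then z i else y i) : V n) ∈ K := by
    intro s
    induction s using Finset.induction_on with
    | empty =>
      refine hK.unc y hy _ fun i => ?_
      simp
    | insert j s hj ih =>
      set w : V n := WithLp.toLp 2 (fun i => if i ∈ s then z i else y i) with hw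
      set w' : V n := WithLp.toLp 2 (fun i => if i = j then - y i else if i ∈ s then z i else y i)
        with hw'
      have hwi : ∀ i, w i = if i ∈ s then z i else y i := fun i => rfl
      have hwi' : ∀ i, w' i = if i = j then - y i else if i ∈ s then z i else y i := fun i => rfl
      have h1 : w' ∈ K := by
        refine hK.unc w ih w' fun i => ?_
        rw [hwi, hwi']
        by_cases hij : i = j
        · rw [if_pos hij, if_neg (by rw [hij]; exact hj), abs_neg]
        · rw [if_neg hij]
      obtain ⟨a, b, ha, hb, hab, hz⟩ : ∃ a b : ℝ, 0 ≤ a ∧ 0 ≤ b ∧ a + b = 1 ∧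
          a * y j + b * (- y j) = z j := by
        by_cases hy0 : y j = 0
        · refine ⟨1, 0, zero_le_one, le_rfl, by norm_num, ?_⟩
          have h2 := h j
          rw [hy0, abs_zero] at h2
          have h3 : z j = 0 := abs_eq_zero.1 (le_antisymm h2 (abs_nonneg _))
          rw [h3, hy0]
          ring
        · have h2 : |z j / y j| ≤ 1 := by
            rw [abs_div, div_le_one (abs_pos.2 hy0)]
            exact h j
          rw [abs_le] at h2
          refine ⟨(1 + z j / y j) / 2, (1 - z j / y j) / 2, by linarith [h2.1], by linarith [h2.2],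
            by ring, ?_⟩
          field_simp
          ring
      have h2 := hK.convex ih h1 ha hb hab
      have h3 : a • w + b • w' =
          (WithLp.toLp 2 (fun i => if i ∈ insert j s then z i else y i) : V n) := by
        ext i
        have h4 : (a • w + b • w') i = a * w i + b * w' i := rfl
        have h5 : (WithLp.toLp 2 (fun i => if i ∈ insert j s then z i else y i) : V n) i =
          if i ∈ insert j s then z i else y i := rfl
        rw [h4, h5, hwi, hwi']
        by_cases hij : i = j
        · rw [hij, if_neg hj, if_pos rfl, if_pos (Finset.mem_insert_self j s)]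
          exact hz
        · rw [if_neg hij]
          have h6 : (i ∈ insert j s) ↔ i ∈ s := by
            rw [Finset.mem_insert]
            exact ⟨fun h' => h'.resolve_left hij, Or.inr⟩
          simp only [h6]
          rw [← add_mul, hab, one_mul]
      rw [← h3]
      exact h2
  have h1 := key Finset.univ
  have h2 : (WithLp.toLp 2 (fun i => if i ∈ (Finset.univ : Finset (Fin n)) then z i else y i) : V n)
      = z := by
    ext i
    simp
  rwa [h2] at h1

theorem Unc.zero_mem_interior (hK : Unc K) : (0 : V n) ∈ interior K := by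
  obtain ⟨x, hx⟩ := hK.nonempty
  have h1 : (fun y : V n => -y) ⁻¹' K = K := by
    ext y
    constructor
    · intro h
      refine hK.unc _ h y fun i => ?_
      have : (-y) i = - y i := rfl
      rw [this, abs_neg]
    · intro h
      refine hK.unc _ h (-y) fun i => ?_
      have : (-y) i = - y i := rfl
      rw [this, abs_neg]
  have h2 : -x ∈ interior K := by
    have h3 := (Homeomorph.neg (V n)).preimage_interior K
    have h4 : x ∈ (Homeomorph.neg (V n)) ⁻¹' (interior K) := by
      rw [h3]
      have h5 : (Homeomorph.neg (V n)) ⁻¹' K = K := h1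
      rw [h5]
      exact hx
    exact h4
  have h3 := hK.convex.interior hx h2 (a := 1 / 2) (b := 1 / 2) (by norm_num) (by norm_num)
    (by norm_num)
  have h4 : (1 / 2 : ℝ) • x + (1 / 2 : ℝ) • (-x) = 0 := by
    rw [smul_neg, add_neg_cancel]
  rwa [h4] at h3

theorem Unc.vol_pos (hK : Unc K) : 0 < volume K :=
  MeasureTheory.Measure.measure_pos_of_nonempty_interior volume hK.nonempty

theorem Unc.vol_lt_top (hK : Unc K) : volume K < ⊤ := hK.compact.measure_lt_top

theorem Unc.prob (hK : Unc K) : IsProbabilityMeasure (MX.unif K) := by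
  constructor
  rw [MX.unif, Measure.smul_apply, Measure.restrict_apply_univ, smul_eq_mul]
  exact ENNReal.inv_mul_cancel hK.vol_pos.ne' hK.vol_lt_top.ne

private noncomputable def chE (ε : Fin n → Bool) : V n ≃ₗᵢ[ℝ] V n :=
  LinearIsometryEquiv.piLpCongrRight 2
    (fun i => if ε i then LinearIsometryEquiv.refl ℝ ℝ else LinearIsometryEquiv.neg ℝ)

private theorem chE_apply (ε : Fin n → Bool) (y : V n) :
    chE ε y = WithLp.toLp 2 fun i => sg (ε i) * y i := by
  ext i
  have h1 : chE ε y i =
    (if ε i then LinearIsometryEquiv.refl ℝ ℝ else LinearIsometryEquiv.neg ℝ : ℝ ≃ₗᵢ[ℝ] ℝ) (y i) :=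
    rfl
  have h2 : (WithLp.toLp 2 (fun i => sg (ε i) * y i) : V n) i = sg (ε i) * y i := rfl
  rw [h1, h2]
  unfold sg
  split_ifs <;> simp

/-- `unif K` is invariant under sign changes. -/
theorem Unc.sign_inv (hK : Unc K) (ε : Fin n → Bool) :
    (MX.unif K).map (fun y : V n => WithLp.toLp 2 fun i => sg (ε i) * y i) = MX.unif K := by
  have h1 : (fun y : V n => (WithLp.toLp 2 fun i => sg (ε i) * y i : V n)) = chE ε := by
    funext y
    exact (chE_apply ε y).symm
  rw [h1]
  have h2 : MeasurePreserving (chE ε) (volume : Measure (V n)) volume :=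
    (chE ε).measurePreserving
  have hsg : ∀ b : Bool, |sg b| = 1 := by
    intro b
    cases b <;> simp [sg]
  have h3 : (chE ε) ⁻¹' K = K := by
    ext y
    have habs : ∀ i, |(chE ε y) i| = |y i| := by
      intro i
      rw [chE_apply]
      have h4 : (WithLp.toLp 2 (fun i => sg (ε i) * y i) : V n) i = sg (ε i) * y i := rfl
      rw [h4, abs_mul, hsg, one_mul]
    constructor
    · intro h
      exact hK.unc _ h y fun i => (habs i).symm
    · intro h
      exact hK.unc _ h (chE ε y) habs
  have h4 := h2.restrict_preimage hK.compact.measurableSet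
  rw [h3] at h4
  rw [MX.unif, Measure.map_smul, h4.map_eq]

theorem Unc.symP (hK : Unc K) : SymP (MX.unif K) := by
  refine ⟨hK.prob, ?_⟩
  have h1 := hK.sign_inv (fun _ => false)
  have h2 : (fun y : V n => (WithLp.toLp 2 fun i => sg ((fun _ => false : Fin n → Bool) i) * y i
      : V n)) = fun y => -y := by
    funext y
    ext i
    have h3 : (WithLp.toLp 2 (fun i => sg ((fun _ => false : Fin n → Bool) i) * y i) : V n) i =
      sg false * y i := rfl
    have h4 : (-y) i = - y i := rfl
    rw [h3, h4]
    simp [sg]
  rwa [h2] at h1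

theorem Unc.ae_mem (hK : Unc K) : ∀ᵐ y ∂(MX.unif K), y ∈ K := by
  rw [MX.unif]
  exact Measure.ae_smul_measure (ae_restrict_mem hK.compact.measurableSet) _

theorem hl_nonneg (i : Fin n) (y : V n) : 0 ≤ hl K i y := by
  unfold hl
  positivity

theorem hl_add (i : Fin n) (y : V n) (s : ℝ) : hl K i (y + s • bv i) = hl K i y := by
  unfold hl
  have h1 : {t : ℝ | y + s • bv i + t • bv i ∈ K} = (fun t => s + t) ⁻¹' {t | y + t • bv i ∈ K} := by
    ext t
    have h2 : y + s • bv i + t • bv i = y + (s + t) • bv i := by
      rw [add_smul, add_assoc]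
    show y + s • bv i + t • bv i ∈ K ↔ y + (s + t) • bv i ∈ K
    rw [h2]
  rw [h1, measure_preimage_add]

theorem Unc.measurable_hl (hK : Unc K) (i : Fin n) : Measurable (hl K i) := by
  have hc : IsClosed {z : V n × ℝ | z.1 + z.2 • bv i ∈ K} := by
    refine hK.compact.isClosed.preimage ?_
    fun_prop
  have h1 := measurable_measure_prodMk_left (ν := (volume : Measure ℝ)) hc.measurableSet
  have h2 : hl K i = fun y : V n => (volume (Prod.mk y ⁻¹' {z : V n × ℝ | z.1 + z.2 • bv i ∈ K})).toReal / 2 :=
    rfl
  rw [h2]
  exact h1.ennreal_toReal.div_const 2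

theorem Unc.chord (hK : Unc K) (i : Fin n) {y : V n} (h : ∃ s : ℝ, y + s • bv i ∈ K) (s : ℝ) :
    y + s • bv i ∈ K ↔ |y i + s| ≤ hl K i y := by
  set A : Set ℝ := {s : ℝ | y + s • bv i ∈ K} with hA
  have hAne : A.Nonempty := h
  have hAcl : IsClosed A := by
    refine hK.compact.isClosed.preimage ?_
    fun_prop
  have hAc : IsCompact A := by
    have h1 : IsCompact ((fun p : V n => p i - y i) '' K) :=
      hK.compact.image (by fun_prop)
    refine h1.of_isClosed_subset hAcl ?_
    intro t ht
    refine ⟨y + t • bv i, ht, ?_⟩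
    show (y + t • bv i) i - y i = t
    rw [ch_self]
    ring
  obtain ⟨s1, hs1, hmax⟩ := hAc.exists_isMaxOn hAne
    (f := fun t => |y i + t|) (by fun_prop)
  set l : ℝ := |y i + s1| with hl0
  have hl0' : 0 ≤ l := abs_nonneg _
  have hiff : ∀ t : ℝ, t ∈ A ↔ |y i + t| ≤ l := by
    intro t
    constructor
    · intro ht
      exact hmax ht
    · intro ht
      refine hK.solid (y := y + s1 • bv i) hs1 fun j => ?_
      by_cases hj : j = i
      · subst hj
        rw [ch_self, ch_self]
        exact ht
      · rw [ch_ne hj, ch_ne hj]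
  have hAI : A = Icc (- y i - l) (- y i + l) := by
    ext t
    rw [hiff, abs_le, mem_Icc]
    constructor
    · rintro ⟨h1, h2⟩
      constructor <;> linarith
    · rintro ⟨h1, h2⟩
      constructor <;> linarith
  have hhl : hl K i y = l := by
    have h1 : hl K i y = (volume A).toReal / 2 := rfl
    rw [h1, hAI, Real.volume_Icc, ENNReal.toReal_ofReal (by linarith)]
    ring
  rw [hhl]
  exact hiff s

theorem Unc.abs_le_hl (hK : Unc K) (i : Fin n) {y : V n} (hy : y ∈ K) : |y i| ≤ hl K i y := by
  have h0 : y + (0 : ℝ) • bv i = y := by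
    rw [zero_smul, add_zero]
  have h1 := (hK.chord i (y := y) ⟨0, by rw [h0]; exact hy⟩ 0).1 (by rw [h0]; exact hy)
  rwa [add_zero] at h1

theorem Unc.hl_even (hK : Unc K) (i : Fin n) {y z : V n} (h : ∀ j, |z j| = |y j|) :
    hl K i z = hl K i y := by
  have key : ∀ w : V n, (∀ j, |w j| = |y j|) → w i = y i → hl K i w = hl K i y := by
    intro w hw hwi
    have habs : ∀ (t : ℝ) (j : Fin n), |(w + t • bv i) j| = |(y + t • bv i) j| := by
      intro t j
      by_cases hj : j = i
      · subst hj
        rw [ch_self, ch_self, hwi]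
      · rw [ch_ne hj, ch_ne hj]
        exact hw j
    have h1 : {t : ℝ | w + t • bv i ∈ K} = {t : ℝ | y + t • bv i ∈ K} := by
      ext t
      constructor
      · intro ht
        exact hK.unc _ ht _ fun j => (habs t j).symm
      · intro ht
        exact hK.unc _ ht _ (habs t)
    unfold hl
    rw [h1]
  rcases abs_eq_abs.1 (h i) with hi | hi
  · exact key z h hi
  · have h2 := key (z + (2 * y i) • bv i) (fun j => ?_) (by rw [ch_self, hi]; ring)
    · rw [hl_add] at h2
      exact h2
    · by_cases hj : j = i
      · subst hj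
        rw [ch_self, hi]
        congr 1
        ring
      · rw [ch_ne hj]
        exact h j

theorem Unc.hl_bdd (hK : Unc K) (i : Fin n) : ∃ R : ℝ, ∀ y, hl K i y ≤ R := by
  obtain ⟨R, hR⟩ : ∃ R : ℝ, ∀ p ∈ K, |p i| ≤ R := by
    have h1 : IsCompact ((fun p : V n => |p i|) '' K) := hK.compact.image (by fun_prop)
    obtain ⟨R, hR⟩ := h1.bddAbove
    exact ⟨R, fun p hp => hR ⟨p, hp, rfl⟩⟩
  have hR0 : 0 ≤ R := (abs_nonneg _).trans (hR 0 (interior_subset hK.zero_mem_interior))
  refine ⟨R, fun y => ?_⟩
  have h1 : {t : ℝ | y + t • bv i ∈ K} ⊆ Icc (- y i - R) (- y i + R) := by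
    intro t ht
    have h2 := hR _ ht
    rw [ch_self, abs_le] at h2
    exact ⟨by linarith [h2.1], by linarith [h2.2]⟩
  have h2 : volume {t : ℝ | y + t • bv i ∈ K} ≤ ENNReal.ofReal (2 * R) := by
    refine (measure_mono h1).trans (le_of_eq ?_)
    rw [Real.volume_Icc]
    congr 1
    ring
  have h3 : (volume {t : ℝ | y + t • bv i ∈ K}).toReal ≤ 2 * R :=
    ENNReal.toReal_le_of_le_ofReal (by linarith) h2
  unfold hl
  linarith

end Pool.Agent.UB
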