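import Pool.Agent.UB.NcA

/-!
# UB-Dis: dissipativity

For a symmetric probability measure `μ`, with `D f = f - cvc μ f` and `⟨u, v⟩ = ∫ u conj v`:
`|⟨D f, J f⟩| ≤ 2 (q-1) Re ⟨D f, J f⟩`.

PLAN.  `⟨D f, J f⟩ = ∫ μ(dy) ∫ (f x - f (x+y)) conj (J f x) dx` (Fubini).  Substituting `x → x + y` and then `y → -y` (symmetry):
`= ∫ μ(dy) ∫ (f (x+y) - f x) conj (J f (x+y)) dx`; adding: `2 ⟨D f, J f⟩ = ∫ μ(dy) ∫ (f (x+y) - f x) conj (J f (x+y) - J f x) dx`.
Now `UB.scal` pointwise: norm of the integral `≤ ∫∫ |..| ≤ 2(q-1) ∫∫ Re`.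
-/

set_option autoImplicit false

open MeasureTheory Set
open scoped ENNReal NNReal ComplexConjugate

namespace Pool.Agent.UB

open Pool.Agent.CB

variable {n : ℕ}

/-- integrability on the product -/
private theorem int_prod {μ : Measure (V n)} [IsProbabilityMeasure μ] {g : V n → ℂ}
    (hg : Integrable g) {F : V n × V n → ℂ} (hF : Continuous F) {M : ℝ} (hM : 0 ≤ M)
    (h : ∀ y x, ‖F (y, x)‖ ≤ M * (‖g x‖ + ‖g (x + y)‖)) : Integrable F (μ.prod volume) := by
  have h1 : ∀ y : V n, Integrable fun x => M * (‖g x‖ + ‖g (x + y)‖) := fun y =>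
    (hg.norm.add (hg.comp_add_right y).norm).const_mul M
  have h2 : ∀ y : V n, ∫ x, M * (‖g x‖ + ‖g (x + y)‖) = M * (2 * ∫ x, ‖g x‖) := by
    intro y
    rw [integral_const_mul, integral_add hg.norm (hg.comp_add_right y).norm,
      integral_add_right_eq_self (fun x => ‖g x‖) y]
    ring
  rw [integrable_prod_iff hF.aestronglyMeasurable]
  refine ⟨Filter.Eventually.of_forall fun y => ?_, ?_⟩
  · exact (h1 y).mono' (hF.comp (Continuous.prodMk continuous_const
      continuous_id)).aestronglyMeasurable (Filter.Eventually.of_forall fun x => h y x)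
  · refine Integrable.of_bound hF.norm.aestronglyMeasurable.integral_prod_right'
      (M * (2 * ∫ x, ‖g x‖)) (Filter.Eventually.of_forall fun y => ?_)
    rw [Real.norm_of_nonneg (integral_nonneg fun x => norm_nonneg _), ← h2 y]
    exact integral_mono_of_nonneg (Filter.Eventually.of_forall fun x => norm_nonneg _) (h1 y)
      (Filter.Eventually.of_forall fun x => h y x)

theorem dis {μ : Measure (V n)} (hμ : SymP μ) {q : ℕ} (hq : 2 ≤ q) {f : V n → ℂ} (hf : NiceC f) :
    ‖∫ x, (f x - cvc μ f x) * conj (Jq q (f x))‖ ≤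
      2 * ((q : ℝ) - 1) * (∫ x, (f x - cvc μ f x) * conj (Jq q (f x))).re := by
  have hprob := hμ.prob
  obtain ⟨g, hgdef⟩ : ∃ g : V n → ℂ, g = fun x => Jq q (f x) := ⟨_, rfl⟩
  have hg : NiceC g := by
    rw [hgdef]
    exact hf.J hq
  have hgx : ∀ x, Jq q (f x) = g x := fun x => by rw [hgdef]
  simp only [hgx]
  obtain ⟨C, hC⟩ := hf.bdd
  have hC0 : 0 ≤ C := (norm_nonneg _).trans (hC 0)
  have hfs : ∀ x y, ‖f x - f y‖ ≤ 2 * C := fun x y =>
    (norm_sub_le _ _).trans (by linarith [hC x, hC y])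
  have hfs' : ∀ x y z, ‖(f x - f y) * conj (g z)‖ ≤ 2 * C * ‖g z‖ := by
    intro x y z
    rw [norm_mul, RCLike.norm_conj]
    exact mul_le_mul_of_nonneg_right (hfs x y) (norm_nonneg _)
  have hcs : Continuous fun z : V n × V n => z.2 + z.1 := continuous_snd.add continuous_fst
  have hcx : Continuous fun z : V n × V n => z.2 := continuous_snd
  have hcf := hf.cont
  have hcg := hg.cont
  -- the two kernels
  have hT1 : Integrable (fun z : V n × V n => (f z.2 - f (z.2 + z.1)) * conj (g z.2))
      (μ.prod volume) := by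
    refine int_prod hg.int ?_ (M := 2 * C) (by linarith) fun y x => ?_
    · exact ((hcf.comp hcx).sub (hcf.comp hcs)).mul (Complex.continuous_conj.comp (hcg.comp hcx))
    · refine (hfs' _ _ _).trans ?_
      exact mul_le_mul_of_nonneg_left (by linarith [norm_nonneg (g (x + y))]) (by linarith)
  have hT2 : Integrable (fun z : V n × V n => (f (z.2 + z.1) - f z.2) * conj (g (z.2 + z.1)))
      (μ.prod volume) := by
    refine int_prod hg.int ?_ (M := 2 * C) (by linarith) fun y x => ?_
    · exact ((hcf.comp hcs).sub (hcf.comp hcx)).mul (Complex.continuous_conj.comp (hcg.comp hcs))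
    · refine (hfs' _ _ _).trans ?_
      exact mul_le_mul_of_nonneg_left (by linarith [norm_nonneg (g x)]) (by linarith)
  have e1 : ∫ z, (f z.2 - f (z.2 + z.1)) * conj (g z.2) ∂(μ.prod volume) =
      ∫ x, (f x - cvc μ f x) * conj (g x) := by
    rw [integral_prod_symm _ hT1]
    refine integral_congr_ae (Filter.Eventually.of_forall fun x => ?_)
    show ∫ y, (f x - f (x + y)) * conj (g x) ∂μ = (f x - cvc μ f x) * conj (g x)
    have hi : Integrable (fun y => f (x + y)) μ :=
      Integrable.of_bound (hcf.comp (continuous_const.add continuous_id)).aestronglyMeasurable C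
        (Filter.Eventually.of_forall fun y => hC (x + y))
    rw [integral_mul_const, integral_sub (integrable_const _) hi]
    unfold cvc
    simp
  have e2 : ∫ z, (f (z.2 + z.1) - f z.2) * conj (g (z.2 + z.1)) ∂(μ.prod volume) =
      ∫ z, (f z.2 - f (z.2 + z.1)) * conj (g z.2) ∂(μ.prod volume) := by
    rw [integral_prod _ hT2, integral_prod _ hT1]
    have h1 : ∀ y : V n, ∫ x, (f (x + y) - f x) * conj (g (x + y)) =
        ∫ x, (f x - f (x + -y)) * conj (g x) := by
      intro y
      rw [← integral_add_right_eq_self (fun x => (f x - f (x + -y)) * conj (g x)) y]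
      refine integral_congr_ae (Filter.Eventually.of_forall fun x => ?_)
      show (f (x + y) - f x) * conj (g (x + y)) =
        (f (x + y) - f (x + y + -y)) * conj (g (x + y))
      rw [add_neg_cancel_right]
    have h2 : ∫ y, (∫ x, (f (x + y) - f x) * conj (g (x + y))) ∂μ =
        ∫ y, (fun y => ∫ x, (f x - f (x + y)) * conj (g x)) (-y) ∂μ :=
      integral_congr_ae (Filter.Eventually.of_forall h1)
    have h3 := (MeasurableEquiv.neg (V n)).measurableEmbedding.integral_map (μ := μ)
      (fun y => ∫ x, (f x - f (x + y)) * conj (g x))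
    have h4 : μ.map (MeasurableEquiv.neg (V n)) = μ := hμ.symm
    rw [h4] at h3
    exact h2.trans h3.symm
  -- the symmetrised kernel
  have hK : Integrable (fun z : V n × V n =>
      (f (z.2 + z.1) - f z.2) * conj (g (z.2 + z.1) - g z.2)) (μ.prod volume) := by
    refine (hT1.add hT2).congr (Filter.Eventually.of_forall fun z => ?_)
    simp only [Pi.add_apply, map_sub]
    ring
  have e3 : ∫ z, (f (z.2 + z.1) - f z.2) * conj (g (z.2 + z.1) - g z.2) ∂(μ.prod volume) =
      2 * ∫ x, (f x - cvc μ f x) * conj (g x) := by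
    rw [two_mul]
    nth_rewrite 1 [← e1]
    rw [← e1, ← e2, e2]
    nth_rewrite 2 [← e2]
    rw [← integral_add hT1 hT2]
    refine integral_congr_ae (Filter.Eventually.of_forall fun z => ?_)
    simp only [map_sub]
    ring
  have hb : ∀ z : V n × V n, ‖(f (z.2 + z.1) - f z.2) * conj (g (z.2 + z.1) - g z.2)‖ ≤
      2 * ((q : ℝ) - 1) * ((f (z.2 + z.1) - f z.2) * conj (g (z.2 + z.1) - g z.2)).re := by
    intro z
    have h1 := scal hq (f (z.2 + z.1)) (f z.2)
    rw [hgx, hgx] at h1
    rw [norm_mul, RCLike.norm_conj]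
    exact h1
  have h5 : ‖∫ z, (f (z.2 + z.1) - f z.2) * conj (g (z.2 + z.1) - g z.2) ∂(μ.prod volume)‖ ≤
      2 * ((q : ℝ) - 1) *
        (∫ z, (f (z.2 + z.1) - f z.2) * conj (g (z.2 + z.1) - g z.2) ∂(μ.prod volume)).re := by
    refine (norm_integral_le_integral_norm _).trans ?_
    have h6 := integral_mono hK.norm (hK.re.const_mul (2 * ((q : ℝ) - 1))) hb
    refine h6.trans (le_of_eq ?_)
    rw [integral_const_mul]
    congr 1
    exact integral_re hK
  rw [e3, norm_mul, Complex.norm_ofNat, Complex.mul_re, Complex.re_ofNat, Complex.im_ofNat,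
    zero_mul, sub_zero] at h5
  linarith

end Pool.Agent.UB
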