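import Pool.Agent.UB.MulA

/-!
# UB-OprA: calculus of bounded multiplier operators

PLAN.  Triangle inequality `eLpNorm_add_le` (`1 ≤ q`, measurability from continuity), `eLpNorm_const_smul`.
`opr_cv`: for `q < ∞`: `CB.lintegral_cv_rpow_le` and `eLpNorm_eq_lintegral_rpow_enorm`; for `q = ∞`: `|cv μ f x| ≤ M` when
`|f| ≤ M` everywhere (`CB.abs_cv_le_of_bdd`); for a continuous function `‖f x‖ ≤ eLpNorm f ∞` for every `x` (Lebesgue
measure is positive on open sets).
-/

set_option autoImplicit false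

open MeasureTheory Set
open scoped ENNReal NNReal

namespace Pool.Agent.UB

open Pool.Agent.CB

variable {n : ℕ} {τ σ : V n → ℝ} {T S : (V n → ℝ) → V n → ℝ} {C D : ℝ}

/-- The supremum of a continuous function. -/
theorem nm_top_le_iff {f : V n → ℝ} (hf : Continuous f) {c : ℝ} (hc : 0 ≤ c) :
    nm ⊤ f ≤ ENNReal.ofReal c ↔ ∀ x, |f x| ≤ c := by
  unfold nm
  rw [eLpNorm_exponent_top]
  constructor
  · intro h x
    have h1 : ∀ᵐ x ∂(volume : Measure (V n)), ‖f x‖ₑ ≤ ENNReal.ofReal c := by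
      filter_upwards [ae_le_eLpNormEssSup (f := f) (μ := (volume : Measure (V n)))] with y hy
      exact hy.trans h
    have h2 : IsOpen {x : V n | c < |f x|} := isOpen_lt continuous_const hf.abs
    have h3 : (volume : Measure (V n)) {x : V n | c < |f x|} = 0 := by
      refine measure_mono_null ?_ (ae_iff.1 h1)
      intro y hy
      show ¬ ‖f y‖ₑ ≤ ENNReal.ofReal c
      rw [Real.enorm_eq_ofReal_abs, ENNReal.ofReal_le_ofReal_iff hc, not_le]
      exact hy
    rw [h2.measure_eq_zero_iff (volume : Measure (V n))] at h3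
    by_contra hcon
    have h4 : x ∈ {x : V n | c < |f x|} := not_le.1 hcon
    rw [h3] at h4
    exact h4
  · intro h
    exact eLpNormEssSup_le_of_ae_bound (Filter.Eventually.of_forall fun x => by
      rw [Real.norm_eq_abs]
      exact h x)

theorem Bq.comp {q : ℝ≥0∞} (hC : 0 ≤ C) (hT : Bq q C T) (hS : Bq q D S)
    (hn : ∀ f, Nice f → Nice (S f)) : Bq q (C * D) (fun f => T (S f)) := by
  intro f hf
  have h1 := hT (S f) (hn f hf)
  have h2 := hS f hf
  calc nm q (T (S f)) ≤ ENNReal.ofReal C * nm q (S f) := h1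
    _ ≤ ENNReal.ofReal C * (ENNReal.ofReal D * nm q f) := by gcongr
    _ = ENNReal.ofReal (C * D) * nm q f := by rw [ENNReal.ofReal_mul hC, mul_assoc]

private theorem meas {f : V n → ℝ} (hf : Nice f) :
    AEStronglyMeasurable f (volume : Measure (V n)) := hf.cont.aestronglyMeasurable

theorem Bq.add {q : ℝ≥0∞} (hq : 1 ≤ q) (hC : 0 ≤ C) (hD : 0 ≤ D) (hT : Bq q C T) (hS : Bq q D S)
    (hnT : ∀ f, Nice f → Nice (T f)) (hnS : ∀ f, Nice f → Nice (S f)) :
    Bq q (C + D) (fun f x => T f x + S f x) := by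
  intro f hf
  have h1 := hT f hf
  have h2 := hS f hf
  have h3 : nm q (fun x => T f x + S f x) ≤ nm q (T f) + nm q (S f) :=
    eLpNorm_add_le (meas (hnT f hf)) (meas (hnS f hf)) hq
  calc nm q (fun x => T f x + S f x) ≤ nm q (T f) + nm q (S f) := h3
    _ ≤ ENNReal.ofReal C * nm q f + ENNReal.ofReal D * nm q f := add_le_add h1 h2
    _ = ENNReal.ofReal (C + D) * nm q f := by rw [ENNReal.ofReal_add hC hD, add_mul]

private theorem bq_sub {q : ℝ≥0∞} (hq : 1 ≤ q) (hC : 0 ≤ C) (hD : 0 ≤ D) (hT : Bq q C T)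
    (hS : Bq q D S) (hnT : ∀ f, Nice f → Nice (T f)) (hnS : ∀ f, Nice f → Nice (S f)) :
    Bq q (C + D) (fun f x => T f x - S f x) := by
  intro f hf
  have h1 := hT f hf
  have h2 := hS f hf
  have h3 : nm q (fun x => T f x - S f x) ≤ nm q (T f) + nm q (S f) :=
    eLpNorm_sub_le (meas (hnT f hf)) (meas (hnS f hf)) hq
  calc nm q (fun x => T f x - S f x) ≤ nm q (T f) + nm q (S f) := h3
    _ ≤ ENNReal.ofReal C * nm q f + ENNReal.ofReal D * nm q f := add_le_add h1 h2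
    _ = ENNReal.ofReal (C + D) * nm q f := by rw [ENNReal.ofReal_add hC hD, add_mul]

theorem Bq.mono {q : ℝ≥0∞} (h : C ≤ D) (hT : Bq q C T) : Bq q D T := by
  intro f hf
  have h1 := hT f hf
  have h2 : ENNReal.ofReal C ≤ ENNReal.ofReal D := ENNReal.ofReal_le_ofReal h
  calc nm q (T f) ≤ ENNReal.ofReal C * nm q f := h1
    _ ≤ ENNReal.ofReal D * nm q f := by gcongr

theorem Opr.one : Opr (fun _ : V n => 1) 1 (fun f => f) := by
  refine ⟨Mul.one, zero_le_one, fun q _ f _ => ?_⟩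
  rw [ENNReal.ofReal_one, one_mul]

theorem Opr.comp (hT : Opr τ C T) (hS : Opr σ D S) :
    Opr (fun ξ => τ ξ * σ ξ) (C * D) (fun f => T (S f)) := by
  exact ⟨hT.toMul.comp hS.toMul, mul_nonneg hT.nonneg hS.nonneg, fun q hq =>
    Bq.comp hT.nonneg (hT.bd q hq) (hS.bd q hq) hS.nice⟩

theorem Opr.add (hT : Opr τ C T) (hS : Opr σ D S) :
    Opr (fun ξ => τ ξ + σ ξ) (C + D) (fun f x => T f x + S f x) := by
  exact ⟨hT.toMul.add hS.toMul, add_nonneg hT.nonneg hS.nonneg, fun q hq =>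
    Bq.add hq hT.nonneg hS.nonneg (hT.bd q hq) (hS.bd q hq) hT.nice hS.nice⟩

theorem Opr.sub (hT : Opr τ C T) (hS : Opr σ D S) :
    Opr (fun ξ => τ ξ - σ ξ) (C + D) (fun f x => T f x - S f x) := by
  exact ⟨hT.toMul.sub hS.toMul, add_nonneg hT.nonneg hS.nonneg, fun q hq =>
    bq_sub hq hT.nonneg hS.nonneg (hT.bd q hq) (hS.bd q hq) hT.nice hS.nice⟩

theorem Opr.om (hT : Opr τ C T) : Opr (fun ξ => 1 - τ ξ) (1 + C) (om T) := by
  exact Opr.sub Opr.one hT

theorem Opr.smul (hT : Opr τ C T) (c : ℝ) :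
    Opr (fun ξ => c * τ ξ) (|c| * C) (fun f x => c * T f x) := by
  refine ⟨hT.toMul.smul c, mul_nonneg (abs_nonneg c) hT.nonneg, fun q hq f hf => ?_⟩
  have h1 := hT.bd q hq f hf
  have h2 : nm q (fun x => c * T f x) = ENNReal.ofReal |c| * nm q (T f) := by
    have h3 := eLpNorm_const_smul c (T f) q (volume : Measure (V n))
    rw [Real.enorm_eq_ofReal_abs] at h3
    exact h3
  rw [h2, ENNReal.ofReal_mul (abs_nonneg c), mul_assoc]
  gcongr

theorem Opr.sum {ι : Type} (s : Finset ι) {τ : ι → V n → ℝ} {C : ι → ℝ}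
    {T : ι → (V n → ℝ) → V n → ℝ} (h : ∀ i ∈ s, Opr (τ i) (C i) (T i)) :
    Opr (fun ξ => ∑ i ∈ s, τ i ξ) (∑ i ∈ s, C i) (fun f x => ∑ i ∈ s, T i f x) := by
  refine ⟨Mul.sum s fun i hi => (h i hi).toMul, Finset.sum_nonneg fun i hi => (h i hi).nonneg,
    fun q hq f hf => ?_⟩
  have h1 : nm q (fun x => ∑ i ∈ s, T i f x) ≤ ∑ i ∈ s, nm q (T i f) := by
    have h2 := eLpNorm_sum_le (f := fun i => T i f) (s := s) (μ := (volume : Measure (V n)))
      (fun i hi => meas ((h i hi).nice f hf)) hq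
    have h3 : (∑ i ∈ s, T i f) = fun x => ∑ i ∈ s, T i f x := by
      funext x
      rw [Finset.sum_apply]
    rw [h3] at h2
    exact h2
  refine h1.trans ?_
  rw [ENNReal.ofReal_sum_of_nonneg fun i hi => (h i hi).nonneg, Finset.sum_mul]
  exact Finset.sum_le_sum fun i hi => (h i hi).bd q hq f hf

theorem Opr.iter (hT : Opr τ C T) (k : ℕ) : Opr (fun ξ => τ ξ ^ k) (C ^ k) (fun f => T^[k] f) := by
  refine ⟨hT.toMul.iter k, pow_nonneg hT.nonneg k, fun q hq => ?_⟩
  induction k with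
  | zero =>
    intro f _
    rw [pow_zero, ENNReal.ofReal_one, one_mul]
    exact le_rfl
  | succ k ih =>
    have h1 := Bq.comp hT.nonneg (hT.bd q hq) ih (hT.toMul.iter k).nice
    intro f hf
    have h2 := h1 f hf
    rw [← pow_succ'] at h2
    show nm q (T^[k + 1] f) ≤ _
    rw [Function.iterate_succ_apply']
    exact h2

theorem Opr.mono (hT : Opr τ C T) (h : C ≤ D) : Opr τ D T := by
  exact ⟨hT.toMul, hT.nonneg.trans h, fun q hq => (hT.bd q hq).mono h⟩

theorem Opr.congr_symbol (hT : Opr τ C T) (h : ∀ ξ, σ ξ = τ ξ) : Opr σ C T := by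
  exact ⟨hT.toMul.congr_symbol h, hT.nonneg, hT.bd⟩

theorem Opr.congr_op (hT : Opr τ C T) (h : ∀ f, Nice f → S f = T f) : Opr τ C S := by
  refine ⟨hT.toMul.congr_op h, hT.nonneg, fun q hq f hf => ?_⟩
  rw [h f hf]
  exact hT.bd q hq f hf

theorem opr_cv {μ : Measure (V n)} (hμ : SymP μ) : Opr (ft μ) 1 (cv μ) := by
  have := hμ.prob
  refine ⟨Mul.cv hμ, zero_le_one, fun q hq f hf => ?_⟩
  rw [ENNReal.ofReal_one, one_mul]
  by_cases hq' : q = ⊤
  · rw [hq']
    by_cases hM : nm ⊤ f = ⊤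
    · rw [hM]
      exact le_top
    · have h1 : ENNReal.ofReal (nm ⊤ f).toReal = nm ⊤ f := ENNReal.ofReal_toReal hM
      have h2 := (nm_top_le_iff hf.cont (c := (nm ⊤ f).toReal) ENNReal.toReal_nonneg).1
        (by rw [h1])
      have h3 := (nm_top_le_iff (nice_cv (μ := μ) hf).cont (c := (nm ⊤ f).toReal)
        ENNReal.toReal_nonneg).2 fun x => abs_cv_le_of_bdd h2 x
      rw [h1] at h3
      exact h3
  · have hq0 : q ≠ 0 := (zero_lt_one.trans_le hq).ne'
    have hr : 1 ≤ q.toReal := by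
      have h1 := ENNReal.toReal_mono hq' hq
      simpa using h1
    unfold nm
    rw [eLpNorm_eq_lintegral_rpow_enorm_toReal hq0 hq',
      eLpNorm_eq_lintegral_rpow_enorm_toReal hq0 hq']
    exact ENNReal.rpow_le_rpow (lintegral_cv_rpow_le hf hr) (by positivity)

end Pool.Agent.UB
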