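import Pool.Agent.UB.AbC
import Pool.Agent.UB.Dis
import Pool.Agent.UB.OprA

/-!
# UB-Coef: the basic operator inequality

`μ i = (1/4) μa i + (3/4) μb i`, `M = Mg μ h = 1 - h ∑ (1 - μ i)`, `24 n² ≤ k`, `k h ≤ 1`, `|c i| ≤ 1`:
`‖∑ c_i (1 - μa_i) M^(k-1) f‖_q ≤ 16 (q-1)/(k h) ‖f‖_q`.

Proof: `UB.absC` for the space of complex nice functions with the `L^q` seminorm; dissipativity from `UB.dis` and Young's
inequality.
-/

set_option autoImplicit false

open MeasureTheory Set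
open scoped ENNReal NNReal ComplexConjugate

namespace Pool.Agent.UB

open Pool.Agent.CB

variable {n : ℕ}

private theorem nc_norm {f : V n → ℂ} (hf : NiceC f) : Nice fun x => ‖f x‖ := by
  refine ⟨hf.cont.norm, ?_, hf.int.norm⟩
  obtain ⟨C, hC⟩ := hf.bdd
  exact ⟨C, fun x => by rw [abs_norm]; exact hC x⟩

private theorem nc_memLp {f : V n → ℂ} (hf : NiceC f) {q : ℕ} (hq : 1 ≤ q) :
    MemLp f q volume := by
  have h := (nc_norm hf).memLp (p := (q : ℝ≥0∞)) (by exact_mod_cast hq)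
  exact (memLp_norm_iff hf.cont.aestronglyMeasurable).1 h

/-- the space of complex nice functions -/
private def XC (n : ℕ) : Submodule ℂ (V n → ℂ) where
  carrier := {f | NiceC f}
  add_mem' := fun hf hg => NiceC.add hf hg
  zero_mem' := NiceC.zero
  smul_mem' := fun c _ hf => NiceC.smul hf c

/-- the seminorm -/
private noncomputable def NC (n : ℕ) {q : ℕ} (hq : 1 ≤ q) : Seminorm ℂ (XC n) :=
  Seminorm.of (fun f => (eLpNorm (f : V n → ℂ) q volume).toReal)
    (by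
      intro f g
      have hf := nc_memLp f.2 hq
      have hg := nc_memLp g.2 hq
      have h1 := eLpNorm_add_le (p := (q : ℝ≥0∞)) hf.1 hg.1 (by exact_mod_cast hq)
      rw [← ENNReal.toReal_add hf.2.ne hg.2.ne]
      exact ENNReal.toReal_mono (ENNReal.add_ne_top.2 ⟨hf.2.ne, hg.2.ne⟩) h1)
    (by
      intro c f
      have h1 : eLpNorm ((c • f : XC n) : V n → ℂ) q volume =
          ‖c‖ₑ * eLpNorm (f : V n → ℂ) q volume :=
        eLpNorm_const_smul c (f : V n → ℂ) (q : ℝ≥0∞) volume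
      rw [h1, ENNReal.toReal_mul, toReal_enorm])

private theorem NC_apply {q : ℕ} (hq : 1 ≤ q) (f : XC n) :
    NC n hq f = (eLpNorm (f : V n → ℂ) q volume).toReal := rfl

/-- the averages as operators -/
private noncomputable def KC {μ : Measure (V n)} (hμ : IsProbabilityMeasure μ) :
    Module.End ℂ (XC n) where
  toFun f := ⟨UB.cvc μ f, NiceC.cvc f.2⟩
  map_add' f g := Subtype.ext (funext fun x => cvc_add f.2 g.2 x)
  map_smul' c f := Subtype.ext (funext fun x => cvc_smul c f x)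

private theorem KC_apply {μ : Measure (V n)} (hμ : IsProbabilityMeasure μ) (f : XC n) (x : V n) :
    (KC hμ f : V n → ℂ) x = UB.cvc μ f x := rfl

private theorem KC_comm {μ ν : Measure (V n)} (hμ : IsProbabilityMeasure μ)
    (hν : IsProbabilityMeasure ν) : Commute (KC hμ) (KC hν) := by
  refine LinearMap.ext fun f => Subtype.ext (funext fun x => ?_)
  exact cvc_comm f.2 x

private theorem NC_KC {q : ℕ} (hq : 1 ≤ q) {μ : Measure (V n)} (hμ : SymP μ) (f : XC n) :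
    NC n hq (KC hμ.prob f) ≤ NC n hq f := by
  rw [NC_apply, NC_apply]
  refine ENNReal.toReal_mono (nc_memLp f.2 hq).2.ne ?_
  have h1 : eLpNorm (KC hμ.prob f : V n → ℂ) q volume ≤
      eLpNorm (cv μ fun x => ‖(f : V n → ℂ) x‖) q volume := by
    refine eLpNorm_mono_real fun x => ?_
    exact norm_integral_le_integral_norm _
  have h2 := (opr_cv hμ).bd (q : ℝ≥0∞) (by exact_mod_cast hq) _ (nc_norm f.2)
  rw [ENNReal.ofReal_one, one_mul] at h2
  refine h1.trans (h2.trans (le_of_eq ?_))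
  exact eLpNorm_norm (f : V n → ℂ)

private theorem NC_D {q : ℕ} (hq : 1 ≤ q) {μ : Measure (V n)} (hμ : SymP μ) (f : XC n) :
    NC n hq ((1 - KC hμ.prob) f) ≤ 2 * NC n hq f := by
  have h1 : (1 - KC hμ.prob) f = f - KC hμ.prob f := rfl
  rw [h1]
  have h2 := map_sub_le_add (NC n hq) f (KC hμ.prob f)
  have h3 := NC_KC hq hμ f
  linarith

private noncomputable def AC {μ : Fin n → Measure (V n)} (hμ : ∀ i, SymP (μ i)) :
    Module.End ℂ (XC n) := (-1 : ℂ) • ∑ i, (1 - KC (hμ i).prob)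

private noncomputable def BC {μ : Fin n → Measure (V n)} (hμ : ∀ i, SymP (μ i))
    (c : Fin n → ℝ) : Module.End ℂ (XC n) :=
  (1 / 4 : ℂ) • ∑ i, (c i : ℂ) • (1 - KC (hμ i).prob)

private theorem AC_eq {μ : Fin n → Measure (V n)} (hμ : ∀ i, SymP (μ i)) (f : XC n) :
    AC hμ f = -∑ i, (1 - KC (hμ i).prob) f := by
  unfold AC
  rw [LinearMap.smul_apply, LinearMap.sum_apply, neg_one_smul]

private theorem BC_eq {μ : Fin n → Measure (V n)} (hμ : ∀ i, SymP (μ i)) (c : Fin n → ℝ)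
    (f : XC n) : BC hμ c f = (1 / 4 : ℂ) • ∑ i, (c i : ℂ) • (1 - KC (hμ i).prob) f := by
  unfold BC
  rw [LinearMap.smul_apply, LinearMap.sum_apply]
  rfl

private theorem AC_BC_comm {μ μa : Fin n → Measure (V n)} (hμ : ∀ i, SymP (μ i))
    (hμa : ∀ i, SymP (μa i)) (c : Fin n → ℝ) : Commute (AC hμ) (BC hμa c) := by
  unfold AC BC
  apply Commute.smul_left
  apply Commute.smul_right
  refine Commute.sum_left _ _ _ fun i _ => Commute.sum_right _ _ _ fun j _ => ?_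
  apply Commute.smul_right
  refine LinearMap.ext fun f => ?_
  have h : KC (hμ i).prob (KC (hμa j).prob f) = KC (hμa j).prob (KC (hμ i).prob f) :=
    LinearMap.congr_fun (KC_comm (hμ i).prob (hμa j).prob).eq f
  show (f - KC (hμa j).prob f) - KC (hμ i).prob (f - KC (hμa j).prob f) =
    (f - KC (hμ i).prob f) - KC (hμa j).prob (f - KC (hμ i).prob f)
  rw [map_sub, map_sub, h]
  abel

private theorem NC_AB {q : ℕ} (hq : 1 ≤ q) {μ μa : Fin n → Measure (V n)}
    (hμ : ∀ i, SymP (μ i)) (hμa : ∀ i, SymP (μa i)) {c : Fin n → ℝ} (hc : ∀ i, |c i| ≤ 1)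
    {z : ℂ} (hz : ‖z‖ ≤ 1 / 2) (f : XC n) :
    NC n hq (AC hμ f + z • BC hμa c f) ≤ 4 * n * NC n hq f := by
  have h0 : 0 ≤ NC n hq f := apply_nonneg _ _
  have hA : NC n hq (AC hμ f) ≤ 2 * n * NC n hq f := by
    rw [AC_eq, map_neg_eq_map]
    refine (Finset.le_sum_of_subadditive (NC n hq) (map_zero _).le (map_add_le_add _) _ _).trans ?_
    calc ∑ i, NC n hq ((1 - KC (hμ i).prob) f) ≤ ∑ _i : Fin n, 2 * NC n hq f :=
          Finset.sum_le_sum fun i _ => NC_D hq (hμ i) f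
      _ = 2 * n * NC n hq f := by
          rw [Finset.sum_const, Finset.card_univ, Fintype.card_fin, nsmul_eq_mul]
          ring
  have hB : NC n hq (BC hμa c f) ≤ 1 / 4 * (2 * n * NC n hq f) := by
    rw [BC_eq, map_smul_eq_mul]
    have h1 : ‖(1 / 4 : ℂ)‖ = 1 / 4 := by norm_num
    rw [h1]
    refine mul_le_mul_of_nonneg_left ?_ (by norm_num)
    refine (Finset.le_sum_of_subadditive (NC n hq) (map_zero _).le (map_add_le_add _) _ _).trans ?_
    calc ∑ i, NC n hq ((c i : ℂ) • (1 - KC (hμa i).prob) f) ≤ ∑ _i : Fin n, 2 * NC n hq f := by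
          refine Finset.sum_le_sum fun i _ => ?_
          rw [map_smul_eq_mul, Complex.norm_real, Real.norm_eq_abs]
          have h2 := NC_D hq (hμa i) f
          have h3 : 0 ≤ NC n hq ((1 - KC (hμa i).prob) f) := apply_nonneg _ _
          calc |c i| * NC n hq ((1 - KC (hμa i).prob) f) ≤
              1 * NC n hq ((1 - KC (hμa i).prob) f) := mul_le_mul_of_nonneg_right (hc i) h3
            _ ≤ 2 * NC n hq f := by rw [one_mul]; exact h2
      _ = 2 * n * NC n hq f := by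
          rw [Finset.sum_const, Finset.card_univ, Fintype.card_fin, nsmul_eq_mul]
          ring
  have h1 := map_add_le_add (NC n hq) (AC hμ f) (z • BC hμa c f)
  rw [map_smul_eq_mul] at h1
  have h2 : 0 ≤ NC n hq (BC hμa c f) := apply_nonneg _ _
  have h3 : ‖z‖ * NC n hq (BC hμa c f) ≤ 1 * (1 / 4 * (2 * n * NC n hq f)) :=
    mul_le_mul (by linarith) hB h2 (by norm_num)
  have h4 : 0 ≤ (n : ℝ) * NC n hq f := by positivity
  nlinarith

/-- the pairing with `J f` -/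
private noncomputable def PC {q : ℕ} (hq : 2 ≤ q) (f : XC n) : XC n →ₗ[ℂ] ℂ where
  toFun g := ∫ x, (g : V n → ℂ) x * conj (Jq q ((f : V n → ℂ) x))
  map_add' g₁ g₂ := by
    have h1 := (NiceC.mul g₁.2 (NiceC.conj (NiceC.J f.2 hq))).int
    have h2 := (NiceC.mul g₂.2 (NiceC.conj (NiceC.J f.2 hq))).int
    rw [← integral_add h1 h2]
    refine integral_congr_ae (Filter.Eventually.of_forall fun x => ?_)
    exact add_mul _ _ _
  map_smul' c g := by
    rw [RingHom.id_apply, smul_eq_mul, ← integral_const_mul]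
    refine integral_congr_ae (Filter.Eventually.of_forall fun x => ?_)
    exact mul_assoc _ _ _

private theorem PC_apply {q : ℕ} (hq : 2 ≤ q) (f g : XC n) :
    PC hq f g = ∫ x, (g : V n → ℂ) x * conj (Jq q ((f : V n → ℂ) x)) := rfl

private theorem PC_self {q : ℕ} (hq : 2 ≤ q) (f : XC n) :
    PC hq f f = ((∫ x, ‖(f : V n → ℂ) x‖ ^ q : ℝ) : ℂ) := by
  rw [PC_apply, ← integral_complex_ofReal]
  refine integral_congr_ae (Filter.Eventually.of_forall fun x => ?_)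
  exact mul_conj_Jq hq _

private theorem PC_dis {q : ℕ} (hq : 2 ≤ q) {μ : Measure (V n)} (hμ : SymP μ) (f : XC n) :
    ‖PC hq f ((1 - KC hμ.prob) f)‖ ≤ 2 * ((q : ℝ) - 1) * (PC hq f ((1 - KC hμ.prob) f)).re :=
  dis hμ hq f.2

private theorem KC_mix {μ μa μb : Measure (V n)} (hμ : IsProbabilityMeasure μ)
    (hμa : IsProbabilityMeasure μa) (hμb : IsProbabilityMeasure μb)
    (h : μ = (1 / 4 : ℝ≥0∞) • μa + (3 / 4 : ℝ≥0∞) • μb) (f : XC n) :
    KC hμ f = (1 / 4 : ℂ) • KC hμa f + (3 / 4 : ℂ) • KC hμb f := by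
  refine Subtype.ext (funext fun x => ?_)
  show UB.cvc μ f x = (1 / 4 : ℂ) * UB.cvc μa f x + (3 / 4 : ℂ) * UB.cvc μb f x
  obtain ⟨C, hC⟩ := f.2.bdd
  have hcont : Continuous fun y => (f : V n → ℂ) (x + y) :=
    f.2.cont.comp (continuous_const.add continuous_id)
  have hint : ∀ ν : Measure (V n), IsProbabilityMeasure ν →
      Integrable (fun y => (f : V n → ℂ) (x + y)) ν := by
    intro ν hν
    exact Integrable.of_bound hcont.aestronglyMeasurable C
      (Filter.Eventually.of_forall fun y => hC _)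
  unfold UB.cvc
  have h4 : (1 / 4 : ℝ≥0∞) ≠ ⊤ := by simp
  have h34 : (3 / 4 : ℝ≥0∞) ≠ ⊤ := (ENNReal.div_lt_top (by simp) (by simp)).ne
  rw [h, integral_add_measure ((hint μa hμa).smul_measure h4)
    ((hint μb hμb).smul_measure h34), integral_smul_measure, integral_smul_measure,
    Complex.real_smul, Complex.real_smul]
  congr 2
  · simp
  · simp [ENNReal.toReal_div]

private theorem nc_young {q : ℕ} (hq : 2 ≤ q) {x y : ℝ} (hx : 0 ≤ x) (hy : 0 ≤ y) :
    q * (x * y ^ (q - 1)) ≤ x ^ q + ((q : ℝ) - 1) * y ^ q := by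
  rcases eq_or_lt_of_le hy with h | h
  · rw [← h, zero_pow (by omega), zero_pow (by omega)]
    simp only [mul_zero, add_zero]
    positivity
  · have h1 : -2 ≤ x / y - 1 := by
      have := div_nonneg hx hy
      linarith
    have h2 := one_add_mul_le_pow h1 q
    have h3 : 1 + (x / y - 1) = x / y := by ring
    rw [h3, div_pow, le_div_iff₀ (by positivity)] at h2
    have h4 : y ^ q = y * y ^ (q - 1) := by
      rw [← pow_succ']
      congr 1
      omega
    have h5 : (1 + (q : ℝ) * (x / y - 1)) * y ^ q =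
        q * (x * y ^ (q - 1)) - ((q : ℝ) - 1) * y ^ q := by
      have h6 : x / y * y ^ q = x * y ^ (q - 1) := by
        rw [h4]
        field_simp
      calc (1 + (q : ℝ) * (x / y - 1)) * y ^ q = q * (x / y * y ^ q) - ((q : ℝ) - 1) * y ^ q := by
            ring
        _ = _ := by rw [h6]
    linarith

private theorem PC_bound {q : ℕ} (hq : 2 ≤ q) (f g : XC n) :
    q * ‖PC hq f g‖ ≤ (∫ x, ‖(g : V n → ℂ) x‖ ^ q) +
      ((q : ℝ) - 1) * ∫ x, ‖(f : V n → ℂ) x‖ ^ q := by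
  have hg := NiceC.pow_int g.2 (q := q) (by omega)
  have hf := NiceC.pow_int f.2 (q := q) (by omega)
  have h1 : ‖PC hq f g‖ ≤ ∫ x, ‖(g : V n → ℂ) x‖ * ‖(f : V n → ℂ) x‖ ^ (q - 1) := by
    rw [PC_apply]
    refine (norm_integral_le_integral_norm _).trans (le_of_eq ?_)
    refine integral_congr_ae (Filter.Eventually.of_forall fun x => ?_)
    show ‖(g : V n → ℂ) x * conj (Jq q ((f : V n → ℂ) x))‖ =
      ‖(g : V n → ℂ) x‖ * ‖(f : V n → ℂ) x‖ ^ (q - 1)
    rw [norm_mul, RCLike.norm_conj, norm_Jq hq]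
  have h2 : q * ∫ x, ‖(g : V n → ℂ) x‖ * ‖(f : V n → ℂ) x‖ ^ (q - 1) ≤
      ∫ x, (‖(g : V n → ℂ) x‖ ^ q + ((q : ℝ) - 1) * ‖(f : V n → ℂ) x‖ ^ q) := by
    rw [← integral_const_mul]
    have hi : Integrable fun x => ‖(g : V n → ℂ) x‖ * ‖(f : V n → ℂ) x‖ ^ (q - 1) := by
      have h3 := (NiceC.mul g.2 (NiceC.conj (NiceC.J f.2 hq))).int.norm
      refine h3.congr (Filter.Eventually.of_forall fun x => ?_)
      show ‖(g : V n → ℂ) x * conj (Jq q ((f : V n → ℂ) x))‖ =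
        ‖(g : V n → ℂ) x‖ * ‖(f : V n → ℂ) x‖ ^ (q - 1)
      rw [norm_mul, RCLike.norm_conj, norm_Jq hq]
    refine integral_mono (hi.const_mul _) (hg.add (hf.const_mul _)) fun x => ?_
    exact nc_young hq (norm_nonneg _) (norm_nonneg _)
  rw [integral_add hg (hf.const_mul _), integral_const_mul] at h2
  have h3 : (q : ℝ) * ‖PC hq f g‖ ≤
      q * ∫ x, ‖(g : V n → ℂ) x‖ * ‖(f : V n → ℂ) x‖ ^ (q - 1) :=
    mul_le_mul_of_nonneg_left h1 (Nat.cast_nonneg _)
  linarith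

private theorem NC_mono {q : ℕ} (hq : 1 ≤ q) (f g : XC n)
    (h : ∫ x, ‖(f : V n → ℂ) x‖ ^ q ≤ ∫ x, ‖(g : V n → ℂ) x‖ ^ q) :
    NC n hq f ≤ NC n hq g := by
  have hq0 : (q : ℝ≥0∞) ≠ 0 := by
    have : q ≠ 0 := by omega
    exact_mod_cast this
  have key : ∀ u : XC n, NC n hq u =
      (∫ x, ‖(u : V n → ℂ) x‖ ^ q) ^ ((q : ℝ)⁻¹) := by
    intro u
    rw [NC_apply, (nc_memLp u.2 hq).eLpNorm_eq_integral_rpow_norm hq0 (ENNReal.natCast_ne_top q),
      ENNReal.toReal_natCast, ENNReal.toReal_ofReal]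
    · congr 1
      refine integral_congr_ae (Filter.Eventually.of_forall fun x => ?_)
      exact Real.rpow_natCast _ _
    · refine Real.rpow_nonneg (integral_nonneg fun x => ?_) _
      exact Real.rpow_nonneg (norm_nonneg _) _
  rw [key, key]
  refine Real.rpow_le_rpow (integral_nonneg fun x => ?_) h (by positivity)
  exact pow_nonneg (norm_nonneg _) _

private theorem re_ge {q : ℕ} (hq : 2 ≤ q) {z w : ℂ} {c : ℝ} (hc : |c| ≤ 1)
    (hz : ‖z‖ ≤ 1 / (2 * ((q : ℝ) - 1))) (hw : ‖w‖ ≤ 2 * ((q : ℝ) - 1) * w.re) :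
    (z * ((c : ℂ) * w)).re ≤ w.re := by
  have hq1 : (0 : ℝ) < (q : ℝ) - 1 := by
    have : (2 : ℝ) ≤ q := by exact_mod_cast hq
    linarith
  have h1 : (z * ((c : ℂ) * w)).re ≤ ‖z * ((c : ℂ) * w)‖ := Complex.re_le_norm _
  have h2 : ‖z * ((c : ℂ) * w)‖ ≤ 1 / (2 * ((q : ℝ) - 1)) * (1 * ‖w‖) := by
    rw [norm_mul, norm_mul, Complex.norm_real, Real.norm_eq_abs]
    refine mul_le_mul hz ?_ (by positivity) (by positivity)
    exact mul_le_mul_of_nonneg_right hc (norm_nonneg _)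
  have h3 : 1 / (2 * ((q : ℝ) - 1)) * (1 * ‖w‖) ≤
      1 / (2 * ((q : ℝ) - 1)) * (2 * ((q : ℝ) - 1) * w.re) := by
    rw [one_mul]
    exact mul_le_mul_of_nonneg_left hw (by positivity)
  have h4 : 1 / (2 * ((q : ℝ) - 1)) * (2 * ((q : ℝ) - 1) * w.re) = w.re := by
    field_simp
  linarith

private theorem NC_dis {q : ℕ} (hq : 2 ≤ q) {μ μa : Fin n → Measure (V n)} (hμ : Dm μ μa)
    {c : Fin n → ℝ} (hc : ∀ i, |c i| ≤ 1) {h : ℝ} (hh : 0 ≤ h) {z : ℂ}
    (hz : ‖z‖ ≤ 1 / (2 * ((q : ℝ) - 1))) (f : XC n) :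
    NC n (by omega : 1 ≤ q) f ≤ NC n (by omega : 1 ≤ q)
      (f - (h : ℂ) • (AC hμ.1 f + z • BC hμ.2.1 c f)) := by
  obtain ⟨hμ1, hμ2, μb, hμb, hmix⟩ := hμ
  have hq1 : (0 : ℝ) < (q : ℝ) - 1 := by
    have : (2 : ℝ) ≤ q := by exact_mod_cast hq
    linarith
  -- the real part of the pairing is not positive
  have hneg : (PC hq f (AC hμ1 f + z • BC hμ2 c f)).re ≤ 0 := by
    have h1 : PC hq f (AC hμ1 f + z • BC hμ2 c f) =
        ∑ i, (-(PC hq f ((1 - KC (hμ1 i).prob) f)) +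
          (1 / 4 : ℂ) * (z * ((c i : ℂ) * PC hq f ((1 - KC (hμ2 i).prob) f)))) := by
      rw [map_add, map_smul, AC_eq, BC_eq, map_neg, map_sum, map_smul, map_sum,
        Finset.sum_add_distrib, Finset.sum_neg_distrib]
      congr 1
      rw [smul_eq_mul, smul_eq_mul, Finset.mul_sum, Finset.mul_sum]
      refine Finset.sum_congr rfl fun i _ => ?_
      rw [map_smul, smul_eq_mul]
      ring
    rw [h1, Complex.re_sum]
    refine Finset.sum_nonpos fun i _ => ?_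
    have h2 : PC hq f ((1 - KC (hμ1 i).prob) f) =
        (1 / 4 : ℂ) * PC hq f ((1 - KC (hμ2 i).prob) f) +
        (3 / 4 : ℂ) * PC hq f ((1 - KC (hμb i).prob) f) := by
      have e1 : (1 - KC (hμ1 i).prob) f = f - KC (hμ1 i).prob f := rfl
      have e2 : (1 - KC (hμ2 i).prob) f = f - KC (hμ2 i).prob f := rfl
      have e3 : (1 - KC (hμb i).prob) f = f - KC (hμb i).prob f := rfl
      rw [e1, e2, e3, KC_mix (hμ1 i).prob (hμ2 i).prob (hμb i).prob (hmix i) f, map_sub, map_sub,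
        map_sub, map_add, map_smul, map_smul, smul_eq_mul, smul_eq_mul]
      ring
    have h3 := PC_dis hq (hμ2 i) f
    have h4 := PC_dis hq (hμb i) f
    have h5 := re_ge hq (hc i) hz h3
    have h6 : 0 ≤ (PC hq f ((1 - KC (hμb i).prob) f)).re := by
      have h7 := (norm_nonneg _).trans h4
      by_contra hcon
      have h8 := mul_neg_of_pos_of_neg (mul_pos two_pos hq1) (not_le.1 hcon)
      linarith
    rw [h2]
    generalize PC hq f ((1 - KC (hμ2 i).prob) f) = wa at *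
    generalize PC hq f ((1 - KC (hμb i).prob) f) = wb at *
    have e4 : (-((1 / 4 : ℂ) * wa + (3 / 4 : ℂ) * wb) + (1 / 4 : ℂ) * (z * ((c i : ℂ) * wa))) =
        ((1 / 4 : ℝ) : ℂ) * (z * ((c i : ℂ) * wa)) - ((1 / 4 : ℝ) : ℂ) * wa -
          ((3 / 4 : ℝ) : ℂ) * wb := by
      push_cast
      ring
    rw [e4, Complex.sub_re, Complex.sub_re, Complex.re_ofReal_mul, Complex.re_ofReal_mul,
      Complex.re_ofReal_mul]
    linarith
  have hge : ∫ x, ‖(f : V n → ℂ) x‖ ^ q ≤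
      (PC hq f (f - (h : ℂ) • (AC hμ1 f + z • BC hμ2 c f))).re := by
    rw [map_sub, map_smul, smul_eq_mul, PC_self, Complex.sub_re, Complex.ofReal_re,
      Complex.re_ofReal_mul]
    have := mul_nonneg hh (neg_nonneg.2 hneg)
    linarith
  refine NC_mono _ _ _ ?_
  have h2 := PC_bound hq f (f - (h : ℂ) • (AC hμ1 f + z • BC hμ2 c f))
  have h3 := Complex.re_le_norm (PC hq f (f - (h : ℂ) • (AC hμ1 f + z • BC hμ2 c f)))
  have hq0 : (0 : ℝ) ≤ q := Nat.cast_nonneg _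
  have h4 := mul_le_mul_of_nonneg_left (hge.trans h3) hq0
  linarith

private theorem iter_cast {μ : Fin n → Measure (V n)} (hμ : ∀ i, SymP (μ i)) (h : ℝ)
    {f : V n → ℝ} (hf : Nice f) (m : ℕ) :
    (((fun g => g + (h : ℂ) • AC hμ g)^[m] (⟨fun x => (f x : ℂ), niceC_ofReal hf⟩ : XC n) :
      XC n) : V n → ℂ) = fun x => (((Mg μ h)^[m] f x : ℝ) : ℂ) := by
  induction m with
  | zero => rfl
  | succ m ih =>
    rw [Function.iterate_succ_apply', Function.iterate_succ_apply']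
    generalize (fun g => g + (h : ℂ) • AC hμ g)^[m]
      (⟨fun x => (f x : ℂ), niceC_ofReal hf⟩ : XC n) = G at ih ⊢
    funext x
    show (G : V n → ℂ) x + (h : ℂ) * ((AC hμ G : XC n) : V n → ℂ) x = _
    have h1 : ((AC hμ G : XC n) : V n → ℂ) x =
        -∑ i, ((G : V n → ℂ) x - UB.cvc (μ i) G x) := by
      rw [AC_eq]
      show (-(((∑ i, (1 - KC (hμ i).prob) G : XC n) : V n → ℂ))) x = _
      rw [Submodule.coe_sum, Pi.neg_apply, Finset.sum_apply]
      rfl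
    rw [h1, ih]
    have h2 : ∀ i, UB.cvc (μ i) (fun y => (((Mg μ h)^[m] f y : ℝ) : ℂ)) x =
        (cv (μ i) ((Mg μ h)^[m] f) x : ℂ) := fun i => cvc_ofReal _ x
    simp only [h2]
    unfold Mg om
    push_cast
    ring

private theorem exp_bd {n k : ℕ} {h : ℝ} (hh : 0 < h) (hk : 24 * n ^ 2 ≤ k) (hkh : k * h ≤ 1) :
    (1 + (4 * (n : ℝ)) ^ 2 * h ^ 2) ^ k ≤ 2 := by
  have hk' : 24 * (n : ℝ) ^ 2 ≤ k := by exact_mod_cast hk
  have h1 : (1 + (4 * (n : ℝ)) ^ 2 * h ^ 2) ^ k ≤ Real.exp ((4 * (n : ℝ)) ^ 2 * h ^ 2) ^ k := by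
    refine pow_le_pow_left₀ (by positivity) ?_ _
    have := Real.add_one_le_exp ((4 * (n : ℝ)) ^ 2 * h ^ 2)
    linarith
  have h2 : Real.exp ((4 * (n : ℝ)) ^ 2 * h ^ 2) ^ k =
      Real.exp (k * ((4 * (n : ℝ)) ^ 2 * h ^ 2)) := by rw [Real.exp_nat_mul]
  have h3 : (k : ℝ) * ((4 * (n : ℝ)) ^ 2 * h ^ 2) ≤ 2 / 3 := by
    have h4 : (k : ℝ) * ((4 * (n : ℝ)) ^ 2 * h ^ 2) =
        2 / 3 * ((24 * (n : ℝ) ^ 2 * h) * (k * h)) := by ring
    have h5 : 24 * (n : ℝ) ^ 2 * h ≤ 1 := by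
      have := mul_le_mul_of_nonneg_right hk' hh.le
      linarith
    have h6 : (24 * (n : ℝ) ^ 2 * h) * (k * h) ≤ 1 * 1 :=
      mul_le_mul h5 hkh (by positivity) (by norm_num)
    rw [h4]
    linarith
  have h4 : Real.exp (2 / 3) ≤ 2 := by
    rw [← Real.le_log_iff_exp_le (by norm_num)]
    have := Real.log_two_gt_d9
    linarith
  rw [h2] at h1
  exact h1.trans ((Real.exp_le_exp.2 h3).trans h4)

theorem coef {q : ℕ} (hq : 2 ≤ q) {μ μa : Fin n → Measure (V n)} (hμ : Dm μ μa) {c : Fin n → ℝ}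
    (hc : ∀ i, |c i| ≤ 1) {h : ℝ} {k : ℕ} (hh : 0 < h) (hk1 : 1 ≤ k) (hk : 24 * n ^ 2 ≤ k)
    (hkh : k * h ≤ 1) {f : V n → ℝ} (hf : Nice f) :
    nm q (fun x => ∑ i, c i * om (cv (μa i)) ((Mg μ h)^[k - 1] f) x) ≤
      ENNReal.ofReal (16 * ((q : ℝ) - 1) / (k * h)) * nm q f := by
  have hq1 : 1 ≤ q := by omega
  have hqr : (2 : ℝ) ≤ q := by exact_mod_cast hq
  have hq0 : (0 : ℝ) < (q : ℝ) - 1 := by linarith
  have hr : 1 / (2 * ((q : ℝ) - 1)) ≤ 1 / 2 := by
    apply one_div_le_one_div_of_le (by norm_num)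
    linarith
  have key := absC (NC n hq1) (AC hμ.1) (BC hμ.2.1 c)
    (fun f => LinearMap.congr_fun (AC_BC_comm hμ.1 hμ.2.1 c).eq f)
    (r := 1 / (2 * ((q : ℝ) - 1))) (h := h) (a := 4 * n) (k := k) (by positivity) hh.le
    (by positivity) hk1 (fun z hz g => NC_AB hq1 hμ.1 hμ.2.1 hc (hz.trans hr) g)
    (fun z hz g => NC_dis hq hμ hc hh.le hz g)
    (⟨fun x => (f x : ℂ), niceC_ofReal hf⟩ : XC n)
  have hit := iter_cast hμ.1 h hf (k - 1)
  generalize hG : (fun g => g + (h : ℂ) • AC hμ.1 g)^[k - 1]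
      (⟨fun x => (f x : ℂ), niceC_ofReal hf⟩ : XC n) = G at key hit
  obtain ⟨S, hS⟩ : ∃ S : XC n, S = (4 : ℂ) • BC hμ.2.1 c G := ⟨_, rfl⟩
  have hSx : ∀ x, (S : V n → ℂ) x =
      ((∑ i, c i * om (cv (μa i)) ((Mg μ h)^[k - 1] f) x : ℝ) : ℂ) := by
    intro x
    have h0 : S = ∑ i, (c i : ℂ) • (1 - KC (hμ.2.1 i).prob) G := by
      rw [hS, BC_eq, smul_smul]
      norm_num
    rw [h0, Submodule.coe_sum, Finset.sum_apply, Complex.ofReal_sum]
    refine Finset.sum_congr rfl fun i _ => ?_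
    show (c i : ℂ) * ((G : V n → ℂ) x - UB.cvc (μa i) G x) = _
    have h1 : UB.cvc (μa i) (G : V n → ℂ) x = (cv (μa i) ((Mg μ h)^[k - 1] f) x : ℂ) := by
      rw [hit]
      exact cvc_ofReal _ x
    rw [h1, hit]
    unfold om
    push_cast
    ring
  have hNS : NC n hq1 S = 4 * NC n hq1 (BC hμ.2.1 c G) := by
    rw [hS, map_smul_eq_mul]
    norm_num
  have hnmS : nm q (fun x => ∑ i, c i * om (cv (μa i)) ((Mg μ h)^[k - 1] f) x) =
      eLpNorm (S : V n → ℂ) q volume := by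
    refine eLpNorm_congr_norm_ae (Filter.Eventually.of_forall fun x => ?_)
    show ‖∑ i, c i * om (cv (μa i)) ((Mg μ h)^[k - 1] f) x‖ = ‖(S : V n → ℂ) x‖
    rw [hSx, Complex.norm_real]
  have hnmf : nm q f = eLpNorm (fun x => (f x : ℂ)) q volume := by
    refine eLpNorm_congr_norm_ae (Filter.Eventually.of_forall fun x => ?_)
    show ‖f x‖ = ‖(f x : ℂ)‖
    rw [Complex.norm_real]
  have hft : eLpNorm (fun x => (f x : ℂ)) q (volume : Measure (V n)) ≠ ⊤ :=
    (nc_memLp (niceC_ofReal hf) hq1).2.ne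
  have hSt : eLpNorm (S : V n → ℂ) q volume ≠ ⊤ := (nc_memLp S.2 hq1).2.ne
  have hkp : (0 : ℝ) < k := by exact_mod_cast hk1
  have hfin : (eLpNorm (S : V n → ℂ) q volume).toReal ≤ 16 * ((q : ℝ) - 1) / (k * h) *
      (eLpNorm (fun x => (f x : ℂ)) q (volume : Measure (V n))).toReal := by
    have e1 : (eLpNorm (S : V n → ℂ) q volume).toReal = 4 * NC n hq1 (BC hμ.2.1 c G) := by
      rw [← hNS]
      rfl
    rw [e1]
    have e2 : NC n hq1 (⟨fun x => (f x : ℂ), niceC_ofReal hf⟩ : XC n) =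
      (eLpNorm (fun x => (f x : ℂ)) q (volume : Measure (V n))).toReal := rfl
    rw [← e2]
    have hN0 : 0 ≤ NC n hq1 (⟨fun x => (f x : ℂ), niceC_ofReal hf⟩ : XC n) := apply_nonneg _ _
    generalize NC n hq1 (⟨fun x => (f x : ℂ), niceC_ofReal hf⟩ : XC n) = Nf at key hN0
    generalize NC n hq1 (BC hμ.2.1 c G) = Nb at key
    have h1 := exp_bd hh hk hkh
    have h2 : (1 + (4 * (n : ℝ)) ^ 2 * h ^ 2) ^ k / (1 / (2 * ((q : ℝ) - 1))) * Nf ≤
        2 / (1 / (2 * ((q : ℝ) - 1))) * Nf := by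
      refine mul_le_mul_of_nonneg_right ?_ hN0
      exact div_le_div_of_nonneg_right h1 (by positivity)
    have h3 : 2 / (1 / (2 * ((q : ℝ) - 1))) = 4 * ((q : ℝ) - 1) := by
      field_simp
      ring
    rw [h3] at h2
    have h4 := key.trans h2
    have h5 : 16 * ((q : ℝ) - 1) / (k * h) * Nf = 16 * ((q : ℝ) - 1) * Nf / (k * h) := by ring
    rw [h5, le_div_iff₀ (by positivity)]
    linarith
  rw [hnmS, hnmf, ← ENNReal.ofReal_toReal hSt, ← ENNReal.ofReal_toReal hft,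
    ← ENNReal.ofReal_mul (by positivity)]
  exact ENNReal.ofReal_le_ofReal hfin

end Pool.Agent.UB
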