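import Pool.Agent.CB.Plan
import Pool.Agent.CB.Interp
import Pool.Agent.CB.Gauss

/-!
# Project UB (MP_84a211_an): dimension-free maximal inequalities for all unconditional bodies

Paper proof: `/team-store/unc_proof.md`.  `V n` is Euclidean space, `Nice` = continuous, bounded, integrable real functions,
`cv μ f x = ∫ f (x + y) dμ(y)`, `IsMul τ f g` = `g` is obtained from `f` by the multiplier `τ` (file `CB/Defs.lean`).
All constants must be independent of `n`, of the body and of the parameters named in the statements.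
-/

set_option autoImplicit false

open MeasureTheory Set
open scoped ENNReal NNReal

namespace Pool.Agent.UB

open Pool.Agent.CB

/-- The norm of `L^q`. -/
noncomputable abbrev nm {n : ℕ} (q : ℝ≥0∞) (f : V n → ℝ) : ℝ≥0∞ :=
  eLpNorm f q (volume : Measure (V n))

/-- `T` maps nice functions to nice functions and has the (real) symbol `τ`. -/
structure Mul {n : ℕ} (τ : V n → ℝ) (T : (V n → ℝ) → V n → ℝ) : Prop where
  nice : ∀ f, Nice f → Nice (T f)
  mul : ∀ f, Nice f → IsMul τ f (T f)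

/-- `T` has norm at most `C` on `L^q` (on nice functions). -/
def Bq {n : ℕ} (q : ℝ≥0∞) (C : ℝ) (T : (V n → ℝ) → V n → ℝ) : Prop :=
  ∀ f, Nice f → nm q (T f) ≤ ENNReal.ofReal C * nm q f

/-- A multiplier operator with norm at most `C` on all `L^q`, `1 ≤ q ≤ ∞`. -/
structure Opr {n : ℕ} (τ : V n → ℝ) (C : ℝ) (T : (V n → ℝ) → V n → ℝ) : Prop
    extends Mul τ T where
  nonneg : 0 ≤ C
  bd : ∀ q : ℝ≥0∞, 1 ≤ q → Bq q C T

/-- `1 - T`. -/
def om {n : ℕ} (T : (V n → ℝ) → V n → ℝ) (f : V n → ℝ) (x : V n) : ℝ := f x - T f x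

/-- Pointwise `ℓ²` norm of a family. -/
noncomputable def sqf {m n : ℕ} (v : Fin m → V n → ℝ) (x : V n) : ℝ := Real.sqrt (∑ i, v i x ^ 2)

/-- Pointwise `ℓ¹` norm of a family. -/
noncomputable def l1f {m n : ℕ} (v : Fin m → V n → ℝ) (x : V n) : ℝ := ∑ i, |v i x|

/-- The norm of `(v i) ↦ (T i (v i))` on `L^q(ℓ²)` is at most `C`. -/
def VB {m n : ℕ} (q : ℝ≥0∞) (C : ℝ) (T : Fin m → (V n → ℝ) → V n → ℝ) : Prop :=
  ∀ v : Fin m → V n → ℝ, (∀ i, Nice (v i)) →
    nm q (sqf fun i => T i (v i)) ≤ ENNReal.ofReal C * nm q (sqf v)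

/-- The norm of `(v i) ↦ ∑ T i (v i)` from `L^q(ℓ¹)` to `L^q` is at most `C`. -/
def KB {m n : ℕ} (q : ℝ≥0∞) (C : ℝ) (T : Fin m → (V n → ℝ) → V n → ℝ) : Prop :=
  ∀ v : Fin m → V n → ℝ, (∀ i, Nice (v i)) →
    nm q (fun x => ∑ i, T i (v i) x) ≤ ENNReal.ofReal C * nm q (l1f v)

/-- Average with the weight `w`. -/
noncomputable def kv {n : ℕ} (μ : Measure (V n)) (w : V n → ℝ) (f : V n → ℝ) (x : V n) : ℝ :=
  ∫ y, w y * f (x + y) ∂μ

/-- `1 - h ∑ (1 - μ_i)`. -/
noncomputable def Mg {n : ℕ} (μ : Fin n → Measure (V n)) (h : ℝ) (f : V n → ℝ) (x : V n) : ℝ :=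
  f x - h * ∑ i, om (cv (μ i)) f x

/-- `μ i` contains a quarter of `μa i`. -/
def Dm {n : ℕ} (μ μa : Fin n → Measure (V n)) : Prop :=
  (∀ i, SymP (μ i)) ∧ (∀ i, SymP (μa i)) ∧ ∃ μb : Fin n → Measure (V n),
    (∀ i, SymP (μb i)) ∧ ∀ i, μ i = (1 / 4 : ℝ≥0∞) • μa i + (3 / 4 : ℝ≥0∞) • μb i

/-- Symmetric probability measures on the line. -/
structure SymR (κ : Measure ℝ) : Prop where
  prob : IsProbabilityMeasure κ
  symm : κ.map (fun s => -s) = κ

/-- The unit vectors. -/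
noncomputable def bv {n : ℕ} (i : Fin n) : V n := EuclideanSpace.single i (1 : ℝ)

/-- The measure `κ` on the axis in the direction `i`. -/
noncomputable def dm {n : ℕ} (κ : Measure ℝ) (i : Fin n) : Measure (V n) :=
  κ.map (fun s => s • bv i)

/-- The Fourier transform of a symmetric measure on the line. -/
noncomputable def cs (κ : Measure ℝ) (t : ℝ) : ℝ := ∫ s, Real.cos (t * s) ∂κ

/-- The Laplace distribution. -/
noncomputable def lap : Measure ℝ :=
  volume.withDensity fun s => ENNReal.ofReal (Real.exp (-|s|) / 2)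

/-- The uniform distribution on `[-r, r]`. -/
noncomputable def uni (r : ℝ) : Measure ℝ :=
  (ENNReal.ofReal (2 * r))⁻¹ • (volume : Measure ℝ).restrict (Icc (-r) r)

/-- The distribution with the density `(3/2) (r - |s|)² / r³` on `[-r, r]`. -/
noncomputable def tht (r : ℝ) : Measure ℝ :=
  volume.withDensity fun s => ENNReal.ofReal (3 / 2 * max (r - |s|) 0 ^ 2 / r ^ 3)

/-- The convolution of `tht r` and `lap`. -/
noncomputable def thl (r : ℝ) : Measure ℝ := ((tht r).prod lap).map fun z => z.1 + z.2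

/-- The average of the four distributions. -/
noncomputable def kap (r : ℝ) : Measure ℝ :=
  (1 / 4 : ℝ≥0∞) • (lap + uni r + tht r + thl r)

/-- `∑ min (1, ξ_j²)`. -/
noncomputable def Am {n : ℕ} (ξ : V n) : ℝ := ∑ j, min 1 (ξ j ^ 2)

/-- Unconditional bodies. -/
structure Unc {n : ℕ} (K : Set (V n)) : Prop where
  compact : IsCompact K
  convex : Convex ℝ K
  nonempty : (interior K).Nonempty
  unc : ∀ y ∈ K, ∀ z : V n, (∀ i, |z i| = |y i|) → z ∈ K

/-- Normalised unconditional bodies: the median of every `|y_i|` is `1`. -/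
structure NUnc {n : ℕ} (K : Set (V n)) : Prop extends Unc K where
  med : ∀ i, MX.unif K {y | 1 < |y i|} = 1 / 2

/-- `E ∏ |cos (ξ_j Y_j)|`. -/
noncomputable def Phi {n : ℕ} (K : Set (V n)) (ξ : V n) : ℝ :=
  ∫ y, ∏ j, |Real.cos (ξ j * y j)| ∂(MX.unif K)

/-- Half the length of the chord of `K` through `y` in the direction `i`. -/
noncomputable def hl {n : ℕ} (K : Set (V n)) (i : Fin n) (y : V n) : ℝ :=
  (volume {s : ℝ | y + s • bv i ∈ K}).toReal / 2

/-- Classes of chords. -/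
def Ib (b : ℕ) : Set ℝ := if b = 0 then Ioi (1 / 2) else Ioc ((1 / 2) ^ (b + 1)) ((1 / 2) ^ b)

open Classical in
/-- The weight of points close to the ends of the chords of class `b`. -/
noncomputable def wt {n : ℕ} (K : Set (V n)) (b : ℕ) (θ : ℝ) (i : Fin n) (y : V n) : ℝ :=
  if hl K i y ∈ Ib b ∧ hl K i y - |y i| < θ then θ⁻¹ else 0

/-- The difference of two weights. -/
noncomputable def wd {n : ℕ} (K : Set (V n)) (b : ℕ) (θ : ℝ) (i : Fin n) (y : V n) : ℝ :=
  wt K b (θ / 2) i y - wt K b θ i y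

/-- The second primitive. -/
noncomputable def Ef (θ u : ℝ) : ℝ :=
  if u < 0 then 0 else if u < θ / 2 then -(θ⁻¹ * (u ^ 2 / 2))
  else if u < θ then -(θ⁻¹ * (θ ^ 2 / 4 - (θ - u) ^ 2 / 2)) else -(θ / 4)

open Classical in
/-- The weight with `wd^ = ξ_i² we^`. -/
noncomputable def we {n : ℕ} (K : Set (V n)) (b : ℕ) (θ : ℝ) (i : Fin n) (y : V n) : ℝ :=
  if hl K i y ∈ Ib b then Ef θ (hl K i y - |y i|) else 0

open Classical in
/-- The weight of short chords. -/
noncomputable def ws {n : ℕ} (K : Set (V n)) (r : ℝ) (i : Fin n) (y : V n) : ℝ :=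
  if hl K i y ≤ r then r⁻¹ else 0

/-- The signs. -/
def sg (b : Bool) : ℝ := if b then 1 else -1

/-- The derivative of `|a|^q / q`. -/
noncomputable def Jq (q : ℕ) (a : ℂ) : ℂ := ((‖a‖ ^ (q - 2) : ℝ) : ℂ) * a

/-- Complex nice functions. -/
structure NiceC {n : ℕ} (f : V n → ℂ) : Prop where
  cont : Continuous f
  bdd : ∃ C, ∀ x, ‖f x‖ ≤ C
  int : Integrable f volume

/-- Averages of complex functions. -/
noncomputable def cvc {n : ℕ} (μ : Measure (V n)) (f : V n → ℂ) (x : V n) : ℂ :=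
  ∫ y, f (x + y) ∂μ

/-- The Gaussian average of scale `a`. -/
noncomputable def Ga {n : ℕ} (a : ℝ) (f : V n → ℝ) : V n → ℝ := cv (dil a (gam n)) f

/-- `(1 - G_a)^N`. -/
noncomputable def Qa {n : ℕ} (a : ℝ) (N : ℕ) (f : V n → ℝ) : V n → ℝ := (om (Ga a))^[N] f

/-- The parameters: `λ = N^(-γ)`, `k = 24 n² + 1`, `h = λ / k`. -/
def kk (n : ℕ) : ℕ := 24 * n ^ 2 + 1

noncomputable def hh (n : ℕ) (lam : ℝ) : ℝ := lam / kk n

/-- The smoothing operator `M`. -/
noncomputable def Mo {n : ℕ} (r lam : ℝ) (f : V n → ℝ) : V n → ℝ :=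
  Mg (fun i => dm (kap r) i) (hh n lam) f

/-- The smoothing operator `S = M^(2k)`. -/
noncomputable def So {n : ℕ} (r lam : ℝ) (f : V n → ℝ) : V n → ℝ := (Mo r lam)^[2 * kk n] f

/-- The symbol of `M`. -/
noncomputable def ms {n : ℕ} (r lam : ℝ) (ξ : V n) : ℝ :=
  1 - hh n lam * ∑ i, (1 - cs (kap r) (ξ i))

/-- The symbol of `S`. -/
noncomputable def ss {n : ℕ} (r lam : ℝ) (ξ : V n) : ℝ := ms r lam ξ ^ (2 * kk n)

/-- Auxiliary class: everything needed about the body `K` (proved for `NUnc K`, constants `c` given). -/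
structure Geo {n : ℕ} (c : ℕ → ℝ) (K : Set (V n)) : Prop extends Unc K where
  mass : ∀ (i : Fin n) (h : ℝ), 0 ≤ h → (MX.unif K).real {y | hl K i y ≤ h} ≤ c 0 * h ^ 2
  dec : ∀ (l : ℕ) (ξ : V n), Phi K ξ * (1 + Am ξ) ^ l ≤ c l
  mom : ∀ (l : ℕ) (ξ : V n), ∫ y, |inner ℝ ξ y| ^ l ∂(MX.unif K) ≤ c l * ‖ξ‖ ^ l

end Pool.Agent.UB
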