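import Pool.Agent.UB.OprA

/-!
# UB-Norms: elementary facts on norms of families

Monotonicity, subadditivity and homogeneity of the norms, niceness of the pointwise `ℓ²` and `ℓ¹` norms of a family, and
Minkowski's inequality for the averages (by duality: `∑ a_i ∫ g_i = ∫ ∑ a_i g_i ≤ |a| ∫ |g|` with `a_i = ∫ g_i`).
-/

set_option autoImplicit false

open MeasureTheory Set
open scoped ENNReal NNReal

namespace Pool.Agent.UB

open Pool.Agent.CB

variable {m n : ℕ}

private theorem meas {f : V n → ℝ} (hf : Nice f) :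
    AEStronglyMeasurable f (volume : Measure (V n)) := hf.cont.aestronglyMeasurable

private theorem nice_dom {f g : V n → ℝ} (hf : Nice f) (hg : Continuous g)
    (h : ∀ x, |g x| ≤ |f x|) : Nice g := by
  obtain ⟨C, hC⟩ := hf.bdd
  refine ⟨hg, ⟨C, fun x => (h x).trans (hC x)⟩, ?_⟩
  refine hf.int.mono hg.aestronglyMeasurable (Filter.Eventually.of_forall fun x => ?_)
  simpa [Real.norm_eq_abs] using h x

private theorem sqf_nn (v : Fin m → V n → ℝ) (x : V n) : 0 ≤ sqf v x := Real.sqrt_nonneg _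

private theorem l1f_nn (v : Fin m → V n → ℝ) (x : V n) : 0 ≤ l1f v x :=
  Finset.sum_nonneg fun _ _ => abs_nonneg _

private theorem sqf_l1 (v : Fin m → V n → ℝ) (x : V n) : sqf v x ≤ l1f v x := by
  unfold sqf
  apply Real.sqrt_le_iff.mpr
  refine ⟨l1f_nn v x, ?_⟩
  have h1 : ∑ i, v i x ^ 2 = ∑ i, |v i x| ^ 2 :=
    Finset.sum_congr rfl fun i _ => (sq_abs _).symm
  rw [h1]
  unfold l1f
  rw [sq, Finset.sum_mul]
  refine Finset.sum_le_sum fun i _ => ?_
  rw [sq]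
  exact mul_le_mul_of_nonneg_left
    (Finset.single_le_sum (f := fun j => |v j x|) (fun j _ => abs_nonneg _) (Finset.mem_univ i))
    (abs_nonneg _)

private theorem nice_l1f_aux {v : Fin m → V n → ℝ} (hv : ∀ i, Nice (v i)) : Nice (l1f v) :=
  nice_sum Finset.univ fun i _ => (hv i).abs

theorem nm_mono {q : ℝ≥0∞} {f g : V n → ℝ} (h : ∀ x, |f x| ≤ g x) : nm q f ≤ nm q g := by
  exact eLpNorm_mono_real h

theorem nm_add_le {q : ℝ≥0∞} (hq : 1 ≤ q) {f g : V n → ℝ} (hf : Nice f) (hg : Nice g) :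
    nm q (fun x => f x + g x) ≤ nm q f + nm q g := by
  exact eLpNorm_add_le (meas hf) (meas hg) hq

theorem nm_sum_le {q : ℝ≥0∞} (hq : 1 ≤ q) {ι : Type} (s : Finset ι) {f : ι → V n → ℝ}
    (hf : ∀ i ∈ s, Nice (f i)) : nm q (fun x => ∑ i ∈ s, f i x) ≤ ∑ i ∈ s, nm q (f i) := by
  have h := eLpNorm_sum_le (μ := (volume : Measure (V n))) (fun i hi => meas (hf i hi)) hq
  have h2 : (fun x => ∑ i ∈ s, f i x) = ∑ i ∈ s, f i := by
    funext x
    rw [Finset.sum_apply]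
  rw [h2]
  exact h

theorem nm_smul {q : ℝ≥0∞} (c : ℝ) (f : V n → ℝ) :
    nm q (fun x => c * f x) = ENNReal.ofReal |c| * nm q f := by
  have h := eLpNorm_const_smul (μ := (volume : Measure (V n))) c f q
  have h2 : (fun x => c * f x) = c • f := rfl
  rw [h2, nm, h, Real.enorm_eq_ofReal_abs]

theorem nm_lt_top {q : ℝ≥0∞} (hq : 1 ≤ q) {f : V n → ℝ} (hf : Nice f) : nm q f < ⊤ := by
  exact (hf.memLp hq).2

theorem nice_sqf {v : Fin m → V n → ℝ} (hv : ∀ i, Nice (v i)) : Nice (sqf v) := by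
  have hc : Continuous (sqf v) := by
    unfold sqf
    exact Real.continuous_sqrt.comp
      (continuous_finsetSum _ fun i _ => (hv i).cont.pow 2)
  exact nice_dom (nice_l1f_aux hv) hc fun x => by
    rw [abs_of_nonneg (sqf_nn v x), abs_of_nonneg (l1f_nn v x)]
    exact sqf_l1 v x

theorem nice_l1f {v : Fin m → V n → ℝ} (hv : ∀ i, Nice (v i)) : Nice (l1f v) := by
  exact nice_l1f_aux hv

theorem nice_mul {f g : V n → ℝ} (hf : Nice f) (hg : Nice g) : Nice fun x => f x * g x := by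
  obtain ⟨C, hC⟩ := hf.bdd
  refine nice_dom (hg.const_mul C) (hf.cont.mul hg.cont) fun x => ?_
  rw [abs_mul, abs_mul]
  exact mul_le_mul_of_nonneg_right ((hC x).trans (le_abs_self C)) (abs_nonneg _)

theorem sqf_nonneg (v : Fin m → V n → ℝ) (x : V n) : 0 ≤ sqf v x := by
  exact sqf_nn v x

theorem sqf_le_l1f (v : Fin m → V n → ℝ) (x : V n) : sqf v x ≤ l1f v x := by
  exact sqf_l1 v x

theorem sqf_mono {v w : Fin m → V n → ℝ} {x : V n} (h : ∀ i, |v i x| ≤ |w i x|) :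
    sqf v x ≤ sqf w x := by
  apply Real.sqrt_le_sqrt
  refine Finset.sum_le_sum fun i _ => ?_
  exact sq_le_sq.mpr (h i)

theorem sqf_add (v w : Fin m → V n → ℝ) (x : V n) :
    sqf (fun i x => v i x + w i x) x ≤ sqf v x + sqf w x := by
  have h1 := Real.sum_mul_le_sqrt_mul_sqrt Finset.univ (fun i => v i x) (fun i => w i x)
  have hv0 : 0 ≤ ∑ i, v i x ^ 2 := Finset.sum_nonneg fun i _ => sq_nonneg _
  have hw0 : 0 ≤ ∑ i, w i x ^ 2 := Finset.sum_nonneg fun i _ => sq_nonneg _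
  unfold sqf
  apply Real.sqrt_le_iff.mpr
  refine ⟨add_nonneg (Real.sqrt_nonneg _) (Real.sqrt_nonneg _), ?_⟩
  rw [add_sq, Real.sq_sqrt hv0, Real.sq_sqrt hw0]
  have h2 : ∑ i, (v i x + w i x) ^ 2
      = ∑ i, v i x ^ 2 + 2 * ∑ i, v i x * w i x + ∑ i, w i x ^ 2 := by
    rw [Finset.mul_sum, ← Finset.sum_add_distrib, ← Finset.sum_add_distrib]
    exact Finset.sum_congr rfl fun i _ => by ring
  rw [h2]
  linarith

theorem sqf_abs (v : Fin m → V n → ℝ) : sqf (fun i x => |v i x|) = sqf v := by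
  funext x
  simp only [sqf, sq_abs]

theorem sqf_smul (c : ℝ) (v : Fin m → V n → ℝ) (x : V n) :
    sqf (fun i x => c * v i x) x = |c| * sqf v x := by
  unfold sqf
  have h2 : ∑ i, (c * v i x) ^ 2 = c ^ 2 * ∑ i, v i x ^ 2 := by
    rw [Finset.mul_sum]
    exact Finset.sum_congr rfl fun i _ => by ring
  rw [h2, Real.sqrt_mul (sq_nonneg c), Real.sqrt_sq_eq_abs]

theorem sqf_cv {μ : Measure (V n)} [IsProbabilityMeasure μ] {v : Fin m → V n → ℝ}
    (hv : ∀ i, Nice (v i)) (x : V n) :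
    sqf (fun i => cv μ fun y => |v i y|) x ≤ cv μ (sqf v) x := by
  set a : Fin m → ℝ := fun i => cv μ (fun y => |v i y|) x with ha
  have hS : sqf (fun i => cv μ fun y => |v i y|) x = Real.sqrt (∑ i, a i ^ 2) := rfl
  rw [hS]
  set S := Real.sqrt (∑ i, a i ^ 2) with hSd
  have hS0 : 0 ≤ S := Real.sqrt_nonneg _
  have hSS : S * S = ∑ i, a i ^ 2 :=
    Real.mul_self_sqrt (Finset.sum_nonneg fun i _ => sq_nonneg _)
  have hns : Nice (sqf v) := nice_sqf hv
  have hcv0 : 0 ≤ cv μ (sqf v) x := cv_nonneg (fun y => sqf_nn v y) x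
  have h1 : ∑ i, a i ^ 2 ≤ S * cv μ (sqf v) x := by
    have e1 : ∑ i, a i ^ 2 = ∫ y, ∑ i, a i * |v i (x + y)| ∂μ := by
      rw [integral_finsetSum _ fun i _ => (cv_integrable (hv i).abs x).const_mul (a i)]
      refine Finset.sum_congr rfl fun i _ => ?_
      rw [integral_const_mul, sq]
      rfl
    have e2 : S * cv μ (sqf v) x = ∫ y, S * sqf v (x + y) ∂μ := by
      rw [integral_const_mul]
      rfl
    rw [e1, e2]
    refine integral_mono ?_ ?_ fun y => ?_
    · exact integrable_finsetSum _ fun i _ => (cv_integrable (hv i).abs x).const_mul (a i)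
    · exact (cv_integrable hns x).const_mul S
    · have h3 := Real.sum_mul_le_sqrt_mul_sqrt Finset.univ a (fun i => |v i (x + y)|)
      simp only [sq_abs] at h3
      exact h3
  rcases hS0.eq_or_lt with h0 | h0
  · rw [← h0]
    exact hcv0
  · rw [← hSS] at h1
    exact le_of_mul_le_mul_left h1 h0

/-- `‖f²‖_q = ‖f‖_{2q}²`. -/
theorem nm_sq {q : ℕ} (hq : 1 ≤ q) (f : V n → ℝ) :
    nm (q : ℝ≥0∞) (fun x => f x ^ 2) = nm ((2 * q : ℕ) : ℝ≥0∞) f ^ 2 := by
  have h := eLpNorm_norm_rpow (p := (q : ℝ≥0∞)) (μ := (volume : Measure (V n))) f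
    (q := (2 : ℝ)) two_pos
  have h1 : (fun x => ‖f x‖ ^ (2 : ℝ)) = fun x => f x ^ 2 := by
    funext x
    rw [Real.rpow_two, Real.norm_eq_abs, sq_abs]
  have h2 : (q : ℝ≥0∞) * ENNReal.ofReal 2 = ((2 * q : ℕ) : ℝ≥0∞) := by
    rw [mul_comm]
    simp
  rw [h1, h2, ENNReal.rpow_two] at h
  exact h

theorem VB.mono {q : ℝ≥0∞} {C D : ℝ} {T : Fin m → (V n → ℝ) → V n → ℝ} (h : C ≤ D)
    (hT : VB q C T) : VB q D T := by
  intro v hv
  exact (hT v hv).trans (mul_le_mul_left (ENNReal.ofReal_le_ofReal h) _)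

theorem KB.mono {q : ℝ≥0∞} {C D : ℝ} {T : Fin m → (V n → ℝ) → V n → ℝ} (h : C ≤ D)
    (hT : KB q C T) : KB q D T := by
  intro v hv
  exact (hT v hv).trans (mul_le_mul_left (ENNReal.ofReal_le_ofReal h) _)

end Pool.Agent.UB
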