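import Pool.Agent.UB.MulB
import Pool.Agent.UB.Norms

/-!
# UB-Dual: duality

A multiplier operator which is bounded on `L^q` is bounded on `L^p`, `p = q/(q-1)`, with the same
constant: test against `φ |T f|^(p-1) sign (T f)` with cutoff functions `φ` and use the symmetry of
the operator and Hölder's inequality.
-/

set_option autoImplicit false

open MeasureTheory Set
open scoped ENNReal NNReal

namespace Pool.Agent.UB

open Pool.Agent.CB

variable {n : ℕ}

private theorem nm_real {P : ℝ} (hP : 0 < P) (f : V n → ℝ) :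
    nm (ENNReal.ofReal P) f = (∫⁻ x, ‖f x‖ₑ ^ P) ^ (1 / P) := by
  unfold nm
  rw [eLpNorm_eq_lintegral_rpow_enorm_toReal (by simpa using hP) ENNReal.ofReal_ne_top,
    ENNReal.toReal_ofReal hP.le]

private theorem nm_nat {q : ℕ} (hq : 1 ≤ q) (f : V n → ℝ) :
    nm (q : ℝ≥0∞) f = (∫⁻ x, ‖f x‖ₑ ^ (q : ℝ)) ^ (1 / (q : ℝ)) := by
  unfold nm
  rw [eLpNorm_eq_lintegral_rpow_enorm_toReal (by
    simp only [ne_eq, Nat.cast_eq_zero]
    omega) (ENNReal.natCast_ne_top q), ENNReal.toReal_natCast]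

private noncomputable def Jd (P a : ℝ) : ℝ := max a 0 ^ (P - 1) - max (-a) 0 ^ (P - 1)

private theorem Jd_cont {P : ℝ} (hP : 1 < P) : Continuous (Jd P) := by
  unfold Jd
  refine Continuous.sub ?_ ?_
  · exact (continuous_id.max continuous_const).rpow_const fun x => Or.inr (by linarith)
  · exact (continuous_neg.max continuous_const).rpow_const fun x => Or.inr (by linarith)

private theorem Jd_of_nonneg {P a : ℝ} (hP : 1 < P) (ha : 0 ≤ a) : Jd P a = a ^ (P - 1) := by
  unfold Jd
  rw [max_eq_left ha, max_eq_right (by linarith), Real.zero_rpow (by linarith), sub_zero]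

private theorem Jd_neg (P a : ℝ) : Jd P (-a) = -Jd P a := by
  unfold Jd
  rw [neg_neg]
  ring

private theorem Jd_abs {P : ℝ} (hP : 1 < P) (a : ℝ) : |Jd P a| = |a| ^ (P - 1) := by
  rcases le_total 0 a with h | h
  · rw [Jd_of_nonneg hP h, abs_of_nonneg h, abs_of_nonneg (Real.rpow_nonneg h _)]
  · have h1 : 0 ≤ -a := by linarith
    have h2 := Jd_neg P (-a)
    rw [neg_neg] at h2
    rw [h2, abs_neg, Jd_of_nonneg hP h1, abs_of_nonneg (Real.rpow_nonneg h1 _), abs_of_nonpos h]

private theorem mul_Jd {P : ℝ} (hP : 1 < P) (a : ℝ) : a * Jd P a = |a| ^ P := by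
  have h0 : ∀ b : ℝ, 0 ≤ b → b * Jd P b = |b| ^ P := by
    intro b hb
    rw [Jd_of_nonneg hP hb, abs_of_nonneg hb]
    have h1 := Real.rpow_one_add' hb (y := P - 1) (by linarith)
    rw [← h1]
    congr 1
    ring
  rcases le_total 0 a with h | h
  · exact h0 a h
  · have h1 := h0 (-a) (by linarith)
    rw [Jd_neg, abs_neg] at h1
    rw [← h1]
    ring

private noncomputable def cut (R : ℕ) (x : V n) : ℝ := max 0 (min 1 ((R : ℝ) + 1 - ‖x‖))

private theorem cut_cont (R : ℕ) : Continuous (cut (n := n) R) := by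
  unfold cut
  fun_prop

private theorem cut_nonneg (R : ℕ) (x : V n) : 0 ≤ cut R x := le_max_left _ _

private theorem cut_le (R : ℕ) (x : V n) : cut R x ≤ 1 :=
  max_le zero_le_one (min_le_left _ _)

private theorem cut_one {R : ℕ} {x : V n} (h : ‖x‖ ≤ R) : cut R x = 1 := by
  unfold cut
  rw [min_eq_left (by linarith), max_eq_right zero_le_one]

private theorem cut_supp (R : ℕ) : HasCompactSupport (cut (n := n) R) := by
  refine HasCompactSupport.intro (isCompact_closedBall (0 : V n) ((R : ℝ) + 1)) fun x hx => ?_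
  rw [Metric.mem_closedBall, dist_zero_right, not_le] at hx
  unfold cut
  rw [max_eq_left]
  exact (min_le_right _ _).trans (by linarith)

theorem dual {n : ℕ} {τ : V n → ℝ} {T : (V n → ℝ) → V n → ℝ} (hT : Mul τ T) {q : ℕ} (hq : 2 ≤ q)
    {B : ℝ} (hB : 0 ≤ B) (h : Bq q B T) :
    Bq (ENNReal.ofReal ((q : ℝ) / ((q : ℝ) - 1))) B T := by
  intro f hf
  have hq2 : (2 : ℝ) ≤ q := by exact_mod_cast hq
  set P : ℝ := (q : ℝ) / ((q : ℝ) - 1) with hP
  have hq1 : (0 : ℝ) < (q : ℝ) - 1 := by linarith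
  have hP1 : 1 < P := by
    rw [hP, lt_div_iff₀ hq1]
    linarith
  have hP0 : 0 < P := by linarith
  have hq0 : (0 : ℝ) < q := by linarith
  have hPq : (P - 1) * q = P := by
    rw [hP]
    field_simp
    ring
  have hconj : P.HolderConjugate q := by
    rw [Real.holderConjugate_iff]
    refine ⟨hP1, ?_⟩
    rw [hP]
    field_simp
    ring
  have hu := hT.nice f hf
  set u := T f with hudef
  have hfm : Measurable f := hf.cont.measurable
  have hum : Measurable u := hu.cont.measurable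
  rw [nm_real hP0, nm_real hP0]
  set F : ℝ≥0∞ := (∫⁻ x, ‖f x‖ₑ ^ P) ^ (1 / P) with hF
  set A : ℕ → ℝ≥0∞ := fun R => ∫⁻ x, ENNReal.ofReal (cut R x) * ‖u x‖ₑ ^ P with hA
  have hutop : ∫⁻ x, ‖u x‖ₑ ^ P < ⊤ := hu.lintegral_rpow_lt_top hP1.le
  have hA_le : ∀ R, A R ≤ ∫⁻ x, ‖u x‖ₑ ^ P := by
    intro R
    refine lintegral_mono fun x => ?_
    calc ENNReal.ofReal (cut R x) * ‖u x‖ₑ ^ P ≤ 1 * ‖u x‖ₑ ^ P := by
          gcongr
          exact ENNReal.ofReal_le_one.2 (cut_le R x)
      _ = ‖u x‖ₑ ^ P := one_mul _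
  have hA_top : ∀ R, A R ≠ ⊤ := fun R => ((hA_le R).trans_lt hutop).ne
  have key : ∀ R, A R ≤ (ENNReal.ofReal B * F) ^ P := by
    intro R
    set g : V n → ℝ := fun x => cut R x * Jd P (u x) with hg
    have hgc : Continuous g := (cut_cont R).mul ((Jd_cont hP1).comp hu.cont)
    have hgn : Nice g := Nice.of_continuous hgc ((cut_supp R).mul_right)
    have hTg := hT.nice g hgn
    -- the integral of u g
    have h1 : A R = ENNReal.ofReal (∫ x, u x * g x) := by
      have h2 : ∀ x, u x * g x = cut R x * |u x| ^ P := by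
        intro x
        rw [hg]
        simp only
        rw [← mul_Jd hP1]
        ring
      have h3 : Integrable (fun x => u x * g x) := (nice_mul hu hgn).int
      rw [ofReal_integral_eq_lintegral_ofReal h3 (ae_of_all _ fun x => by
        show 0 ≤ u x * g x
        rw [h2]
        exact mul_nonneg (cut_nonneg R x) (Real.rpow_nonneg (abs_nonneg _) _))]
      refine lintegral_congr fun x => ?_
      rw [h2, ENNReal.ofReal_mul (cut_nonneg R x),
        ← ENNReal.ofReal_rpow_of_nonneg (abs_nonneg _) hP0.le, Real.enorm_eq_ofReal_abs]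
    have h2 : A R ≤ F * nm (q : ℝ≥0∞) (T g) := by
      rw [h1, hT.symm hf hgn]
      calc ENNReal.ofReal (∫ x, f x * T g x) ≤ ‖∫ x, f x * T g x‖ₑ := by
            rw [Real.enorm_eq_ofReal_abs]
            exact ENNReal.ofReal_le_ofReal (le_abs_self _)
        _ ≤ ∫⁻ x, ‖f x * T g x‖ₑ := enorm_integral_le_lintegral_enorm _
        _ = ∫⁻ x, ((fun x => ‖f x‖ₑ) * fun x => ‖T g x‖ₑ) x := by
            refine lintegral_congr fun x => ?_
            rw [enorm_mul]
            rfl
        _ ≤ _ := by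
            rw [nm_nat (by omega)]
            exact ENNReal.lintegral_mul_le_Lp_mul_Lq _ hconj hfm.enorm.aemeasurable
              hTg.cont.measurable.enorm.aemeasurable
    have h3 : nm (q : ℝ≥0∞) g ≤ A R ^ (1 / (q : ℝ)) := by
      rw [nm_nat (by omega)]
      refine ENNReal.rpow_le_rpow (lintegral_mono fun x => ?_) (by positivity)
      have h4 : ‖g x‖ₑ = ENNReal.ofReal (cut R x) * ‖u x‖ₑ ^ (P - 1) := by
        rw [hg]
        simp only
        rw [enorm_mul, Real.enorm_eq_ofReal_abs, Real.enorm_eq_ofReal_abs, Jd_abs hP1,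
          abs_of_nonneg (cut_nonneg R x),
          ← ENNReal.ofReal_rpow_of_nonneg (abs_nonneg _) (by linarith), Real.enorm_eq_ofReal_abs]
      rw [h4, ENNReal.mul_rpow_of_nonneg _ _ hq0.le, ← ENNReal.rpow_mul, hPq]
      gcongr
      have h5 : ENNReal.ofReal (cut R x) ≤ 1 := ENNReal.ofReal_le_one.2 (cut_le R x)
      calc ENNReal.ofReal (cut R x) ^ (q : ℝ) ≤ ENNReal.ofReal (cut R x) ^ (1 : ℝ) :=
            ENNReal.rpow_le_rpow_of_exponent_ge h5 (by linarith)
        _ = ENNReal.ofReal (cut R x) := ENNReal.rpow_one _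
    have h4 : A R ≤ ENNReal.ofReal B * F * A R ^ (1 / (q : ℝ)) := by
      calc A R ≤ F * nm (q : ℝ≥0∞) (T g) := h2
        _ ≤ F * (ENNReal.ofReal B * nm (q : ℝ≥0∞) g) := by
            gcongr
            exact h g hgn
        _ ≤ F * (ENNReal.ofReal B * A R ^ (1 / (q : ℝ))) := by gcongr
        _ = _ := by ring
    by_cases h0 : A R = 0
    · rw [h0]
      exact zero_le
    have h5 : A R ^ (1 / P) ≤ ENNReal.ofReal B * F := by
      have h6 : A R = A R ^ (1 / P) * A R ^ (1 / (q : ℝ)) := by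
        rw [← ENNReal.rpow_add _ _ h0 (hA_top R)]
        have h7 : 1 / P + 1 / (q : ℝ) = 1 := by
          have h8 := hconj.inv_add_inv_eq_one
          rw [one_div, one_div, h8]
        rw [h7, ENNReal.rpow_one]
      have h9 : A R ^ (1 / (q : ℝ)) ≠ 0 := by
        rw [Ne, ENNReal.rpow_eq_zero_iff_of_pos (by positivity)]
        exact h0
      have h10 : A R ^ (1 / (q : ℝ)) ≠ ⊤ := by
        exact ENNReal.rpow_ne_top_of_nonneg (by positivity) (hA_top R)
      rw [← ENNReal.mul_le_mul_iff_left h9 h10]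
      rw [← h6]
      exact h4
    have h11 := ENNReal.rpow_le_rpow h5 hP0.le
    rw [← ENNReal.rpow_mul, one_div, inv_mul_cancel₀ hP0.ne', ENNReal.rpow_one] at h11
    exact h11
  have hlim : ∫⁻ x, ‖u x‖ₑ ^ P ≤ (ENNReal.ofReal B * F) ^ P := by
    have h1 : ∀ x, ‖u x‖ₑ ^ P =
        Filter.liminf (fun R : ℕ => ENNReal.ofReal (cut R x) * ‖u x‖ₑ ^ P) Filter.atTop := by
      intro x
      obtain ⟨R0, hR0⟩ := exists_nat_ge ‖x‖
      refine (Filter.Tendsto.liminf_eq ?_).symm
      refine tendsto_const_nhds.congr' ?_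
      filter_upwards [Filter.eventually_ge_atTop R0] with R hR
      have h2 : ‖x‖ ≤ R := hR0.trans (by exact_mod_cast hR)
      rw [cut_one h2, ENNReal.ofReal_one, one_mul]
    calc ∫⁻ x, ‖u x‖ₑ ^ P = ∫⁻ x, Filter.liminf
          (fun R : ℕ => ENNReal.ofReal (cut R x) * ‖u x‖ₑ ^ P) Filter.atTop :=
          lintegral_congr h1
      _ ≤ Filter.liminf (fun R => A R) Filter.atTop := by
          refine lintegral_liminf_le fun R => ?_
          exact ((cut_cont R).measurable.ennreal_ofReal).mul (hum.enorm.pow_const _)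
      _ ≤ (ENNReal.ofReal B * F) ^ P := by
          refine Filter.liminf_le_of_le (by isBoundedDefault) fun b hb => ?_
          obtain ⟨R, hR⟩ := hb.exists
          exact hR.trans (key R)
  have h12 := ENNReal.rpow_le_rpow hlim (show 0 ≤ 1 / P by positivity)
  rw [← ENNReal.rpow_mul, mul_one_div, div_self hP0.ne', ENNReal.rpow_one] at h12
  exact h12

end Pool.Agent.UB
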