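import Pool.Agent.UB.MulA

/-!
# UB-MulB: uniqueness, linearity, symmetry, `L²` bounds of multiplier operators

PLAN.  Uniqueness: if `u`, `v` are nice and `fh u = fh v`, then `fh (u - v) = 0`, so `∫ |u - v|² = 0` (`CB.plancherel`) and
`u = v` almost everywhere, hence everywhere by continuity (`Continuous.ae_eq_iff_eq`).  Linearity follows from uniqueness
(`fh (T (f + g)) = τ fh (f + g)`).  Symmetry `∫ T f g = ∫ f T g`: polarize `CB.plancherel`: for nice `u, v`,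
`∫ u v = (1/2) (∫ (u+v)² - ∫ u² - ∫ v²) = ∫ Re (fh u conj (fh v))`; `τ` is real.  `L²` bounds: `CB.plancherel`; for `l2vec`,
`|∑ τ_i fh (v_i)|² ≤ (∑ τ_i²) ∑ |fh (v_i)|²` (Cauchy-Schwarz) and `∑ ∫ |v_i|² = ∫ (sqf v)²`.
`eLpNorm f 2 = (∫⁻ ‖f‖ₑ ^ 2) ^ (1/2)` (`eLpNorm_eq_lintegral_rpow_enorm`).
-/

set_option autoImplicit false

open MeasureTheory Set
open scoped ENNReal NNReal

namespace Pool.Agent.UB

open Pool.Agent.CB

variable {n : ℕ} {τ σ : V n → ℝ} {T S : (V n → ℝ) → V n → ℝ}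

private theorem int_ofReal {f : V n → ℝ} (hf : Nice f) : Integrable (fun x => (f x : ℂ)) :=
  hf.int.ofReal

private theorem fh_cont {f : V n → ℝ} (hf : Nice f) : Continuous (fh f) := by
  have h1 : fh f = fun w => FourierTransform.fourier (fun x => (f x : ℂ)) (-w) := by
    ext w
    rw [fh, Real.fourierInv_eq_fourier_neg]
  rw [h1]
  have h2 : Continuous (FourierTransform.fourier (fun x => (f x : ℂ))) :=
    VectorFourier.fourierIntegral_continuous Real.continuous_fourierChar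
      (by exact continuous_inner) (int_ofReal hf)
  exact h2.comp continuous_neg

private noncomputable def ex (ξ v : V n) : ℂ :=
  Complex.exp (((2 * Real.pi * inner ℝ v ξ : ℝ) : ℂ) * Complex.I)

private theorem ex_norm (ξ v : V n) : ‖ex ξ v‖ = 1 := by
  unfold ex
  exact Complex.norm_exp_ofReal_mul_I _

private theorem ex_cont (ξ : V n) : Continuous (ex ξ) := by
  unfold ex
  fun_prop

private theorem fh_eq (f : V n → ℝ) (ξ : V n) : fh f ξ = ∫ v, ex ξ v * (f v : ℂ) := by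
  unfold fh ex
  rw [Real.fourierInv_eq']
  rfl

private theorem ex_int {f : V n → ℝ} (hf : Nice f) (ξ : V n) :
    Integrable (fun v => ex ξ v * (f v : ℂ)) volume := by
  refine (hf.int.norm).mono' ?_ (ae_of_all _ fun v => ?_)
  · exact (ex_cont ξ).aestronglyMeasurable.mul hf.int.ofReal.aestronglyMeasurable
  · rw [norm_mul, ex_norm, one_mul, Complex.norm_real]

private theorem fh_add {f g : V n → ℝ} (hf : Nice f) (hg : Nice g) (ξ : V n) :
    fh (fun x => f x + g x) ξ = fh f ξ + fh g ξ := by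
  rw [fh_eq, fh_eq, fh_eq, ← integral_add (ex_int hf ξ) (ex_int hg ξ)]
  refine integral_congr_ae (ae_of_all _ fun v => ?_)
  simp only
  push_cast
  ring

private theorem fh_sub {f g : V n → ℝ} (hf : Nice f) (hg : Nice g) (ξ : V n) :
    fh (fun x => f x - g x) ξ = fh f ξ - fh g ξ := by
  rw [fh_eq, fh_eq, fh_eq, ← integral_sub (ex_int hf ξ) (ex_int hg ξ)]
  refine integral_congr_ae (ae_of_all _ fun v => ?_)
  simp only
  push_cast
  ring

private theorem fh_smul (c : ℝ) (f : V n → ℝ) (ξ : V n) :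
    fh (fun x => c * f x) ξ = (c : ℂ) * fh f ξ := by
  rw [fh_eq, fh_eq, ← integral_const_mul]
  refine integral_congr_ae (ae_of_all _ fun v => ?_)
  simp only
  push_cast
  ring

private theorem fh_sum {ι : Type} (s : Finset ι) {f : ι → V n → ℝ} (hf : ∀ i ∈ s, Nice (f i))
    (ξ : V n) : fh (fun x => ∑ i ∈ s, f i x) ξ = ∑ i ∈ s, fh (f i) ξ := by
  rw [fh_eq]
  simp only [fh_eq]
  rw [← integral_finsetSum s fun i hi => ex_int (hf i hi) ξ]
  refine integral_congr_ae (ae_of_all _ fun v => ?_)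
  simp only
  push_cast
  rw [Finset.mul_sum]

theorem nice_ext {u v : V n → ℝ} (hu : Nice u) (hv : Nice v) (h : ∀ ξ, fh u ξ = fh v ξ) : u = v := by
  have h1 := plancherel (hu.sub hv)
  have h2 : ∀ ξ, fh (fun x => u x - v x) ξ = 0 := fun ξ => by
    rw [fh_sub hu hv, h ξ, sub_self]
  simp only [h2, enorm_zero, ENNReal.zero_rpow_of_pos (by norm_num : (0 : ℝ) < 2), lintegral_zero] at h1
  have h3 : (fun x => ‖u x - v x‖ₑ ^ (2 : ℝ)) =ᵐ[volume] 0 :=
    (lintegral_eq_zero_iff ((hu.cont.sub hv.cont).measurable.enorm.pow_const _)).1 h1.symm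
  have h4 : u =ᵐ[volume] v := by
    filter_upwards [h3] with x hx
    have h5 : ‖u x - v x‖ₑ ^ (2 : ℝ) = 0 := hx
    rw [ENNReal.rpow_eq_zero_iff_of_pos (by norm_num : (0 : ℝ) < 2), enorm_eq_zero] at h5
    linarith
  exact (hu.cont.ae_eq_iff_eq volume hv.cont).1 h4

theorem Mul.ext (hT : Mul τ T) (hS : Mul σ S) (h : ∀ ξ, τ ξ = σ ξ) {f : V n → ℝ} (hf : Nice f) :
    T f = S f := by
  refine nice_ext (hT.nice f hf) (hS.nice f hf) fun ξ => ?_
  rw [hT.mul f hf ξ, hS.mul f hf ξ, h]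

theorem Mul.map_add (hT : Mul τ T) {f g : V n → ℝ} (hf : Nice f) (hg : Nice g) :
    T (fun x => f x + g x) = fun x => T f x + T g x := by
  refine nice_ext (hT.nice _ (hf.add hg)) ((hT.nice f hf).add (hT.nice g hg)) fun ξ => ?_
  rw [hT.mul _ (hf.add hg) ξ, fh_add hf hg, fh_add (hT.nice f hf) (hT.nice g hg), hT.mul f hf ξ,
    hT.mul g hg ξ]
  ring

theorem Mul.map_sub (hT : Mul τ T) {f g : V n → ℝ} (hf : Nice f) (hg : Nice g) :
    T (fun x => f x - g x) = fun x => T f x - T g x := by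
  refine nice_ext (hT.nice _ (hf.sub hg)) ((hT.nice f hf).sub (hT.nice g hg)) fun ξ => ?_
  rw [hT.mul _ (hf.sub hg) ξ, fh_sub hf hg, fh_sub (hT.nice f hf) (hT.nice g hg), hT.mul f hf ξ,
    hT.mul g hg ξ]
  ring

theorem Mul.map_smul (hT : Mul τ T) (c : ℝ) {f : V n → ℝ} (hf : Nice f) :
    T (fun x => c * f x) = fun x => c * T f x := by
  refine nice_ext (hT.nice _ (hf.const_mul c)) ((hT.nice f hf).const_mul c) fun ξ => ?_
  rw [hT.mul _ (hf.const_mul c) ξ, fh_smul, fh_smul, hT.mul f hf ξ]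
  ring

private theorem nice_sum' {ι : Type} (s : Finset ι) {f : ι → V n → ℝ} (hf : ∀ i ∈ s, Nice (f i)) :
    Nice fun x => ∑ i ∈ s, f i x := by
  classical
  induction s using Finset.induction_on with
  | empty =>
    simp only [Finset.sum_empty]
    exact ⟨continuous_const, ⟨0, fun x => by simp⟩, integrable_zero _ _ _⟩
  | insert a s ha ih =>
    simp only [Finset.sum_insert ha]
    exact (hf a (Finset.mem_insert_self a s)).add
      (ih fun i hi => hf i (Finset.mem_insert_of_mem hi))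

theorem Mul.map_sum (hT : Mul τ T) {ι : Type} (s : Finset ι) {f : ι → V n → ℝ}
    (hf : ∀ i ∈ s, Nice (f i)) : T (fun x => ∑ i ∈ s, f i x) = fun x => ∑ i ∈ s, T (f i) x := by
  have h1 : ∀ i ∈ s, Nice (T (f i)) := fun i hi => hT.nice _ (hf i hi)
  refine nice_ext (hT.nice _ (nice_sum' s hf)) (nice_sum' s h1) fun ξ => ?_
  rw [hT.mul _ (nice_sum' s hf) ξ, fh_sum s hf, fh_sum s h1, Finset.mul_sum]
  exact Finset.sum_congr rfl fun i hi => (hT.mul _ (hf i hi) ξ).symm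

/-- Multiplier operators commute. -/
theorem Mul.comm (hT : Mul τ T) (hS : Mul σ S) {f : V n → ℝ} (hf : Nice f) : T (S f) = S (T f) := by
  refine nice_ext (hT.nice _ (hS.nice f hf)) (hS.nice _ (hT.nice f hf)) fun ξ => ?_
  rw [hT.mul _ (hS.nice f hf) ξ, hS.mul _ (hT.nice f hf) ξ, hT.mul f hf ξ, hS.mul f hf ξ]
  ring

private theorem ofReal_sq (z : ℂ) : ENNReal.ofReal (‖z‖ ^ 2) = ‖z‖ₑ ^ (2 : ℝ) := by
  rw [← ofReal_norm, ENNReal.ofReal_rpow_of_nonneg (norm_nonneg _) (by norm_num : (0 : ℝ) ≤ 2),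
    Real.rpow_two]

private theorem ofReal_sq' (z : ℝ) : ENNReal.ofReal (z ^ 2) = ‖z‖ₑ ^ (2 : ℝ) := by
  rw [← ofReal_norm, ENNReal.ofReal_rpow_of_nonneg (norm_nonneg _) (by norm_num : (0 : ℝ) ≤ 2),
    Real.rpow_two, Real.norm_eq_abs, sq_abs]

private theorem sq_int {u : V n → ℝ} (hu : Nice u) : Integrable (fun x => u x ^ 2) := by
  have h := (hu.memLp (p := 2) (by norm_num)).integrable_sq
  exact h

private theorem pl_real {u : V n → ℝ} (hu : Nice u) :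
    Integrable (fun ξ => ‖fh u ξ‖ ^ 2) ∧ ∫ ξ, ‖fh u ξ‖ ^ 2 = ∫ x, u x ^ 2 := by
  have h1 := plancherel hu
  have h0 := hu.lintegral_rpow_lt_top (p := 2) (by norm_num)
  have hc : Continuous fun ξ => ‖fh u ξ‖ ^ 2 := (fh_cont hu).norm.pow 2
  have h2 : ∫⁻ ξ, ENNReal.ofReal (‖fh u ξ‖ ^ 2) = ∫⁻ x, ENNReal.ofReal (u x ^ 2) := by
    rw [lintegral_congr fun ξ => ofReal_sq (fh u ξ), lintegral_congr fun x => ofReal_sq' (u x)]
    exact h1
  have h3 : Integrable (fun ξ => ‖fh u ξ‖ ^ 2) := by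
    refine ⟨hc.aestronglyMeasurable, ?_⟩
    rw [hasFiniteIntegral_iff_ofReal (ae_of_all _ fun ξ => by positivity), h2]
    simp only [ofReal_sq']
    exact h0
  refine ⟨h3, ?_⟩
  rw [integral_eq_lintegral_of_nonneg_ae (ae_of_all _ fun ξ => by positivity)
      hc.aestronglyMeasurable,
    integral_eq_lintegral_of_nonneg_ae (ae_of_all _ fun ξ => by positivity)
      (sq_int hu).aestronglyMeasurable, h2]

theorem Mul.symm (hT : Mul τ T) {f g : V n → ℝ} (hf : Nice f) (hg : Nice g) :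
    ∫ x, T f x * g x = ∫ x, f x * T g x := by
  have hTf := hT.nice f hf
  have hTg := hT.nice g hg
  have key : ∀ {u v : V n → ℝ}, Nice u → Nice v →
      4 * ∫ x, u x * v x = ∫ ξ, (‖fh u ξ + fh v ξ‖ ^ 2 - ‖fh u ξ - fh v ξ‖ ^ 2) := by
    intro u v hu hv
    obtain ⟨i1, e1⟩ := pl_real (hu.add hv)
    obtain ⟨i2, e2⟩ := pl_real (hu.sub hv)
    simp only [fh_add hu hv] at i1 e1
    simp only [fh_sub hu hv] at i2 e2
    rw [integral_sub i1 i2, e1, e2, ← integral_sub (sq_int (hu.add hv)) (sq_int (hu.sub hv)),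
      ← integral_const_mul]
    refine integral_congr_ae (ae_of_all _ fun x => ?_)
    simp only
    ring
  have h1 := key hTf hg
  have h2 := key hf hTg
  have h3 : (∫ ξ, (‖fh (T f) ξ + fh g ξ‖ ^ 2 - ‖fh (T f) ξ - fh g ξ‖ ^ 2)) =
      ∫ ξ, (‖fh f ξ + fh (T g) ξ‖ ^ 2 - ‖fh f ξ - fh (T g) ξ‖ ^ 2) := by
    refine integral_congr_ae (ae_of_all _ fun ξ => ?_)
    simp only
    rw [hT.mul f hf ξ, hT.mul g hg ξ]
    generalize τ ((2 * Real.pi) • ξ) = t
    simp only [Complex.sq_norm, Complex.normSq_apply, Complex.add_re, Complex.add_im,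
      Complex.sub_re, Complex.sub_im, Complex.re_ofReal_mul, Complex.im_ofReal_mul]
    ring
  linarith

private theorem nm_two (f : V n → ℝ) : nm 2 f = (∫⁻ x, ‖f x‖ₑ ^ (2 : ℝ)) ^ (1 / 2 : ℝ) := by
  unfold nm
  rw [eLpNorm_eq_lintegral_rpow_enorm_toReal (by norm_num) (by norm_num)]
  simp

private theorem root_le {a b : ℝ≥0∞} {B : ℝ} (hB : 0 ≤ B) (h : a ≤ ENNReal.ofReal (B ^ 2) * b) :
    a ^ (1 / 2 : ℝ) ≤ ENNReal.ofReal B * b ^ (1 / 2 : ℝ) := by
  have h1 := ENNReal.rpow_le_rpow h (by norm_num : (0 : ℝ) ≤ 1 / 2)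
  rw [ENNReal.mul_rpow_of_nonneg _ _ (by norm_num : (0 : ℝ) ≤ 1 / 2),
    ENNReal.ofReal_rpow_of_nonneg (by positivity) (by norm_num : (0 : ℝ) ≤ 1 / 2),
    ← Real.sqrt_eq_rpow, Real.sqrt_sq hB] at h1
  exact h1

theorem Mul.l2 (hT : Mul τ T) {B : ℝ} (hB : 0 ≤ B) (h : ∀ ξ, |τ ξ| ≤ B) : Bq 2 B T := by
  intro f hf
  rw [nm_two, nm_two]
  refine root_le hB ?_
  have h1 := pl_le (Finset.univ : Finset Unit) (fun _ => T f) (fun _ => τ) hf
    (fun _ _ => hT.nice f hf) (fun _ _ => hT.mul f hf) (B := B ^ 2) (fun ξ => by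
      simp only [Finset.univ_unique, Finset.sum_singleton]
      exact sq_le_sq' (by linarith [neg_abs_le (τ ξ), h ξ]) (by linarith [le_abs_self (τ ξ), h ξ]))
  simpa using h1

/-- Note that the symbols and the operators are indexed, and the operator `A` acts after the sum. -/
theorem l2vec {m : ℕ} {τ : Fin m → V n → ℝ} {T : Fin m → (V n → ℝ) → V n → ℝ}
    (hT : ∀ i, Mul (τ i) (T i)) {α : V n → ℝ} {A : (V n → ℝ) → V n → ℝ} (hA : Mul α A) {B : ℝ}
    (hB : 0 ≤ B) (h : ∀ ξ, α ξ ^ 2 * ∑ i, τ i ξ ^ 2 ≤ B ^ 2) (v : Fin m → V n → ℝ)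
    (hv : ∀ i, Nice (v i)) :
    nm 2 (A fun x => ∑ i, T i (v i) x) ≤ ENNReal.ofReal B * nm 2 (sqf v) := by
  have hw : ∀ i ∈ (Finset.univ : Finset (Fin m)), Nice (T i (v i)) :=
    fun i _ => (hT i).nice _ (hv i)
  have hu := nice_sum' Finset.univ hw
  rw [nm_two, nm_two]
  refine root_le hB ?_
  have h1 : ∫⁻ x, ‖sqf v x‖ₑ ^ (2 : ℝ) = ∑ i, ∫⁻ x, ‖v i x‖ₑ ^ (2 : ℝ) := by
    rw [← lintegral_finsetSum _ fun i _ => ((hv i).cont.measurable.enorm).pow_const _]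
    refine lintegral_congr fun x => ?_
    rw [← ofReal_sq']
    unfold sqf
    rw [Real.sq_sqrt (Finset.sum_nonneg fun i _ => sq_nonneg _),
      ENNReal.ofReal_sum_of_nonneg fun i _ => sq_nonneg _]
    exact Finset.sum_congr rfl fun i _ => ofReal_sq' _
  have h2 : ∑ i, ∫⁻ x, ‖v i x‖ₑ ^ (2 : ℝ) = ∫⁻ ξ, ∑ i, ‖fh (v i) ξ‖ₑ ^ (2 : ℝ) := by
    rw [lintegral_finsetSum _ fun i _ => ((fh_cont (hv i)).measurable.enorm).pow_const _]
    exact Finset.sum_congr rfl fun i _ => (plancherel (hv i)).symm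
  rw [← plancherel (hA.nice _ hu), h1, h2, ← lintegral_const_mul' _ _ ENNReal.ofReal_ne_top]
  refine lintegral_mono fun ξ => ?_
  show ‖fh (A fun x => ∑ i, T i (v i) x) ξ‖ₑ ^ (2 : ℝ) ≤
    ENNReal.ofReal (B ^ 2) * ∑ i, ‖fh (v i) ξ‖ₑ ^ (2 : ℝ)
  rw [hA.mul _ hu ξ, fh_sum _ hw]
  have h3 : ∀ i ∈ (Finset.univ : Finset (Fin m)), fh (T i (v i)) ξ =
      (τ i ((2 * Real.pi) • ξ) : ℂ) * fh (v i) ξ := fun i _ => (hT i).mul _ (hv i) ξ
  rw [Finset.sum_congr rfl h3]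
  simp only [← ofReal_sq]
  rw [← ENNReal.ofReal_sum_of_nonneg fun i _ => by positivity,
    ← ENNReal.ofReal_mul (by positivity)]
  refine ENNReal.ofReal_le_ofReal ?_
  have h4 := h ((2 * Real.pi) • ξ)
  rw [norm_mul, mul_pow, Complex.norm_real, Real.norm_eq_abs, sq_abs]
  have h5 : ‖∑ i, (τ i ((2 * Real.pi) • ξ) : ℂ) * fh (v i) ξ‖ ^ 2 ≤
      (∑ i, τ i ((2 * Real.pi) • ξ) ^ 2) * ∑ i, ‖fh (v i) ξ‖ ^ 2 := by
    have h6 : ‖∑ i, (τ i ((2 * Real.pi) • ξ) : ℂ) * fh (v i) ξ‖ ≤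
        ∑ i, |τ i ((2 * Real.pi) • ξ)| * ‖fh (v i) ξ‖ := by
      refine (norm_sum_le _ _).trans (Finset.sum_le_sum fun i _ => ?_)
      rw [norm_mul, Complex.norm_real, Real.norm_eq_abs]
    have h7 := Finset.sum_mul_sq_le_sq_mul_sq (Finset.univ : Finset (Fin m))
      (fun i => |τ i ((2 * Real.pi) • ξ)|) (fun i => ‖fh (v i) ξ‖)
    simp only [sq_abs] at h7
    exact (pow_le_pow_left₀ (norm_nonneg _) h6 2).trans h7
  calc α ((2 * Real.pi) • ξ) ^ 2 * ‖∑ i, (τ i ((2 * Real.pi) • ξ) : ℂ) * fh (v i) ξ‖ ^ 2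
      ≤ α ((2 * Real.pi) • ξ) ^ 2 * ((∑ i, τ i ((2 * Real.pi) • ξ) ^ 2) * ∑ i, ‖fh (v i) ξ‖ ^ 2) :=
        mul_le_mul_of_nonneg_left h5 (sq_nonneg _)
    _ = (α ((2 * Real.pi) • ξ) ^ 2 * ∑ i, τ i ((2 * Real.pi) • ξ) ^ 2) *
        ∑ i, ‖fh (v i) ξ‖ ^ 2 := by ring
    _ ≤ B ^ 2 * ∑ i, ‖fh (v i) ξ‖ ^ 2 :=
        mul_le_mul_of_nonneg_right h4 (Finset.sum_nonneg fun i _ => by positivity)

end Pool.Agent.UB
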