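import Pool.Agent.UB.Norms
import Pool.Agent.UB.MulB

/-!
# UB-IntV: interpolation between `L²` and `L^∞`

`T` additive on families of nice functions, `‖T v‖_2 ≤ b^q ‖l1f v‖_2`, `‖T v‖_∞ ≤ B ‖l1f v‖_∞`, `1 ≤ B`:
`‖T v‖_q ≤ 8 b² B ‖l1f v‖_q`, `q ≥ 2`.

PLAN.  `q = 2`: the `L²` bound (`b² ≤ 8 b² B`).  `q ≥ 3`: for `l > 0` put `c = l/(2B)`, `v''_i = v_i c/max (c, l1f v)`, `v' = v - v''` (both
nice; `c / max (c, u)` is continuous).  `l1f v'' ≤ c`, so `|T v''| ≤ l/2` almost everywhere; `l1f v' = (l1f v - c)⁺ ≤ l1f v 1[l1f v > c]`.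
`vol {|T v| > l} ≤ vol {|T v'| > l/2} ≤ (4/l²) b^(2q) ∫ (l1f v)² 1[l1f v > l/(2B)]` (Markov, `L²` bound).  Layer cake
(`lintegral_rpow_eq_lintegral_meas_lt_mul`), Tonelli: `∫ |T v|^q ≤ ∫_0^∞ q l^(q-1) (4/l²) b^(2q) ∫ u² 1[u > l/(2B)] dx dl
= 4 q b^(2q) ∫ u² (2 B u)^(q-2)/(q-2) = (4q/(q-2)) 2^(q-2) B^(q-2) b^(2q) ∫ u^q`; `4q/(q-2) ≤ 12`, the `q`-th root is
`≤ 12^(1/3) · 2 · B · b² ≤ 8 B b²`.  See `CB/Interp.lean` for the same argument (between `L^{p1}` and `L²`).
If `b = 0` everything works too (or use `b + ε`).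
-/

set_option autoImplicit false

open MeasureTheory Set
open scoped ENNReal NNReal

namespace Pool.Agent.UB

open Pool.Agent.CB

variable {m n : ℕ}

/-! ### private lemmas -/

private theorem nm_le_iff {q : ℕ} (hq : 1 ≤ q) {C : ℝ} (hC : 0 ≤ C) (f g : V n → ℝ) :
    nm (q : ℝ≥0∞) f ≤ ENNReal.ofReal C * nm (q : ℝ≥0∞) g ↔
      ∫⁻ x, ‖f x‖ₑ ^ (q : ℝ) ≤ ENNReal.ofReal (C ^ q) * ∫⁻ x, ‖g x‖ₑ ^ (q : ℝ) := by
  have hq0 : (0 : ℝ) < q := by exact_mod_cast hq
  have h1 : (q : ℝ≥0∞) ≠ 0 := by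
    have : q ≠ 0 := by omega
    exact_mod_cast this
  have h2 : (q : ℝ≥0∞) ≠ ⊤ := ENNReal.natCast_ne_top q
  have h3 : (q : ℝ≥0∞).toReal = (q : ℝ) := ENNReal.toReal_natCast q
  unfold nm
  rw [eLpNorm_eq_lintegral_rpow_enorm_toReal h1 h2, eLpNorm_eq_lintegral_rpow_enorm_toReal h1 h2, h3]
  have h4 : ENNReal.ofReal C = (ENNReal.ofReal (C ^ q)) ^ (1 / (q : ℝ)) := by
    rw [ENNReal.ofReal_rpow_of_nonneg (pow_nonneg hC q) (by positivity), one_div,
      Real.pow_rpow_inv_natCast hC (by omega)]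
  rw [h4, ← ENNReal.mul_rpow_of_nonneg _ _ (by positivity : 0 ≤ 1 / (q : ℝ))]
  exact ENNReal.rpow_le_rpow_iff (by positivity)

private theorem lint_low {e r : ℝ} (he : -1 < e) (hr : 0 < r) :
    ∫⁻ l in Ioo 0 r, ENNReal.ofReal (l ^ e) = ENNReal.ofReal (r ^ (e + 1) / (e + 1)) := by
  rw [← setLIntegral_congr Ioo_ae_eq_Ioc.symm, ← ofReal_integral_eq_lintegral_ofReal]
  · rw [← intervalIntegral.integral_of_le hr.le, integral_rpow (Or.inl he),
      Real.zero_rpow (by linarith), sub_zero]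
  · exact (intervalIntegral.intervalIntegrable_rpow' he).1
  · filter_upwards [ae_restrict_mem measurableSet_Ioc] with l hl
    exact Real.rpow_nonneg hl.1.le _

private theorem markov2 {g : V n → ℝ} (hg : Measurable g) {l : ℝ} (hl : 0 < l) :
    volume {x | l / 2 < |g x|} ≤
      ENNReal.ofReal ((2 / l) ^ 2) * ∫⁻ x, ‖g x‖ₑ ^ ((2 : ℕ) : ℝ) := by
  have h2 : 0 < l / 2 := by linarith
  have hε : 0 < (l / 2) ^ 2 := by positivity
  have hm : AEMeasurable (fun x => ‖g x‖ₑ ^ ((2 : ℕ) : ℝ)) (volume : Measure (V n)) :=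
    (hg.enorm.pow_const _).aemeasurable
  have key := meas_ge_le_lintegral_div hm (ε := ENNReal.ofReal ((l / 2) ^ 2))
    (ENNReal.ofReal_pos.2 hε).ne' ENNReal.ofReal_ne_top
  have habs : ∀ x, ‖g x‖ₑ ^ ((2 : ℕ) : ℝ) = ENNReal.ofReal (|g x| ^ 2) := by
    intro x
    rw [Real.enorm_eq_ofReal_abs, ENNReal.ofReal_rpow_of_nonneg (abs_nonneg _) (by norm_num),
      Real.rpow_natCast]
  calc volume {x | l / 2 < |g x|}
      ≤ volume {x | ENNReal.ofReal ((l / 2) ^ 2) ≤ ‖g x‖ₑ ^ ((2 : ℕ) : ℝ)} := by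
        apply measure_mono
        intro x hx
        have hx' : l / 2 < |g x| := hx
        show ENNReal.ofReal ((l / 2) ^ 2) ≤ ‖g x‖ₑ ^ ((2 : ℕ) : ℝ)
        rw [habs]
        exact ENNReal.ofReal_le_ofReal (pow_le_pow_left₀ h2.le hx'.le 2)
    _ ≤ (∫⁻ x, ‖g x‖ₑ ^ ((2 : ℕ) : ℝ)) / ENNReal.ofReal ((l / 2) ^ 2) := key
    _ = ENNReal.ofReal ((2 / l) ^ 2) * ∫⁻ x, ‖g x‖ₑ ^ ((2 : ℕ) : ℝ) := by
        rw [ENNReal.div_eq_inv_mul, ← ENNReal.ofReal_inv_of_pos hε, ← inv_pow, inv_div]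

/-- the part of `v` of height at most `c` -/
private noncomputable def lo (c : ℝ) (v : Fin m → V n → ℝ) (i : Fin m) (x : V n) : ℝ :=
  v i x * (c / max c (l1f v x))

private theorem l1f_nonneg (v : Fin m → V n → ℝ) (x : V n) : 0 ≤ l1f v x :=
  Finset.sum_nonneg fun _ _ => abs_nonneg _

private theorem frac_nonneg {c : ℝ} (hc : 0 < c) (u : ℝ) : 0 ≤ c / max c u :=
  div_nonneg hc.le (hc.le.trans (le_max_left _ _))

private theorem frac_le {c : ℝ} (hc : 0 < c) (u : ℝ) : c / max c u ≤ 1 := by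
  rw [div_le_one (lt_of_lt_of_le hc (le_max_left _ _))]
  exact le_max_left _ _

private theorem nice_lo {c : ℝ} (hc : 0 < c) {v : Fin m → V n → ℝ} (hv : ∀ i, Nice (v i))
    (i : Fin m) : Nice (lo c v i) := by
  have hcont : Continuous (lo c v i) := by
    unfold lo
    refine (hv i).cont.mul (continuous_const.div ?_ fun x => ?_)
    · exact continuous_const.max (nice_l1f hv).cont
    · exact (lt_of_lt_of_le hc (le_max_left _ _)).ne'
  have hle : ∀ x, |lo c v i x| ≤ |v i x| := by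
    intro x
    unfold lo
    rw [abs_mul, abs_of_nonneg (frac_nonneg hc _)]
    exact mul_le_of_le_one_right (abs_nonneg _) (frac_le hc _)
  refine ⟨hcont, ?_, ?_⟩
  · obtain ⟨C, hC⟩ := (hv i).bdd
    exact ⟨C, fun x => (hle x).trans (hC x)⟩
  · refine (hv i).int.mono hcont.aestronglyMeasurable (Filter.Eventually.of_forall fun x => ?_)
    rw [Real.norm_eq_abs, Real.norm_eq_abs]
    exact hle x

private theorem l1f_lo {c : ℝ} (hc : 0 < c) (v : Fin m → V n → ℝ) (x : V n) :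
    l1f (lo c v) x ≤ c := by
  have h1 : l1f (lo c v) x = l1f v x * (c / max c (l1f v x)) := by
    unfold l1f
    rw [Finset.sum_mul]
    refine Finset.sum_congr rfl fun i _ => ?_
    unfold lo
    rw [abs_mul, abs_of_nonneg (frac_nonneg hc _)]
    rfl
  have hm : 0 < max c (l1f v x) := lt_of_lt_of_le hc (le_max_left _ _)
  rw [h1, mul_div_assoc', div_le_iff₀ hm, mul_comm]
  exact mul_le_mul_of_nonneg_left (le_max_right _ _) hc.le

private theorem l1f_hi {c : ℝ} (hc : 0 < c) (v : Fin m → V n → ℝ) (x : V n) :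
    l1f (fun i x => v i x - lo c v i x) x ≤ if c < l1f v x then l1f v x else 0 := by
  have h1 : l1f (fun i x => v i x - lo c v i x) x = l1f v x * (1 - c / max c (l1f v x)) := by
    have h2 : ∀ i, |v i x - lo c v i x| = |v i x| * (1 - c / max c (l1f v x)) := by
      intro i
      have h3 : v i x - lo c v i x = v i x * (1 - c / max c (l1f v x)) := by
        unfold lo
        ring
      rw [h3, abs_mul, abs_of_nonneg (sub_nonneg.2 (frac_le hc _))]
    calc l1f (fun i x => v i x - lo c v i x) x = ∑ i, |v i x - lo c v i x| := rfl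
      _ = ∑ i, |v i x| * (1 - c / max c (l1f v x)) := Finset.sum_congr rfl fun i _ => h2 i
      _ = _ := by
          rw [← Finset.sum_mul]
          rfl
  rw [h1]
  split_ifs with h
  · have := frac_nonneg hc (l1f v x)
    exact mul_le_of_le_one_right (l1f_nonneg v x) (by linarith)
  · rw [max_eq_left (not_lt.1 h), div_self hc.ne', sub_self, mul_zero]

theorem interpV (T : (Fin m → V n → ℝ) → V n → ℝ)
    (hn : ∀ v : Fin m → V n → ℝ, (∀ i, Nice (v i)) → Nice (T v))
    (hadd : ∀ v w : Fin m → V n → ℝ, (∀ i, Nice (v i)) → (∀ i, Nice (w i)) →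
      T (fun i x => v i x + w i x) = fun x => T v x + T w x)
    {q : ℕ} (hq : 2 ≤ q) {b B : ℝ} (hb : 0 ≤ b) (hB : 1 ≤ B)
    (h2 : ∀ v : Fin m → V n → ℝ, (∀ i, Nice (v i)) →
      nm 2 (T v) ≤ ENNReal.ofReal (b ^ q) * nm 2 (l1f v))
    (hi : ∀ v : Fin m → V n → ℝ, (∀ i, Nice (v i)) →
      nm ⊤ (T v) ≤ ENNReal.ofReal B * nm ⊤ (l1f v))
    (v : Fin m → V n → ℝ) (hv : ∀ i, Nice (v i)) :
    nm q (T v) ≤ ENNReal.ofReal (8 * b ^ 2 * B) * nm q (l1f v) := by
  have hC0 : 0 ≤ 8 * b ^ 2 * B := by positivity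
  rcases Nat.eq_or_lt_of_le hq with hq2 | hq3
  · subst hq2
    have h1 := h2 v hv
    have h3 : b ^ 2 ≤ 8 * b ^ 2 * B := by
      have : 0 ≤ b ^ 2 := sq_nonneg b
      nlinarith
    have h4 : ((2 : ℕ) : ℝ≥0∞) = 2 := by norm_num
    rw [h4]
    refine h1.trans ?_
    gcongr
  -- `q ≥ 3`
  rw [nm_le_iff (by omega) hC0]
  have hq3' : (3 : ℝ) ≤ q := by exact_mod_cast hq3
  have hq0 : (0 : ℝ) < q := by linarith
  have hB0 : 0 < B := by linarith
  have hTn : Nice (T v) := hn v hv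
  have hun : Nice (l1f v) := nice_l1f hv
  set u : V n → ℝ := l1f v with hu
  have hu0 : ∀ x, 0 ≤ u x := fun x => l1f_nonneg v x
  -- layer cake
  have hlay : ∫⁻ x, ‖T v x‖ₑ ^ (q : ℝ) =
      ENNReal.ofReal q * ∫⁻ t in Ioi (0 : ℝ), volume {x | t < |T v x|} *
        ENNReal.ofReal (t ^ ((q : ℝ) - 1)) := by
    rw [← lintegral_rpow_eq_lintegral_meas_lt_mul volume
      (f := fun x => |T v x|) (Filter.Eventually.of_forall (fun x => abs_nonneg _))
      hTn.cont.abs.measurable.aemeasurable hq0]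
    refine lintegral_congr (fun x => ?_)
    rw [Real.enorm_eq_ofReal_abs, ENNReal.ofReal_rpow_of_nonneg (abs_nonneg _) hq0.le]
  rw [hlay]
  -- one level
  have hstep : ∀ l : ℝ, 0 < l → volume {x | l < |T v x|} * ENNReal.ofReal (l ^ ((q : ℝ) - 1)) ≤
      ∫⁻ x, ENNReal.ofReal (4 * (b ^ q) ^ 2 * (if l < 2 * B * u x then u x ^ 2 else 0) *
        l ^ ((q : ℝ) - 3)) := by
    intro l hl
    obtain ⟨c, hc⟩ : ∃ c : ℝ, c = l / (2 * B) := ⟨_, rfl⟩
    have hc0 : 0 < c := by rw [hc]; positivity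
    have hn2 : ∀ i, Nice (lo c v i) := nice_lo hc0 hv
    have hn1 : ∀ i, Nice ((fun i x => v i x - lo c v i x) i) := fun i => (hv i).sub (hn2 i)
    have hsum : T v = fun x => T (fun i x => v i x - lo c v i x) x + T (lo c v) x := by
      rw [← hadd _ _ hn1 hn2]
      congr 1
      funext i x
      ring
    -- the low part
    have hlow : ∀ᵐ x : V n, |T (lo c v) x| ≤ l / 2 := by
      have e1 := hi (lo c v) hn2
      have e2 : nm ⊤ (l1f (lo c v)) ≤ ENNReal.ofReal c := by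
        unfold nm
        refine (eLpNorm_le_of_ae_bound (C := c) (Filter.Eventually.of_forall fun x => ?_)).trans ?_
        · rw [Real.norm_eq_abs, abs_of_nonneg (l1f_nonneg _ _)]
          exact l1f_lo hc0 v x
        · simp
      have e3 : nm ⊤ (T (lo c v)) ≤ ENNReal.ofReal (l / 2) := by
        refine e1.trans ((mul_le_mul_right e2 _).trans ?_)
        rw [← ENNReal.ofReal_mul hB0.le]
        apply ENNReal.ofReal_le_ofReal
        rw [hc]
        apply le_of_eq
        field_simp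
      unfold nm at e3
      rw [eLpNorm_exponent_top] at e3
      filter_upwards [ae_le_eLpNormEssSup (f := T (lo c v)) (μ := (volume : Measure (V n)))] with x hx
      have e4 := hx.trans e3
      rw [Real.enorm_eq_ofReal_abs] at e4
      exact (ENNReal.ofReal_le_ofReal_iff (by positivity)).1 e4
    have hsub : volume {x | l < |T v x|} ≤
        volume {x | l / 2 < |T (fun i x => v i x - lo c v i x) x|} := by
      apply measure_mono_ae
      filter_upwards [hlow] with x hx h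
      have h' : l < |T v x| := h
      show l / 2 < |T (fun i x => v i x - lo c v i x) x|
      have e5 : T v x = T (fun i x => v i x - lo c v i x) x + T (lo c v) x := congrFun hsum x
      rw [e5] at h'
      have e6 := abs_add_le (T (fun i x => v i x - lo c v i x) x) (T (lo c v) x)
      linarith
    have hL2 := h2 _ hn1
    have h22 : (2 : ℝ≥0∞) = ((2 : ℕ) : ℝ≥0∞) := by norm_num
    rw [h22, nm_le_iff (by norm_num) (pow_nonneg hb q)] at hL2
    have hsq : ∫⁻ x, ‖l1f (fun i x => v i x - lo c v i x) x‖ₑ ^ ((2 : ℕ) : ℝ) ≤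
        ∫⁻ x, ENNReal.ofReal (if l < 2 * B * u x then u x ^ 2 else 0) := by
      refine lintegral_mono fun x => ?_
      rw [Real.enorm_eq_ofReal_abs, ENNReal.ofReal_rpow_of_nonneg (abs_nonneg _) (by norm_num),
        Real.rpow_natCast, abs_of_nonneg (l1f_nonneg _ _)]
      apply ENNReal.ofReal_le_ofReal
      have e7 := l1f_hi hc0 v x
      have e8 := l1f_nonneg (fun i x => v i x - lo c v i x) x
      have e9 : c < l1f v x ↔ l < 2 * B * u x := by
        rw [hc, div_lt_iff₀ (by positivity), hu]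
        constructor <;> intro h <;> linarith
      by_cases h : c < l1f v x
      · rw [if_pos h] at e7
        rw [if_pos (e9.1 h)]
        exact pow_le_pow_left₀ e8 e7 2
      · rw [if_neg h] at e7
        rw [if_neg (fun h' => h (e9.2 h'))]
        have : l1f (fun i x => v i x - lo c v i x) x = 0 := le_antisymm e7 e8
        rw [this]
        norm_num
    have hmk := markov2 (hn _ hn1).cont.measurable hl
    have hlq : 0 ≤ l ^ ((q : ℝ) - 1) := Real.rpow_nonneg hl.le _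
    calc volume {x | l < |T v x|} * ENNReal.ofReal (l ^ ((q : ℝ) - 1))
        ≤ (ENNReal.ofReal ((2 / l) ^ 2) * (ENNReal.ofReal ((b ^ q) ^ 2) *
            ∫⁻ x, ENNReal.ofReal (if l < 2 * B * u x then u x ^ 2 else 0))) *
            ENNReal.ofReal (l ^ ((q : ℝ) - 1)) := by
          refine mul_le_mul_left ?_ _
          refine hsub.trans (hmk.trans (mul_le_mul_right ?_ _))
          exact hL2.trans (mul_le_mul_right hsq _)
      _ = ∫⁻ x, ENNReal.ofReal (4 * (b ^ q) ^ 2 * (if l < 2 * B * u x then u x ^ 2 else 0) *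
            l ^ ((q : ℝ) - 3)) := by
          rw [← lintegral_const_mul' _ _ ENNReal.ofReal_ne_top,
            ← lintegral_const_mul' _ _ ENNReal.ofReal_ne_top,
            ← lintegral_mul_const' _ _ ENNReal.ofReal_ne_top]
          refine lintegral_congr fun x => ?_
          have hi0 : 0 ≤ if l < 2 * B * u x then u x ^ 2 else 0 := by
            split_ifs
            · positivity
            · exact le_rfl
          rw [← ENNReal.ofReal_mul (by positivity), ← ENNReal.ofReal_mul (by positivity),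
            ← ENNReal.ofReal_mul (by positivity)]
          congr 1
          have e10 : l ^ ((q : ℝ) - 1) = l ^ ((q : ℝ) - 3) * l ^ 2 := by
            rw [← Real.rpow_natCast l 2, ← Real.rpow_add hl]
            congr 1
            push_cast
            ring
          rw [e10]
          field_simp
          ring
  -- the integral over the levels
  have hin : ∀ x, ∫⁻ t in Ioi (0 : ℝ), ENNReal.ofReal (4 * (b ^ q) ^ 2 *
      (if t < 2 * B * u x then u x ^ 2 else 0) * t ^ ((q : ℝ) - 3)) =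
      ENNReal.ofReal (4 * (b ^ q) ^ 2 * (2 * B) ^ ((q : ℝ) - 2) / ((q : ℝ) - 2)) *
        ‖u x‖ₑ ^ (q : ℝ) := by
    intro x
    rw [Real.enorm_eq_ofReal_abs, abs_of_nonneg (hu0 x)]
    rcases (hu0 x).eq_or_lt with h0 | h0
    · rw [← h0]
      have e1 : ∀ t ∈ Ioi (0 : ℝ), ENNReal.ofReal (4 * (b ^ q) ^ 2 *
          (if t < 2 * B * 0 then (0 : ℝ) ^ 2 else 0) * t ^ ((q : ℝ) - 3)) = 0 := by
        intro t _
        simp
      rw [setLIntegral_congr_fun measurableSet_Ioi e1]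
      simp only [lintegral_const, zero_mul, ENNReal.ofReal_zero]
      rw [ENNReal.zero_rpow_of_pos hq0, mul_zero]
    · have hr : 0 < 2 * B * u x := by positivity
      have e1 : ∫⁻ t in Ioi (0 : ℝ), ENNReal.ofReal (4 * (b ^ q) ^ 2 *
          (if t < 2 * B * u x then u x ^ 2 else 0) * t ^ ((q : ℝ) - 3)) =
          ∫⁻ t in Ioo (0 : ℝ) (2 * B * u x), ENNReal.ofReal (4 * (b ^ q) ^ 2 * u x ^ 2) *
            ENNReal.ofReal (t ^ ((q : ℝ) - 3)) := by
        rw [← lintegral_indicator measurableSet_Ioi, ← lintegral_indicator measurableSet_Ioo]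
        refine lintegral_congr fun t => ?_
        by_cases ht : 0 < t
        · by_cases ht2 : t < 2 * B * u x
          · rw [indicator_of_mem (show t ∈ Ioi (0 : ℝ) from ht),
              indicator_of_mem (show t ∈ Ioo (0 : ℝ) (2 * B * u x) from ⟨ht, ht2⟩), if_pos ht2,
              ← ENNReal.ofReal_mul (by positivity)]
          · rw [indicator_of_mem (show t ∈ Ioi (0 : ℝ) from ht),
              indicator_of_notMem (fun h : t ∈ Ioo (0 : ℝ) (2 * B * u x) => ht2 h.2), if_neg ht2]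
            simp
        · rw [indicator_of_notMem (fun h : t ∈ Ioi (0 : ℝ) => ht h),
            indicator_of_notMem (fun h : t ∈ Ioo (0 : ℝ) (2 * B * u x) => ht h.1)]
      rw [e1, lintegral_const_mul' _ _ ENNReal.ofReal_ne_top, lint_low (by linarith) hr,
        ENNReal.ofReal_rpow_of_nonneg h0.le hq0.le, ← ENNReal.ofReal_mul (by positivity),
        ← ENNReal.ofReal_mul (by
          have : 0 < (q : ℝ) - 2 := by linarith
          positivity)]
      congr 1
      have e2 : (q : ℝ) - 3 + 1 = q - 2 := by ring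
      rw [e2, Real.mul_rpow (by positivity) h0.le]
      have e3 : u x ^ (q : ℝ) = u x ^ ((q : ℝ) - 2) * u x ^ 2 := by
        rw [← Real.rpow_natCast (u x) 2, ← Real.rpow_add h0]
        congr 1
        push_cast
        ring
      rw [e3]
      ring
  have hmeas : AEMeasurable (Function.uncurry fun (t : ℝ) (x : V n) =>
      ENNReal.ofReal (4 * (b ^ q) ^ 2 * (if t < 2 * B * u x then u x ^ 2 else 0) *
        t ^ ((q : ℝ) - 3))) ((volume.restrict (Ioi (0 : ℝ))).prod (volume : Measure (V n))) := by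
    apply Measurable.aemeasurable
    have hum : Measurable fun z : ℝ × V n => u z.2 := hun.cont.measurable.comp measurable_snd
    exact (((Measurable.ite (measurableSet_lt measurable_fst (hum.const_mul _)) (hum.pow_const _)
      measurable_const).const_mul _).mul (measurable_fst.pow_const _)).ennreal_ofReal
  have hfin : ∫⁻ t in Ioi (0 : ℝ), volume {x | t < |T v x|} *
      ENNReal.ofReal (t ^ ((q : ℝ) - 1)) ≤
      ENNReal.ofReal (4 * (b ^ q) ^ 2 * (2 * B) ^ ((q : ℝ) - 2) / ((q : ℝ) - 2)) *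
        ∫⁻ x, ‖u x‖ₑ ^ (q : ℝ) := by
    calc ∫⁻ t in Ioi (0 : ℝ), volume {x | t < |T v x|} * ENNReal.ofReal (t ^ ((q : ℝ) - 1))
        ≤ ∫⁻ t in Ioi (0 : ℝ), ∫⁻ x, ENNReal.ofReal (4 * (b ^ q) ^ 2 *
            (if t < 2 * B * u x then u x ^ 2 else 0) * t ^ ((q : ℝ) - 3)) :=
          setLIntegral_mono' measurableSet_Ioi fun l hl => hstep l hl
      _ = ∫⁻ x, ∫⁻ t in Ioi (0 : ℝ), ENNReal.ofReal (4 * (b ^ q) ^ 2 *
            (if t < 2 * B * u x then u x ^ 2 else 0) * t ^ ((q : ℝ) - 3)) :=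
          lintegral_lintegral_swap hmeas
      _ = ∫⁻ x, ENNReal.ofReal (4 * (b ^ q) ^ 2 * (2 * B) ^ ((q : ℝ) - 2) / ((q : ℝ) - 2)) *
            ‖u x‖ₑ ^ (q : ℝ) := lintegral_congr fun x => hin x
      _ = _ := lintegral_const_mul' _ _ ENNReal.ofReal_ne_top
  refine (mul_le_mul_right hfin _).trans ?_
  rw [← mul_assoc, ← ENNReal.ofReal_mul hq0.le]
  refine mul_le_mul_left (ENNReal.ofReal_le_ofReal ?_) _
  have e1 : (2 * B) ^ ((q : ℝ) - 2) = (2 * B) ^ (q - 2) := by
    rw [← Real.rpow_natCast, Nat.cast_sub (by omega)]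
    norm_num
  rw [e1]
  have hqm : 0 < (q : ℝ) - 2 := by linarith
  have e2 : (q : ℝ) * (4 * (b ^ q) ^ 2 * (2 * B) ^ (q - 2) / ((q : ℝ) - 2)) =
      (4 * q / ((q : ℝ) - 2)) * ((2 * B) ^ (q - 2) * (b ^ q) ^ 2) := by
    field_simp
  have e3 : 4 * (q : ℝ) / ((q : ℝ) - 2) ≤ 12 := by
    rw [div_le_iff₀ hqm]
    linarith
  have e4 : (2 * B) ^ (q - 2) ≤ (2 * B) ^ q := pow_le_pow_right₀ (by linarith) (by omega)
  have e5 : (12 : ℝ) ≤ 4 ^ q := by
    calc (12 : ℝ) ≤ 4 ^ 3 := by norm_num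
      _ ≤ 4 ^ q := pow_le_pow_right₀ (by norm_num) hq3
  calc (q : ℝ) * (4 * (b ^ q) ^ 2 * (2 * B) ^ (q - 2) / ((q : ℝ) - 2))
      = (4 * q / ((q : ℝ) - 2)) * ((2 * B) ^ (q - 2) * (b ^ q) ^ 2) := e2
    _ ≤ 4 ^ q * ((2 * B) ^ q * (b ^ q) ^ 2) := by
        refine mul_le_mul (e3.trans e5) ?_ (by positivity) (by positivity)
        exact mul_le_mul_of_nonneg_right e4 (by positivity)
    _ = (8 * b ^ 2 * B) ^ q := by
        rw [← pow_mul, mul_comm q 2, pow_mul, ← mul_pow, ← mul_pow]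
        congr 1
        ring

/-- The scalar case for multiplier operators. -/
theorem interpS {τ : V n → ℝ} {B : ℝ} {T : (V n → ℝ) → V n → ℝ} (hT : Opr τ B T) (hB : 1 ≤ B)
    {q : ℕ} (hq : 2 ≤ q) {b : ℝ} (hb : 0 ≤ b) (h : ∀ ξ, |τ ξ| ≤ b ^ q) :
    Bq q (8 * b ^ 2 * B) T := by
  intro f hf
  have hl : ∀ (p : ℝ≥0∞) (v : Fin 1 → V n → ℝ), nm p (l1f v) = nm p (v 0) := by
    intro p v
    have h1 : l1f v = fun x => ‖v 0 x‖ := by
      funext x
      unfold l1f
      rw [Fin.sum_univ_one, Real.norm_eq_abs]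
    rw [h1]
    exact eLpNorm_norm _
  have key := interpV (m := 1) (fun v => T (v 0)) (fun v hv => hT.nice _ (hv 0))
    (fun v w hv hw => hT.toMul.map_add (hv 0) (hw 0)) hq hb hB
    (fun v hv => by
      rw [hl]
      exact Mul.l2 hT.toMul (pow_nonneg hb q) h (v 0) (hv 0))
    (fun v hv => by
      rw [hl]
      exact hT.bd ⊤ le_top (v 0) (hv 0))
    (fun _ => f) (fun _ => hf)
  rw [hl] at key
  exact key

end Pool.Agent.UB
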