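import Pool.Agent.UB.OprA
import Pool.Agent.UB.Norms

/-!
# UB-Kv: weighted averages

`kv μ w f x = ∫ w y f (x + y) dμ(y)`, `w` bounded, measurable, even.

PLAN.  `nice_kv`, `isMul_kv`: as `CB.nice_cv` and `CB.isMul_cv` (files `CB/Cv.lean`, `CB/Fou.lean`), with the weight; or write
`w = (w + B) - B` with `B` a bound: `(w + B) μ` is `c` times a symmetric probability measure (`c = ∫ (w + B)`, if `c = 0` both
sides vanish), so `kv μ w f = c cv ν f - B cv μ f` and the symbols match by linearity.  `opr_kv`: norm at most `∫ |w|`: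
`|kv μ w f| ≤ kv μ |w| |f|`, and for `w ≥ 0` the operator is `c cv ν`, `c = ∫ w`, `ν` a probability measure.
`kv_sq`: Cauchy-Schwarz `(∫ w f)² ≤ (∫ w) (∫ w f²)` for `w ≥ 0`.
-/

set_option autoImplicit false

open MeasureTheory Set
open scoped ENNReal NNReal

namespace Pool.Agent.UB

open Pool.Agent.CB

variable {n : ℕ} {μ : Measure (V n)} {w w' : V n → ℝ}

/-- Admissible weights. -/
structure Wtt (w : V n → ℝ) : Prop where
  meas : Measurable w
  bdd : ∃ B, ∀ y, |w y| ≤ B
  even : ∀ y, w (-y) = w y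

/-- The symbol of `kv μ w`. -/
noncomputable def kvs (μ : Measure (V n)) (w : V n → ℝ) (ξ : V n) : ℝ :=
  ∫ y, w y * Real.cos (inner ℝ ξ y) ∂μ

private theorem kv_int (hμ : SymP μ) (hw : Wtt w) {g : V n → ℝ} (hg : Measurable g) {C : ℝ}
    (hC : ∀ x, |g x| ≤ C) (x : V n) : Integrable (fun y => w y * g (x + y)) μ := by
  haveI := hμ.prob
  obtain ⟨B, hB⟩ := hw.bdd
  refine Integrable.of_bound
    (hw.meas.mul (hg.comp (measurable_const_add x))).aestronglyMeasurable (B * C)
    (Filter.Eventually.of_forall fun y => ?_)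
  rw [Real.norm_eq_abs, abs_mul]
  exact mul_le_mul (hB y) (hC _) (abs_nonneg _) ((abs_nonneg _).trans (hB y))

private theorem kv_intn (hμ : SymP μ) (hw : Wtt w) {g : V n → ℝ} (hg : Nice g) (x : V n) :
    Integrable (fun y => w y * g (x + y)) μ := by
  obtain ⟨C, hC⟩ := hg.bdd
  exact kv_int hμ hw hg.cont.measurable hC x

private theorem w_int (hμ : SymP μ) (hw : Wtt w) : Integrable w μ := by
  haveI := hμ.prob
  obtain ⟨B, hB⟩ := hw.bdd
  exact Integrable.of_bound hw.meas.aestronglyMeasurable B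
    (Filter.Eventually.of_forall fun y => by rw [Real.norm_eq_abs]; exact hB y)

private theorem wtt_abs (hw : Wtt w) : Wtt fun y => |w y| := by
  obtain ⟨B, hB⟩ := hw.bdd
  exact ⟨hw.meas.abs, ⟨B, fun y => by rw [abs_abs]; exact hB y⟩, fun y => by rw [hw.even y]⟩

private theorem wd_symm (hμ : SymP μ) (hw : Wtt w) :
    (μ.withDensity fun y => ENNReal.ofReal (w y)).map (fun y => -y) =
      μ.withDensity fun y => ENNReal.ofReal (w y) := by
  have hm : Measurable fun y : V n => ENNReal.ofReal (w y) := hw.meas.ennreal_ofReal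
  ext s hs
  have hs' : MeasurableSet ((fun y : V n => -y) ⁻¹' s) := measurable_neg hs
  rw [Measure.map_apply measurable_neg hs, withDensity_apply _ hs', withDensity_apply _ hs,
    ← lintegral_indicator hs', ← lintegral_indicator hs]
  have h1 : ∫⁻ y, s.indicator (fun y => ENNReal.ofReal (w y)) y ∂μ =
      ∫⁻ y, s.indicator (fun y => ENNReal.ofReal (w y)) (-y) ∂μ := by
    conv_lhs => rw [← hμ.symm]
    exact lintegral_map (hm.indicator hs) measurable_neg
  rw [h1]
  refine lintegral_congr fun y => ?_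
  by_cases hy : -y ∈ s
  · have hy' : y ∈ (fun y : V n => -y) ⁻¹' s := hy
    rw [Set.indicator_of_mem hy, Set.indicator_of_mem hy', hw.even y]
  · have hy' : y ∉ (fun y : V n => -y) ⁻¹' s := hy
    rw [Set.indicator_of_notMem hy, Set.indicator_of_notMem hy']

private theorem kv_rep (hμ : SymP μ) (hw : Wtt w) (h0 : ∀ y, 0 ≤ w y) :
    ∃ ν : Measure (V n), SymP ν ∧ (∀ (f : V n → ℝ) (x : V n),
      kv μ w f x = (∫ y, w y ∂μ) * cv ν f x) ∧ ∀ ξ, kvs μ w ξ = (∫ y, w y ∂μ) * ft ν ξ := by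
  have hwi := w_int hμ hw
  have hc0 : 0 ≤ ∫ y, w y ∂μ := integral_nonneg h0
  rcases hc0.eq_or_lt with hc | hc
  · have h1 : w =ᵐ[μ] 0 := (integral_eq_zero_iff_of_nonneg h0 hwi).1 hc.symm
    refine ⟨μ, hμ, fun f x => ?_, fun ξ => ?_⟩
    · rw [← hc, zero_mul]
      unfold kv
      refine integral_eq_zero_of_ae ?_
      filter_upwards [h1] with y hy
      rw [hy]
      simp
    · rw [← hc, zero_mul]
      unfold kvs
      refine integral_eq_zero_of_ae ?_
      filter_upwards [h1] with y hy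
      rw [hy]
      simp
  · have hm : Measurable fun y : V n => ENNReal.ofReal (w y) := hw.meas.ennreal_ofReal
    have key : ∀ g : V n → ℝ, ∫ y, g y ∂(μ.withDensity fun y => ENNReal.ofReal (w y)) =
        ∫ y, w y * g y ∂μ := by
      intro g
      rw [integral_withDensity_eq_integral_toReal_smul hm
        (Filter.Eventually.of_forall fun y => ENNReal.ofReal_lt_top)]
      refine integral_congr_ae (Filter.Eventually.of_forall fun y => ?_)
      change (ENNReal.ofReal (w y)).toReal • g y = w y * g y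
      rw [ENNReal.toReal_ofReal (h0 y), smul_eq_mul]
    have hcE : ENNReal.ofReal (∫ y, w y ∂μ) ≠ 0 := (ENNReal.ofReal_pos.2 hc).ne'
    have hcT : ENNReal.ofReal (∫ y, w y ∂μ) ≠ ⊤ := ENNReal.ofReal_ne_top
    have key2 : ∀ g : V n → ℝ,
        ∫ y, g y ∂((ENNReal.ofReal (∫ y, w y ∂μ))⁻¹ •
          μ.withDensity fun y => ENNReal.ofReal (w y)) =
        (∫ y, w y ∂μ)⁻¹ * ∫ y, w y * g y ∂μ := by
      intro g
      rw [integral_smul_measure, key g, ENNReal.toReal_inv, ENNReal.toReal_ofReal hc.le,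
        smul_eq_mul]
    refine ⟨(ENNReal.ofReal (∫ y, w y ∂μ))⁻¹ • μ.withDensity fun y => ENNReal.ofReal (w y),
      ⟨⟨?_⟩, ?_⟩, fun f x => ?_, fun ξ => ?_⟩
    · rw [Measure.smul_apply, withDensity_apply _ MeasurableSet.univ, Measure.restrict_univ,
        ← ofReal_integral_eq_lintegral_ofReal hwi (Filter.Eventually.of_forall h0), smul_eq_mul]
      exact ENNReal.inv_mul_cancel hcE hcT
    · rw [Measure.map_smul, wd_symm hμ hw]
    · unfold cv kv
      rw [key2 fun y => f (x + y), ← mul_assoc, mul_inv_cancel₀ hc.ne', one_mul]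
    · unfold ft kvs
      rw [key2 fun y => Real.cos (inner ℝ ξ y), ← mul_assoc, mul_inv_cancel₀ hc.ne', one_mul]

private theorem cos_bd (ξ : V n) (y : V n) : |Real.cos (inner ℝ ξ y)| ≤ 1 :=
  Real.abs_cos_le_one _

private theorem opr_kv' (hμ : SymP μ) (hw : Wtt w) :
    Opr (kvs μ w) (∫ y, |w y| ∂μ) (kv μ w) := by
  obtain ⟨B, hB⟩ := hw.bdd
  have hp : Wtt fun y => max (w y) 0 :=
    ⟨hw.meas.max measurable_const, ⟨B, fun y => by
      rw [abs_of_nonneg (le_max_right _ _)]
      exact max_le ((le_abs_self _).trans (hB y)) ((abs_nonneg _).trans (hB y))⟩,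
      fun y => by rw [hw.even y]⟩
  have hm : Wtt fun y => max (-w y) 0 :=
    ⟨hw.meas.neg.max measurable_const, ⟨B, fun y => by
      rw [abs_of_nonneg (le_max_right _ _)]
      exact max_le ((neg_le_abs _).trans (hB y)) ((abs_nonneg _).trans (hB y))⟩,
      fun y => by rw [hw.even y]⟩
  have hsub : ∀ y, w y = max (w y) 0 - max (-w y) 0 := by
    intro y
    rcases le_total 0 (w y) with h | h
    · rw [max_eq_left h, max_eq_right (by linarith)]
      ring
    · rw [max_eq_right h, max_eq_left (by linarith)]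
      ring
  have habs : ∀ y, |w y| = max (w y) 0 + max (-w y) 0 := by
    intro y
    rcases le_total 0 (w y) with h | h
    · rw [max_eq_left h, max_eq_right (by linarith), abs_of_nonneg h]
      ring
    · rw [max_eq_right h, max_eq_left (by linarith), abs_of_nonpos h]
      ring
  obtain ⟨ν1, hν1, a1, b1⟩ := kv_rep hμ hp fun y => le_max_right _ _
  obtain ⟨ν2, hν2, a2, b2⟩ := kv_rep hμ hm fun y => le_max_right _ _
  have hc1 : 0 ≤ ∫ y, max (w y) 0 ∂μ := integral_nonneg fun y => le_max_right _ _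
  have hc2 : 0 ≤ ∫ y, max (-w y) 0 ∂μ := integral_nonneg fun y => le_max_right _ _
  have h1 := (((opr_cv hν1).smul (∫ y, max (w y) 0 ∂μ)).sub
    ((opr_cv hν2).smul (∫ y, max (-w y) 0 ∂μ)))
  have h2 : ∀ f, Nice f → kv μ w f = fun x =>
      (∫ y, max (w y) 0 ∂μ) * cv ν1 f x - (∫ y, max (-w y) 0 ∂μ) * cv ν2 f x := by
    intro f hf
    funext x
    rw [← a1, ← a2]
    unfold kv
    rw [← integral_sub (kv_intn hμ hp hf x) (kv_intn hμ hm hf x)]
    refine integral_congr_ae (Filter.Eventually.of_forall fun y => ?_)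
    change w y * f (x + y) = max (w y) 0 * f (x + y) - max (-w y) 0 * f (x + y)
    rw [← sub_mul, ← hsub y]
  have h3 : ∀ ξ, kvs μ w ξ =
      (∫ y, max (w y) 0 ∂μ) * ft ν1 ξ - (∫ y, max (-w y) 0 ∂μ) * ft ν2 ξ := by
    intro ξ
    rw [← b1, ← b2]
    unfold kvs
    have hcm : Measurable fun y : V n => Real.cos (inner ℝ ξ y) := by fun_prop
    have i1 := kv_int hμ hp hcm (cos_bd ξ) 0
    have i2 := kv_int hμ hm hcm (cos_bd ξ) 0
    simp only [zero_add] at i1 i2
    rw [← integral_sub i1 i2]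
    refine integral_congr_ae (Filter.Eventually.of_forall fun y => ?_)
    change w y * _ = max (w y) 0 * _ - max (-w y) 0 * _
    rw [← sub_mul, ← hsub y]
  have h4 := (h1.congr_symbol h3).congr_op h2
  refine h4.mono (le_of_eq ?_)
  rw [abs_of_nonneg hc1, abs_of_nonneg hc2, mul_one, mul_one,
    ← integral_add (w_int hμ hp) (w_int hμ hm)]
  refine integral_congr_ae (Filter.Eventually.of_forall fun y => ?_)
  exact (habs y).symm

theorem mul_kv (hμ : SymP μ) (hw : Wtt w) : Mul (kvs μ w) (kv μ w) := by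
  exact (opr_kv' hμ hw).toMul

theorem opr_kv (hμ : SymP μ) (hw : Wtt w) : Opr (kvs μ w) (∫ y, |w y| ∂μ) (kv μ w) := by
  exact opr_kv' hμ hw

theorem abs_kv_le (hμ : SymP μ) (hw : Wtt w) (hw' : Wtt w') (h : ∀ᵐ y ∂μ, |w y| ≤ w' y)
    {f : V n → ℝ} (hf : Nice f) (x : V n) : |kv μ w f x| ≤ kv μ w' (fun y => |f y|) x := by
  have h1 : |kv μ w f x| ≤ ∫ y, |w y * f (x + y)| ∂μ := abs_integral_le_integral_abs
  refine h1.trans ?_
  have i1 := (kv_intn hμ hw hf x).abs
  have i2 : Integrable (fun y => w' y * |f (x + y)|) μ := by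
    obtain ⟨C, hC⟩ := hf.bdd
    exact kv_int hμ hw' (g := fun y => |f y|) hf.cont.measurable.abs
      (fun x => by rw [abs_abs]; exact hC x) x
  refine integral_mono_ae i1 i2 ?_
  filter_upwards [h] with y hy
  rw [abs_mul]
  exact mul_le_mul_of_nonneg_right hy (abs_nonneg _)

theorem kv_nonneg (h : ∀ᵐ y ∂μ, 0 ≤ w y) {f : V n → ℝ} (hf : ∀ x, 0 ≤ f x) (x : V n) :
    0 ≤ kv μ w f x := by
  refine integral_nonneg_of_ae ?_
  filter_upwards [h] with y hy
  exact mul_nonneg hy (hf _)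

theorem kv_mono (hμ : SymP μ) (hw : Wtt w) (h : ∀ᵐ y ∂μ, 0 ≤ w y) {f g : V n → ℝ} (hf : Nice f)
    (hg : Nice g) (hfg : ∀ x, f x ≤ g x) (x : V n) : kv μ w f x ≤ kv μ w g x := by
  refine integral_mono_ae (kv_intn hμ hw hf x) (kv_intn hμ hw hg x) ?_
  filter_upwards [h] with y hy
  exact mul_le_mul_of_nonneg_left (hfg _) hy

theorem kv_sub_weight (hμ : SymP μ) (hw : Wtt w) (hw' : Wtt w') {f : V n → ℝ} (hf : Nice f) :
    kv μ (fun y => w y - w' y) f = fun x => kv μ w f x - kv μ w' f x := by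
  funext x
  unfold kv
  rw [← integral_sub (kv_intn hμ hw hf x) (kv_intn hμ hw' hf x)]
  refine integral_congr_ae (Filter.Eventually.of_forall fun y => ?_)
  exact sub_mul _ _ _

theorem kv_add_weight (hμ : SymP μ) (hw : Wtt w) (hw' : Wtt w') {f : V n → ℝ} (hf : Nice f) :
    kv μ (fun y => w y + w' y) f = fun x => kv μ w f x + kv μ w' f x := by
  funext x
  unfold kv
  rw [← integral_add (kv_intn hμ hw hf x) (kv_intn hμ hw' hf x)]
  refine integral_congr_ae (Filter.Eventually.of_forall fun y => ?_)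
  exact add_mul _ _ _

theorem kv_le_cv (hμ : SymP μ) (hw : Wtt w) {B : ℝ} (hB : ∀ᵐ y ∂μ, |w y| ≤ B) {f : V n → ℝ}
    (hf : Nice f) (x : V n) : |kv μ w f x| ≤ B * cv μ (fun y => |f y|) x := by
  haveI := hμ.prob
  have h1 : |kv μ w f x| ≤ ∫ y, |w y * f (x + y)| ∂μ := abs_integral_le_integral_abs
  refine h1.trans ?_
  have i1 := (kv_intn hμ hw hf x).abs
  have i2 : Integrable (fun y => |f (x + y)|) μ := (cv_integrable hf x).abs
  unfold cv
  rw [← integral_const_mul]
  refine integral_mono_ae i1 (i2.const_mul B) ?_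
  filter_upwards [hB] with y hy
  rw [abs_mul]
  exact mul_le_mul_of_nonneg_right hy (abs_nonneg _)

/-- Cauchy-Schwarz. -/
theorem kv_sq (hμ : SymP μ) (hw : Wtt w) (h : ∀ᵐ y ∂μ, 0 ≤ w y) {f : V n → ℝ} (hf : Nice f)
    (x : V n) : kv μ w f x ^ 2 ≤ (∫ y, w y ∂μ) * kv μ w (fun y => f y ^ 2) x := by
  obtain ⟨C, hC⟩ := hf.bdd
  have hC0 : 0 ≤ C := (abs_nonneg _).trans (hC 0)
  have i0 := w_int hμ hw
  have i1 := kv_intn hμ hw hf x
  have i2 : Integrable (fun y => w y * f (x + y) ^ 2) μ :=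
    kv_int hμ hw (g := fun y => f y ^ 2) (hf.cont.measurable.pow_const 2) (C := C ^ 2)
      (fun x => by
        rw [abs_pow]
        exact pow_le_pow_left₀ (abs_nonneg _) (hC x) 2) x
  have key : ∀ l : ℝ, 0 ≤ (∫ y, w y ∂μ) * (l * l) + (-2 * kv μ w f x) * l +
      kv μ w (fun y => f y ^ 2) x := by
    intro l
    have h1 : 0 ≤ ∫ y, w y * (f (x + y) - l) ^ 2 ∂μ := by
      refine integral_nonneg_of_ae ?_
      filter_upwards [h] with y hy
      exact mul_nonneg hy (sq_nonneg _)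
    have h2 : ∫ y, w y * (f (x + y) - l) ^ 2 ∂μ =
        ∫ y, (w y * f (x + y) ^ 2 - (2 * l) * (w y * f (x + y)) + (l * l) * w y) ∂μ := by
      refine integral_congr_ae (Filter.Eventually.of_forall fun y => ?_)
      change w y * (f (x + y) - l) ^ 2 = _
      ring
    have i3 : Integrable (fun y => w y * f (x + y) ^ 2 - (2 * l) * (w y * f (x + y))) μ :=
      i2.sub (i1.const_mul (2 * l))
    rw [h2, integral_add i3 (i0.const_mul (l * l)),
      integral_sub i2 (i1.const_mul (2 * l)), integral_const_mul, integral_const_mul] at h1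
    have h3 : (∫ y, w y ∂μ) * (l * l) + (-2 * kv μ w f x) * l + kv μ w (fun y => f y ^ 2) x =
        ∫ y, w y * f (x + y) ^ 2 ∂μ - 2 * l * ∫ y, w y * f (x + y) ∂μ +
          l * l * ∫ y, w y ∂μ := by
      unfold kv
      ring
    rw [h3]
    exact h1
  have h4 := discrim_le_zero key
  unfold discrim at h4
  nlinarith

end Pool.Agent.UB
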