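import Pool.Agent.UB.Chord
import Pool.Agent.UB.Kv

/-!
# UB-Sgn: averaging over signs

PLAN.  `unif K` is invariant under sign changes (`Unc.sign_inv`) and `w` too, so `E w cos <ξ, Y> = E w 2^(-n) ∑_ε cos (∑ ε_j ξ_j Y_j)`,
and `2^(-n) ∑_ε cos (∑ ε_j x_j) = ∏ cos x_j` (real part of `∏ (e^{i x_j} + e^{-i x_j})/2`, or induction on `n`).
`phi_le_one`, `phi_nonneg` trivial.
-/

set_option autoImplicit false

open MeasureTheory Set
open scoped ENNReal NNReal

namespace Pool.Agent.UB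

open Pool.Agent.CB

variable {n : ℕ} {K : Set (V n)}

theorem mean_cos (x : Fin n → ℝ) :
    (1 / 2 ^ n : ℝ) * ∑ ε : Fin n → Bool, Real.cos (∑ j, sg (ε j) * x j) = ∏ j, Real.cos (x j) := by
  have h1 : ∑ ε : Fin n → Bool, Complex.exp (((∑ j, sg (ε j) * x j : ℝ) : ℂ) * Complex.I) =
      ∏ j, ∑ b : Bool, Complex.exp (((sg b * x j : ℝ) : ℂ) * Complex.I) := by
    rw [Finset.prod_univ_sum, Fintype.piFinset_univ]
    refine Finset.sum_congr rfl fun ε _ => ?_
    rw [← Complex.exp_sum]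
    congr 1
    push_cast
    rw [Finset.sum_mul]
  have h2 : ∀ j, ∑ b : Bool, Complex.exp (((sg b * x j : ℝ) : ℂ) * Complex.I) =
      ((2 * Real.cos (x j) : ℝ) : ℂ) := by
    intro j
    rw [Fintype.sum_bool]
    push_cast
    rw [Complex.cos]
    simp [sg]
    ring
  rw [Finset.prod_congr rfl fun j _ => h2 j] at h1
  have h3 := congrArg Complex.re h1
  rw [Complex.re_sum] at h3
  simp only [Complex.exp_ofReal_mul_I_re] at h3
  rw [h3, ← Complex.ofReal_prod, Complex.ofReal_re, Finset.prod_mul_distrib, Finset.prod_const,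
    Finset.card_univ, Fintype.card_fin]
  field_simp

private theorem inner_flip (ξ y : V n) (ε : Fin n → Bool) :
    inner ℝ ξ (WithLp.toLp 2 fun i => sg (ε i) * y i : V n) = ∑ j, sg (ε j) * (ξ j * y j) := by
  rw [PiLp.inner_apply]
  refine Finset.sum_congr rfl fun j _ => ?_
  simp
  ring

private theorem flip_meas (ε : Fin n → Bool) :
    Measurable (fun y : V n => (WithLp.toLp 2 fun i => sg (ε i) * y i : V n)) := by
  have : Continuous (fun y : V n => (WithLp.toLp 2 fun i => sg (ε i) * y i : V n)) := by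
    fun_prop
  exact this.measurable

private theorem abs_sg (b : Bool) : |sg b| = 1 := by
  cases b <;> simp [sg]

private theorem int_bdd {μ : Measure (V n)} [IsProbabilityMeasure μ] {f : V n → ℝ}
    (hf : Measurable f) {B : ℝ} (h : ∀ y, |f y| ≤ B) : Integrable f μ :=
  (integrable_const B).mono' hf.aestronglyMeasurable (ae_of_all _ fun y => h y)

private theorem kvs_flip (hK : Unc K) {w : V n → ℝ} (hw : Wtt w)
    (hs : ∀ y z : V n, (∀ j, |z j| = |y j|) → w z = w y) (ξ : V n) (ε : Fin n → Bool) :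
    kvs (MX.unif K) w ξ = ∫ y, w y * Real.cos (∑ j, sg (ε j) * (ξ j * y j)) ∂(MX.unif K) := by
  have hm : Measurable fun y : V n => w y * Real.cos (inner ℝ ξ y) :=
    hw.meas.mul (by fun_prop)
  unfold kvs
  conv_lhs => rw [← hK.sign_inv ε]
  rw [integral_map (flip_meas ε).aemeasurable hm.aestronglyMeasurable]
  refine integral_congr_ae (ae_of_all _ fun y => ?_)
  simp only
  rw [inner_flip]
  congr 1
  exact hs _ _ fun j => by
    simp [abs_mul, abs_sg]

theorem kvs_eq (hK : Unc K) {w : V n → ℝ} (hw : Wtt w)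
    (hs : ∀ y z : V n, (∀ j, |z j| = |y j|) → w z = w y) (ξ : V n) :
    kvs (MX.unif K) w ξ = ∫ y, w y * ∏ j, Real.cos (ξ j * y j) ∂(MX.unif K) := by
  haveI := hK.prob
  obtain ⟨B, hB⟩ := hw.bdd
  have h1 : ∑ _ε : Fin n → Bool, kvs (MX.unif K) w ξ =
      ∑ ε : Fin n → Bool, ∫ y, w y * Real.cos (∑ j, sg (ε j) * (ξ j * y j)) ∂(MX.unif K) :=
    Finset.sum_congr rfl fun ε _ => kvs_flip hK hw hs ξ ε
  have hint : ∀ ε ∈ (Finset.univ : Finset (Fin n → Bool)),
      Integrable (fun y : V n => w y * Real.cos (∑ j, sg (ε j) * (ξ j * y j))) (MX.unif K) := by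
    intro ε _
    refine int_bdd (B := B) (hw.meas.mul (by fun_prop)) fun y => ?_
    rw [abs_mul]
    have := Real.abs_cos_le_one (∑ j, sg (ε j) * (ξ j * y j))
    nlinarith [hB y, abs_nonneg (w y)]
  rw [Finset.sum_const, Finset.card_univ, Fintype.card_fun, Fintype.card_bool, Fintype.card_fin,
    nsmul_eq_mul, ← integral_finsetSum _ hint] at h1
  push_cast at h1
  have h2 : ∫ y, w y * ∏ j, Real.cos (ξ j * y j) ∂(MX.unif K) =
      (1 / 2 ^ n : ℝ) * ∫ y, ∑ ε : Fin n → Bool,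
        w y * Real.cos (∑ j, sg (ε j) * (ξ j * y j)) ∂(MX.unif K) := by
    rw [← integral_const_mul]
    refine integral_congr_ae (ae_of_all _ fun y => ?_)
    simp only
    rw [← mean_cos, ← Finset.mul_sum]
    ring
  rw [h2, ← h1]
  field_simp

theorem Phi_nonneg (K : Set (V n)) (ξ : V n) : 0 ≤ Phi K ξ := by
  unfold Phi
  exact integral_nonneg fun y => Finset.prod_nonneg fun j _ => abs_nonneg _

private theorem prod_le (ξ y : V n) : ∏ j, |Real.cos (ξ j * y j)| ≤ 1 :=
  Finset.prod_le_one (fun j _ => abs_nonneg _) fun j _ => Real.abs_cos_le_one _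

private theorem int_prod (hK : Unc K) (ξ : V n) :
    Integrable (fun y : V n => ∏ j, |Real.cos (ξ j * y j)|) (MX.unif K) := by
  haveI := hK.prob
  refine int_bdd (B := 1) ?_ fun y => ?_
  · refine Finset.measurable_prod _ fun j _ => ?_
    fun_prop
  · rw [abs_of_nonneg (Finset.prod_nonneg fun j _ => abs_nonneg _)]
    exact prod_le ξ y

theorem kvs_le (hK : Unc K) {w : V n → ℝ} (hw : Wtt w)
    (hs : ∀ y z : V n, (∀ j, |z j| = |y j|) → w z = w y) {B : ℝ} (hB0 : 0 ≤ B)
    (hB : ∀ᵐ y ∂(MX.unif K), |w y| ≤ B) (ξ : V n) : |kvs (MX.unif K) w ξ| ≤ B * Phi K ξ := by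
  haveI := hK.prob
  rw [kvs_eq hK hw hs ξ]
  unfold Phi
  rw [← integral_const_mul]
  refine (abs_integral_le_integral_abs).trans ?_
  refine integral_mono_of_nonneg (ae_of_all _ fun y => abs_nonneg _) ((int_prod hK ξ).const_mul B) ?_
  filter_upwards [hB] with y hy
  rw [abs_mul, Finset.abs_prod]
  exact mul_le_mul_of_nonneg_right hy (Finset.prod_nonneg fun j _ => abs_nonneg _)

theorem ft_le_Phi (hK : Unc K) (ξ : V n) : |ft (MX.unif K) ξ| ≤ Phi K ξ := by
  have h1 := kvs_le hK (w := fun _ => 1) ⟨measurable_const, ⟨1, fun _ => by simp⟩, fun _ => rfl⟩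
    (fun _ _ _ => rfl) zero_le_one (ae_of_all _ fun _ => by simp) ξ
  have h2 : kvs (MX.unif K) (fun _ => 1) ξ = ft (MX.unif K) ξ := by
    unfold kvs ft
    simp
  rw [h2, one_mul] at h1
  exact h1

theorem Phi_le_one (hK : Unc K) (ξ : V n) : Phi K ξ ≤ 1 := by
  haveI := hK.prob
  unfold Phi
  calc ∫ y, ∏ j, |Real.cos (ξ j * y j)| ∂(MX.unif K) ≤ ∫ _y, (1 : ℝ) ∂(MX.unif K) :=
        integral_mono (int_prod hK ξ) (integrable_const 1) fun y => prod_le ξ y
    _ = 1 := by simp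

end Pool.Agent.UB
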