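import Pool.Agent.UB.XG
import Pool.Agent.UB.Sgn
import Pool.Agent.UB.IntV

/-!
# UB-PA: part (a) of the main estimate: `P Q (1 - S)^J`

`interpS` for `T = P Q (1-S)^J`, norm `≤ 2^(M0) 2^J =: B`, symbol `ft P · (1-g)^(M0) · (1-s)^J`, `|ft P| ≤ Phi` (`ft_le_Phi`),
`0 ≤ 1 - g ≤ 1`, `0 ≤ 1 - s ≤ min (1, 4 λ Am)`, `λ = N^(-γ)`.  If `Am ≤ N^(γ/2)`: `≤ (4 N^(-γ/2))^J ≤ 4^J N^(-q/2)` when `J ≥ q/γ`.  If
`Am > N^(γ/2)`: `≤ Phi ≤ c l (1 + Am)^(-l) ≤ c l N^(-γ l/2) ≤ c l N^(-q/2)` with `l = J`.  So `|symbol| ≤ b^q` with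
`b = (1 + 4^J + |c J|) N^(-1/2)`, result `8 b² B`.
-/

set_option autoImplicit false

open MeasureTheory Set
open scoped ENNReal NNReal

namespace Pool.Agent.UB

open Pool.Agent.CB

private theorem Am_nonneg' {n : ℕ} (ξ : V n) : 0 ≤ Am ξ :=
  Finset.sum_nonneg fun _ _ => le_min zero_le_one (sq_nonneg _)

private theorem symb_bound (c : ℕ → ℝ) {γ : ℝ} (hγ : 0 < γ) {q : ℕ} (hq : 2 ≤ q) (M0 : ℕ) {J : ℕ}
    (hJ : (q : ℝ) ≤ γ * J) {n : ℕ} {K : Set (V n)} (hK : Geo c K) {N : ℝ} (hN : 1 ≤ N) {r : ℝ}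
    (hr : 0 < r) (hr1 : r ≤ 1) (ξ : V n) :
    |ft (MX.unif K) ξ * ((1 - Real.exp (-(N⁻¹ * ‖ξ‖) ^ 2 / 2)) ^ M0 *
      (1 - ss r (N ^ (-γ)) ξ) ^ J)| ≤ ((1 + 4 ^ J + |c J|) * N ^ (-(1 / 2) : ℝ)) ^ q := by
  have hN0 : 0 < N := by linarith
  have hl0 : 0 < N ^ (-γ) := Real.rpow_pos_of_pos hN0 _
  have hl1 : N ^ (-γ) ≤ 1 := Real.rpow_le_one_of_one_le_of_nonpos hN (by linarith)
  obtain ⟨hs0, hs1, hs2⟩ := ss_bd (n := n) hr hr1 hl0 hl1 ξ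
  have hft := ft_le_Phi hK.toUnc ξ
  have hP0 := Phi_nonneg K ξ
  have hP1 := Phi_le_one hK.toUnc ξ
  have hAm := Am_nonneg' ξ
  have he0 : 0 ≤ 1 - Real.exp (-(N⁻¹ * ‖ξ‖) ^ 2 / 2) := by
    have : Real.exp (-(N⁻¹ * ‖ξ‖) ^ 2 / 2) ≤ 1 := by
      rw [Real.exp_le_one_iff]
      have := sq_nonneg (N⁻¹ * ‖ξ‖)
      linarith
    linarith
  have he1 : 1 - Real.exp (-(N⁻¹ * ‖ξ‖) ^ 2 / 2) ≤ 1 := by
    have := Real.exp_pos (-(N⁻¹ * ‖ξ‖) ^ 2 / 2)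
    linarith
  have hb0 : 0 ≤ (1 - Real.exp (-(N⁻¹ * ‖ξ‖) ^ 2 / 2)) ^ M0 := pow_nonneg he0 _
  have hb1 : (1 - Real.exp (-(N⁻¹ * ‖ξ‖) ^ 2 / 2)) ^ M0 ≤ 1 := pow_le_one₀ he0 he1
  have hd0 : 0 ≤ (1 - ss r (N ^ (-γ)) ξ) ^ J := pow_nonneg (by linarith) _
  have hd1 : (1 - ss r (N ^ (-γ)) ξ) ^ J ≤ 1 := pow_le_one₀ (by linarith) (by linarith)
  have hA1 : (1 : ℝ) ≤ 1 + 4 ^ J + |c J| := by
    have h1 : (0 : ℝ) ≤ 4 ^ J := by positivity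
    have h2 := abs_nonneg (c J)
    linarith
  -- the power of `N`
  have hpow : N ^ (-(γ * J / 2)) ≤ (N ^ (-(1 / 2) : ℝ)) ^ q := by
    rw [← Real.rpow_natCast, ← Real.rpow_mul hN0.le]
    refine Real.rpow_le_rpow_of_exponent_le hN ?_
    linarith
  have hkey : |ft (MX.unif K) ξ| * ((1 - Real.exp (-(N⁻¹ * ‖ξ‖) ^ 2 / 2)) ^ M0 *
      (1 - ss r (N ^ (-γ)) ξ) ^ J) ≤ (1 + 4 ^ J + |c J|) * N ^ (-(γ * J / 2)) := by
    have hNp : 0 ≤ N ^ (-(γ * J / 2)) := Real.rpow_nonneg hN0.le _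
    rcases le_or_gt (Am ξ) (N ^ (γ / 2)) with hc | hc
    · have h1 : 1 - ss r (N ^ (-γ)) ξ ≤ 4 * N ^ (-(γ / 2)) := by
        calc 1 - ss r (N ^ (-γ)) ξ ≤ 4 * N ^ (-γ) * Am ξ := hs2
          _ ≤ 4 * N ^ (-γ) * N ^ (γ / 2) := by gcongr
          _ = 4 * N ^ (-(γ / 2)) := by
            rw [mul_assoc, ← Real.rpow_add hN0]
            congr 2
            ring
      have h2 : (1 - ss r (N ^ (-γ)) ξ) ^ J ≤ 4 ^ J * N ^ (-(γ * J / 2)) := by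
        calc (1 - ss r (N ^ (-γ)) ξ) ^ J ≤ (4 * N ^ (-(γ / 2))) ^ J :=
              pow_le_pow_left₀ (by linarith) h1 _
          _ = 4 ^ J * N ^ (-(γ * J / 2)) := by
            rw [mul_pow, ← Real.rpow_natCast (N ^ (-(γ / 2))), ← Real.rpow_mul hN0.le]
            congr 2
            ring
      calc |ft (MX.unif K) ξ| * ((1 - Real.exp (-(N⁻¹ * ‖ξ‖) ^ 2 / 2)) ^ M0 *
            (1 - ss r (N ^ (-γ)) ξ) ^ J)
          ≤ 1 * (1 * (4 ^ J * N ^ (-(γ * J / 2)))) := by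
            gcongr
            exact hft.trans hP1
        _ = 4 ^ J * N ^ (-(γ * J / 2)) := by ring
        _ ≤ (1 + 4 ^ J + |c J|) * N ^ (-(γ * J / 2)) := by
            refine mul_le_mul_of_nonneg_right ?_ hNp
            have h2 := abs_nonneg (c J)
            linarith
    · have h1 : N ^ (γ * J / 2) ≤ (1 + Am ξ) ^ J := by
        calc N ^ (γ * J / 2) = (N ^ (γ / 2)) ^ J := by
              rw [← Real.rpow_natCast (N ^ (γ / 2)), ← Real.rpow_mul hN0.le]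
              congr 1
              ring
          _ ≤ (1 + Am ξ) ^ J := by
              refine pow_le_pow_left₀ (Real.rpow_nonneg hN0.le _) ?_ _
              linarith
      have h2 : Phi K ξ ≤ |c J| * N ^ (-(γ * J / 2)) := by
        have h3 := hK.dec J ξ
        have h4 : Phi K ξ * N ^ (γ * J / 2) ≤ |c J| :=
          ((mul_le_mul_of_nonneg_left h1 hP0).trans h3).trans (le_abs_self _)
        rw [Real.rpow_neg hN0.le, ← div_eq_mul_inv, le_div_iff₀ (Real.rpow_pos_of_pos hN0 _)]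
        exact h4
      calc |ft (MX.unif K) ξ| * ((1 - Real.exp (-(N⁻¹ * ‖ξ‖) ^ 2 / 2)) ^ M0 *
            (1 - ss r (N ^ (-γ)) ξ) ^ J)
          ≤ (|c J| * N ^ (-(γ * J / 2))) * (1 * 1) := by
            gcongr
            exact hft.trans h2
        _ = |c J| * N ^ (-(γ * J / 2)) := by ring
        _ ≤ (1 + 4 ^ J + |c J|) * N ^ (-(γ * J / 2)) := by
            refine mul_le_mul_of_nonneg_right ?_ hNp
            have h2 : (0 : ℝ) ≤ 4 ^ J := by positivity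
            linarith
  rw [abs_mul, abs_of_nonneg (mul_nonneg hb0 hd0)]
  calc _ ≤ (1 + 4 ^ J + |c J|) * N ^ (-(γ * J / 2)) := hkey
    _ ≤ (1 + 4 ^ J + |c J|) ^ q * (N ^ (-(1 / 2) : ℝ)) ^ q := by
        gcongr
        exact le_self_pow₀ hA1 (by omega)
    _ = ((1 + 4 ^ J + |c J|) * N ^ (-(1 / 2) : ℝ)) ^ q := (mul_pow _ _ _).symm

theorem partA (c : ℕ → ℝ) {γ : ℝ} (hγ : 0 < γ) {q : ℕ} (hq : 2 ≤ q) (M0 : ℕ) :
    ∃ (J : ℕ) (C : ℝ), 0 ≤ C ∧ ∀ (n : ℕ) (K : Set (V n)), Geo c K → ∀ N : ℝ, 1 ≤ N →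
      ∀ r : ℝ, 0 < r → r ≤ 1 →
        Bq q (C * N⁻¹) fun f => cv (MX.unif K) (Qa N⁻¹ M0 ((om (So r (N ^ (-γ))))^[J] f)) := by
  set J : ℕ := ⌈(q : ℝ) / γ⌉₊ with hJdef
  have hJ : (q : ℝ) ≤ γ * J := by
    have h1 : (q : ℝ) / γ ≤ J := Nat.le_ceil _
    rw [div_le_iff₀ hγ] at h1
    linarith
  refine ⟨J, 8 * (1 + 4 ^ J + |c J|) ^ 2 * (2 ^ M0 * 2 ^ J), by positivity, ?_⟩
  intro n K hK N hN r hr hr1
  have hN0 : 0 < N := by linarith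
  have hl0 : 0 < N ^ (-γ) := Real.rpow_pos_of_pos hN0 _
  have hl1 : N ^ (-γ) ≤ 1 := Real.rpow_le_one_of_one_le_of_nonpos hN (by linarith)
  have hP := opr_cv hK.toUnc.symP
  have hQ := opr_Qa (n := n) (a := N⁻¹) (by positivity) M0
  have hS := (opr_So (n := n) hr hl0 hl1).om.iter J
  have hT := hP.comp (hQ.comp hS)
  have hB : (1 : ℝ) ≤ 1 * (2 ^ M0 * (1 + 1) ^ J) := by
    have h1 : (1 : ℝ) ≤ 2 ^ M0 := one_le_pow₀ (by norm_num)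
    have h2 : (1 : ℝ) ≤ (1 + 1) ^ J := one_le_pow₀ (by norm_num)
    have h3 := one_le_mul_of_one_le_of_one_le h1 h2
    linarith
  have hmain := interpS hT hB hq (b := (1 + 4 ^ J + |c J|) * N ^ (-(1 / 2) : ℝ)) (by positivity)
    fun ξ => symb_bound c hγ hq M0 hJ hK hN hr hr1 ξ
  have he : 8 * ((1 + 4 ^ J + |c J|) * N ^ (-(1 / 2) : ℝ)) ^ 2 * (1 * (2 ^ M0 * (1 + 1) ^ J)) =
      8 * (1 + 4 ^ J + |c J|) ^ 2 * (2 ^ M0 * 2 ^ J) * N⁻¹ := by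
    have h1 : (N ^ (-(1 / 2) : ℝ)) ^ 2 = N⁻¹ := by
      rw [← Real.rpow_natCast, ← Real.rpow_mul hN0.le, ← Real.rpow_neg_one]
      congr 1
      norm_num
    rw [mul_pow, h1]
    norm_num
    ring
  rw [he] at hmain
  exact hmain

end Pool.Agent.UB
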