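import Pool.Agent.UB.XG
import Pool.Agent.UB.Sgn
import Pool.Agent.UB.IntV

/-!
# UB-PB: part (b1) of the main estimate: `P Q S S^G`

PLAN.  `interpS` for `T = P Q S S^G`, norm `≤ 2^(M0) =: B`, symbol at most `Phi · (1 - g)^(M0) · sgs` in absolute value, `0 ≤ ss ≤ 1`.
It is enough that it is `≤ C N^(-q/2)`.  Cases:
(i) `‖ξ‖ ≤ N^(1-γ)`: `1 - g ≤ N⁻² ‖ξ‖²/2 ≤ N^(-2γ)`, power `M0 ≥ q/(4γ)`.
(ii) `Am ξ > N^γ`: `Phi ≤ c l N^(-γ l)`, `l ≥ q/(2γ)` (`Geo.dec`).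
(iii) otherwise `‖ξ‖² > N^(2-2γ)`, `Am ≤ N^γ`: the coordinates with `|ξ_j| < 1` contribute at most `Am ≤ N^γ` to `‖ξ‖²`, and there are
at most `Am ≤ N^γ` coordinates with `|ξ_j| ≥ 1`; so some `ξ_j² ≥ (N^(2-2γ) - N^γ)/N^γ = N^(2-3γ) - 1 ≥ N^(2-4γ)` if `N ≥ N_1(γ)`
(`γ ≤ 1/8`), so `|ξ_j| ≥ N^(1-2γ) ≥ 2/r` and `sgs ≤ exp (-N^γ/2) ≤ C N^(-q/2)` (`sgs_small`).  For `N < N_1` the symbol is `≤ 1 ≤ N_1^(q/2) N^(-q/2)`.
-/

set_option autoImplicit false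

open MeasureTheory Set
open scoped ENNReal NNReal

namespace Pool.Agent.UB

open Pool.Agent.CB

private theorem pb_exp {x : ℝ} (hx : 0 ≤ x) (l : ℕ) :
    Real.exp (-x / 2) * x ^ l ≤ (l.factorial : ℝ) * 2 ^ l := by
  have h1 := Real.pow_div_factorial_le_exp (x / 2) (by positivity) l
  have hf : (0 : ℝ) < l.factorial := by exact_mod_cast l.factorial_pos
  rw [div_le_iff₀ hf, div_pow, div_le_iff₀ (by positivity)] at h1
  have h2 : Real.exp (-x / 2) * Real.exp (x / 2) = 1 := by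
    rw [← Real.exp_add]
    convert Real.exp_zero using 2
    ring
  calc Real.exp (-x / 2) * x ^ l
      ≤ Real.exp (-x / 2) * (Real.exp (x / 2) * (l.factorial : ℝ) * 2 ^ l) :=
        mul_le_mul_of_nonneg_left h1 (Real.exp_pos _).le
    _ = (Real.exp (-x / 2) * Real.exp (x / 2)) * ((l.factorial : ℝ) * 2 ^ l) := by ring
    _ = (l.factorial : ℝ) * 2 ^ l := by rw [h2, one_mul]

/-- a large coordinate -/
private theorem pb_coord {n : ℕ} {ξ : V n} {γ N r : ℝ} (hγ : 0 < γ) (hγ1 : γ ≤ 1 / 8)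
    (hN : 1 ≤ N) (hr : 0 < r) (hr2 : 2 * N ^ (-1 + 2 * γ) ≤ r) (h1 : N ^ (1 - γ) < ‖ξ‖)
    (h2 : Am ξ ≤ N ^ γ) : ∃ j, 2 / r ≤ |ξ j| := by
  by_contra hcon
  push Not at hcon
  have hN0 : 0 < N := by linarith
  have hW : 2 / r ≤ N ^ (1 - 2 * γ) := by
    rw [div_le_iff₀ hr]
    have h3 : N ^ (1 - 2 * γ) * (2 * N ^ (-1 + 2 * γ)) = 2 := by
      have h4 : N ^ (1 - 2 * γ) * N ^ (-1 + 2 * γ) = 1 := by
        rw [← Real.rpow_add hN0]
        convert Real.rpow_zero N using 2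
        ring
      calc N ^ (1 - 2 * γ) * (2 * N ^ (-1 + 2 * γ)) =
          2 * (N ^ (1 - 2 * γ) * N ^ (-1 + 2 * γ)) := by ring
        _ = 2 := by rw [h4, mul_one]
    have h5 := mul_le_mul_of_nonneg_left hr2 (Real.rpow_nonneg hN0.le (1 - 2 * γ))
    linarith
  have hW1 : 1 ≤ N ^ (1 - 2 * γ) := Real.one_le_rpow hN (by linarith)
  have h3 : ∀ j, ξ j ^ 2 ≤ min 1 (ξ j ^ 2) * (N ^ (1 - 2 * γ)) ^ 2 := by
    intro j
    have h4 : ξ j ^ 2 ≤ (N ^ (1 - 2 * γ)) ^ 2 := by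
      rw [← sq_abs (ξ j)]
      exact pow_le_pow_left₀ (abs_nonneg _) ((hcon j).le.trans hW) 2
    have h5 : 1 ≤ (N ^ (1 - 2 * γ)) ^ 2 := one_le_pow₀ hW1
    rcases le_total 1 (ξ j ^ 2) with h | h
    · rw [min_eq_left h, one_mul]
      exact h4
    · rw [min_eq_right h]
      exact le_mul_of_one_le_right (sq_nonneg _) h5
  have h4 : ‖ξ‖ ^ 2 ≤ Am ξ * (N ^ (1 - 2 * γ)) ^ 2 := by
    rw [EuclideanSpace.norm_sq_eq, Am, Finset.sum_mul]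
    refine Finset.sum_le_sum fun j _ => ?_
    rw [Real.norm_eq_abs, sq_abs]
    exact h3 j
  have h5 : (N ^ (1 - γ)) ^ 2 < ‖ξ‖ ^ 2 :=
    pow_lt_pow_left₀ h1 (Real.rpow_nonneg hN0.le _) two_ne_zero
  have h6 : Am ξ * (N ^ (1 - 2 * γ)) ^ 2 ≤ N ^ γ * (N ^ (1 - 2 * γ)) ^ 2 :=
    mul_le_mul_of_nonneg_right h2 (sq_nonneg _)
  have h7 : N ^ γ * (N ^ (1 - 2 * γ)) ^ 2 = N ^ (2 - 3 * γ) := by
    rw [← Real.rpow_natCast, ← Real.rpow_mul hN0.le, ← Real.rpow_add hN0]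
    congr 1
    push_cast
    ring
  have h8 : (N ^ (1 - γ)) ^ 2 = N ^ (2 - 2 * γ) := by
    rw [← Real.rpow_natCast, ← Real.rpow_mul hN0.le]
    congr 1
    push_cast
    ring
  have h9 : N ^ (2 - 3 * γ) ≤ N ^ (2 - 2 * γ) :=
    Real.rpow_le_rpow_of_exponent_le hN (by linarith)
  rw [h7] at h6
  rw [h8] at h5
  linarith

theorem partB (c : ℕ → ℝ) {γ : ℝ} (hγ : 0 < γ) (hγ1 : γ ≤ 1 / 8) {q : ℕ} (hq : 2 ≤ q) :
    ∃ (M0 : ℕ) (C : ℝ), 0 ≤ C ∧ ∀ (n : ℕ) (K : Set (V n)), Geo c K → ∀ N : ℝ, 1 ≤ N →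
      ∀ r : ℝ, 0 < r → r ≤ 1 → 2 * N ^ (-1 + 2 * γ) ≤ r →
        Bq q (C * N⁻¹) fun f =>
          cv (MX.unif K) (Qa N⁻¹ M0 (So r (N ^ (-γ)) (SG r (N ^ γ) f))) := by
  obtain ⟨l, hl⟩ := exists_nat_ge ((q : ℝ) / (2 * γ))
  obtain ⟨M0, hM0⟩ := exists_nat_ge ((q : ℝ) / (4 * γ))
  rw [div_le_iff₀ (by positivity)] at hl hM0
  obtain ⟨A, hA⟩ : ∃ A : ℝ, A = 1 + |c l| + (l.factorial : ℝ) * 2 ^ l := ⟨_, rfl⟩
  have hfac : (0 : ℝ) ≤ (l.factorial : ℝ) * 2 ^ l := by positivity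
  have hcl := abs_nonneg (c l)
  have hA1 : 1 ≤ A := by rw [hA]; linarith
  have hA0 : 0 ≤ A := by linarith
  refine ⟨M0, 8 * A ^ 2 * 2 ^ M0, by positivity, fun n K hK N hN r hr hr1 hr2 => ?_⟩
  have hN0 : 0 < N := by linarith
  have hlam0 : 0 < N ^ (-γ) := Real.rpow_pos_of_pos hN0 _
  have hlam1 : N ^ (-γ) ≤ 1 := Real.rpow_le_one_of_one_le_of_nonpos hN (by linarith)
  have hmu0 : 0 < N ^ γ := Real.rpow_pos_of_pos hN0 _
  have hT := (opr_cv hK.symP).comp ((opr_Qa (n := n) (a := N⁻¹) (by positivity) M0).comp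
    ((opr_So (n := n) hr hlam0 hlam1).comp (opr_SG (n := n) hr hmu0)))
  have hB : (1 : ℝ) ≤ 1 * (2 ^ M0 * (1 * 1)) := by
    rw [one_mul, mul_one, mul_one]
    exact one_le_pow₀ (by norm_num)
  obtain ⟨u, hu⟩ : ∃ u : ℝ, u = N ^ (-((q : ℝ) / 2)) := ⟨_, rfl⟩
  have hu0 : 0 < u := by rw [hu]; exact Real.rpow_pos_of_pos hN0 _
  -- powers of `N`
  have f1 : 1 ≤ (N ^ γ) ^ l * u := by
    rw [hu, ← Real.rpow_natCast, ← Real.rpow_mul hN0.le, ← Real.rpow_add hN0]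
    exact Real.one_le_rpow hN (by linarith)
  have f2 : (N ^ (-(2 * γ))) ^ M0 ≤ u := by
    rw [hu, ← Real.rpow_natCast, ← Real.rpow_mul hN0.le]
    exact Real.rpow_le_rpow_of_exponent_le hN (by linarith)
  have hb : ∀ ξ : V n, |ft (MX.unif K) ξ * ((1 - Real.exp (-(N⁻¹ * ‖ξ‖) ^ 2 / 2)) ^ M0 *
      (ss r (N ^ (-γ)) ξ * sgs r (N ^ γ) ξ))| ≤ (A * N ^ (-(1 / 2 : ℝ))) ^ q := by
    intro ξ
    have a1 := ft_le_Phi hK.toUnc ξ
    have a2 := Phi_nonneg K ξ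
    have a3 := Phi_le_one hK.toUnc ξ
    obtain ⟨b1, b2, -⟩ := ss_bd hr hr1 hlam0 hlam1 ξ
    obtain ⟨d1, d2⟩ := sgs_bd hr hmu0 ξ
    have e1 : 0 ≤ 1 - Real.exp (-(N⁻¹ * ‖ξ‖) ^ 2 / 2) := by
      have : Real.exp (-(N⁻¹ * ‖ξ‖) ^ 2 / 2) ≤ 1 := by
        rw [Real.exp_le_one_iff]
        have := sq_nonneg (N⁻¹ * ‖ξ‖)
        linarith
      linarith
    have e2 : 1 - Real.exp (-(N⁻¹ * ‖ξ‖) ^ 2 / 2) ≤ 1 := by
      have := Real.exp_pos (-(N⁻¹ * ‖ξ‖) ^ 2 / 2)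
      linarith
    have e3 : 1 - Real.exp (-(N⁻¹ * ‖ξ‖) ^ 2 / 2) ≤ (N⁻¹ * ‖ξ‖) ^ 2 := by
      have h3 := Real.add_one_le_exp (-(N⁻¹ * ‖ξ‖) ^ 2 / 2)
      have := sq_nonneg (N⁻¹ * ‖ξ‖)
      linarith
    have g0 := pow_nonneg e1 M0
    have g1 : (1 - Real.exp (-(N⁻¹ * ‖ξ‖) ^ 2 / 2)) ^ M0 ≤ 1 := pow_le_one₀ e1 e2
    have hfin : A * u ≤ (A * N ^ (-(1 / 2 : ℝ))) ^ q := by
      rw [mul_pow, ← Real.rpow_natCast (N ^ (-(1 / 2 : ℝ))), ← Real.rpow_mul hN0.le]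
      have h3 : -(1 / 2 : ℝ) * (q : ℝ) = -((q : ℝ) / 2) := by ring
      rw [h3, ← hu]
      refine mul_le_mul_of_nonneg_right ?_ hu0.le
      exact le_self_pow₀ hA1 (by omega)
    refine le_trans ?_ hfin
    rw [abs_mul, abs_of_nonneg (mul_nonneg g0 (mul_nonneg b1 d1))]
    obtain ⟨g, hg⟩ : ∃ g : ℝ, g = (1 - Real.exp (-(N⁻¹ * ‖ξ‖) ^ 2 / 2)) ^ M0 := ⟨_, rfl⟩
    have hmain : Phi K ξ * (g * (ss r (N ^ (-γ)) ξ * sgs r (N ^ γ) ξ)) ≤ A * u := by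
      rw [← hg] at g0 g1
      have hAu : u ≤ A * u := le_mul_of_one_le_left hu0.le hA1
      have x1 : ss r (N ^ (-γ)) ξ * sgs r (N ^ γ) ξ ≤ sgs r (N ^ γ) ξ :=
        mul_le_of_le_one_left d1 b2
      have x0 : 0 ≤ ss r (N ^ (-γ)) ξ * sgs r (N ^ γ) ξ := mul_nonneg b1 d1
      have x2 : g * (ss r (N ^ (-γ)) ξ * sgs r (N ^ γ) ξ) ≤ sgs r (N ^ γ) ξ :=
        (mul_le_of_le_one_left x0 g1).trans x1
      have x3 : g * (ss r (N ^ (-γ)) ξ * sgs r (N ^ γ) ξ) ≤ g :=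
        mul_le_of_le_one_right g0 (x1.trans d2)
      have x4 : 0 ≤ g * (ss r (N ^ (-γ)) ξ * sgs r (N ^ γ) ξ) := mul_nonneg g0 x0
      rcases le_or_gt ‖ξ‖ (N ^ (1 - γ)) with h1 | h1
      · have h2 : N⁻¹ * ‖ξ‖ ≤ N ^ (-γ) := by
          have h3 : N⁻¹ * N ^ (1 - γ) = N ^ (-γ) := by
            rw [← Real.rpow_neg_one, ← Real.rpow_add hN0]
            congr 1
            ring
          rw [← h3]
          exact mul_le_mul_of_nonneg_left h1 (by positivity)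
        have h4 : (N⁻¹ * ‖ξ‖) ^ 2 ≤ N ^ (-(2 * γ)) := by
          have h5 : (N ^ (-γ)) ^ 2 = N ^ (-(2 * γ)) := by
            rw [← Real.rpow_natCast, ← Real.rpow_mul hN0.le]
            congr 1
            push_cast
            ring
          rw [← h5]
          exact pow_le_pow_left₀ (by positivity) h2 2
        have h6 : g ≤ u := by
          rw [hg]
          exact (pow_le_pow_left₀ e1 (e3.trans h4) M0).trans f2
        calc Phi K ξ * (g * (ss r (N ^ (-γ)) ξ * sgs r (N ^ γ) ξ))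
            ≤ g * (ss r (N ^ (-γ)) ξ * sgs r (N ^ γ) ξ) := mul_le_of_le_one_left x4 a3
          _ ≤ g := x3
          _ ≤ u := h6
          _ ≤ A * u := hAu
      · rcases le_or_gt (Am ξ) (N ^ γ) with h2 | h2
        · obtain ⟨j, hj⟩ := pb_coord hγ hγ1 hN hr hr2 h1 h2
          have h3 := sgs_small hr hmu0 ξ j hj
          have h4 := pb_exp hmu0.le l
          have h5 : sgs r (N ^ γ) ξ ≤ (l.factorial : ℝ) * 2 ^ l * u := by
            calc sgs r (N ^ γ) ξ ≤ Real.exp (-(N ^ γ) / 2) * 1 := by rw [mul_one]; exact h3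
              _ ≤ Real.exp (-(N ^ γ) / 2) * ((N ^ γ) ^ l * u) :=
                  mul_le_mul_of_nonneg_left f1 (Real.exp_pos _).le
              _ = Real.exp (-(N ^ γ) / 2) * (N ^ γ) ^ l * u := by ring
              _ ≤ (l.factorial : ℝ) * 2 ^ l * u := mul_le_mul_of_nonneg_right h4 hu0.le
          have h6 : (l.factorial : ℝ) * 2 ^ l * u ≤ A * u := by
            refine mul_le_mul_of_nonneg_right ?_ hu0.le
            rw [hA]
            linarith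
          calc Phi K ξ * (g * (ss r (N ^ (-γ)) ξ * sgs r (N ^ γ) ξ))
              ≤ g * (ss r (N ^ (-γ)) ξ * sgs r (N ^ γ) ξ) := mul_le_of_le_one_left x4 a3
            _ ≤ sgs r (N ^ γ) ξ := x2
            _ ≤ (l.factorial : ℝ) * 2 ^ l * u := h5
            _ ≤ A * u := h6
        · have h3 := hK.dec l ξ
          have h4 : (N ^ γ) ^ l ≤ (1 + Am ξ) ^ l := pow_le_pow_left₀ hmu0.le (by linarith) l
          have h5 : Phi K ξ ≤ |c l| * u := by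
            calc Phi K ξ = Phi K ξ * 1 := (mul_one _).symm
              _ ≤ Phi K ξ * ((N ^ γ) ^ l * u) := mul_le_mul_of_nonneg_left f1 a2
              _ = Phi K ξ * (N ^ γ) ^ l * u := by ring
              _ ≤ Phi K ξ * (1 + Am ξ) ^ l * u :=
                  mul_le_mul_of_nonneg_right (mul_le_mul_of_nonneg_left h4 a2) hu0.le
              _ ≤ |c l| * u := mul_le_mul_of_nonneg_right (h3.trans (le_abs_self _)) hu0.le
          have h6 : |c l| * u ≤ A * u := by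
            refine mul_le_mul_of_nonneg_right ?_ hu0.le
            rw [hA]
            linarith
          calc Phi K ξ * (g * (ss r (N ^ (-γ)) ξ * sgs r (N ^ γ) ξ))
              ≤ Phi K ξ := mul_le_of_le_one_right a2 (x3.trans g1)
            _ ≤ |c l| * u := h5
            _ ≤ A * u := h6
    rw [← hg]
    exact (mul_le_mul_of_nonneg_right a1 (by
      rw [hg]
      exact mul_nonneg g0 (mul_nonneg b1 d1))).trans hmain
  have key := interpS hT hB hq (b := A * N ^ (-(1 / 2 : ℝ))) (by positivity) hb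
  refine Bq.mono (le_of_eq ?_) key
  have h3 : (N ^ (-(1 / 2 : ℝ))) ^ 2 = N⁻¹ := by
    rw [← Real.rpow_natCast, ← Real.rpow_mul hN0.le, ← Real.rpow_neg_one]
    congr 1
    norm_num
  rw [mul_pow, h3]
  ring

end Pool.Agent.UB
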