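import Pool.Agent.UB.Rec

/-!
# UB-Sec3: the vector valued inequalities

PLAN.  Induction on `j`.  `j = 1`: `vb_two`.  Step: `q = 2^j = 2 · 2^(j-1)`.  With `V = C_j N^(2γ)` and `Δ = C N^γ (V + 1)` induction on `m ≥ b + 1`
(`kb_base` with `θ = 2^(-b-1)`, then `rec_step`, allowed as long as `2^(-m) ≥ N⁻¹` for the old `m`): `KB q (2^(b+1) + (m - b - 1) Δ) (ta K b 2^(-m))`.
`vb_of_kb` with the mass `2 (c 0 + 1) 2^(-b)` (`mass_wt`; use `|c 0|`): `VB (2q) √(2 (|c 0|+1) 2^(-b) (2^(b+1) + m Δ))`, and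
`m ≤ 2 log N`... since `2^m ≤ N`, `m ≤ C_γ N^γ` (`Real.add_one_le_exp`, `x ≤ e^x`: `m log 2 ≤ log N ≤ N^γ/γ`, `Real.log_le_rpow_div`), so it is
`≤ √(C (1 + N^γ N^γ N^(2γ))) ≤ C_(j+1) N^(2γ)`.
-/

set_option autoImplicit false

open MeasureTheory Set
open scoped ENNReal NNReal

namespace Pool.Agent.UB

open Pool.Agent.CB

private theorem m_le {γ : ℝ} (hγ : 0 < γ) {N : ℝ} (hN : 1 ≤ N) {m : ℕ}
    (hm : N⁻¹ ≤ (1 / 2 : ℝ) ^ m) : (m : ℝ) ≤ 1 / (γ * Real.log 2) * N ^ γ := by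
  have hN0 : 0 < N := by linarith
  have h1 : (2 : ℝ) ^ m ≤ N := by
    have h2 : (1 / 2 : ℝ) ^ m = ((2 : ℝ) ^ m)⁻¹ := by rw [one_div, inv_pow]
    rw [h2] at hm
    exact (inv_le_inv₀ hN0 (by positivity)).1 hm
  have h3 : (m : ℝ) * Real.log 2 ≤ Real.log N := by
    have := Real.log_le_log (by positivity) h1
    rwa [Real.log_pow] at this
  have h4 : Real.log N ≤ N ^ γ / γ := Real.log_le_rpow_div hN0.le hγ
  have h5 : 0 < Real.log 2 := Real.log_pos (by norm_num)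
  have h6 : (m : ℝ) * Real.log 2 ≤ N ^ γ / γ := h3.trans h4
  rw [div_mul_eq_mul_div, one_mul, le_div_iff₀ (by positivity)]
  rw [le_div_iff₀ hγ] at h6
  linarith

theorem sec3 (c : ℕ → ℝ) {γ : ℝ} (hγ : 0 < γ) {j : ℕ} (hj : 1 ≤ j) :
    ∃ C : ℝ, 0 ≤ C ∧ ∀ (n : ℕ) (K : Set (V n)), Geo c K → ∀ N : ℝ, 1 ≤ N →
      ∀ b m : ℕ, b + 1 ≤ m → N⁻¹ ≤ (1 / 2 : ℝ) ^ m →
        VB ((2 ^ j : ℕ) : ℝ≥0∞) (C * N ^ (2 * γ)) (ta K b ((1 / 2) ^ m)) := by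
  induction j, hj using Nat.le_induction with
  | base =>
    refine ⟨2 * (|c 0| + 1), by positivity, ?_⟩
    intro n K hK N hN b m hbm _
    have h1 := vb_two hK b (θ := (1 / 2) ^ m) (by positivity)
      (pow_le_pow_of_le_one (by norm_num) (by norm_num) hbm)
    have h2 : (1 : ℝ) ≤ N ^ (2 * γ) := Real.one_le_rpow hN (by positivity)
    have h3 : ((2 ^ 1 : ℕ) : ℝ≥0∞) = 2 := by norm_num
    rw [h3]
    exact VB.mono (by nlinarith [abs_nonneg (c 0)]) h1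
  | succ j hj ih =>
    obtain ⟨C₁, hC₁, h₁⟩ := ih
    have hq1 : 1 ≤ 2 ^ (j - 1) := Nat.one_le_two_pow
    have hq2 : 2 * 2 ^ (j - 1) = 2 ^ j := by
      rw [← pow_succ']
      congr 1
      omega
    obtain ⟨C, hC, h⟩ := rec_step c hγ hq1
    rw [hq2] at h
    set D : ℝ := 1 / (γ * Real.log 2) with hD
    have hlog : 0 < Real.log 2 := Real.log_pos (by norm_num)
    have hD0 : 0 ≤ D := by positivity
    refine ⟨Real.sqrt (2 * (|c 0| + 1) * (2 + D * C * (C₁ + 1))), Real.sqrt_nonneg _, ?_⟩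
    intro n K hK N hN b m hbm hm
    have hN0 : 0 < N := by linarith
    have hp1 : (1 : ℝ) ≤ N ^ γ := Real.one_le_rpow hN hγ.le
    have hp2 : (1 : ℝ) ≤ N ^ (2 * γ) := Real.one_le_rpow hN (by positivity)
    set W : ℝ := C₁ * N ^ (2 * γ) with hW
    have hW0 : 0 ≤ W := by positivity
    set Δ : ℝ := C * N ^ γ * (W + 1) with hΔ
    have hΔ0 : 0 ≤ Δ := by positivity
    have key : ∀ m : ℕ, b + 1 ≤ m → N⁻¹ ≤ (1 / 2 : ℝ) ^ m →
        KB ((2 ^ j : ℕ) : ℝ≥0∞) (2 ^ (b + 1) + ((m - (b + 1) : ℕ) : ℝ) * Δ)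
          (ta K b ((1 / 2) ^ m)) := by
      intro m hbm
      induction m, hbm using Nat.le_induction with
      | base =>
        intro _
        have h3 := kb_base hK.toUnc b (θ := (1 / 2) ^ (b + 1)) (by positivity)
          (q := ((2 ^ j : ℕ) : ℝ≥0∞)) (by exact_mod_cast Nat.one_le_two_pow)
        refine KB.mono (le_of_eq ?_) h3
        rw [Nat.sub_self, Nat.cast_zero, zero_mul, add_zero, one_div, inv_pow, inv_inv]
      | succ m hbm ihm =>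
        intro hm1
        have hle : (1 / 2 : ℝ) ^ (m + 1) ≤ (1 / 2 : ℝ) ^ m :=
          pow_le_pow_of_le_one (by norm_num) (by norm_num) (Nat.le_succ m)
        have hm0 : N⁻¹ ≤ (1 / 2 : ℝ) ^ m := hm1.trans hle
        have h4 := h n K hK N hN b ((1 / 2) ^ m) (by positivity)
          (pow_le_pow_of_le_one (by norm_num) (by norm_num) hbm) hm0
          (2 ^ (b + 1) + ((m - (b + 1) : ℕ) : ℝ) * Δ) W (by positivity) hW0 (ihm hm0)
          (h₁ n K hK N hN b m hbm hm0)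
        have h5 : (1 / 2 : ℝ) ^ m / 2 = (1 / 2) ^ (m + 1) := by rw [pow_succ]; ring
        rw [h5] at h4
        refine KB.mono (le_of_eq ?_) h4
        have h6 : m + 1 - (b + 1) = (m - (b + 1)) + 1 := by omega
        rw [h6]
        push_cast
        rw [hΔ]
        ring
    have hkb := key m hbm hm
    have hθ : (0 : ℝ) < (1 / 2) ^ m := by positivity
    have hθb : (1 / 2 : ℝ) ^ m ≤ (1 / 2) ^ (b + 1) :=
      pow_le_pow_of_le_one (by norm_num) (by norm_num) hbm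
    have h7 := vb_of_kb hK.toUnc (w := wt K b ((1 / 2) ^ m)) (fun i => wtt_wt hK.toUnc b hθ i)
      (fun i => Filter.Eventually.of_forall fun y => wt_nonneg b hθ i y)
      (m := 2 * (|c 0| + 1) * (1 / 2) ^ b) (C := 2 ^ (b + 1) + ((m - (b + 1) : ℕ) : ℝ) * Δ)
      (by positivity) (by positivity)
      (fun i => (mass_wt hK b hθ hθb i).trans (by
        have : c 0 ≤ |c 0| := le_abs_self _
        have hb : (0 : ℝ) < (1 / 2) ^ b := by positivity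
        nlinarith)) (q := 2 ^ j) Nat.one_le_two_pow hkb
    have h8 : ((2 * 2 ^ j : ℕ) : ℝ≥0∞) = ((2 ^ (j + 1) : ℕ) : ℝ≥0∞) := by
      rw [pow_succ']
    rw [h8] at h7
    refine VB.mono ?_ h7
    have hmD : (m : ℝ) ≤ D * N ^ γ := m_le hγ hN hm
    have hb1 : (1 / 2 : ℝ) ^ b ≤ 1 := pow_le_one₀ (by norm_num) (by norm_num)
    have hb0 : (0 : ℝ) ≤ (1 / 2) ^ b := by positivity
    have hb2 : (1 / 2 : ℝ) ^ b * 2 ^ (b + 1) = 2 := by
      rw [pow_succ, ← mul_assoc, ← mul_pow]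
      norm_num
    have hmm : ((m - (b + 1) : ℕ) : ℝ) ≤ D * N ^ γ :=
      le_trans (by exact_mod_cast Nat.sub_le m (b + 1)) hmD
    have e1 : N ^ γ * N ^ γ = N ^ (2 * γ) := by rw [← Real.rpow_add hN0]; ring_nf
    have e2 : N ^ (2 * γ) * N ^ (2 * γ) = (N ^ (2 * γ)) ^ 2 := by ring
    have hW1 : W + 1 ≤ (C₁ + 1) * N ^ (2 * γ) := by rw [hW]; nlinarith
    have hmΔ : ((m - (b + 1) : ℕ) : ℝ) * Δ ≤ D * C * (C₁ + 1) * (N ^ (2 * γ)) ^ 2 := by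
      calc ((m - (b + 1) : ℕ) : ℝ) * Δ ≤ (D * N ^ γ) * (C * N ^ γ * ((C₁ + 1) * N ^ (2 * γ))) := by
            refine mul_le_mul hmm ?_ hΔ0 (by positivity)
            rw [hΔ]
            exact mul_le_mul_of_nonneg_left hW1 (by positivity)
        _ = D * C * (C₁ + 1) * ((N ^ γ * N ^ γ) * N ^ (2 * γ)) := by ring
        _ = D * C * (C₁ + 1) * (N ^ (2 * γ)) ^ 2 := by rw [e1, e2]
    have h9 : (1 / 2 : ℝ) ^ b * (2 ^ (b + 1) + ((m - (b + 1) : ℕ) : ℝ) * Δ) ≤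
        (2 + D * C * (C₁ + 1)) * (N ^ (2 * γ)) ^ 2 := by
      have hx : (1 / 2 : ℝ) ^ b * (((m - (b + 1) : ℕ) : ℝ) * Δ) ≤ 1 * (((m - (b + 1) : ℕ) : ℝ) * Δ) :=
        mul_le_mul_of_nonneg_right hb1 (by positivity)
      have hsq : (1 : ℝ) ≤ (N ^ (2 * γ)) ^ 2 := one_le_pow₀ hp2
      calc (1 / 2 : ℝ) ^ b * (2 ^ (b + 1) + ((m - (b + 1) : ℕ) : ℝ) * Δ)
          = (1 / 2 : ℝ) ^ b * 2 ^ (b + 1) + (1 / 2 : ℝ) ^ b * (((m - (b + 1) : ℕ) : ℝ) * Δ) := by ring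
        _ ≤ 2 + D * C * (C₁ + 1) * (N ^ (2 * γ)) ^ 2 := by rw [hb2]; linarith
        _ ≤ _ := by nlinarith
    have h10 : 2 * (|c 0| + 1) * (1 / 2) ^ b * (2 ^ (b + 1) + ((m - (b + 1) : ℕ) : ℝ) * Δ) ≤
        2 * (|c 0| + 1) * (2 + D * C * (C₁ + 1)) * (N ^ (2 * γ)) ^ 2 := by
      calc _ = 2 * (|c 0| + 1) * ((1 / 2) ^ b * (2 ^ (b + 1) + ((m - (b + 1) : ℕ) : ℝ) * Δ)) := by ring
        _ ≤ 2 * (|c 0| + 1) * ((2 + D * C * (C₁ + 1)) * (N ^ (2 * γ)) ^ 2) :=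
            mul_le_mul_of_nonneg_left h9 (by positivity)
        _ = _ := by ring
    refine (Real.sqrt_le_sqrt h10).trans (le_of_eq ?_)
    rw [Real.sqrt_mul' _ (by positivity), Real.sqrt_sq (by positivity)]

end Pool.Agent.UB
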