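import Pool.Agent.UB.FI
import Pool.Agent.UB.PA
import Pool.Agent.UB.PB
import Pool.Agent.UB.Sec3

/-!
# UB-MainE: the main estimate

`‖P (1 - G_a)^(M0)‖_q ≤ C a^(1-δ)`, `q = 2^j`.

PLAN.  `γ = δ/16 ≤ 1/16`, `N = 1/a`, `λ = N^(-γ)`, `mu = N^γ`, `M0` and `C_B` from `partB` (`q = 2^j`), then `J`, `C_A` from `partA`.  For
`N < N_0(γ)` (where `4 N^(-1+2γ) ≤ 1/2` fails) use the norm bound `2^(M0) ≤ C a^(1-δ)`.  For `N ≥ N_0`: `m ≥ 1` with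
`2 N^(-1+2γ) ≤ r := 2^(-m) ≤ 4 N^(-1+2γ)` (`m = ⌊log_2 (N^(1-2γ)/2)⌋`, or `exists_nat_pow_near`).  `f = (1-S)^J f + S f'`, `f' = FJ f` (`FJ_id`),
`S f' = S (SG f') + S (om SG f')` (linearity), so
`P Q f = P Q (1-S)^J f + P Q S SG f' + TD f' + TC f'` (`ident`).  Norms: `C_A/N`, `2^J C_B/N`, and with `j' = 2^(j-1)`:
`TC`: `2^J r² 2^(M0) N^γ c3 N^γ ≤ C N^(-2+4γ+2γ)`; `TD` (`partD` with `W = C_3 N^(2γ)` from `sec3`, `b + 1 ≤ m`, `N⁻¹ ≤ 2^(-m)`, `Ws = √|c 0|`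
from `vb_ws`): `2^J 2^(M0) N^γ c3 N^γ · r (m W + Ws) √8 N^(γ/2)`, `m ≤ C N^(γ/2)` (as `2^m ≤ N`): `≤ C N^(-1+7γ)`.  All `≤ C N^(-1+16γ)`.
-/

set_option autoImplicit false

open MeasureTheory Set
open scoped ENNReal NNReal

namespace Pool.Agent.UB

open Pool.Agent.CB

private theorem me_scale {s : ℝ} (hs : 0 < s) (hs1 : s ≤ 1 / 2) :
    ∃ m : ℕ, 1 ≤ m ∧ s ≤ (1 / 2 : ℝ) ^ m ∧ (1 / 2 : ℝ) ^ m ≤ 2 * s := by
  have h0 : (2 : ℝ) ≤ s⁻¹ := by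
    rw [le_inv_comm₀ two_pos hs]
    linarith
  obtain ⟨m, hm1, hm2⟩ := exists_nat_pow_near (by linarith : (1 : ℝ) ≤ s⁻¹) (one_lt_two)
  have hm : 1 ≤ m := by
    rcases Nat.eq_zero_or_pos m with h | h
    · rw [h] at hm2
      norm_num at hm2
      linarith
    · exact h
  refine ⟨m, hm, ?_, ?_⟩
  · rw [one_div, inv_pow, le_inv_comm₀ hs (by positivity)]
    exact hm1
  · rw [one_div, inv_pow]
    have h1 : s⁻¹ < 2 * 2 ^ m := by
      rw [pow_succ'] at hm2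
      exact hm2
    have h2 : (2 * 2 ^ m : ℝ)⁻¹ < s := by
      rw [inv_lt_comm₀ (by positivity) hs]
      exact h1
    rw [mul_inv] at h2
    have h3 : ((2 : ℝ) ^ m)⁻¹ = 2 * (2⁻¹ * (2 ^ m)⁻¹) := by ring
    rw [h3]
    exact mul_le_mul_of_nonneg_left h2.le (by norm_num)

private theorem me_m {N γ : ℝ} (hN : 1 ≤ N) (hγ : 0 < γ) {m : ℕ} (h : N⁻¹ ≤ (1 / 2 : ℝ) ^ m) :
    (m : ℝ) ≤ (γ * Real.log 2)⁻¹ * N ^ γ := by
  have hN0 : 0 < N := by linarith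
  have h1 : (2 : ℝ) ^ m ≤ N := by
    rw [one_div, inv_pow] at h
    exact (inv_le_inv₀ hN0 (by positivity)).1 h
  have h2 : (m : ℝ) * Real.log 2 ≤ Real.log N := by
    rw [← Real.log_pow]
    exact Real.log_le_log (by positivity) h1
  have h3 := Real.log_le_rpow_div hN0.le hγ
  have hl : 0 < Real.log 2 := Real.log_pos one_lt_two
  have h4 : (m : ℝ) ≤ N ^ γ / γ / Real.log 2 := by
    rw [le_div_iff₀ hl]
    linarith
  refine h4.trans (le_of_eq ?_)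
  field_simp

private theorem me_tc {i g r A c X : ℝ} (hi0 : 0 < i) (hi1 : i ≤ 1) (hg : 1 ≤ g) (hr0 : 0 < r)
    (hr : r ≤ 4 * (i * g ^ 2)) (hA : 0 ≤ A) (hc : 0 ≤ c) (hX : X = i * g ^ 16) :
    r ^ 2 * A * g * (c * g) ≤ 16 * A * c * X := by
  have hg0 : 0 ≤ g := by linarith
  have h1 : r ^ 2 ≤ 16 * i * g ^ 4 := by
    calc r ^ 2 ≤ (4 * (i * g ^ 2)) ^ 2 := pow_le_pow_left₀ hr0.le hr 2
      _ = 16 * g ^ 4 * i * i := by ring
      _ ≤ 16 * g ^ 4 * i * 1 := mul_le_mul_of_nonneg_left hi1 (by positivity)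
      _ = _ := by ring
  have h2 : g ^ 6 ≤ g ^ 16 := pow_le_pow_right₀ hg (by norm_num)
  rw [hX]
  calc r ^ 2 * A * g * (c * g) = r ^ 2 * (A * g * (c * g)) := by ring
    _ ≤ 16 * i * g ^ 4 * (A * g * (c * g)) := mul_le_mul_of_nonneg_right h1 (by positivity)
    _ = 16 * A * c * i * g ^ 6 := by ring
    _ ≤ 16 * A * c * i * g ^ 16 := mul_le_mul_of_nonneg_left h2 (by positivity)
    _ = _ := by ring

private theorem me_td {i g r A c X m Cm C3 Ws : ℝ} (hi0 : 0 < i) (hg : 1 ≤ g)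
    (hr : r ≤ 4 * (i * g ^ 2)) (hA : 0 ≤ A) (hc : 0 ≤ c) (hX : X = i * g ^ 16) (hm0 : 0 ≤ m)
    (hm : m ≤ Cm * g) (hCm : 0 ≤ Cm) (hC3 : 0 ≤ C3) (hWs : 0 ≤ Ws) :
    A * g * (c * g) * (r * (m * (C3 * g ^ 2) + Ws) * Real.sqrt (8 * g)) ≤
      12 * A * c * (Cm * C3 + Ws) * X := by
  have hg0 : 0 ≤ g := by linarith
  have h1 : Real.sqrt (8 * g) ≤ 3 * g := by
    rw [Real.sqrt_le_left (by positivity)]
    nlinarith
  have h3 : (1 : ℝ) ≤ g ^ 3 := one_le_pow₀ hg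
  have h2 : m * (C3 * g ^ 2) + Ws ≤ (Cm * C3 + Ws) * g ^ 3 := by
    have h4 : m * (C3 * g ^ 2) ≤ Cm * g * (C3 * g ^ 2) :=
      mul_le_mul_of_nonneg_right hm (by positivity)
    have h5 : Ws * 1 ≤ Ws * g ^ 3 := mul_le_mul_of_nonneg_left h3 hWs
    nlinarith
  have h6 : g ^ 8 ≤ g ^ 16 := pow_le_pow_right₀ hg (by norm_num)
  have h7 : 0 ≤ m * (C3 * g ^ 2) + Ws := by positivity
  rw [hX]
  calc A * g * (c * g) * (r * (m * (C3 * g ^ 2) + Ws) * Real.sqrt (8 * g))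
      ≤ A * g * (c * g) * (4 * (i * g ^ 2) * ((Cm * C3 + Ws) * g ^ 3) * (3 * g)) := by
        refine mul_le_mul_of_nonneg_left ?_ (by positivity)
        exact mul_le_mul (mul_le_mul hr h2 h7 (by positivity)) h1 (Real.sqrt_nonneg _)
          (by positivity)
    _ = 12 * A * c * (Cm * C3 + Ws) * i * g ^ 8 := by ring
    _ ≤ 12 * A * c * (Cm * C3 + Ws) * i * g ^ 16 := mul_le_mul_of_nonneg_left h6 (by positivity)
    _ = _ := by ring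

private theorem me_dec {n : ℕ} {K : Set (V n)} (hK : Unc K) {a : ℝ} (ha : 0 ≤ a) (M0 J : ℕ)
    {r lam mu : ℝ} (hr : 0 < r) (hl0 : 0 < lam) (hl1 : lam ≤ 1) (hm : 0 < mu) {q : ℝ≥0∞}
    (hq : 1 ≤ q) {f : V n → ℝ} (hf : Nice f) :
    nm q (cv (MX.unif K) (Qa a M0 f)) ≤
      nm q (cv (MX.unif K) (Qa a M0 ((om (So r lam))^[J] f))) +
        (nm q (cv (MX.unif K) (Qa a M0 (So r lam (SG r mu (FJ r lam J f))))) +
          (nm q (TD K a M0 r lam mu (FJ r lam J f)) +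
            nm q (TC K a M0 r lam mu (FJ r lam J f)))) := by
  have hT := (opr_cv hK.symP).comp (opr_Qa (n := n) ha M0)
  have hS := opr_So (n := n) hr hl0 hl1
  have hSG := opr_SG (n := n) hr hm
  have hF := opr_FJ (n := n) hr hl0 hl1 J
  have hf' : Nice (FJ r lam J f) := hF.nice f hf
  have hu1 : Nice ((om (So r lam))^[J] f) := (hS.om.iter J).nice f hf
  have hSf : Nice (So r lam (FJ r lam J f)) := hS.nice _ hf'
  have ho : Nice (om (SG r mu) (FJ r lam J f)) := hSG.om.nice _ hf'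
  have hG : Nice (SG r mu (FJ r lam J f)) := hSG.nice _ hf'
  have e1 : cv (MX.unif K) (Qa a M0 f) = fun x =>
      cv (MX.unif K) (Qa a M0 ((om (So r lam))^[J] f)) x +
        cv (MX.unif K) (Qa a M0 (So r lam (FJ r lam J f))) x := by
    conv_lhs => rw [FJ_id hr hl0 hl1 J hf]
    exact hT.toMul.map_add hu1 hSf
  have e2 : So r lam (FJ r lam J f) = fun x => So r lam (SG r mu (FJ r lam J f)) x +
      So r lam (om (SG r mu) (FJ r lam J f)) x := by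
    have e3 : FJ r lam J f = fun x => SG r mu (FJ r lam J f) x +
        om (SG r mu) (FJ r lam J f) x := by
      funext x
      unfold om
      ring
    conv_lhs => rw [e3]
    exact hS.toMul.map_add hG ho
  have e4 : cv (MX.unif K) (Qa a M0 (So r lam (FJ r lam J f))) = fun x =>
      cv (MX.unif K) (Qa a M0 (So r lam (SG r mu (FJ r lam J f)))) x +
        cv (MX.unif K) (Qa a M0 (So r lam (om (SG r mu) (FJ r lam J f)))) x := by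
    conv_lhs => rw [e2]
    exact hT.toMul.map_add (hS.nice _ hG) (hS.nice _ ho)
  have hTD : Nice (TD K a M0 r lam mu (FJ r lam J f)) :=
    (opr_Qa ha M0).nice _ ((opr_XG hr hm).nice _
      (((opr_Mo hr hl0 hl1).iter 2).nice _ (nice_UD hK hr hl0 hl1 hf')))
  have hTC : Nice (TC K a M0 r lam mu (FJ r lam J f)) :=
    ((opr_cv hK.symP).smul (r ^ 2 / 6)).nice _ ((opr_Qa ha M0).nice _ ((opr_XG hr hm).nice _
      (((opr_Mo hr hl0 hl1).iter (kk n + 1)).nice _ (nice_UT hr hl0 hl1 hf'))))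
  have e5 := ident hK ha M0 hr hl0 hl1 hm hf'
  rw [e1]
  refine (nm_add_le hq (hT.nice _ hu1) (hT.nice _ hSf)).trans (add_le_add le_rfl ?_)
  rw [e4]
  refine (nm_add_le hq (hT.nice _ (hS.nice _ hG)) (hT.nice _ (hS.nice _ ho))).trans
    (add_le_add le_rfl ?_)
  rw [e5]
  exact nm_add_le hq hTD hTC

theorem mainE (c : ℕ → ℝ) {δ : ℝ} (hδ : 0 < δ) (hδ1 : δ ≤ 1) {j : ℕ} (hj : 1 ≤ j) :
    ∃ (M0 : ℕ) (C : ℝ), 0 ≤ C ∧ ∀ (n : ℕ) (K : Set (V n)), Geo c K → ∀ a : ℝ, 0 < a → a ≤ 1 →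
      Bq ((2 ^ j : ℕ) : ℝ≥0∞) (C * a ^ (1 - δ)) fun f => cv (MX.unif K) (Qa a M0 f) := by
  obtain ⟨γ, hγd⟩ : ∃ γ, γ = δ / 16 := ⟨_, rfl⟩
  have hγ : 0 < γ := by
    rw [hγd]
    positivity
  have hγ1 : γ ≤ 1 / 16 := by
    rw [hγd]
    linarith
  have hδγ : δ = 16 * γ := by
    rw [hγd]
    ring
  have h2j : 2 ≤ 2 ^ j := by
    calc 2 = 2 ^ 1 := by norm_num
      _ ≤ 2 ^ j := Nat.pow_le_pow_right (by norm_num) hj
  obtain ⟨M0, CB, hCB, hB⟩ := partB c hγ (by linarith) h2j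
  obtain ⟨J, CA, hCA, hA⟩ := partA c hγ h2j M0
  obtain ⟨C3, hC3, hS3⟩ := sec3 c hγ hj
  obtain ⟨j', hj'⟩ : ∃ j', 2 ^ j = 2 * j' := ⟨2 ^ (j - 1), by
    rw [← pow_succ']
    congr 1
    omega⟩
  have hj1 : 1 ≤ j' := by omega
  obtain ⟨A, hAd⟩ : ∃ A : ℝ, A = 2 ^ M0 := ⟨_, rfl⟩
  have hA0 : 0 < A := by
    rw [hAd]
    positivity
  obtain ⟨cc, hcd⟩ : ∃ cc : ℝ, cc = c3 (2 * j') := ⟨_, rfl⟩
  have hc0 : 0 ≤ cc := by
    rw [hcd]
    unfold c3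
    positivity
  have hlog : 0 < Real.log 2 := Real.log_pos one_lt_two
  obtain ⟨Cm, hCmd⟩ : ∃ Cm : ℝ, Cm = (γ * Real.log 2)⁻¹ := ⟨_, rfl⟩
  have hCm : 0 ≤ Cm := by
    rw [hCmd]
    positivity
  obtain ⟨Ws, hWsd⟩ : ∃ Ws : ℝ, Ws = Real.sqrt |c 0| := ⟨_, rfl⟩
  have hWs : 0 ≤ Ws := by
    rw [hWsd]
    positivity
  obtain ⟨E3, hE3⟩ : ∃ E3, E3 = 16 * A * cc := ⟨_, rfl⟩
  obtain ⟨E4, hE4⟩ : ∃ E4, E4 = 12 * A * cc * (Cm * C3 + Ws) := ⟨_, rfl⟩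
  have hE30 : 0 ≤ E3 := by
    rw [hE3]
    positivity
  have hE40 : 0 ≤ E4 := by
    rw [hE4]
    positivity
  refine ⟨M0, 4 * A + (CA + CB * 2 ^ J + (E4 + E3) * 2 ^ J), by positivity, ?_⟩
  intro n K hK a ha0 ha1 f hf
  have hq1 : (1 : ℝ≥0∞) ≤ ((2 ^ j : ℕ) : ℝ≥0∞) := by exact_mod_cast (by omega : 1 ≤ 2 ^ j)
  obtain ⟨N, hN1, haN⟩ : ∃ N : ℝ, 1 ≤ N ∧ a = N⁻¹ :=
    ⟨a⁻¹, (one_le_inv₀ ha0).2 ha1, (inv_inv a).symm⟩
  subst haN
  have hN0 : 0 < N := by linarith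
  obtain ⟨g, hgd⟩ : ∃ g, g = N ^ γ := ⟨_, rfl⟩
  have hg : 1 ≤ g := by
    rw [hgd]
    exact Real.one_le_rpow hN1 hγ.le
  have hg0 : 0 < g := by linarith
  have eg2 : N ^ (2 * γ) = g ^ 2 := by
    rw [hgd, ← Real.rpow_natCast, ← Real.rpow_mul hN0.le]
    congr 1
    push_cast
    ring
  have es : N ^ (-1 + 2 * γ) = N⁻¹ * g ^ 2 := by
    rw [Real.rpow_add hN0, eg2, Real.rpow_neg_one]
  have eX : (N⁻¹) ^ (1 - δ) = N⁻¹ * g ^ 16 := by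
    have e1 : g ^ 16 = N ^ δ := by
      rw [hgd, ← Real.rpow_natCast, ← Real.rpow_mul hN0.le]
      congr 1
      push_cast
      linarith
    rw [e1, Real.rpow_sub ha0, Real.rpow_one, Real.inv_rpow hN0.le, div_inv_eq_mul]
  obtain ⟨X, hX⟩ : ∃ X, X = N⁻¹ * g ^ 16 := ⟨_, rfl⟩
  have hX0 : 0 < X := by
    rw [hX]
    positivity
  rw [eX, ← hX]
  show nm _ (cv (MX.unif K) (Qa N⁻¹ M0 f)) ≤ _
  rcases le_or_gt (2 * N ^ (-1 + 2 * γ)) (1 / 2) with hbig | hsmall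
  · -- the main case
    obtain ⟨m, hm1, hm2, hm3⟩ := me_scale (by positivity : 0 < 2 * N ^ (-1 + 2 * γ)) hbig
    have hr0 : (0 : ℝ) < (1 / 2) ^ m := by positivity
    have hr1 : ((1 : ℝ) / 2) ^ m ≤ 1 := pow_le_one₀ (by norm_num) (by norm_num)
    have hrN : N⁻¹ ≤ (1 / 2 : ℝ) ^ m := by
      refine le_trans ?_ hm2
      rw [es]
      have h1 : (1 : ℝ) ≤ g ^ 2 := one_le_pow₀ hg
      have h2 : N⁻¹ * 1 ≤ N⁻¹ * g ^ 2 := mul_le_mul_of_nonneg_left h1 ha0.le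
      nlinarith
    have hr4 : ((1 : ℝ) / 2) ^ m ≤ 4 * (N⁻¹ * g ^ 2) := by
      rw [es] at hm3
      linarith
    have hmm := me_m hN1 hγ hrN
    rw [← hCmd, ← hgd] at hmm
    obtain ⟨lam, hlam⟩ : ∃ lam, lam = N ^ (-γ) := ⟨_, rfl⟩
    have hlg : lam = g⁻¹ := by rw [hlam, hgd, Real.rpow_neg hN0.le]
    have hl0 : 0 < lam := by
      rw [hlg]
      positivity
    have hl1 : lam ≤ 1 := by
      rw [hlg]
      exact inv_le_one_of_one_le₀ hg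
    have hU := hK.toUnc
    have hf' : Nice (FJ ((1 / 2) ^ m) lam J f) := (opr_FJ hr0 hl0 hl1 J).nice f hf
    have hf'n := (opr_FJ (n := n) hr0 hl0 hl1 J).bd _ hq1 f hf
    -- the four pieces
    have p1 := hA n K hK N hN1 ((1 / 2) ^ m) hr0 hr1 f hf
    have p2 := hB n K hK N hN1 ((1 / 2) ^ m) hr0 hr1 hm2 _ hf'
    have p3 := partD hU hj1 ha0.le M0 hm1 hl0 hl1 hg0
      (W := C3 * N ^ (2 * γ)) (by positivity) hWs
      (fun b hb => by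
        have := hS3 n K hK N hN1 b m hb hrN
        rw [hj'] at this
        exact this)
      (by
        rw [hWsd]
        exact vb_ws hK hr0 hj1) _ hf'
    have p4 := partC hU hj1 ha0.le M0 hr0 hl0 hl1 hg0 _ hf'
    rw [← hj'] at p3 p4
    simp only [] at p1 p2
    rw [← hlam] at p1 p2
    rw [← hgd] at p2
    have ec : c3 (2 ^ j) / lam = cc * g := by rw [hlg, div_inv_eq_mul, hcd, hj']
    have es8 : 8 / lam = 8 * g := by rw [hlg, div_inv_eq_mul]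
    rw [ec, es8, eg2, ← hAd] at p3
    rw [ec, ← hAd] at p4
    have b3 := me_td ha0 hg hr4 hA0.le hc0 hX (Nat.cast_nonneg m) hmm hCm hC3 hWs
    have b4 := me_tc ha0 ha1 hg hr0 hr4 hA0.le hc0 hX
    rw [← hE4] at b3
    rw [← hE3] at b4
    have hiX : N⁻¹ ≤ X := by
      rw [hX]
      have h1 : (1 : ℝ) ≤ g ^ 16 := one_le_pow₀ hg
      have h2 : N⁻¹ * 1 ≤ N⁻¹ * g ^ 16 := mul_le_mul_of_nonneg_left h1 ha0.le
      linarith
    obtain ⟨Y, hY⟩ : ∃ Y, Y = nm ((2 ^ j : ℕ) : ℝ≥0∞) f := ⟨_, rfl⟩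
    obtain ⟨Z, hZ⟩ : ∃ Z, Z = nm ((2 ^ j : ℕ) : ℝ≥0∞) (FJ ((1 / 2) ^ m) lam J f) := ⟨_, rfl⟩
    rw [← hY] at hf'n p1 ⊢
    rw [← hZ] at hf'n p2 p3 p4
    refine (me_dec hU ha0.le M0 J hr0 hl0 hl1 hg0 hq1 hf).trans ?_
    have q1 : nm ((2 ^ j : ℕ) : ℝ≥0∞)
        (cv (MX.unif K) (Qa N⁻¹ M0 ((om (So ((1 / 2) ^ m) lam))^[J] f))) ≤
        ENNReal.ofReal (CA * X) * Y :=
      p1.trans (mul_le_mul_left (ENNReal.ofReal_le_ofReal (mul_le_mul_of_nonneg_left hiX hCA)) _)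
    have q2 : nm ((2 ^ j : ℕ) : ℝ≥0∞) (cv (MX.unif K) (Qa N⁻¹ M0
        (So ((1 / 2) ^ m) lam (SG ((1 / 2) ^ m) g (FJ ((1 / 2) ^ m) lam J f))))) ≤
        ENNReal.ofReal (CB * X) * Z :=
      p2.trans (mul_le_mul_left (ENNReal.ofReal_le_ofReal (mul_le_mul_of_nonneg_left hiX hCB)) _)
    have q3 : nm ((2 ^ j : ℕ) : ℝ≥0∞)
        (TD K N⁻¹ M0 ((1 / 2) ^ m) lam g (FJ ((1 / 2) ^ m) lam J f)) ≤
        ENNReal.ofReal (E4 * X) * Z :=
      p3.trans (mul_le_mul_left (ENNReal.ofReal_le_ofReal b3) _)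
    have q4 : nm ((2 ^ j : ℕ) : ℝ≥0∞)
        (TC K N⁻¹ M0 ((1 / 2) ^ m) lam g (FJ ((1 / 2) ^ m) lam J f)) ≤
        ENNReal.ofReal (E3 * X) * Z :=
      p4.trans (mul_le_mul_left (ENNReal.ofReal_le_ofReal b4) _)
    refine (add_le_add q1 (add_le_add q2 (add_le_add q3 q4))).trans ?_
    have h2J : (0 : ℝ) ≤ 2 ^ J := by positivity
    calc ENNReal.ofReal (CA * X) * Y + (ENNReal.ofReal (CB * X) * Z +
          (ENNReal.ofReal (E4 * X) * Z + ENNReal.ofReal (E3 * X) * Z))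
        = ENNReal.ofReal (CA * X) * Y + ENNReal.ofReal (CB * X + (E4 * X + E3 * X)) * Z := by
          rw [ENNReal.ofReal_add (by positivity) (by positivity),
            ENNReal.ofReal_add (by positivity) (by positivity)]
          ring
      _ ≤ ENNReal.ofReal (CA * X) * Y + ENNReal.ofReal (CB * X + (E4 * X + E3 * X)) *
          (ENNReal.ofReal (2 ^ J) * Y) := add_le_add le_rfl (mul_le_mul' le_rfl hf'n)
      _ = ENNReal.ofReal (CA * X + (CB * X + (E4 * X + E3 * X)) * 2 ^ J) * Y := by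
          rw [ENNReal.ofReal_add (by positivity : 0 ≤ CA * X)
            (by positivity : 0 ≤ (CB * X + (E4 * X + E3 * X)) * 2 ^ J),
            ENNReal.ofReal_mul (by positivity : 0 ≤ CB * X + (E4 * X + E3 * X))]
          ring
      _ ≤ ENNReal.ofReal ((4 * A + (CA + CB * 2 ^ J + (E4 + E3) * 2 ^ J)) * X) * Y := by
          refine mul_le_mul_left (ENNReal.ofReal_le_ofReal ?_) _
          have : 0 ≤ 4 * A * X := by positivity
          nlinarith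
  · -- the trivial case
    have h1 := ((opr_cv hK.toUnc.symP).comp (opr_Qa (n := n) ha0.le M0)).bd _ hq1 f hf
    refine h1.trans (mul_le_mul_left (ENNReal.ofReal_le_ofReal ?_) _)
    rw [es] at hsmall
    have h2 : g ^ 2 ≤ g ^ 16 := pow_le_pow_right₀ hg (by norm_num)
    have h3 : N⁻¹ * g ^ 2 ≤ N⁻¹ * g ^ 16 := mul_le_mul_of_nonneg_left h2 ha0.le
    have h4 : 1 / 4 ≤ X := by
      rw [hX]
      linarith
    have h5 : 0 ≤ CA + CB * 2 ^ J + (E4 + E3) * 2 ^ J := by positivity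
    have h6 : A ≤ 4 * A * X := by nlinarith
    have h7 : 0 ≤ (CA + CB * 2 ^ J + (E4 + E3) * 2 ^ J) * X := by positivity
    rw [one_mul, ← hAd]
    nlinarith

end Pool.Agent.UB
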