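import Pool.Agent.UB.EdmB
import Pool.Agent.UB.Scale
import Pool.Agent.UB.Dual
import Pool.Agent.UB.MainE

/-!
# UB-EdB: the bound for differences in the logarithmic scale

PLAN.  `q = 2^j ≥ 4`, `p = q/(q-1) < 2`, `P = unif K`.  Choose `δ = δ'` with `κ = (1-δ)² > 1/p`.  `M0`, `C` from `mainE`, `dual`, `scale`: for `t > 0`, `a ≤ 1`:
`‖cv (dil t P) (Qa (a t) M0 f)‖_p ≤ C a^(1-δ) ‖f‖_p`.  Fix `h`, `s`, put `a = h^(1-δ)`, `G = Ga (a e^s)`, `T = Ed N h P s`; `f = f_1 + f_2`,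
`f_2 = Qa (a e^s) M0 f`, `f_1 = f - f_2`.
* `T f_2 = ∑_i (-1)^i C(N,i) ∫_0^1 cv (dil (e^{s + i h u}) P) f_2 du` (definition of `blur`): with `t = e^{s+ihu}`, `a e^s = a' t`, `a' = a e^{-ihu} ≤ a`;
Minkowski / Jensen for the mean over `u`: `‖T f_2‖_p ≤ 2^N C a^(1-δ) ‖f‖_p = 2^N C h^((1-δ)²) ‖f‖_p`.
* `f ↦ T f_1` has the symbol `edm N h P (e^s ξ) (1 - (1 - exp (-(a e^s ‖ξ‖)²/2))^M0)` (`isMul_Ed`), bounded by `C (h/a)^N = C h^(δ N)` (`low_bd` at
`e^s ξ`); `L²` norm by `Mul.l2`, `L¹` norm `≤ 2^N (1 + 2^M0)`; `CB.interp` (`p1 = 1`, `T f x := ‖..‖₊`): `‖T f_1‖_p^p ≤ C h^(2 δ N (p-1)) ‖f‖_p^p`; choose `N`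
with `2 δ N (p-1)/p ≥ κ`, `N ≥ 1`.
-/

set_option autoImplicit false

open MeasureTheory Set
open scoped ENNReal NNReal

namespace Pool.Agent.UB

open Pool.Agent.CB

private theorem nm_eq {n : ℕ} {p : ℝ} (hp : 0 < p) (f : V n → ℝ) :
    nm (ENNReal.ofReal p) f = (∫⁻ x, ‖f x‖ₑ ^ p) ^ (1 / p) := by
  have h1 : ENNReal.ofReal p ≠ 0 := by
    rw [Ne, ENNReal.ofReal_eq_zero]
    exact not_le.mpr hp
  have h2 := eLpNorm_eq_lintegral_rpow_enorm_toReal (f := f) (μ := (volume : Measure (V n))) h1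
    ENNReal.ofReal_ne_top
  rw [ENNReal.toReal_ofReal hp.le] at h2
  exact h2

private theorem nm_pow {n : ℕ} {p : ℝ} (hp : 0 < p) (f : V n → ℝ) :
    nm (ENNReal.ofReal p) f ^ p = ∫⁻ x, ‖f x‖ₑ ^ p := by
  rw [nm_eq hp, ← ENNReal.rpow_mul, one_div, inv_mul_cancel₀ hp.ne', ENNReal.rpow_one]

private theorem nm_le {n : ℕ} {p : ℝ} (hp : 0 < p) {f : V n → ℝ} {D : ℝ≥0∞}
    (h : ∫⁻ x, ‖f x‖ₑ ^ p ≤ D ^ p) : nm (ENNReal.ofReal p) f ≤ D := by
  rw [nm_eq hp]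
  refine (ENNReal.rpow_le_rpow h (by positivity)).trans ?_
  rw [← ENNReal.rpow_mul, mul_one_div_cancel hp.ne', ENNReal.rpow_one]

private theorem cont2 {n : ℕ} {P : Measure (V n)} [IsProbabilityMeasure P] (s c : ℝ)
    {g : V n → ℝ} (hg : Nice g) :
    Continuous fun z : V n × ℝ => cv (dil (Real.exp (s + c * z.2)) P) g z.1 := by
  obtain ⟨C, hC⟩ := hg.bdd
  have e : (fun z : V n × ℝ => cv (dil (Real.exp (s + c * z.2)) P) g z.1) =
      fun z : V n × ℝ => ∫ y, g (z.1 + Real.exp (s + c * z.2) • y) ∂P := by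
    funext z
    exact cv_dil P _ hg.cont.measurable z.1
  rw [e]
  refine continuous_of_dominated (bound := fun _ => C) (fun z => ?_) (fun z => ?_)
    (integrable_const C) ?_
  · exact (hg.cont.comp (by fun_prop)).aestronglyMeasurable
  · refine Filter.Eventually.of_forall fun y => ?_
    rw [Real.norm_eq_abs]
    exact hC _
  · refine Filter.Eventually.of_forall fun y => ?_
    exact hg.cont.comp (by fun_prop)

private theorem cv_blur {n : ℕ} {P : Measure (V n)} [IsProbabilityMeasure P] (s c : ℝ)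
    {g : V n → ℝ} (hg : Nice g) (x : V n) :
    cv (dil (Real.exp s) (blur c P)) g x =
      ∫ u in (0 : ℝ)..1, cv (dil (Real.exp (s + c * u)) P) g x := by
  obtain ⟨C, hC⟩ := hg.bdd
  rw [cv_dil _ _ hg.cont.measurable]
  rw [integral_blur c (f := fun y => g (x + Real.exp s • y))
    (hg.cont.comp (by fun_prop)).measurable ⟨C, fun y => hC _⟩]
  refine intervalIntegral.integral_congr fun u _ => ?_
  rw [cv_dil _ _ hg.cont.measurable]
  refine integral_congr_ae (Filter.Eventually.of_forall fun y => ?_)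
  simp only [smul_smul, ← Real.exp_add]

private theorem blur_rpow_le {n : ℕ} {P : Measure (V n)} [IsProbabilityMeasure P] (s c : ℝ)
    {g : V n → ℝ} (hg : Nice g) {p : ℝ} (hp : 1 ≤ p) :
    ∫⁻ x, ‖cv (dil (Real.exp s) (blur c P)) g x‖ₑ ^ p ≤
      ∫⁻ u in Icc (0 : ℝ) 1, ∫⁻ x, ‖cv (dil (Real.exp (s + c * u)) P) g x‖ₑ ^ p := by
  have hp0 : 0 ≤ p := zero_le_one.trans hp
  have hcont := cont2 (P := P) s c hg
  have h1 : ∀ x, ‖cv (dil (Real.exp s) (blur c P)) g x‖ₑ ^ p ≤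
      ∫⁻ u in Icc (0 : ℝ) 1, ‖cv (dil (Real.exp (s + c * u)) P) g x‖ₑ ^ p := by
    intro x
    have h2 : ‖cv (dil (Real.exp s) (blur c P)) g x‖ₑ ≤
        ∫⁻ u in Icc (0 : ℝ) 1, ‖cv (dil (Real.exp (s + c * u)) P) g x‖ₑ := by
      rw [cv_blur s c hg x, intervalIntegral.integral_of_le zero_le_one,
        ← integral_Icc_eq_integral_Ioc]
      exact enorm_integral_le_lintegral_enorm _
    have hm : Measurable fun u : ℝ => ‖cv (dil (Real.exp (s + c * u)) P) g x‖ₑ :=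
      (hcont.comp (by fun_prop : Continuous fun u : ℝ => (x, u))).measurable.enorm
    have h3 := Pool.Agent.MX.lintegral_rpow_le ((volume : Measure ℝ).restrict (Icc (0 : ℝ) 1)) hp
      (g := fun u : ℝ => ‖cv (dil (Real.exp (s + c * u)) P) g x‖ₑ) hm.aemeasurable
    have h4 : (((volume : Measure ℝ).restrict (Icc (0 : ℝ) 1)) Set.univ : ℝ≥0∞) ^ (p - 1) = 1 := by
      simp
    rw [h4, one_mul] at h3
    exact (ENNReal.rpow_le_rpow h2 hp0).trans h3
  have hm2 : Measurable (Function.uncurry fun (x : V n) (u : ℝ) =>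
      ‖cv (dil (Real.exp (s + c * u)) P) g x‖ₑ ^ p) := by
    have h5 : Measurable fun z : V n × ℝ => cv (dil (Real.exp (s + c * z.2)) P) g z.1 :=
      hcont.measurable
    exact h5.enorm.pow_const p
  calc ∫⁻ x, ‖cv (dil (Real.exp s) (blur c P)) g x‖ₑ ^ p
      ≤ ∫⁻ x, ∫⁻ u in Icc (0 : ℝ) 1, ‖cv (dil (Real.exp (s + c * u)) P) g x‖ₑ ^ p :=
        lintegral_mono h1
    _ = ∫⁻ u in Icc (0 : ℝ) 1, ∫⁻ x, ‖cv (dil (Real.exp (s + c * u)) P) g x‖ₑ ^ p :=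
        lintegral_lintegral_swap hm2.aemeasurable

private theorem blur_nm {n : ℕ} {P : Measure (V n)} [IsProbabilityMeasure P] (s c : ℝ)
    {g : V n → ℝ} (hg : Nice g) {p : ℝ} (hp : 1 ≤ p) {D : ℝ≥0∞}
    (h : ∀ u ∈ Icc (0 : ℝ) 1, nm (ENNReal.ofReal p) (cv (dil (Real.exp (s + c * u)) P) g) ≤ D) :
    nm (ENNReal.ofReal p) (cv (dil (Real.exp s) (blur c P)) g) ≤ D := by
  have hp0 : 0 < p := zero_lt_one.trans_le hp
  refine nm_le hp0 ((blur_rpow_le s c hg hp).trans ?_)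
  calc ∫⁻ u in Icc (0 : ℝ) 1, ∫⁻ x, ‖cv (dil (Real.exp (s + c * u)) P) g x‖ₑ ^ p
      ≤ ∫⁻ _ in Icc (0 : ℝ) 1, D ^ p := by
        refine setLIntegral_mono measurable_const fun u hu => ?_
        rw [← nm_pow hp0]
        exact ENNReal.rpow_le_rpow (h u hu) hp0.le
    _ = D ^ p := by simp

private theorem sum_choose (N : ℕ) :
    ∑ i ∈ Finset.range (N + 1), |(-1 : ℝ) ^ i * (N.choose i : ℝ)| = 2 ^ N := by
  have h1 : ∀ i ∈ Finset.range (N + 1), |(-1 : ℝ) ^ i * (N.choose i : ℝ)| = (N.choose i : ℝ) := by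
    intro i _
    rw [abs_mul, abs_pow, abs_neg, abs_one, one_pow, one_mul, Nat.abs_cast]
  rw [Finset.sum_congr rfl h1, ← Nat.cast_sum, Nat.sum_range_choose]
  push_cast
  rfl

private theorem Ed_high {n : ℕ} {P : Measure (V n)} [IsProbabilityMeasure P] (N : ℕ) (h s : ℝ)
    {g : V n → ℝ} (hg : Nice g) {p : ℝ} (hp : 1 ≤ p) {D : ℝ≥0∞}
    (hD : ∀ i : ℕ, ∀ u ∈ Icc (0 : ℝ) 1,
      nm (ENNReal.ofReal p) (cv (dil (Real.exp (s + i * h * u)) P) g) ≤ D) :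
    nm (ENNReal.ofReal p) (Ed N h P s g) ≤ ENNReal.ofReal (2 ^ N) * D := by
  have hq : 1 ≤ ENNReal.ofReal p := by
    rw [← ENNReal.ofReal_one]
    exact ENNReal.ofReal_le_ofReal hp
  have hn : ∀ i : ℕ, Nice (cv (dil (Real.exp s) (blur (i * h) P)) g) := by
    intro i
    have := isProb_blur (μ := P) (i * h)
    have := isProb_dil (μ := blur (i * h) P) (Real.exp s)
    exact nice_cv hg
  have e : Ed N h P s g = fun x => ∑ i ∈ Finset.range (N + 1),
      ((-1 : ℝ) ^ i * (N.choose i : ℝ)) * cv (dil (Real.exp s) (blur (i * h) P)) g x := rfl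
  rw [e]
  refine (nm_sum_le hq (Finset.range (N + 1)) (f := fun i x =>
    ((-1 : ℝ) ^ i * (N.choose i : ℝ)) * cv (dil (Real.exp s) (blur (i * h) P)) g x)
    (fun i _ => (hn i).const_mul _)).trans ?_
  have h2 : ∀ i ∈ Finset.range (N + 1), nm (ENNReal.ofReal p) (fun x =>
      ((-1 : ℝ) ^ i * (N.choose i : ℝ)) * cv (dil (Real.exp s) (blur (i * h) P)) g x) ≤
      ENNReal.ofReal |(-1 : ℝ) ^ i * (N.choose i : ℝ)| * D := by
    intro i _
    rw [nm_smul]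
    exact mul_le_mul_right (blur_nm s (i * h) hg hp (hD i)) _
  refine (Finset.sum_le_sum h2).trans ?_
  rw [← Finset.sum_mul, ← ENNReal.ofReal_sum_of_nonneg (fun i _ => abs_nonneg _), sum_choose]

private theorem opr_Ed {n : ℕ} {P : Measure (V n)} (hP : SymP P) (N : ℕ) (h s : ℝ) :
    Opr (fun ξ : V n => edm N h P (Real.exp s • ξ)) (2 ^ N) (Ed N h P s) := by
  have h1 : Opr (fun ξ : V n => ∑ i ∈ Finset.range (N + 1),
      ((-1 : ℝ) ^ i * (N.choose i : ℝ)) * ft (dil (Real.exp s) (blur (i * h) P)) ξ)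
      (∑ i ∈ Finset.range (N + 1), |(-1 : ℝ) ^ i * (N.choose i : ℝ)| * 1)
      (fun f x => ∑ i ∈ Finset.range (N + 1),
        ((-1 : ℝ) ^ i * (N.choose i : ℝ)) * cv (dil (Real.exp s) (blur (i * h) P)) f x) :=
    Opr.sum (Finset.range (N + 1)) (fun i _ =>
      (opr_cv ((hP.blur (i * h)).dil (Real.exp s))).smul ((-1 : ℝ) ^ i * (N.choose i : ℝ)))
  have h2 : ∑ i ∈ Finset.range (N + 1), |(-1 : ℝ) ^ i * (N.choose i : ℝ)| * 1 = 2 ^ N := by
    rw [← Finset.sum_mul, sum_choose, mul_one]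
  rw [h2] at h1
  refine h1.congr_symbol fun ξ => ?_
  unfold edm dif
  refine Finset.sum_congr rfl fun i _ => ?_
  rw [ft_dil]

private theorem interp_opr {n : ℕ} {τ : V n → ℝ} {T : (V n → ℝ) → V n → ℝ} {B1 B2 : ℝ}
    (hT : Opr τ B1 T) (hB1 : 0 < B1) (hB2 : 0 < B2) (h : ∀ ξ, |τ ξ| ≤ B2) {p : ℝ} (hp1 : 1 < p)
    (hp2 : p < 2) :
    Bq (ENNReal.ofReal p) ((mc 1 p * B1 ^ (2 - p) * B2 ^ (2 * (p - 1))) ^ (1 / p)) T := by
  intro f hf
  have hp0 : 0 < p := by linarith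
  have hM : 0 ≤ mc 1 p * B1 ^ (2 - p) * B2 ^ (2 * (p - 1)) := by
    have := mc_pos (le_refl (1 : ℝ)) hp1 hp2
    positivity
  have key := interp (n := n) (volume : Measure (V n)) (fun f x => ‖T f x‖₊)
    (fun f hf => (hT.nice f hf).cont.measurable.nnnorm)
    (fun f g hf hg x => by
      show ‖T (fun y => f y + g y) x‖₊ ≤ ‖T f x‖₊ + ‖T g x‖₊
      rw [hT.toMul.map_add hf hg]
      exact nnnorm_add_le _ _)
    (le_refl (1 : ℝ)) hp1 hp2 hB1 hB2
    (fun f hf => by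
      have h3 := hT.bd 1 le_rfl f hf
      have h4 : nm 1 (T f) = ∫⁻ x, ‖T f x‖ₑ := eLpNorm_one_eq_lintegral_enorm
      have h5 : nm 1 f = ∫⁻ x, ‖f x‖ₑ := eLpNorm_one_eq_lintegral_enorm
      rw [h4, h5] at h3
      simp only [ENNReal.rpow_one, Real.rpow_one]
      exact h3)
    (fun f hf => by
      have h3 := hT.toMul.l2 hB2.le h f hf
      have e2 : (2 : ℝ≥0∞) = ENNReal.ofReal 2 := by simp
      rw [e2] at h3
      have h4 := ENNReal.rpow_le_rpow h3 (zero_le_two : (0 : ℝ) ≤ 2)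
      rw [ENNReal.mul_rpow_of_nonneg _ _ zero_le_two, nm_pow two_pos, nm_pow two_pos] at h4
      have e3 : ENNReal.ofReal B2 ^ (2 : ℝ) = ENNReal.ofReal (B2 ^ 2) := by
        rw [ENNReal.ofReal_rpow_of_nonneg hB2.le zero_le_two]
        norm_num
      rw [e3] at h4
      exact h4)
    f hf
  have e1 : (1 : ℝ) * (2 - p) / (2 - 1) = 2 - p := by ring
  have e2 : 2 * (p - 1) / (2 - 1) = 2 * (p - 1) := by ring
  rw [e1, e2] at key
  refine nm_le hp0 ?_
  rw [ENNReal.mul_rpow_of_nonneg _ _ hp0.le, nm_pow hp0,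
    ENNReal.ofReal_rpow_of_nonneg (Real.rpow_nonneg hM _) hp0.le, ← Real.rpow_mul hM,
    one_div_mul_cancel hp0.ne', Real.rpow_one]
  exact key

theorem edB (c : ℕ → ℝ) {j : ℕ} (hj : 2 ≤ j) {p : ℝ} (hp : p = (2 : ℝ) ^ j / ((2 : ℝ) ^ j - 1)) :
    ∃ (N : ℕ) (C κ : ℝ), 1 ≤ N ∧ 0 ≤ C ∧ 1 / p < κ ∧ ∀ (n : ℕ) (K : Set (V n)), Geo c K →
      ∀ h : ℝ, 0 < h → h ≤ 1 → ∀ (s : ℝ) (f : V n → ℝ), Nice f →
        nm (ENNReal.ofReal p) (Ed N h (MX.unif K) s f) ≤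
          ENNReal.ofReal (C * h ^ κ) * nm (ENNReal.ofReal p) f := by
  have hq4 : (4 : ℝ) ≤ (2 : ℝ) ^ j := by
    calc (4 : ℝ) = 2 ^ 2 := by norm_num
      _ ≤ 2 ^ j := pow_le_pow_right₀ (by norm_num) hj
  have hq1 : (0 : ℝ) < (2 : ℝ) ^ j - 1 := by linarith
  have hq0 : (0 : ℝ) < (2 : ℝ) ^ j := by linarith
  have hp1 : 1 < p := by
    rw [hp, lt_div_iff₀ hq1]
    linarith
  have hp2 : p < 2 := by
    rw [hp, div_lt_iff₀ hq1]
    linarith
  have hp0 : 0 < p := by linarith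
  have hip : 1 / p = 1 - 1 / (2 : ℝ) ^ j := by
    rw [hp]
    field_simp
  set δ : ℝ := 1 / (4 * (2 : ℝ) ^ j) with hδ
  have hδ0 : 0 < δ := by positivity
  have hδ1 : δ ≤ 1 / 16 := by
    rw [hδ]
    exact one_div_le_one_div_of_le (by norm_num) (by linarith)
  have hδq : 1 / (2 : ℝ) ^ j = 4 * δ := by
    rw [hδ]
    field_simp
  have hδ' : 0 < 1 - δ := by linarith
  obtain ⟨M0, C1, hC1, hmain⟩ := mainE c hδ0 (by linarith : δ ≤ 1) (by omega : 1 ≤ j)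
  set κ : ℝ := (1 - δ) * (1 - δ) with hκ
  have hκp : 1 / p < κ := by
    rw [hip, hδq, hκ]
    nlinarith
  have hκ0 : 0 < κ := by positivity
  set N : ℕ := ⌈κ * p / (2 * δ * (p - 1))⌉₊ + 1 with hN
  have hpp : 0 < p - 1 := by linarith
  have hNκ : κ ≤ δ * N * (2 * (p - 1)) * (1 / p) := by
    have h1 : κ * p / (2 * δ * (p - 1)) ≤ N := by
      rw [hN]
      push_cast
      exact (Nat.le_ceil _).trans (by linarith)
    rw [div_le_iff₀ (by positivity)] at h1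
    rw [mul_one_div, le_div_iff₀ hp0]
    linarith
  obtain ⟨C2, hC2, hlow⟩ := low_bd c N M0
  have hmc := mc_pos (le_refl (1 : ℝ)) hp1 hp2
  set B1 : ℝ := 2 ^ N * (1 + 2 ^ M0) with hB1
  have hB10 : 0 < B1 := by positivity
  set C3 : ℝ := (mc 1 p * B1 ^ (2 - p) * C2 ^ (2 * (p - 1))) ^ (1 / p) with hC3
  have hC30 : 0 ≤ C3 := by positivity
  refine ⟨N, C3 + 2 ^ N * C1, κ, by omega, by positivity, hκp, ?_⟩
  intro n K hK h h0 h1 s f hf
  have hU : Unc K := hK.toUnc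
  have hS : SymP (MX.unif K) := hU.symP
  have : IsProbabilityMeasure (MX.unif K) := hS.prob
  set P : Measure (V n) := MX.unif K with hP
  have hq : 1 ≤ ENNReal.ofReal p := by
    rw [← ENNReal.ofReal_one]
    exact ENNReal.ofReal_le_ofReal hp1.le
  set a : ℝ := h ^ (1 - δ) with ha
  have ha0 : 0 < a := Real.rpow_pos_of_pos h0 _
  have ha1 : a ≤ 1 := Real.rpow_le_one h0.le h1 hδ'.le
  have hha : h / a = h ^ δ := by
    rw [div_eq_iff ha0.ne', ha, ← Real.rpow_add h0]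
    simp
  have haκ : a ^ (1 - δ) = h ^ κ := by
    rw [ha, ← Real.rpow_mul h0.le]
  have hA0 : 0 < a * Real.exp s := by positivity
  have oQ := opr_Qa (n := n) hA0.le M0
  have oE := opr_Ed hS N h s
  have oT := oE.comp oQ.om
  have hhN : 0 < h ^ (δ * N) := Real.rpow_pos_of_pos h0 _
  -- the part with low frequencies
  have low := interp_opr oT hB10 (B2 := C2 * h ^ (δ * N)) (by positivity) (by
    intro ξ
    have h2 := hlow n K hK h h0.le h1 a ha0 ha1 (Real.exp s • ξ)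
    have h3 : a * ‖Real.exp s • ξ‖ = a * Real.exp s * ‖ξ‖ := by
      rw [norm_smul, Real.norm_eq_abs, Real.abs_exp]
      ring
    rw [h3, hha, ← Real.rpow_natCast (h ^ δ) N, ← Real.rpow_mul h0.le] at h2
    exact h2) hp1 hp2 f hf
  -- the part with high frequencies
  have high := Ed_high (P := P) N h s (oQ.nice f hf) hp1.le
    (D := ENNReal.ofReal (C1 * a ^ (1 - δ)) * nm (ENNReal.ofReal p) f) (by
    intro i u hu
    have hc0 : 0 ≤ i * h * u := mul_nonneg (mul_nonneg (Nat.cast_nonneg i) h0.le) hu.1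
    have ha'0 : 0 < a * Real.exp (-(i * h * u)) := by positivity
    have ha'a : a * Real.exp (-(i * h * u)) ≤ a := by
      have : Real.exp (-(i * h * u)) ≤ 1 := Real.exp_le_one_iff.mpr (by linarith)
      nlinarith
    have b1 := hmain n K hK (a * Real.exp (-(i * h * u))) ha'0 (ha'a.trans ha1)
    have o1 := opr_PQ hU ha'0.le one_pos M0
    rw [dil_one] at o1
    have hb : 0 ≤ C1 * (a * Real.exp (-(i * h * u))) ^ (1 - δ) := by positivity
    have b2 := dual o1.toMul (q := 2 ^ j) (by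
      calc 2 ≤ 2 ^ 2 := by norm_num
        _ ≤ 2 ^ j := Nat.pow_le_pow_right (by norm_num) hj) hb b1
    have e1 : (((2 ^ j : ℕ) : ℝ) / (((2 ^ j : ℕ) : ℝ) - 1)) = p := by
      rw [hp]
      push_cast
      rfl
    rw [e1] at b2
    have b3 := scale hU ha'0.le (Real.exp_pos (s + i * h * u)) hp1.le M0 b2 f hf
    have e2 : a * Real.exp (-(i * h * u)) * Real.exp (s + i * h * u) = a * Real.exp s := by
      rw [mul_assoc, ← Real.exp_add]
      congr 2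
      ring
    simp only [e2] at b3
    refine b3.trans (mul_le_mul_left (ENNReal.ofReal_le_ofReal ?_) _)
    exact mul_le_mul_of_nonneg_left (Real.rpow_le_rpow ha'0.le ha'a hδ'.le) hC1)
  have hom : Nice (om (Qa (a * Real.exp s) M0) f) := oQ.om.nice f hf
  have hQ : Nice (Qa (a * Real.exp s) M0 f) := oQ.nice f hf
  have efull : Ed N h P s f = fun x => Ed N h P s (om (Qa (a * Real.exp s) M0) f) x +
      Ed N h P s (Qa (a * Real.exp s) M0 f) x := by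
    rw [← oE.toMul.map_add hom hQ]
    congr 1
    funext x
    simp only [om]
    ring
  rw [efull]
  refine (nm_add_le hq (oE.nice _ hom) (oE.nice _ hQ)).trans ?_
  refine (add_le_add low high).trans ?_
  rw [← mul_assoc, ← add_mul, ← ENNReal.ofReal_mul (by positivity),
    ← ENNReal.ofReal_add (by positivity) (by positivity)]
  refine mul_le_mul_left (ENNReal.ofReal_le_ofReal ?_) _
  have k1 : (mc 1 p * B1 ^ (2 - p) * (C2 * h ^ (δ * N)) ^ (2 * (p - 1))) ^ (1 / p) =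
      C3 * h ^ (δ * N * (2 * (p - 1)) * (1 / p)) := by
    rw [Real.mul_rpow hC2.le hhN.le, ← mul_assoc, Real.mul_rpow (by positivity) (by positivity),
      ← Real.rpow_mul h0.le, ← Real.rpow_mul h0.le]
  rw [k1, haκ]
  have k2 : h ^ (δ * N * (2 * (p - 1)) * (1 / p)) ≤ h ^ κ :=
    Real.rpow_le_rpow_of_exponent_ge h0 h1 hNκ
  calc C3 * h ^ (δ * N * (2 * (p - 1)) * (1 / p)) + 2 ^ N * (C1 * h ^ κ)
      ≤ C3 * h ^ κ + 2 ^ N * (C1 * h ^ κ) := by gcongr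
    _ = (C3 + 2 ^ N * C1) * h ^ κ := by ring

end Pool.Agent.UB
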