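import Pool.Agent.UB.KapA
import Pool.Agent.UB.MulB

/-!
# UB-XG: smoothing with the uniform distributions, and the sums `∑ (1-S)^l`

PLAN.  `opr_Mg` with `μ i = dm (uni r) i`, `h = mu/kG`, `n h ≤ 1/2` (as `kG ≥ 2 n mu`); `ft_dm`, `cs_uni`.  `1 - m^k = (1 - m) ∑_{j<k} m^j`.
`sgs_bd`: `m = 1 - h ∑ (1 - sinc) ∈ [0, 1]` since `0 ≤ 1 - sinc ≤ 2`; if `|ξ_j| ≥ 2/r`, `|sinc (r ξ_j)| ≤ 1/(r |ξ_j|) ≤ 1/2`, so
`m ≤ 1 - h/2` and `m^k ≤ exp (-h k/2) = exp (-mu/2)`.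
-/

set_option autoImplicit false

open MeasureTheory Set
open scoped ENNReal NNReal

namespace Pool.Agent.UB

open Pool.Agent.CB

/-- The number of steps. -/
noncomputable def kG (n : ℕ) (mu : ℝ) : ℕ := ⌈2 * n * mu⌉₊ + 1

/-- One step. -/
noncomputable def Mu {n : ℕ} (r mu : ℝ) (f : V n → ℝ) : V n → ℝ :=
  Mg (fun i => dm (uni r) i) (mu / kG n mu) f

/-- The smoothing operator `S^G`. -/
noncomputable def SG {n : ℕ} (r mu : ℝ) (f : V n → ℝ) : V n → ℝ := (Mu r mu)^[kG n mu] f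

/-- The operator `X` with `1 - S^G = ∑ (1 - Γ_i) X`. -/
noncomputable def XG {n : ℕ} (r mu : ℝ) (f : V n → ℝ) (x : V n) : ℝ :=
  mu / kG n mu * ∑ j ∈ Finset.range (kG n mu), (Mu r mu)^[j] f x

/-- The symbol of one step. -/
noncomputable def mus {n : ℕ} (r mu : ℝ) (ξ : V n) : ℝ :=
  1 - mu / kG n mu * ∑ i, (1 - Real.sinc (r * ξ i))

noncomputable def sgs {n : ℕ} (r mu : ℝ) (ξ : V n) : ℝ := mus r mu ξ ^ kG n mu

noncomputable def xgs {n : ℕ} (r mu : ℝ) (ξ : V n) : ℝ :=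
  mu / kG n mu * ∑ j ∈ Finset.range (kG n mu), mus r mu ξ ^ j

/-- `∑_{l<J} (1-S)^l`. -/
noncomputable def FJ {n : ℕ} (r lam : ℝ) (J : ℕ) (f : V n → ℝ) (x : V n) : ℝ :=
  ∑ l ∈ Finset.range J, (om (So r lam))^[l] f x

variable {n : ℕ} {r mu lam : ℝ}

private theorem kG_pos : 0 < kG n mu := by
  unfold kG
  omega

private theorem kG_ge : 2 * n * mu ≤ kG n mu := by
  unfold kG
  have h := Nat.le_ceil (2 * (n : ℝ) * mu)
  push_cast
  linarith

private theorem h_nonneg (hm : 0 < mu) : 0 ≤ mu / kG n mu :=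
  div_nonneg hm.le (Nat.cast_nonneg _)

private theorem kG_mul (n : ℕ) (mu : ℝ) : mu / kG n mu * kG n mu = mu := by
  have h : (0 : ℝ) < kG n mu := by exact_mod_cast (kG_pos (n := n) (mu := mu))
  exact div_mul_cancel₀ _ h.ne'

private theorem nh_le : 2 * n * (mu / kG n mu) ≤ 1 := by
  have h : (0 : ℝ) < kG n mu := by exact_mod_cast (kG_pos (n := n) (mu := mu))
  rw [← mul_div_assoc, div_le_one h]
  exact kG_ge

private theorem opr_Mu (hr : 0 < r) (hm : 0 < mu) : Opr (mus r mu) 1 (Mu (n := n) r mu) := by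
  have h0 : 0 ≤ mu / kG n mu := h_nonneg hm
  have h1 : (n : ℝ) * (mu / kG n mu) ≤ 1 := by
    have h2 : 2 * n * (mu / kG n mu) ≤ 1 := nh_le
    have h3 : 0 ≤ (n : ℝ) * (mu / kG n mu) := mul_nonneg (Nat.cast_nonneg _) h0
    linarith
  have h2 := opr_Mg (n := n) (μ := fun i => dm (uni r) i) (fun i => symP_dm (symR_uni hr) i) h0 h1
  refine (h2.congr_symbol fun ξ => ?_).congr_op fun f _ => rfl
  unfold mus
  congr 2
  refine Finset.sum_congr rfl fun i _ => ?_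
  rw [ft_dm (symR_uni hr), cs_uni hr]

private theorem sum_bd (x : Fin n → ℝ) :
    0 ≤ ∑ i, (1 - Real.sinc (x i)) ∧ ∑ i, (1 - Real.sinc (x i)) ≤ 2 * n := by
  refine ⟨Finset.sum_nonneg fun i _ => sub_nonneg.2 (Real.sinc_le_one _), ?_⟩
  refine (Finset.sum_le_card_nsmul Finset.univ _ 2 fun i _ => ?_).trans (le_of_eq ?_)
  · linarith [Real.neg_one_le_sinc (x i)]
  · rw [Finset.card_univ, Fintype.card_fin, nsmul_eq_mul]
    ring

private theorem mus_bd (hm : 0 < mu) (ξ : V n) : 0 ≤ mus r mu ξ ∧ mus r mu ξ ≤ 1 := by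
  obtain ⟨h1, h2⟩ := sum_bd fun i => r * ξ i
  have h0 : 0 ≤ mu / kG n mu := h_nonneg hm
  have h3 : 2 * n * (mu / kG n mu) ≤ 1 := nh_le
  unfold mus
  have h4 := mul_nonneg h0 h1
  have h5 := mul_le_mul_of_nonneg_left h2 h0
  constructor
  · linarith
  · linarith

theorem opr_SG (hr : 0 < r) (hm : 0 < mu) : Opr (sgs r mu) 1 (SG (n := n) r mu) := by
  have h1 := (opr_Mu (n := n) hr hm).iter (kG n mu)
  rw [one_pow] at h1
  exact (h1.congr_symbol fun ξ => rfl).congr_op fun f _ => rfl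

theorem opr_XG (hr : 0 < r) (hm : 0 < mu) : Opr (xgs r mu) mu (XG (n := n) r mu) := by
  have h1 := (Opr.sum (Finset.range (kG n mu)) fun j _ => (opr_Mu (n := n) hr hm).iter j).smul
    (mu / kG n mu)
  refine ((h1.congr_symbol fun ξ => rfl).congr_op fun f _ => rfl).mono (le_of_eq ?_)
  simp only [one_pow, Finset.sum_const, Finset.card_range, nsmul_eq_mul, mul_one]
  rw [abs_of_nonneg (h_nonneg hm)]
  exact kG_mul n mu

theorem sgs_id (hm : 0 < mu) (ξ : V n) :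
    1 - sgs r mu ξ = (∑ i, (1 - Real.sinc (r * ξ i))) * xgs r mu ξ := by
  unfold sgs xgs
  have h1 := geom_sum_mul (mus r mu ξ) (kG n mu)
  have h2 : mus r mu ξ - 1 = -(mu / kG n mu * ∑ i, (1 - Real.sinc (r * ξ i))) := by
    unfold mus
    ring
  rw [h2] at h1
  linear_combination h1

theorem sgs_bd (hr : 0 < r) (hm : 0 < mu) (ξ : V n) : 0 ≤ sgs r mu ξ ∧ sgs r mu ξ ≤ 1 := by
  obtain ⟨h1, h2⟩ := mus_bd (r := r) hm ξ
  exact ⟨pow_nonneg h1 _, pow_le_one₀ h1 h2⟩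

theorem sgs_small (hr : 0 < r) (hm : 0 < mu) (ξ : V n) (j : Fin n) (hj : 2 / r ≤ |ξ j|) :
    sgs r mu ξ ≤ Real.exp (-mu / 2) := by
  obtain ⟨h1, h2⟩ := mus_bd (r := r) hm ξ
  have h0 : 0 ≤ mu / kG n mu := h_nonneg hm
  have hj0 : 0 < |ξ j| := lt_of_lt_of_le (by positivity) hj
  have hx : r * ξ j ≠ 0 := mul_ne_zero hr.ne' (abs_pos.1 hj0)
  have h3 : Real.sinc (r * ξ j) ≤ 1 / 2 := by
    refine (Real.sinc_le_inv_abs hx).trans ?_
    rw [abs_mul, abs_of_pos hr, one_div]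
    refine inv_anti₀ (by norm_num) ?_
    rw [div_le_iff₀ hr] at hj
    linarith
  have h4 : 1 / 2 ≤ ∑ i, (1 - Real.sinc (r * ξ i)) := by
    have h5 := Finset.single_le_sum (f := fun i => 1 - Real.sinc (r * ξ i))
      (fun i _ => sub_nonneg.2 (Real.sinc_le_one _)) (Finset.mem_univ j)
    simp only at h5
    linarith
  have h5 : mus r mu ξ ≤ Real.exp (-(mu / kG n mu / 2)) := by
    have h6 := Real.add_one_le_exp (-(mu / kG n mu / 2))
    have h7 := mul_le_mul_of_nonneg_left h4 h0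
    unfold mus
    linarith
  unfold sgs
  refine (pow_le_pow_left₀ h1 h5 _).trans (le_of_eq ?_)
  rw [← Real.exp_nat_mul]
  congr 1
  have h8 := kG_mul n mu
  linear_combination (-1 / 2) * h8

theorem opr_FJ (hr : 0 < r) (hl0 : 0 < lam) (hl1 : lam ≤ 1) (J : ℕ) :
    Opr (fun ξ => ∑ l ∈ Finset.range J, (1 - ss r lam ξ) ^ l) (2 ^ J) (FJ (n := n) r lam J) := by
  have h1 := Opr.sum (Finset.range J) fun l _ => (opr_So (n := n) hr hl0 hl1).om.iter l
  refine ((h1.congr_symbol fun ξ => rfl).congr_op fun f _ => rfl).mono ?_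
  have h2 : (1 + 1 : ℝ) = 2 := by norm_num
  rw [h2]
  have h3 := geom_sum_mul (2 : ℝ) J
  linarith

/-- `f = (1-S)^J f + S ∑_{l<J} (1-S)^l f`. -/
theorem FJ_id (hr : 0 < r) (hl0 : 0 < lam) (hl1 : lam ≤ 1) (J : ℕ) {f : V n → ℝ} (hf : Nice f) :
    f = fun x => (om (So r lam))^[J] f x + So r lam (FJ r lam J f) x := by
  have hS := (opr_So (n := n) hr hl0 hl1).toMul
  have hg : ∀ l, Nice ((om (So r lam))^[l] f) := fun l => ((hS.om).iter l).nice f hf
  have h1 : So r lam (FJ r lam J f) =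
      fun x => ∑ l ∈ Finset.range J, So r lam ((om (So r lam))^[l] f) x :=
    hS.map_sum (Finset.range J) fun l _ => hg l
  funext x
  rw [h1]
  have h2 : ∀ l, So r lam ((om (So r lam))^[l] f) x =
      (om (So r lam))^[l] f x - (om (So r lam))^[l + 1] f x := by
    intro l
    rw [Function.iterate_succ_apply']
    unfold om
    ring
  simp only [h2]
  rw [Finset.sum_range_sub']
  simp only [Function.iterate_zero, id_eq]
  ring

theorem opr_Ga {a : ℝ} (ha : 0 ≤ a) :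
    Opr (fun ξ : V n => Real.exp (-(a * ‖ξ‖) ^ 2 / 2)) 1 (Ga a) := by
  have h1 := opr_cv ((symP_gam n).dil a)
  refine (h1.congr_symbol fun ξ => ?_).congr_op fun f _ => rfl
  rw [ft_dil, ft_gam, norm_smul, Real.norm_eq_abs, abs_of_nonneg ha]

theorem opr_Qa {a : ℝ} (ha : 0 ≤ a) (M0 : ℕ) :
    Opr (fun ξ : V n => (1 - Real.exp (-(a * ‖ξ‖) ^ 2 / 2)) ^ M0) (2 ^ M0) (Qa a M0) := by
  have h1 := (opr_Ga (n := n) ha).om.iter M0
  refine ((h1.congr_symbol fun ξ => rfl).congr_op fun f _ => rfl).mono (le_of_eq ?_)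
  norm_num

end Pool.Agent.UB
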