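import Pool.Agent.UB.Sgn
import Pool.Agent.UB.XG

/-!
# UB-EdmB: differences in the logarithmic scale and the symbol bound

The `N`-th difference with step `h` of `t ↦ cos (e^t z)` is at most `C_N h^N (1 + |z|)^N` (the operator `u d/du` applied `N` times
to the cosine), and `E (1 + |<ξ, Y>|)^N ≤ C (1 + ‖ξ‖)^N` by `Geo.mom`.
-/

set_option autoImplicit false

open MeasureTheory Set
open scoped ENNReal NNReal

namespace Pool.Agent.UB

open Pool.Agent.CB

/-- The operator `u d/du` on sequences of derivatives. -/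
private noncomputable def dth (D : ℕ → ℝ → ℝ) : ℕ → ℝ → ℝ := fun j u => u * D (j + 1) u + j * D j u

private theorem dth_der {D : ℕ → ℝ → ℝ} (h : ∀ j x, HasDerivAt (D j) (D (j + 1) x) x) :
    ∀ j x, HasDerivAt (dth D j) (dth D (j + 1) x) x := by
  intro j x
  have h1 := ((hasDerivAt_id x).mul (h (j + 1) x)).add ((h j x).const_mul (j : ℝ))
  have e : dth D (j + 1) x = 1 * D (j + 1) x + id x * D (j + 1 + 1) x + (j : ℝ) * D (j + 1) x := by
    simp only [dth, id]
    push_cast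
    ring
  rw [e]
  exact h1

private theorem dth_iter_der {D : ℕ → ℝ → ℝ} (h : ∀ j x, HasDerivAt (D j) (D (j + 1) x) x) (k : ℕ) :
    ∀ j x, HasDerivAt ((dth^[k] D) j) ((dth^[k] D) (j + 1) x) x := by
  induction k with
  | zero => exact h
  | succ k ih =>
    rw [Function.iterate_succ_apply']
    exact dth_der ih

private theorem dth_bd {D : ℕ → ℝ → ℝ} {N : ℕ} (h : ∀ j x, |D j x| ≤ 1) (k : ℕ) :
    ∀ j, j + k ≤ N → ∀ u, |(dth^[k] D) j u| ≤ ((N : ℝ) + 1) ^ k * (1 + |u|) ^ k := by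
  induction k with
  | zero =>
    intro j _ u
    have := h j u
    simpa using this
  | succ k ih =>
    intro j hj u
    rw [Function.iterate_succ_apply']
    have h1 := ih (j + 1) (by omega) u
    have h2 := ih j (by omega) u
    have hu : 0 ≤ |u| := abs_nonneg u
    have hj' : (j : ℝ) ≤ N := by exact_mod_cast (by omega : j ≤ N)
    have hj0 : (0 : ℝ) ≤ j := Nat.cast_nonneg j
    have hN0 : (0 : ℝ) ≤ N := Nat.cast_nonneg N
    have hc : 0 ≤ ((N : ℝ) + 1) ^ k * (1 + |u|) ^ k := by positivity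
    calc |dth (dth^[k] D) j u| ≤ |u| * |(dth^[k] D) (j + 1) u| + j * |(dth^[k] D) j u| := by
          unfold dth
          refine (abs_add_le _ _).trans ?_
          rw [abs_mul, abs_mul, abs_of_nonneg hj0]
      _ ≤ |u| * (((N : ℝ) + 1) ^ k * (1 + |u|) ^ k) +
          j * (((N : ℝ) + 1) ^ k * (1 + |u|) ^ k) :=
          add_le_add (mul_le_mul_of_nonneg_left h1 hu) (mul_le_mul_of_nonneg_left h2 hj0)
      _ = (|u| + j) * (((N : ℝ) + 1) ^ k * (1 + |u|) ^ k) := by ring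
      _ ≤ (((N : ℝ) + 1) * (1 + |u|)) * (((N : ℝ) + 1) ^ k * (1 + |u|) ^ k) := by
          refine mul_le_mul_of_nonneg_right ?_ hc
          have h3 : 0 ≤ (N : ℝ) * |u| := mul_nonneg hN0 hu
          have h4 : ((N : ℝ) + 1) * (1 + |u|) = N * |u| + N + |u| + 1 := by ring
          rw [h4]
          linarith
      _ = ((N : ℝ) + 1) ^ (k + 1) * (1 + |u|) ^ (k + 1) := by
          rw [pow_succ, pow_succ]; ring

private theorem diff_le_der (N : ℕ) : ∀ (G : ℕ → ℝ → ℝ), (∀ j s, HasDerivAt (G j) (G (j + 1) s) s) →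
    ∀ (h M s₀ : ℝ), 0 ≤ h → (∀ s, s₀ ≤ s → s ≤ s₀ + N * h → |G N s| ≤ M) →
      |(fwdDiff h)^[N] (G 0) s₀| ≤ h ^ N * M := by
  induction N with
  | zero =>
    intro G _ h M s₀ _ hM
    simpa using hM s₀ le_rfl (by simp)
  | succ N ih =>
    intro G hG h M s₀ hh hM
    rw [Function.iterate_succ_apply]
    have key := ih (fun j => fwdDiff h (G j)) ?_ h (h * M) s₀ hh ?_
    · calc _ ≤ h ^ N * (h * M) := key
        _ = h ^ (N + 1) * M := by rw [pow_succ]; ring
    · intro j s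
      have h1 : HasDerivAt (fun y => G j (y + h)) (G (j + 1) (s + h)) s :=
        (hG j (s + h)).comp_add_const s h
      exact h1.sub (hG j s)
    · intro s hs hs'
      have hconv := (convex_Icc s (s + h)).norm_image_sub_le_of_norm_hasDerivWithin_le
        (f := G N) (f' := G (N + 1)) (C := M) (x := s) (y := s + h)
        (fun x _ => (hG N x).hasDerivWithinAt)
        (fun x hx => by
          rw [Real.norm_eq_abs]
          refine hM x (hs.trans hx.1) (hx.2.trans ?_)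
          push_cast
          linarith)
        ⟨le_rfl, by linarith⟩ ⟨by linarith, le_rfl⟩
      rw [Real.norm_eq_abs, Real.norm_eq_abs, add_sub_cancel_left, abs_of_nonneg hh] at hconv
      calc |fwdDiff h (G N) s| = |G N (s + h) - G N s| := rfl
        _ ≤ M * h := hconv
        _ = h * M := mul_comm _ _

private theorem dif_eq_fwd (N : ℕ) (F : ℝ → ℝ) (h : ℝ) :
    |dif N (fun i => F (i * h))| = |(fwdDiff h)^[N] F 0| := by
  have e : dif N (fun i => F (i * h)) = (-1) ^ N * (fwdDiff h)^[N] F 0 := by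
    rw [fwdDiff_iter_eq_sum_shift, Finset.mul_sum]
    unfold dif
    refine Finset.sum_congr rfl fun i hi => ?_
    have hi' : i ≤ N := Nat.lt_succ_iff.1 (Finset.mem_range.1 hi)
    have e1 : ((-1 : ℝ)) ^ N = (-1) ^ (N - i) * (-1) ^ i := by
      rw [← pow_add, Nat.sub_add_cancel hi']
    have e2 : ((-1 : ℝ)) ^ (N - i) * (-1) ^ (N - i) = 1 := by
      rw [← mul_pow]; norm_num
    simp only [zero_add, nsmul_eq_mul, zsmul_eq_mul, Int.cast_mul, Int.cast_pow, Int.cast_neg,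
      Int.cast_one, Int.cast_natCast]
    rw [e1]
    linear_combination (-((-1 : ℝ) ^ i * (N.choose i : ℝ) * F (i * h))) * e2
  rw [e, abs_mul, abs_pow, abs_neg, abs_one, one_pow, one_mul]

/-- The derivatives of the cosine. -/
private noncomputable def dcos (j : ℕ) (x : ℝ) : ℝ := Real.cos (x + j * (Real.pi / 2))

private theorem dcos_der (j : ℕ) (x : ℝ) : HasDerivAt (dcos j) (dcos (j + 1) x) x := by
  have h1 : HasDerivAt (fun y : ℝ => y + j * (Real.pi / 2)) 1 x :=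
    (hasDerivAt_id x).add_const _
  have h2 := h1.cos
  have e : dcos (j + 1) x = -Real.sin (x + j * (Real.pi / 2)) * 1 := by
    unfold dcos
    rw [mul_one, ← Real.cos_add_pi_div_two]
    congr 1
    push_cast
    ring
  rw [e]
  exact h2

private theorem cos_dif (N : ℕ) (z h : ℝ) (h0 : 0 ≤ h) (h1 : h ≤ 1) :
    |dif N (fun i => Real.cos (Real.exp (i * h) * z))| ≤
      h ^ N * (((N : ℝ) + 1) ^ N * Real.exp N ^ N * (1 + |z|) ^ N) := by
  let G : ℕ → ℝ → ℝ := fun k s => (dth^[k] dcos) 0 (Real.exp s * z)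
  have hG : ∀ k s, HasDerivAt (G k) (G (k + 1) s) s := by
    intro k s
    have h1 : HasDerivAt (fun s => Real.exp s * z) (Real.exp s * z) s :=
      (Real.hasDerivAt_exp s).mul_const z
    have h2 := (dth_iter_der dcos_der k 0 (Real.exp s * z)).comp s h1
    have e : G (k + 1) s = (dth^[k] dcos) (0 + 1) (Real.exp s * z) * (Real.exp s * z) := by
      simp only [G]
      rw [Function.iterate_succ_apply']
      simp only [dth]
      push_cast
      ring
    rw [e]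
    exact h2
  have hN0 : (0 : ℝ) ≤ N := Nat.cast_nonneg N
  have hGb : ∀ s, 0 ≤ s → s ≤ 0 + (N : ℝ) * h →
      |G N s| ≤ ((N : ℝ) + 1) ^ N * Real.exp N ^ N * (1 + |z|) ^ N := by
    intro s hs hs'
    have hsN : s ≤ N := by
      have : (N : ℝ) * h ≤ N * 1 := mul_le_mul_of_nonneg_left h1 hN0
      linarith
    have hE1 : 1 ≤ Real.exp (N : ℝ) := Real.one_le_exp hN0
    have hu : 1 + |Real.exp s * z| ≤ Real.exp N * (1 + |z|) := by
      rw [abs_mul, abs_of_pos (Real.exp_pos s)]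
      have h3 : Real.exp s * |z| ≤ Real.exp N * |z| :=
        mul_le_mul_of_nonneg_right (Real.exp_le_exp.2 hsN) (abs_nonneg z)
      have h4 : Real.exp N * (1 + |z|) = Real.exp N + Real.exp N * |z| := by ring
      rw [h4]
      linarith
    have h5 := dth_bd (D := dcos) (N := N) (fun j x => Real.abs_cos_le_one _) N 0 (by omega)
      (Real.exp s * z)
    refine h5.trans ?_
    rw [mul_assoc, ← mul_pow (Real.exp (N : ℝ))]
    apply mul_le_mul_of_nonneg_left _ (by positivity)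
    exact pow_le_pow_left₀ (by positivity) hu N
  have hfin := diff_le_der N G hG h _ 0 h0 hGb
  have e0 : dif N (fun i => Real.cos (Real.exp (i * h) * z)) = dif N (fun i => G 0 (i * h)) := by
    congr 1
    funext i
    simp only [G, Function.iterate_zero, id, dcos]
    push_cast
    rw [zero_mul, add_zero]
  rw [e0, dif_eq_fwd]
  exact hfin

private theorem integrable_unif {n : ℕ} {K : Set (V n)} (hK : Unc K) {f : V n → ℝ}
    (hf : Continuous f) : Integrable f (MX.unif K) := by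
  unfold MX.unif
  exact (hf.continuousOn.integrableOn_compact hK.compact).smul_measure
    (ENNReal.inv_ne_top.mpr hK.vol_pos.ne')

private theorem ft_dif {n : ℕ} {K : Set (V n)} (hK : Unc K) (N : ℕ) (h : ℝ) (ξ : V n) :
    dif N (fun i => ft (MX.unif K) (Real.exp (i * h) • ξ)) =
      ∫ y, dif N (fun i => Real.cos (Real.exp (i * h) * inner ℝ ξ y)) ∂(MX.unif K) := by
  unfold dif ft
  rw [integral_finsetSum]
  · refine Finset.sum_congr rfl fun i _ => ?_
    rw [integral_const_mul]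
    beta_reduce
    congr 2
    funext y
    rw [real_inner_smul_left]
  · intro i _
    exact integrable_unif hK (by fun_prop)

private theorem mom_le {n : ℕ} {K : Set (V n)} {c : ℕ → ℝ} (hK : Geo c K) (N : ℕ) (ξ : V n) :
    ∫ y, (1 + |inner ℝ ξ y|) ^ N ∂(MX.unif K) ≤ 2 ^ N * (1 + |c N|) * (1 + ‖ξ‖) ^ N := by
  have hU : Unc K := hK.toUnc
  have := hU.prob
  have h1 : ∫ y, (1 + |inner ℝ ξ y|) ^ N ∂(MX.unif K) ≤
      ∫ y, 2 ^ N * (1 + |inner ℝ ξ y| ^ N) ∂(MX.unif K) := by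
    apply integral_mono (integrable_unif hU (by fun_prop)) (integrable_unif hU (by fun_prop))
    intro y
    have h2 := add_pow_le (zero_le_one (α := ℝ)) (abs_nonneg (inner ℝ ξ y)) N
    rw [one_pow] at h2
    refine h2.trans ?_
    apply mul_le_mul_of_nonneg_right _ (by positivity)
    exact pow_le_pow_right₀ (by norm_num) (Nat.sub_le N 1)
  have h3 : ∫ y, 2 ^ N * (1 + |inner ℝ ξ y| ^ N) ∂(MX.unif K) =
      2 ^ N * (1 + ∫ y, |inner ℝ ξ y| ^ N ∂(MX.unif K)) := by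
    rw [integral_const_mul, integral_add (integrable_const _) (integrable_unif hU (by fun_prop))]
    simp
  have h4 := hK.mom N ξ
  have hx : 0 ≤ ‖ξ‖ := norm_nonneg ξ
  have h5 : c N * ‖ξ‖ ^ N ≤ |c N| * (1 + ‖ξ‖) ^ N :=
    mul_le_mul (le_abs_self _) (pow_le_pow_left₀ hx (by linarith) N) (by positivity)
      (abs_nonneg _)
  have h6 : 1 ≤ (1 + ‖ξ‖) ^ N := one_le_pow₀ (by linarith)
  calc ∫ y, (1 + |inner ℝ ξ y|) ^ N ∂(MX.unif K) ≤
        2 ^ N * (1 + ∫ y, |inner ℝ ξ y| ^ N ∂(MX.unif K)) := h1.trans h3.le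
    _ ≤ 2 ^ N * ((1 + |c N|) * (1 + ‖ξ‖) ^ N) := by
        apply mul_le_mul_of_nonneg_left _ (by positivity)
        have h7 : (1 + |c N|) * (1 + ‖ξ‖) ^ N = (1 + ‖ξ‖) ^ N + |c N| * (1 + ‖ξ‖) ^ N := by ring
        rw [h7]
        linarith
    _ = 2 ^ N * (1 + |c N|) * (1 + ‖ξ‖) ^ N := by ring

private noncomputable def Cn (c : ℕ → ℝ) (N : ℕ) : ℝ :=
  ((N : ℝ) + 1) ^ N * Real.exp N ^ N * (2 ^ N * (1 + |c N|))

private theorem Cn_pos (c : ℕ → ℝ) (N : ℕ) : 0 < Cn c N := by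
  unfold Cn
  have := abs_nonneg (c N)
  positivity

private theorem edm_bd' (c : ℕ → ℝ) (N : ℕ) {n : ℕ} {K : Set (V n)} (hK : Geo c K) {h : ℝ}
    (h0 : 0 ≤ h) (h1 : h ≤ 1) (ξ : V n) :
    |edm N h (MX.unif K) ξ| ≤ Cn c N * h ^ N * (1 + ‖ξ‖) ^ N := by
  have hU : Unc K := hK.toUnc
  have := hU.prob
  rw [edm_eq, ← Real.norm_eq_abs]
  have := intervalIntegral.norm_integral_le_of_norm_le_const (a := (0 : ℝ)) (b := 1)
    (f := fun u => dif N (fun i => ft (MX.unif K) (Real.exp (i * (h * u)) • ξ)))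
    (C := Cn c N * h ^ N * (1 + ‖ξ‖) ^ N) ?_
  · simpa using this
  · intro u hu
    rw [Set.uIoc_of_le zero_le_one] at hu
    have hu0 : 0 ≤ h * u := mul_nonneg h0 hu.1.le
    have hu1 : h * u ≤ h := mul_le_of_le_one_right h0 hu.2
    beta_reduce
    rw [ft_dif hU]
    have h2 : ‖∫ y, dif N (fun i => Real.cos (Real.exp (i * (h * u)) * inner ℝ ξ y)) ∂(MX.unif K)‖ ≤
        ∫ y, h ^ N * (((N : ℝ) + 1) ^ N * Real.exp N ^ N * (1 + |inner ℝ ξ y|) ^ N)
          ∂(MX.unif K) := by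
      apply norm_integral_le_of_norm_le (integrable_unif hU (by fun_prop))
      refine Filter.Eventually.of_forall fun y => ?_
      rw [Real.norm_eq_abs]
      refine (cos_dif N (inner ℝ ξ y) (h * u) hu0 (hu1.trans h1)).trans ?_
      exact mul_le_mul_of_nonneg_right (pow_le_pow_left₀ hu0 hu1 N) (by positivity)
    refine h2.trans ?_
    rw [integral_const_mul, integral_const_mul]
    have h3 := mom_le hK N ξ
    calc h ^ N * (((N : ℝ) + 1) ^ N * Real.exp N ^ N *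
          ∫ y, (1 + |inner ℝ ξ y|) ^ N ∂(MX.unif K)) ≤
        h ^ N * (((N : ℝ) + 1) ^ N * Real.exp N ^ N *
          (2 ^ N * (1 + |c N|) * (1 + ‖ξ‖) ^ N)) := by
          apply mul_le_mul_of_nonneg_left _ (by positivity)
          exact mul_le_mul_of_nonneg_left h3 (by positivity)
      _ = Cn c N * h ^ N * (1 + ‖ξ‖) ^ N := by
          unfold Cn
          ring

theorem edm_bd (c : ℕ → ℝ) (N : ℕ) :
    ∃ C : ℝ, 0 ≤ C ∧ ∀ (n : ℕ) (K : Set (V n)), Geo c K → ∀ h : ℝ, 0 ≤ h → h ≤ 1 → ∀ ξ : V n,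
      |edm N h (MX.unif K) ξ| ≤ C * h ^ N * (1 + ‖ξ‖) ^ N :=
  ⟨Cn c N, (Cn_pos c N).le, fun _ _ hK _ h0 h1 ξ => edm_bd' c N hK h0 h1 ξ⟩

private theorem one_sub_pow_le (M : ℕ) {x : ℝ} (h0 : 0 ≤ x) (h1 : x ≤ 1) :
    0 ≤ 1 - (1 - x) ^ M ∧ 1 - (1 - x) ^ M ≤ M * x := by
  constructor
  · have := pow_le_one₀ (n := M) (by linarith : 0 ≤ 1 - x) (by linarith)
    linarith
  · have := one_add_mul_le_pow (a := -x) (by linarith) M
    have e : 1 + -x = 1 - x := by ring
    rw [e] at this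
    linarith

private theorem sup_bd (N : ℕ) {a u : ℝ} (ha : 0 < a) (ha1 : a ≤ 1) (hu : 0 ≤ u) :
    (1 + u) ^ N * Real.exp (-(a * u) ^ 2 / 2) ≤ Real.exp ((N : ℝ) ^ 2 / 2) * (1 / a) ^ N := by
  have hau : 0 ≤ a * u := mul_nonneg ha.le hu
  have h1 : 1 + u ≤ 1 / a * Real.exp (a * u) := by
    have h2 : a * (1 + u) ≤ Real.exp (a * u) := by
      have := Real.add_one_le_exp (a * u)
      have e : a * (1 + u) = a + a * u := by ring
      rw [e]
      linarith
    have e : 1 / a * Real.exp (a * u) = Real.exp (a * u) / a := by ring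
    rw [e, le_div_iff₀ ha, mul_comm]
    exact h2
  have h3 : (1 + u) ^ N ≤ (1 / a * Real.exp (a * u)) ^ N := pow_le_pow_left₀ (by linarith) h1 N
  calc (1 + u) ^ N * Real.exp (-(a * u) ^ 2 / 2) ≤
      (1 / a * Real.exp (a * u)) ^ N * Real.exp (-(a * u) ^ 2 / 2) :=
        mul_le_mul_of_nonneg_right h3 (Real.exp_pos _).le
    _ = (1 / a) ^ N * Real.exp (N * (a * u) + -(a * u) ^ 2 / 2) := by
        rw [mul_pow, ← Real.exp_nat_mul, mul_assoc, ← Real.exp_add]
    _ ≤ (1 / a) ^ N * Real.exp ((N : ℝ) ^ 2 / 2) := by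
        apply mul_le_mul_of_nonneg_left _ (by positivity)
        apply Real.exp_le_exp.2
        have := sq_nonneg ((N : ℝ) - a * u)
        linarith [show ((N : ℝ) - a * u) ^ 2 = (N : ℝ) ^ 2 - 2 * (N * (a * u)) + (a * u) ^ 2 by ring]
    _ = Real.exp ((N : ℝ) ^ 2 / 2) * (1 / a) ^ N := mul_comm _ _

/-- The symbol of the part with low frequencies. -/
theorem low_bd (c : ℕ → ℝ) (N M0 : ℕ) :
    ∃ C : ℝ, 0 < C ∧ ∀ (n : ℕ) (K : Set (V n)), Geo c K → ∀ h : ℝ, 0 ≤ h → h ≤ 1 →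
      ∀ a : ℝ, 0 < a → a ≤ 1 → ∀ ξ : V n,
      |edm N h (MX.unif K) ξ * (1 - (1 - Real.exp (-(a * ‖ξ‖) ^ 2 / 2)) ^ M0)| ≤ C * (h / a) ^ N := by
  have hC := Cn_pos c N
  refine ⟨Cn c N * ((M0 : ℝ) + 1) * Real.exp ((N : ℝ) ^ 2 / 2),
    mul_pos (mul_pos hC (by positivity)) (Real.exp_pos _), ?_⟩
  intro n K hK h h0 h1 a ha ha1 ξ
  have hx : 0 ≤ ‖ξ‖ := norm_nonneg ξ
  have he0 : 0 ≤ Real.exp (-(a * ‖ξ‖) ^ 2 / 2) := (Real.exp_pos _).le
  have he1 : Real.exp (-(a * ‖ξ‖) ^ 2 / 2) ≤ 1 := by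
    apply Real.exp_le_one_iff.2
    have := sq_nonneg (a * ‖ξ‖)
    linarith
  obtain ⟨g1, g2⟩ := one_sub_pow_le M0 he0 he1
  have g3 := edm_bd' c N hK h0 h1 ξ
  have g4 := sup_bd N ha ha1 hx
  rw [abs_mul, abs_of_nonneg g1]
  calc |edm N h (MX.unif K) ξ| * (1 - (1 - Real.exp (-(a * ‖ξ‖) ^ 2 / 2)) ^ M0) ≤
      (Cn c N * h ^ N * (1 + ‖ξ‖) ^ N) * (M0 * Real.exp (-(a * ‖ξ‖) ^ 2 / 2)) :=
        mul_le_mul g3 g2 g1 (by positivity)
    _ = Cn c N * h ^ N * M0 * ((1 + ‖ξ‖) ^ N * Real.exp (-(a * ‖ξ‖) ^ 2 / 2)) := by ring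
    _ ≤ Cn c N * h ^ N * M0 * (Real.exp ((N : ℝ) ^ 2 / 2) * (1 / a) ^ N) :=
        mul_le_mul_of_nonneg_left g4 (by positivity)
    _ ≤ Cn c N * h ^ N * (M0 + 1) * (Real.exp ((N : ℝ) ^ 2 / 2) * (1 / a) ^ N) := by
        apply mul_le_mul_of_nonneg_right _ (by positivity)
        apply mul_le_mul_of_nonneg_left _ (by positivity)
        linarith
    _ = Cn c N * ((M0 : ℝ) + 1) * Real.exp ((N : ℝ) ^ 2 / 2) * (h / a) ^ N := by
        rw [div_eq_mul_one_div h a, mul_pow]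
        ring

end Pool.Agent.UB
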