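import Pool.Agent.UB.Defs

/-!
# UB-Line: measures on the axes

The measure `dm κ i` is the image of `κ` under the continuous map `s ↦ s • bv i`.
-/

set_option autoImplicit false

open MeasureTheory Set
open scoped ENNReal NNReal

namespace Pool.Agent.UB

open Pool.Agent.CB

variable {n : ℕ} {κ κ' : Measure ℝ}

private theorem meas_ax (i : Fin n) : Measurable (fun s : ℝ => s • (bv i : V n)) :=
  (by fun_prop : Continuous (fun s : ℝ => s • (bv i : V n))).measurable

private theorem inner_ax (i : Fin n) (ξ : V n) (s : ℝ) :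
    inner ℝ ξ (s • (bv i : V n)) = ξ i * s := by
  rw [inner_smul_right, bv, EuclideanSpace.inner_single_right]
  simp [mul_comm]

theorem symP_dm (hκ : SymR κ) (i : Fin n) : SymP (dm κ i) := by
  refine ⟨?_, ?_⟩
  · have := hκ.prob
    exact Measure.isProbabilityMeasure_map (meas_ax i).aemeasurable
  · unfold dm
    rw [Measure.map_map measurable_neg (meas_ax i)]
    have h : (fun y : V n => -y) ∘ (fun s : ℝ => s • (bv i : V n))
        = (fun s : ℝ => s • (bv i : V n)) ∘ (fun s => -s) := by
      funext s
      simp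
    rw [h, ← Measure.map_map (meas_ax i) measurable_neg, hκ.symm]

theorem ft_dm (hκ : SymR κ) (i : Fin n) (ξ : V n) : ft (dm κ i) ξ = cs κ (ξ i) := by
  unfold ft dm cs
  rw [integral_map (meas_ax i).aemeasurable
    (by fun_prop : Continuous fun y : V n => Real.cos (inner ℝ ξ y)).aestronglyMeasurable]
  simp only [inner_ax]

theorem cv_dm (hκ : SymR κ) (i : Fin n) {f : V n → ℝ} (hf : Measurable f) (x : V n) :
    cv (dm κ i) f x = ∫ s, f (x + s • bv i) ∂κ := by
  have h : Measurable fun y : V n => f (x + y) := hf.comp (measurable_const_add x)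
  exact integral_map (meas_ax i).aemeasurable h.aestronglyMeasurable

theorem abs_cs_le (hκ : SymR κ) (t : ℝ) : |cs κ t| ≤ 1 := by
  have := hκ.prob
  have h := norm_integral_le_of_norm_le_const (μ := κ) (f := fun s => Real.cos (t * s)) (C := 1)
    (Filter.Eventually.of_forall fun s => by
      rw [Real.norm_eq_abs]; exact Real.abs_cos_le_one _)
  rw [Real.norm_eq_abs] at h
  simpa [cs] using h

/-- Mixtures. -/
theorem dm_mix {c d : ℝ≥0∞} (i : Fin n) :
    dm (c • κ + d • κ') i = c • dm κ i + d • (dm κ' i : Measure (V n)) := by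
  unfold dm
  rw [Measure.map_add _ _ (meas_ax i), Measure.map_smul, Measure.map_smul]

end Pool.Agent.UB
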