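import Pool.Agent.UB.Defs

/-!
# UB-MulA: calculus of multiplier operators

Sums, multiples, compositions and iterates of multiplier operators.
-/

set_option autoImplicit false

open MeasureTheory Set
open scoped ENNReal NNReal

namespace Pool.Agent.UB

open Pool.Agent.CB

variable {n : ℕ} {τ σ : V n → ℝ} {T S : (V n → ℝ) → V n → ℝ}

private noncomputable def mex (ξ v : V n) : ℂ :=
  Complex.exp (((2 * Real.pi * inner ℝ v ξ : ℝ) : ℂ) * Complex.I)

private theorem mex_norm (ξ v : V n) : ‖mex ξ v‖ = 1 := by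
  unfold mex
  exact Complex.norm_exp_ofReal_mul_I _

private theorem mex_cont (ξ : V n) : Continuous (mex ξ) := by
  unfold mex
  fun_prop

private theorem mfh_eq (f : V n → ℝ) (ξ : V n) : fh f ξ = ∫ v, mex ξ v * (f v : ℂ) := by
  unfold fh mex
  rw [Real.fourierInv_eq']
  rfl

private theorem mex_int {f : V n → ℝ} (hf : Integrable f volume) (ξ : V n) :
    Integrable (fun v => mex ξ v * (f v : ℂ)) volume := by
  refine (hf.norm).mono' ?_ (ae_of_all _ fun v => ?_)
  · exact (mex_cont ξ).aestronglyMeasurable.mul hf.ofReal.aestronglyMeasurable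
  · rw [norm_mul, mex_norm, one_mul, Complex.norm_real]

private theorem fh_add' {g k : V n → ℝ} (hg : Nice g) (hk : Nice k) (ξ : V n) :
    fh (fun x => g x + k x) ξ = fh g ξ + fh k ξ := by
  rw [mfh_eq, mfh_eq, mfh_eq, ← integral_add (mex_int hg.int ξ) (mex_int hk.int ξ)]
  refine integral_congr_ae (ae_of_all _ fun v => ?_)
  simp only
  push_cast
  ring

private theorem fh_smul' (c : ℝ) (g : V n → ℝ) (ξ : V n) :
    fh (fun x => c * g x) ξ = (c : ℂ) * fh g ξ := by
  rw [mfh_eq, mfh_eq, ← integral_const_mul]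
  refine integral_congr_ae (ae_of_all _ fun v => ?_)
  simp only
  push_cast
  ring

theorem nice_zero : Nice (fun _ : V n => (0 : ℝ)) :=
  ⟨continuous_const, ⟨0, fun x => by simp⟩, integrable_zero _ _ _⟩

theorem nice_sum {ι : Type} (s : Finset ι) {f : ι → V n → ℝ} (hf : ∀ i ∈ s, Nice (f i)) :
    Nice fun x => ∑ i ∈ s, f i x := by
  classical
  induction s using Finset.induction_on with
  | empty =>
    simp only [Finset.sum_empty]
    exact nice_zero
  | insert a s ha ih =>
    simp only [Finset.sum_insert ha]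
    exact (hf a (Finset.mem_insert_self a s)).add
      (ih fun i hi => hf i (Finset.mem_insert_of_mem hi))

theorem isMul_add {f g k : V n → ℝ} (hg : Nice g) (hk : Nice k) (h1 : IsMul τ f g)
    (h2 : IsMul σ f k) : IsMul (fun ξ => τ ξ + σ ξ) f (fun x => g x + k x) := by
  intro ξ
  rw [fh_add' hg hk, h1 ξ, h2 ξ]
  push_cast
  ring

theorem isMul_smul {f g : V n → ℝ} (c : ℝ) (h : IsMul τ f g) :
    IsMul (fun ξ => c * τ ξ) f (fun x => c * g x) := by
  intro ξ
  rw [fh_smul', h ξ]
  push_cast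
  ring

theorem Mul.one : Mul (fun _ : V n => 1) (fun f => f) := by
  refine ⟨fun f hf => hf, fun f _ ξ => ?_⟩
  push_cast
  rw [one_mul]

/-- `T ∘ S`. -/
theorem Mul.comp (hT : Mul τ T) (hS : Mul σ S) : Mul (fun ξ => τ ξ * σ ξ) (fun f => T (S f)) :=
  ⟨fun f hf => hT.nice _ (hS.nice f hf),
    fun f hf => IsMul.comp (hS.mul f hf) (hT.mul _ (hS.nice f hf))⟩

theorem Mul.add (hT : Mul τ T) (hS : Mul σ S) :
    Mul (fun ξ => τ ξ + σ ξ) (fun f x => T f x + S f x) :=
  ⟨fun f hf => (hT.nice f hf).add (hS.nice f hf),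
    fun f hf => isMul_add (hT.nice f hf) (hS.nice f hf) (hT.mul f hf) (hS.mul f hf)⟩

theorem Mul.sub (hT : Mul τ T) (hS : Mul σ S) :
    Mul (fun ξ => τ ξ - σ ξ) (fun f x => T f x - S f x) :=
  ⟨fun f hf => (hT.nice f hf).sub (hS.nice f hf),
    fun f hf => IsMul.sub (hT.nice f hf) (hS.nice f hf) (hT.mul f hf) (hS.mul f hf)⟩

theorem Mul.om (hT : Mul τ T) : Mul (fun ξ => 1 - τ ξ) (om T) :=
  Mul.sub Mul.one hT

theorem Mul.smul (hT : Mul τ T) (c : ℝ) : Mul (fun ξ => c * τ ξ) (fun f x => c * T f x) :=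
  ⟨fun f hf => (hT.nice f hf).const_mul c, fun f hf => isMul_smul c (hT.mul f hf)⟩

theorem Mul.sum {ι : Type} (s : Finset ι) {τ : ι → V n → ℝ} {T : ι → (V n → ℝ) → V n → ℝ}
    (h : ∀ i ∈ s, Mul (τ i) (T i)) :
    Mul (fun ξ => ∑ i ∈ s, τ i ξ) (fun f x => ∑ i ∈ s, T i f x) := by
  classical
  induction s using Finset.induction_on with
  | empty =>
    simp only [Finset.sum_empty]
    refine ⟨fun f _ => nice_zero, fun f hf ξ => ?_⟩
    have h1 := fh_smul' 0 f ξ
    simp only [zero_mul, Complex.ofReal_zero] at h1 ⊢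
    exact h1
  | insert a s ha ih =>
    simp only [Finset.sum_insert ha]
    exact Mul.add (h a (Finset.mem_insert_self a s))
      (ih fun i hi => h i (Finset.mem_insert_of_mem hi))

theorem Mul.iter (hT : Mul τ T) (k : ℕ) : Mul (fun ξ => τ ξ ^ k) (fun f => T^[k] f) := by
  induction k with
  | zero =>
    simp only [pow_zero, Function.iterate_zero, id_eq]
    exact Mul.one
  | succ k ih =>
    have h1 := Mul.comp hT ih
    refine ⟨fun f hf => ?_, fun f hf ξ => ?_⟩
    · rw [Function.iterate_succ_apply']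
      exact h1.nice f hf
    · rw [Function.iterate_succ_apply', h1.mul f hf ξ]
      push_cast
      ring

theorem Mul.congr_symbol (hT : Mul τ T) (h : ∀ ξ, σ ξ = τ ξ) : Mul σ T := by
  have h1 : σ = τ := funext h
  rw [h1]
  exact hT

theorem Mul.congr_op (hT : Mul τ T) (h : ∀ f, Nice f → S f = T f) : Mul τ S := by
  refine ⟨fun f hf => ?_, fun f hf => ?_⟩
  · rw [h f hf]
    exact hT.nice f hf
  · rw [h f hf]
    exact hT.mul f hf

theorem Mul.cv {μ : Measure (V n)} (hμ : SymP μ) : Mul (ft μ) (cv μ) := by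
  haveI := hμ.prob
  exact ⟨fun f hf => nice_cv hf, fun f hf => isMul_cv hμ hf⟩

end Pool.Agent.UB
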