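import Pool.Agent.UB.Defs

/-!
# UB-UniA: the uniform distribution and the distribution `tht r`

PLAN.  `∫_{-r}^{r} cos(ts) ds/(2r) = sin(rt)/(rt)`.  `∫ (3/2)(r-|s|)²/r³ cos(ts) ds = (3/r³) ∫_0^r (r-s)² cos(ts) ds`, and for
`t ≠ 0` (integrate by parts twice, or the explicit antiderivative `(r-s)² sin(ts)/t - 2 (r-s) cos(ts)/t² - 2 sin(ts)/t³`)
`∫_0^r (r-s)² cos(ts) ds = 2r/t² - 2 sin(rt)/t³`; times `(rt)²·3/r³` gives `6 (1 - sin(rt)/(rt))`.  For `t = 0` both sides are `0`.
Second moments: `1 - cos x ≤ x²/2` and the support in `[-r, r]`.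
-/

set_option autoImplicit false

open MeasureTheory Set
open scoped ENNReal NNReal

namespace Pool.Agent.UB

variable {r : ℝ}

private theorem cs_bd_of_supp {κ : Measure ℝ} [IsProbabilityMeasure κ] (hr1 : r ≤ 1)
    (h : κ (Icc (-r) r)ᶜ = 0) (t : ℝ) : 1 - cs κ t ≤ t ^ 2 / 2 := by
  have h1 : ∀ᵐ s ∂κ, s ∈ Icc (-r) r := h
  have hint : Integrable (fun s : ℝ => Real.cos (t * s)) κ := by
    refine Integrable.of_bound (C := 1) (by fun_prop) ?_
    exact Filter.Eventually.of_forall fun s => by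
      rw [Real.norm_eq_abs]
      exact Real.abs_cos_le_one _
  have h2 : ∫ _s : ℝ, (1 - t ^ 2 / 2) ∂κ ≤ cs κ t := by
    unfold cs
    refine integral_mono_ae (integrable_const _) hint ?_
    filter_upwards [h1] with s hs
    have h3 := Real.one_sub_sq_div_two_le_cos (x := t * s)
    have h4 : s ^ 2 ≤ 1 := by
      rw [mem_Icc] at hs
      have : |s| ≤ 1 := (abs_le.2 hs).trans hr1
      rw [← sq_abs]
      exact pow_le_one₀ (abs_nonneg _) this
    have h5 : (t * s) ^ 2 ≤ t ^ 2 := by
      rw [mul_pow]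
      exact mul_le_of_le_one_right (sq_nonneg _) h4
    linarith
  rw [integral_const, smul_eq_mul, probReal_univ, one_mul] at h2
  linarith

theorem symR_uni (hr : 0 < r) : SymR (uni r) := by
  constructor
  · constructor
    unfold uni
    rw [Measure.smul_apply, Measure.restrict_apply_univ, Real.volume_Icc, smul_eq_mul]
    have h1 : r - -r = 2 * r := by ring
    rw [h1]
    refine ENNReal.inv_mul_cancel ?_ ENNReal.ofReal_ne_top
    rw [Ne, ENNReal.ofReal_eq_zero, not_le]
    positivity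
  · unfold uni
    rw [Measure.map_smul]
    congr 1
    have h1 := MeasurableEquiv.restrict_map (MeasurableEquiv.neg ℝ) (volume : Measure ℝ)
      (Icc (-r) r)
    have h2 : (MeasurableEquiv.neg ℝ) ⁻¹' (Icc (-r) r) = Icc (-r) r := by
      ext s
      simp only [MeasurableEquiv.neg, mem_preimage, mem_Icc]
      show -r ≤ -s ∧ -s ≤ r ↔ _
      constructor
      · rintro ⟨h1, h2⟩
        exact ⟨by linarith, by linarith⟩
      · rintro ⟨h1, h2⟩
        exact ⟨by linarith, by linarith⟩
    rw [h2] at h1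
    have h3 : Measure.map (MeasurableEquiv.neg ℝ) (volume : Measure ℝ) = volume :=
      Measure.map_neg_eq_self _
    rw [h3] at h1
    exact h1.symm

theorem cs_uni (hr : 0 < r) (t : ℝ) : cs (uni r) t = Real.sinc (r * t) := by
  unfold cs uni
  rw [integral_smul_measure, integral_Icc_eq_integral_Ioc,
    ← intervalIntegral.integral_of_le (by linarith)]
  rw [ENNReal.toReal_inv, ENNReal.toReal_ofReal (by positivity), smul_eq_mul]
  by_cases ht : t = 0
  · subst ht
    simp only [zero_mul, Real.cos_zero, mul_zero, Real.sinc_zero]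
    rw [intervalIntegral.integral_const, smul_eq_mul]
    field_simp
    ring
  · have hrt : r * t ≠ 0 := mul_ne_zero hr.ne' ht
    rw [intervalIntegral.integral_comp_mul_left (fun x => Real.cos x) ht, integral_cos,
      Real.sinc_of_ne_zero hrt, smul_eq_mul, mul_neg, Real.sin_neg, mul_comm t r]
    field_simp
    ring

theorem uni_supp : uni r (Icc (-r) r)ᶜ = 0 := by
  unfold uni
  rw [Measure.smul_apply, Measure.restrict_apply measurableSet_Icc.compl]
  simp

private noncomputable def dt (r s : ℝ) : ℝ := 3 / 2 * max (r - |s|) 0 ^ 2 / r ^ 3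

private theorem dt_cont : Continuous (dt r) := by
  unfold dt
  fun_prop

private theorem dt_nonneg (hr : 0 < r) (s : ℝ) : 0 ≤ dt r s := by
  unfold dt
  positivity

private theorem dt_zero {s : ℝ} (hs : s ∉ Icc (-r) r) : dt r s = 0 := by
  unfold dt
  have h1 : r - |s| ≤ 0 := by
    rw [mem_Icc, ← abs_le, not_le] at hs
    linarith
  rw [max_eq_right h1]
  ring

private theorem dt_supp : HasCompactSupport (dt r) :=
  HasCompactSupport.intro isCompact_Icc fun _ hs => dt_zero hs

private theorem tht_eq : tht r = volume.withDensity fun s => ENNReal.ofReal (dt r s) := rfl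

private theorem dt_integral (hr : 0 < r) (φ : ℝ → ℝ) (hφ : ∀ s, φ |s| = φ s) :
    ∫ s, dt r s * φ s = 3 / r ^ 3 * ∫ s in (0 : ℝ)..r, (r - s) ^ 2 * φ s := by
  have h1 : ∀ s : ℝ, dt r s * φ s = (fun u => 3 / 2 * max (r - u) 0 ^ 2 / r ^ 3 * φ u) |s| := by
    intro s
    show _ = 3 / 2 * max (r - |s|) 0 ^ 2 / r ^ 3 * φ |s|
    rw [hφ s]
    rfl
  have hc := integral_comp_abs (f := fun u : ℝ => 3 / 2 * max (r - u) 0 ^ 2 / r ^ 3 * φ u)
  rw [integral_congr_ae (Filter.Eventually.of_forall h1), hc]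
  have h2 : ∫ u in Ioi (0 : ℝ), 3 / 2 * max (r - u) 0 ^ 2 / r ^ 3 * φ u =
      ∫ u in Ioc (0 : ℝ) r, 3 / 2 * max (r - u) 0 ^ 2 / r ^ 3 * φ u := by
    refine setIntegral_eq_of_subset_of_forall_sdiff_eq_zero measurableSet_Ioi
      (fun u hu => hu.1) ?_
    intro u hu
    have h3 : r - u ≤ 0 := by
      have h4 : ¬ u ≤ r := fun h => hu.2 ⟨hu.1, h⟩
      linarith [not_le.1 h4]
    rw [max_eq_right h3]
    ring
  rw [h2, ← intervalIntegral.integral_of_le hr.le]
  have h3 : ∫ u in (0 : ℝ)..r, 3 / 2 * max (r - u) 0 ^ 2 / r ^ 3 * φ u =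
      ∫ u in (0 : ℝ)..r, 3 / (2 * r ^ 3) * ((r - u) ^ 2 * φ u) := by
    refine intervalIntegral.integral_congr fun u hu => ?_
    rw [uIcc_of_le hr.le, mem_Icc] at hu
    show 3 / 2 * max (r - u) 0 ^ 2 / r ^ 3 * φ u = _
    rw [max_eq_left (by linarith)]
    field_simp
  rw [h3, intervalIntegral.integral_const_mul]
  field_simp

private theorem int_sq (hr : 0 < r) : ∫ s in (0 : ℝ)..r, (r - s) ^ 2 = r ^ 3 / 3 := by
  have h1 : ∀ x ∈ uIcc 0 r, HasDerivAt (fun s : ℝ => -((r - s) ^ 3 / 3)) ((r - x) ^ 2) x := by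
    intro x _
    have h2 : HasDerivAt (fun s : ℝ => r - s) (-1) x := by
      simpa using (hasDerivAt_id x).const_sub r
    have h3 : HasDerivAt (fun s : ℝ => -((r - s) ^ 3 / 3))
        (-(((3 : ℕ) : ℝ) * (r - x) ^ (3 - 1) * (-1) / 3)) x := ((h2.pow 3).div_const 3).neg
    refine h3.congr_deriv ?_
    norm_num
    ring
  rw [intervalIntegral.integral_eq_sub_of_hasDerivAt h1
    (Continuous.intervalIntegrable (by fun_prop) _ _)]
  ring

private theorem int_cos (hr : 0 < r) {t : ℝ} (ht : t ≠ 0) :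
    ∫ s in (0 : ℝ)..r, (r - s) ^ 2 * Real.cos (t * s) =
      2 * r / t ^ 2 - 2 * Real.sin (t * r) / t ^ 3 := by
  have h1 : ∀ x ∈ uIcc 0 r, HasDerivAt (fun s : ℝ => (r - s) ^ 2 * Real.sin (t * s) / t -
      2 * (r - s) * Real.cos (t * s) / t ^ 2 - 2 * Real.sin (t * s) / t ^ 3)
      ((r - x) ^ 2 * Real.cos (t * x)) x := by
    intro x _
    have h2 : HasDerivAt (fun s : ℝ => r - s) (-1) x := by
      simpa using (hasDerivAt_id x).const_sub r
    have h3 : HasDerivAt (fun s : ℝ => t * s) t x := by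
      simpa using (hasDerivAt_id x).const_mul t
    have h4 := h3.sin
    have h5 := h3.cos
    have h6 := (((h2.pow 2).mul h4).div_const t).sub
      (((h2.const_mul 2).mul h5).div_const (t ^ 2))
    have h7 := h6.sub ((h4.const_mul 2).div_const (t ^ 3))
    refine HasDerivAt.congr_deriv h7 ?_
    have hpow : ((fun s : ℝ => r - s) ^ 2) x = (r - x) ^ 2 := rfl
    rw [hpow]
    push_cast
    field_simp
    ring
  rw [intervalIntegral.integral_eq_sub_of_hasDerivAt h1
    (Continuous.intervalIntegrable (by fun_prop) _ _)]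
  simp only [sub_self, mul_zero, Real.sin_zero, Real.cos_zero]
  ring

private theorem tht_integral (hr : 0 < r) (φ : ℝ → ℝ) :
    ∫ s, φ s ∂(tht r) = ∫ s, dt r s * φ s := by
  rw [tht_eq, integral_withDensity_eq_integral_toReal_smul
    (by exact (dt_cont.measurable).ennreal_ofReal)
    (Filter.Eventually.of_forall fun s => ENNReal.ofReal_lt_top)]
  refine integral_congr_ae (Filter.Eventually.of_forall fun s => ?_)
  show (ENNReal.ofReal (dt r s)).toReal • φ s = _
  rw [ENNReal.toReal_ofReal (dt_nonneg hr s), smul_eq_mul]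

private theorem tht_supp : tht r (Icc (-r) r)ᶜ = 0 := by
  rw [tht_eq, withDensity_apply _ measurableSet_Icc.compl]
  refine (setLIntegral_congr_fun measurableSet_Icc.compl (g := fun _ => 0) fun s hs => ?_).trans
    (by simp)
  show ENNReal.ofReal (dt r s) = 0
  rw [dt_zero hs, ENNReal.ofReal_zero]

theorem symR_tht (hr : 0 < r) : SymR (tht r) := by
  constructor
  · constructor
    rw [tht_eq, withDensity_apply _ MeasurableSet.univ, Measure.restrict_univ,
      ← ofReal_integral_eq_lintegral_ofReal (dt_cont.integrable_of_hasCompactSupport dt_supp)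
        (Filter.Eventually.of_forall fun s => dt_nonneg hr s)]
    have h1 := dt_integral hr (fun _ => 1) (fun _ => rfl)
    simp only [mul_one] at h1
    rw [h1, int_sq hr]
    have h2 : 3 / r ^ 3 * (r ^ 3 / 3) = 1 := by field_simp
    rw [h2, ENNReal.ofReal_one]
  · rw [tht_eq]
    have hm : Measurable fun s => ENNReal.ofReal (dt r s) := (dt_cont.measurable).ennreal_ofReal
    ext s hs
    rw [Measure.map_apply measurable_neg hs, withDensity_apply _ (measurable_neg hs),
      withDensity_apply _ hs]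
    have h1 : MeasurePreserving (fun x : ℝ => -x) volume volume :=
      Measure.measurePreserving_neg _
    have h2 := h1.setLIntegral_comp_preimage hs hm
    rw [← h2]
    refine lintegral_congr fun x => ?_
    have h3 : dt r (-x) = dt r x := by
      unfold dt
      rw [abs_neg]
    rw [h3]

theorem cs_tht (hr : 0 < r) (t : ℝ) :
    (r * t) ^ 2 * cs (tht r) t = 6 * (1 - Real.sinc (r * t)) := by
  by_cases ht : t = 0
  · subst ht
    simp
  · unfold cs
    rw [tht_integral hr, dt_integral hr (fun s => Real.cos (t * s)) (fun s => ?_), int_cos hr ht]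
    · have hrt : r * t ≠ 0 := mul_ne_zero hr.ne' ht
      rw [Real.sinc_of_ne_zero hrt, mul_comm t r]
      field_simp
      ring
    · show Real.cos (t * |s|) = Real.cos (t * s)
      rcases abs_cases s with ⟨h, _⟩ | ⟨h, _⟩
      · rw [h]
      · rw [h, mul_neg, Real.cos_neg]

theorem cs_uni_bd (hr : 0 < r) (hr1 : r ≤ 1) (t : ℝ) : 1 - cs (uni r) t ≤ t ^ 2 / 2 := by
  have := (symR_uni hr).prob
  exact cs_bd_of_supp hr1 uni_supp t

theorem cs_tht_bd (hr : 0 < r) (hr1 : r ≤ 1) (t : ℝ) : 1 - cs (tht r) t ≤ t ^ 2 / 2 := by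
  have := (symR_tht hr).prob
  exact cs_bd_of_supp hr1 tht_supp t

end Pool.Agent.UB
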