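import Pool.Agent.UB.LapA
import Pool.Agent.UB.UniA
import Pool.Agent.UB.Line
import Pool.Agent.UB.MulA
import Pool.Agent.UB.OprA

/-!
# UB-KapA: the mixture `kap r`, the operators `M` and `S`

PLAN.  `thl r` is the law of a sum of independent variables, so `cs (thl r) t = cs (tht r) t * cs lap t`
(`cos (a + b) = cos a cos b - sin a sin b`, the sine integrals vanish by symmetry) and `SymR (thl r)`.
`1 - cs (kap r) t` is the mean of the four `1 - cs`, each in `[0, 2]`; bounds: `t²/(1+t²)`, `t²/2`, `t²/2`, and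
`1 - ab ≤ (1-a) + (1-b)` for `|a|, |b| ≤ 1`: `t²/2 + t²`.  So `0 ≤ 1 - cs (kap r) t ≤ 2 min (1, t²)`.
`Dm`: `kap r = (1/4) κa + (3/4) κb`, `κb = (1/3) (sum of the three others)`; `dm_mix`.
`opr_Mo`: `Mg μ h f = (1 - n h) f + h ∑ cv (μ i) f`, norm `(1 - nh) + nh = 1` (`n h ≤ 1` since `h = lam/(24n²+1)`), symbol from
`ft_dm`.  `ss_bd`: `m = ms ξ ∈ [1 - 2nh, 1] ⊆ [0, 1]`, `1 - m^(2k) ≤ 2k (1 - m) ≤ 2k h · 2 Am ξ = 4 lam Am ξ`
(Bernoulli `one_sub_mul_le...`/`one_add_mul_le_pow`).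
-/

set_option autoImplicit false

open MeasureTheory Set
open scoped ENNReal NNReal

namespace Pool.Agent.UB

open Pool.Agent.CB

variable {n : ℕ} {r lam : ℝ}

private theorem ka_int {κ : Measure ℝ} (hκ : SymR κ) {g : ℝ → ℝ} (hg : Continuous g)
    (hb : ∀ x, |g x| ≤ 1) : Integrable g κ := by
  haveI := hκ.prob
  exact Integrable.of_bound hg.aestronglyMeasurable 1 (Filter.Eventually.of_forall fun x => by
    rw [Real.norm_eq_abs]
    exact hb x)

private theorem ka_sin {κ : Measure ℝ} (hκ : SymR κ) (t : ℝ) : ∫ s, Real.sin (t * s) ∂κ = 0 := by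
  have h1 : ∫ s, Real.sin (t * s) ∂κ = ∫ s, Real.sin (t * (-s)) ∂κ := by
    conv_lhs => rw [← hκ.symm]
    rw [integral_map measurable_neg.aemeasurable]
    exact (Real.continuous_sin.comp (continuous_const.mul continuous_id)).aestronglyMeasurable
  have h2 : ∫ s, Real.sin (t * (-s)) ∂κ = -∫ s, Real.sin (t * s) ∂κ := by
    rw [← integral_neg]
    refine integral_congr_ae (Filter.Eventually.of_forall fun s => ?_)
    show Real.sin (t * -s) = -Real.sin (t * s)
    rw [mul_neg, Real.sin_neg]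
  linarith

private theorem ka_symR {κ ν : Measure ℝ} (hκ : SymR κ) (hν : SymR ν) :
    SymR ((κ.prod ν).map fun z => z.1 + z.2) := by
  haveI := hκ.prob
  haveI := hν.prob
  have hm : Measurable fun z : ℝ × ℝ => z.1 + z.2 := measurable_fst.add measurable_snd
  refine ⟨Measure.isProbabilityMeasure_map hm.aemeasurable, ?_⟩
  rw [Measure.map_map measurable_neg hm]
  have e : ((fun s : ℝ => -s) ∘ fun z : ℝ × ℝ => z.1 + z.2) =
      (fun z : ℝ × ℝ => z.1 + z.2) ∘ Prod.map (fun s : ℝ => -s) (fun s : ℝ => -s) := by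
    funext z
    simp only [Function.comp_apply, Prod.map_fst, Prod.map_snd]
    ring
  rw [e, ← Measure.map_map hm (measurable_neg.prodMap measurable_neg),
    ← Measure.map_prod_map κ ν measurable_neg measurable_neg, hκ.symm, hν.symm]

private theorem ka_cs {κ ν : Measure ℝ} (hκ : SymR κ) (hν : SymR ν) (t : ℝ) :
    cs ((κ.prod ν).map fun z => z.1 + z.2) t = cs κ t * cs ν t := by
  haveI := hκ.prob
  haveI := hν.prob
  have hm : Measurable fun z : ℝ × ℝ => z.1 + z.2 := measurable_fst.add measurable_snd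
  have hc : Continuous fun s : ℝ => Real.cos (t * s) :=
    Real.continuous_cos.comp (continuous_const.mul continuous_id)
  have hsn : Continuous fun s : ℝ => Real.sin (t * s) :=
    Real.continuous_sin.comp (continuous_const.mul continuous_id)
  have ic1 := ka_int hκ hc fun x => Real.abs_cos_le_one _
  have ic2 := ka_int hν hc fun x => Real.abs_cos_le_one _
  have is1 := ka_int hκ hsn fun x => Real.abs_sin_le_one _
  have is2 := ka_int hν hsn fun x => Real.abs_sin_le_one _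
  unfold cs
  rw [integral_map hm.aemeasurable hc.aestronglyMeasurable]
  have e : (fun z : ℝ × ℝ => Real.cos (t * (z.1 + z.2))) = fun z : ℝ × ℝ =>
      Real.cos (t * z.1) * Real.cos (t * z.2) - Real.sin (t * z.1) * Real.sin (t * z.2) := by
    funext z
    rw [mul_add, Real.cos_add]
  rw [e, integral_sub (ic1.mul_prod ic2) (is1.mul_prod is2),
    integral_prod_mul (μ := κ) (ν := ν) (fun s => Real.cos (t * s)) (fun s => Real.cos (t * s)),
    integral_prod_mul (μ := κ) (ν := ν) (fun s => Real.sin (t * s)) (fun s => Real.sin (t * s)),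
    ka_sin hκ, zero_mul, sub_zero]

private theorem ka_mix {c : ℝ≥0∞} {κ1 κ2 κ3 : Measure ℝ} (h1 : SymR κ1) (h2 : SymR κ2)
    (h3 : SymR κ3) (hc : c * 3 = 1) : SymR (c • (κ1 + κ2 + κ3)) := by
  haveI := h1.prob
  haveI := h2.prob
  haveI := h3.prob
  refine ⟨⟨?_⟩, ?_⟩
  · simp only [Measure.smul_apply, Measure.add_apply, measure_univ, smul_eq_mul]
    have e : (1 + 1 + 1 : ℝ≥0∞) = 3 := by norm_num
    rw [e]
    exact hc
  · rw [Measure.map_smul, Measure.map_add _ _ measurable_neg, Measure.map_add _ _ measurable_neg,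
      h1.symm, h2.symm, h3.symm]

private theorem ka_third : (1 / 3 : ℝ≥0∞) * 3 = 1 := by
  rw [one_div]
  exact ENNReal.inv_mul_cancel (by norm_num) (by norm_num)

private theorem ka_dm {κ κa κ1 κ2 κ3 : Measure ℝ} (hκ : SymR κ) (ha : SymR κa) (h1 : SymR κ1)
    (h2 : SymR κ2) (h3 : SymR κ3) (h : κ = (1 / 4 : ℝ≥0∞) • (κa + (κ1 + κ2 + κ3))) :
    Dm (n := n) (fun i => dm κ i) (fun i => dm κa i) := by
  refine ⟨fun i => symP_dm hκ i, fun i => symP_dm ha i,
    fun i => dm ((1 / 3 : ℝ≥0∞) • (κ1 + κ2 + κ3)) i,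
    fun i => symP_dm (ka_mix h1 h2 h3 ka_third) i, fun i => ?_⟩
  have key : (3 / 4 : ℝ≥0∞) * (1 / 3) = 1 / 4 := by
    calc (3 / 4 : ℝ≥0∞) * (1 / 3) = 4⁻¹ * (3 * 3⁻¹) := by
          rw [div_eq_mul_inv, one_div]
          ring
      _ = 1 / 4 := by rw [ENNReal.mul_inv_cancel (by norm_num) (by norm_num), mul_one, one_div]
  have hh : κ = (1 / 4 : ℝ≥0∞) • κa + (3 / 4 : ℝ≥0∞) • ((1 / 3 : ℝ≥0∞) • (κ1 + κ2 + κ3)) := by
    rw [h, smul_add, smul_smul, key]
  show dm κ i = _
  rw [← dm_mix, ← hh]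

theorem symR_thl (hr : 0 < r) : SymR (thl r) := by
  exact ka_symR (symR_tht hr) symR_lap

theorem cs_thl (hr : 0 < r) (t : ℝ) : cs (thl r) t = cs (tht r) t * cs lap t := by
  exact ka_cs (symR_tht hr) symR_lap t

theorem symR_kap (hr : 0 < r) : SymR (kap r) := by
  haveI := (symR_lap).prob
  haveI := (symR_uni hr).prob
  haveI := (symR_tht hr).prob
  haveI := (symR_thl hr).prob
  unfold kap
  refine ⟨⟨?_⟩, ?_⟩
  · simp only [Measure.smul_apply, Measure.add_apply, measure_univ, smul_eq_mul]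
    have e : (1 + 1 + 1 + 1 : ℝ≥0∞) = 4 := by norm_num
    rw [e, one_div]
    exact ENNReal.inv_mul_cancel (by norm_num) (by norm_num)
  · rw [Measure.map_smul, Measure.map_add _ _ measurable_neg, Measure.map_add _ _ measurable_neg,
      Measure.map_add _ _ measurable_neg, (symR_lap).symm, (symR_uni hr).symm, (symR_tht hr).symm,
      (symR_thl hr).symm]

private theorem ka_cs_kap (hr : 0 < r) (t : ℝ) :
    cs (kap r) t = (1 / 4) * (cs lap t + cs (uni r) t + cs (tht r) t + cs (thl r) t) := by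
  have hc : Continuous fun s : ℝ => Real.cos (t * s) :=
    Real.continuous_cos.comp (continuous_const.mul continuous_id)
  have i1 := ka_int symR_lap hc fun x => Real.abs_cos_le_one _
  have i2 := ka_int (symR_uni hr) hc fun x => Real.abs_cos_le_one _
  have i3 := ka_int (symR_tht hr) hc fun x => Real.abs_cos_le_one _
  have i4 := ka_int (symR_thl hr) hc fun x => Real.abs_cos_le_one _
  unfold cs kap
  rw [integral_smul_measure, integral_add_measure ((i1.add_measure i2).add_measure i3) i4,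
    integral_add_measure (i1.add_measure i2) i3, integral_add_measure i1 i2]
  simp only [one_div, ENNReal.toReal_inv, ENNReal.toReal_ofNat, smul_eq_mul]

theorem cs_kap_bd (hr : 0 < r) (hr1 : r ≤ 1) (t : ℝ) :
    0 ≤ 1 - cs (kap r) t ∧ 1 - cs (kap r) t ≤ 2 * min 1 (t ^ 2) := by
  have a1 := abs_le.1 (abs_cs_le symR_lap t)
  have a2 := abs_le.1 (abs_cs_le (symR_uni hr) t)
  have a3 := abs_le.1 (abs_cs_le (symR_tht hr) t)
  have a4 := abs_le.1 (abs_cs_le (symR_thl hr) t)
  have b2 := cs_uni_bd hr hr1 t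
  have b3 := cs_tht_bd hr hr1 t
  have b1 : 1 - cs lap t ≤ t ^ 2 := by
    rw [cs_lap]
    have h1 : 0 < 1 + t ^ 2 := by positivity
    have h2 : 1 - 1 / (1 + t ^ 2) = t ^ 2 / (1 + t ^ 2) := by
      field_simp
      ring
    rw [h2, div_le_iff₀ h1]
    nlinarith [sq_nonneg (t ^ 2)]
  have b4 : 1 - cs (thl r) t ≤ t ^ 2 / 2 + t ^ 2 := by
    rw [cs_thl hr]
    nlinarith [mul_nonneg (sub_nonneg.2 a3.2) (sub_nonneg.2 a1.2)]
  rw [ka_cs_kap hr]
  refine ⟨by linarith, ?_⟩
  rcases le_total 1 (t ^ 2) with h | h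
  · rw [min_eq_left h]
    linarith
  · rw [min_eq_right h]
    nlinarith [sq_nonneg t]

theorem dm_lap (hr : 0 < r) : Dm (n := n) (fun i => dm (kap r) i) (fun i => dm lap i) := by
  refine ka_dm (symR_kap hr) symR_lap (symR_uni hr) (symR_tht hr) (symR_thl hr) ?_
  unfold kap
  congr 1
  abel

theorem dm_uni (hr : 0 < r) : Dm (n := n) (fun i => dm (kap r) i) (fun i => dm (uni r) i) := by
  refine ka_dm (symR_kap hr) (symR_uni hr) symR_lap (symR_tht hr) (symR_thl hr) ?_
  unfold kap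
  congr 1
  abel

theorem dm_tht (hr : 0 < r) : Dm (n := n) (fun i => dm (kap r) i) (fun i => dm (tht r) i) := by
  refine ka_dm (symR_kap hr) (symR_tht hr) symR_lap (symR_uni hr) (symR_thl hr) ?_
  unfold kap
  congr 1
  abel

theorem dm_thl (hr : 0 < r) : Dm (n := n) (fun i => dm (kap r) i) (fun i => dm (thl r) i) := by
  refine ka_dm (symR_kap hr) (symR_thl hr) symR_lap (symR_uni hr) (symR_tht hr) ?_
  unfold kap
  congr 1
  abel

/-- General `Mg`. -/
theorem opr_Mg {μ : Fin n → Measure (V n)} (hμ : ∀ i, SymP (μ i)) {h : ℝ} (h0 : 0 ≤ h)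
    (h1 : n * h ≤ 1) : Opr (fun ξ => 1 - h * ∑ i, (1 - ft (μ i) ξ)) 1 (Mg μ h) := by
  have h2 := (Opr.one (n := n)).smul (1 - n * h)
  have h3 := (Opr.sum (Finset.univ : Finset (Fin n)) (fun i _ => opr_cv (hμ i))).smul h
  have h4 := h2.add h3
  have h5 : |1 - n * h| * 1 + |h| * ∑ i ∈ (Finset.univ : Finset (Fin n)), (1 : ℝ) = 1 := by
    rw [abs_of_nonneg (by linarith), abs_of_nonneg h0, Finset.sum_const, Finset.card_univ,
      Fintype.card_fin, nsmul_eq_mul]
    ring
  rw [h5] at h4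
  refine (h4.congr_symbol fun ξ => ?_).congr_op fun f _ => ?_
  · rw [Finset.sum_sub_distrib, Finset.sum_const, Finset.card_univ, Fintype.card_fin, nsmul_eq_mul]
    ring
  · funext x
    unfold Mg om
    rw [Finset.sum_sub_distrib, Finset.sum_const, Finset.card_univ, Fintype.card_fin, nsmul_eq_mul]
    ring

theorem opr_Mo (hr : 0 < r) (hl0 : 0 < lam) (hl1 : lam ≤ 1) :
    Opr (ms r lam) 1 (Mo (n := n) r lam) := by
  have hk : (0 : ℝ) < (kk n : ℝ) := by
    unfold kk
    positivity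
  have h0 : 0 ≤ hh n lam := by
    unfold hh
    positivity
  have h1 : n * hh n lam ≤ 1 := by
    unfold hh
    rw [← mul_div_assoc, div_le_one hk]
    have h2 : (n : ℝ) ≤ (kk n : ℝ) := by
      have : n ≤ kk n := by
        unfold kk
        nlinarith
      exact_mod_cast this
    nlinarith [(Nat.cast_nonneg n : (0 : ℝ) ≤ n)]
  refine (opr_Mg (fun i => symP_dm (symR_kap hr) i) h0 h1).congr_symbol fun ξ => ?_
  unfold ms
  congr 2
  refine Finset.sum_congr rfl fun i _ => ?_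
  rw [ft_dm (symR_kap hr)]

theorem opr_So (hr : 0 < r) (hl0 : 0 < lam) (hl1 : lam ≤ 1) :
    Opr (ss r lam) 1 (So (n := n) r lam) := by
  have h := (opr_Mo (n := n) hr hl0 hl1).iter (2 * kk n)
  rw [one_pow] at h
  exact h

theorem ms_bd (hr : 0 < r) (hr1 : r ≤ 1) (hl0 : 0 < lam) (hl1 : lam ≤ 1) (ξ : V n) :
    0 ≤ ms r lam ξ ∧ ms r lam ξ ≤ 1 := by
  have hk : (0 : ℝ) < (kk n : ℝ) := by
    unfold kk
    positivity
  have h0 : 0 ≤ hh n lam := by
    unfold hh
    positivity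
  have h1 : 2 * n * hh n lam ≤ 1 := by
    unfold hh
    rw [← mul_div_assoc, div_le_one hk]
    have h2 : 2 * (n : ℝ) ≤ (kk n : ℝ) := by
      have : 2 * n ≤ kk n := by
        unfold kk
        nlinarith
      exact_mod_cast this
    nlinarith [(Nat.cast_nonneg n : (0 : ℝ) ≤ n)]
  have h2 : 0 ≤ ∑ i, (1 - cs (kap r) (ξ i)) :=
    Finset.sum_nonneg fun i _ => (cs_kap_bd hr hr1 (ξ i)).1
  have h3 : ∑ i, (1 - cs (kap r) (ξ i)) ≤ 2 * n := by
    calc ∑ i, (1 - cs (kap r) (ξ i)) ≤ ∑ _i : Fin n, (2 : ℝ) :=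
          Finset.sum_le_sum fun i _ => (cs_kap_bd hr hr1 (ξ i)).2.trans (by
            have := min_le_left (1 : ℝ) (ξ i ^ 2)
            linarith)
      _ = 2 * n := by
          rw [Finset.sum_const, Finset.card_univ, Fintype.card_fin, nsmul_eq_mul]
          ring
  unfold ms
  constructor
  · have h4 := mul_le_mul_of_nonneg_left h3 h0
    linarith
  · have h4 := mul_nonneg h0 h2
    linarith

theorem ss_bd (hr : 0 < r) (hr1 : r ≤ 1) (hl0 : 0 < lam) (hl1 : lam ≤ 1) (ξ : V n) :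
    0 ≤ ss r lam ξ ∧ ss r lam ξ ≤ 1 ∧ 1 - ss r lam ξ ≤ 4 * lam * Am ξ := by
  obtain ⟨h1, h2⟩ := ms_bd hr hr1 hl0 hl1 ξ
  have hk : (0 : ℝ) < (kk n : ℝ) := by
    unfold kk
    positivity
  have h0 : 0 ≤ hh n lam := by
    unfold hh
    positivity
  have hkh : (kk n : ℝ) * hh n lam = lam := by
    unfold hh
    field_simp
  refine ⟨by unfold ss; positivity, pow_le_one₀ h1 h2, ?_⟩
  have h3 := one_add_mul_le_pow (a := ms r lam ξ - 1) (by linarith) (2 * kk n)
  rw [add_sub_cancel] at h3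
  have h4 : ∑ i, (1 - cs (kap r) (ξ i)) ≤ 2 * Am ξ := by
    unfold Am
    rw [Finset.mul_sum]
    exact Finset.sum_le_sum fun i _ => (cs_kap_bd hr hr1 (ξ i)).2
  have h5 : 1 - ms r lam ξ = hh n lam * ∑ i, (1 - cs (kap r) (ξ i)) := by
    unfold ms
    ring
  have h6 : 1 - ms r lam ξ ≤ hh n lam * (2 * Am ξ) := by
    rw [h5]
    exact mul_le_mul_of_nonneg_left h4 h0
  have h7 : ((2 * kk n : ℕ) : ℝ) * (1 - ms r lam ξ) ≤ 4 * lam * Am ξ := by
    calc ((2 * kk n : ℕ) : ℝ) * (1 - ms r lam ξ)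
        ≤ ((2 * kk n : ℕ) : ℝ) * (hh n lam * (2 * Am ξ)) :=
          mul_le_mul_of_nonneg_left h6 (Nat.cast_nonneg _)
      _ = 4 * ((kk n : ℝ) * hh n lam) * Am ξ := by
          push_cast
          ring
      _ = 4 * lam * Am ξ := by rw [hkh]
  unfold ss
  nlinarith

end Pool.Agent.UB
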