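import Pool.Agent.UB.Norms
import Pool.Agent.UB.KapA

/-!
# UB-Energy: the pointwise energy inequality

`M = Mg μ h`, `μ i = (1/4) μa i + (3/4) μb i`, `n h ≤ 1/2`, `g = M^(k-1) f`:
`∑_i ∫ (g (x+y) - g x)² dμa_i(y) ≤ (8/(k h)) M^k (f²) (x)`.
(1) `M (f²) - (M f)² ≥ (h/2) E f`, `E f x = ∑_i ∫ (f (x+y) - f x)² dμ_i(y)`;
(2) `E (M f) ≤ M (E f)`; (3) induction on `k`; (4) `μ i ≥ (1/4) μa i`.
-/

set_option autoImplicit false

open MeasureTheory Set
open scoped ENNReal NNReal

namespace Pool.Agent.UB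

open Pool.Agent.CB

variable {n : ℕ}

/-! ### the operator `Mg` -/

private theorem eg_eq (μ : Fin n → Measure (V n)) (h : ℝ) (f : V n → ℝ) (x : V n) :
    Mg μ h f x = (1 - n * h) * f x + h * ∑ i, cv (μ i) f x := by
  unfold Mg om
  rw [Finset.sum_sub_distrib, Finset.sum_const, Finset.card_univ, Fintype.card_fin, nsmul_eq_mul]
  ring

private theorem eg_nice {μ : Fin n → Measure (V n)} (hμ : ∀ i, SymP (μ i)) {h : ℝ} (h0 : 0 ≤ h)
    (h1 : n * h ≤ 1) {f : V n → ℝ} (hf : Nice f) : Nice (Mg μ h f) :=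
  (opr_Mg hμ h0 h1).toMul.nice f hf

private theorem eg_mono {μ : Fin n → Measure (V n)} (hμ : ∀ i, SymP (μ i)) {h : ℝ} (h0 : 0 ≤ h)
    (h1 : n * h ≤ 1) {u v : V n → ℝ} (hu : Nice u) (hv : Nice v) (huv : ∀ x, u x ≤ v x)
    (x : V n) : Mg μ h u x ≤ Mg μ h v x := by
  rw [eg_eq, eg_eq]
  have h2 : ∀ i, cv (μ i) u x ≤ cv (μ i) v x := by
    intro i
    have := (hμ i).prob
    exact integral_mono (cv_integrable hu x) (cv_integrable hv x) fun y => huv _
  have h3 := Finset.sum_le_sum fun i (_ : i ∈ Finset.univ) => h2 i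
  have h4 : (1 - n * h) * u x ≤ (1 - n * h) * v x :=
    mul_le_mul_of_nonneg_left (huv x) (by linarith)
  have h5 := mul_le_mul_of_nonneg_left h3 h0
  linarith

private theorem eg_add {μ : Fin n → Measure (V n)} (hμ : ∀ i, SymP (μ i)) {h : ℝ}
    {u v : V n → ℝ} (hu : Nice u) (hv : Nice v) (x : V n) :
    Mg μ h (fun y => u y + v y) x = Mg μ h u x + Mg μ h v x := by
  have h2 : ∀ i, cv (μ i) (fun y => u y + v y) x = cv (μ i) u x + cv (μ i) v x := fun i => by
    have := (hμ i).prob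
    rw [cv_add hu hv]
  rw [eg_eq, eg_eq, eg_eq, Finset.sum_congr rfl fun i _ => h2 i, Finset.sum_add_distrib]
  ring

private theorem eg_smul {μ : Fin n → Measure (V n)} {h : ℝ} (c : ℝ) (u : V n → ℝ) (x : V n) :
    Mg μ h (fun y => c * u y) x = c * Mg μ h u x := by
  have h2 : ∀ i, cv (μ i) (fun y => c * u y) x = c * cv (μ i) u x := fun i => by
    rw [cv_const_mul]
  rw [eg_eq, eg_eq, Finset.sum_congr rfl fun i _ => h2 i, ← Finset.mul_sum]
  ring

/-! ### the energy -/

private theorem nice_sq {f : V n → ℝ} (hf : Nice f) : Nice fun x => f x ^ 2 := by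
  have h := nice_mul hf hf
  have e : (fun x => f x * f x) = fun x => f x ^ 2 := by
    funext x
    ring
  rwa [e] at h

private noncomputable def En (μ : Measure (V n)) (f : V n → ℝ) (x : V n) : ℝ :=
  ∫ y, (f (x + y) - f x) ^ 2 ∂μ

private theorem en_c {μ : Measure (V n)} [IsProbabilityMeasure μ] {f : V n → ℝ} (hf : Nice f)
    (x : V n) (c : ℝ) :
    ∫ y, (f (x + y) - c) ^ 2 ∂μ = cv μ (fun y => f y ^ 2) x - 2 * c * cv μ f x + c ^ 2 := by
  unfold cv
  have h1 : (fun y => (f (x + y) - c) ^ 2) =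
      fun y => f (x + y) ^ 2 - 2 * c * f (x + y) + c ^ 2 := by
    funext y
    ring
  rw [h1]
  have i1 : Integrable (fun y => f (x + y) ^ 2) μ := cv_integrable (nice_sq hf) x
  have i2 : Integrable (fun y => 2 * c * f (x + y)) μ := (cv_integrable hf x).const_mul _
  have i3 : Integrable (fun y => f (x + y) ^ 2 - 2 * c * f (x + y)) μ := i1.sub i2
  rw [integral_add i3 (integrable_const _), integral_sub i1 i2, integral_const_mul]
  simp

private theorem en_nonneg (μ : Measure (V n)) (f : V n → ℝ) (x : V n) : 0 ≤ En μ f x :=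
  integral_nonneg fun _ => sq_nonneg _

private theorem nice_en {μ : Measure (V n)} [IsProbabilityMeasure μ] {f : V n → ℝ}
    (hf : Nice f) : Nice (En μ f) := by
  have h1 : En μ f = fun x => (cv μ (fun y => f y ^ 2) x - 2 * (f x * cv μ f x)) + f x ^ 2 := by
    funext x
    unfold En
    rw [en_c hf]
    ring
  rw [h1]
  exact ((nice_cv (nice_sq hf)).sub ((nice_mul hf (nice_cv hf)).const_mul 2)).add (nice_sq hf)

private theorem nice_fsum {ι : Type} (s : Finset ι) {g : ι → V n → ℝ}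
    (hg : ∀ i ∈ s, Nice (g i)) : Nice (fun x => ∑ i ∈ s, g i x) := by
  classical
  induction s using Finset.induction_on with
  | empty =>
    simp only [Finset.sum_empty]
    exact nice_zero
  | insert a s ha ih =>
    have e : (fun x => ∑ i ∈ insert a s, g i x) = fun x => g a x + ∑ i ∈ s, g i x := by
      funext x
      rw [Finset.sum_insert ha]
    rw [e]
    exact (hg a (Finset.mem_insert_self a s)).add
      (ih fun i hi => hg i (Finset.mem_insert_of_mem hi))

/-- (1) -/
private theorem en_one {μ : Fin n → Measure (V n)} (hμ : ∀ i, SymP (μ i)) {h : ℝ} (h0 : 0 ≤ h)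
    (h1 : n * h ≤ 1 / 2) {f : V n → ℝ} (hf : Nice f) (x : V n) :
    h / 2 * ∑ i, En (μ i) f x + Mg μ h f x ^ 2 ≤ Mg μ h (fun y => f y ^ 2) x := by
  have hE : ∀ i, En (μ i) f x =
      cv (μ i) (fun y => f y ^ 2) x - 2 * f x * cv (μ i) f x + f x ^ 2 := fun i => by
    have := (hμ i).prob
    exact en_c hf x (f x)
  have hJ : ∀ i, (cv (μ i) f x - f x) ^ 2 ≤ En (μ i) f x := fun i => by
    have := (hμ i).prob
    have h2 := en_c (μ := μ i) hf x (cv (μ i) f x)
    have h3 : 0 ≤ ∫ y, (f (x + y) - cv (μ i) f x) ^ 2 ∂(μ i) :=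
      integral_nonneg fun _ => sq_nonneg _
    rw [h2] at h3
    rw [hE i]
    nlinarith
  have hcs : (∑ i, (cv (μ i) f x - f x)) ^ 2 ≤ n * ∑ i, (cv (μ i) f x - f x) ^ 2 := by
    have h2 := sq_sum_le_card_mul_sum_sq (s := (Finset.univ : Finset (Fin n)))
      (f := fun i => cv (μ i) f x - f x)
    rwa [Finset.card_univ, Fintype.card_fin] at h2
  have hJs := Finset.sum_le_sum fun i (_ : i ∈ Finset.univ) => hJ i
  have hE0 : 0 ≤ ∑ i, En (μ i) f x := Finset.sum_nonneg fun i _ => en_nonneg _ _ _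
  have hEs : ∑ i, En (μ i) f x = ∑ i, cv (μ i) (fun y => f y ^ 2) x -
      2 * f x * ∑ i, cv (μ i) f x + n * f x ^ 2 := by
    rw [Finset.sum_congr rfl fun i _ => hE i, Finset.sum_add_distrib, Finset.sum_sub_distrib,
      ← Finset.mul_sum, Finset.sum_const, Finset.card_univ, Fintype.card_fin, nsmul_eq_mul]
  have hBs : ∑ i, (cv (μ i) f x - f x) = ∑ i, cv (μ i) f x - n * f x := by
    rw [Finset.sum_sub_distrib, Finset.sum_const, Finset.card_univ, Fintype.card_fin,
      nsmul_eq_mul]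
  rw [eg_eq, eg_eq]
  rw [hBs] at hcs
  set a := f x
  set E := ∑ i, En (μ i) f x
  set sb := ∑ i, cv (μ i) f x
  set ss := ∑ i, cv (μ i) (fun y => f y ^ 2) x
  set J := ∑ i, (cv (μ i) f x - a) ^ 2
  have hn0 : (0 : ℝ) ≤ n := Nat.cast_nonneg n
  have h2 : (sb - n * a) ^ 2 ≤ n * E := hcs.trans (mul_le_mul_of_nonneg_left hJs hn0)
  have h3 : h ^ 2 * (sb - n * a) ^ 2 ≤ h ^ 2 * (n * E) :=
    mul_le_mul_of_nonneg_left h2 (sq_nonneg h)
  have h4 : h * E * (n * h) ≤ h * E * (1 / 2) :=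
    mul_le_mul_of_nonneg_left h1 (mul_nonneg h0 hE0)
  have h5 : (1 - n * h) * a ^ 2 + h * ss - ((1 - n * h) * a + h * sb) ^ 2 =
      h * E - h ^ 2 * (sb - n * a) ^ 2 := by
    rw [hEs]
    ring
  nlinarith

private theorem nice_shift {f : V n → ℝ} (hf : Nice f) (y : V n) : Nice fun z => f (z + y) := by
  obtain ⟨C, hC⟩ := hf.bdd
  exact ⟨hf.cont.comp (continuous_id.add continuous_const), ⟨C, fun x => hC _⟩,
    hf.int.comp_add_right y⟩

/-- (2) -/
private theorem en_two {μ : Fin n → Measure (V n)} (hμ : ∀ i, SymP (μ i)) {h : ℝ} (h0 : 0 ≤ h)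
    (h1 : n * h ≤ 1 / 2) {f : V n → ℝ} (hf : Nice f) (i : Fin n) (x : V n) :
    En (μ i) (Mg μ h f) x ≤ Mg μ h (En (μ i) f) x := by
  have hp : ∀ j, IsProbabilityMeasure (μ j) := fun j => (hμ j).prob
  have hgn : ∀ y, Nice fun z => f (z + y) - f z := fun y => (nice_shift hf y).sub hf
  have ht : ∀ y, Mg μ h (fun z => f (z + y) - f z) x = Mg μ h f (x + y) - Mg μ h f x := by
    intro y
    have h2 : ∀ j, cv (μ j) (fun z => f (z + y) - f z) x =
        cv (μ j) f (x + y) - cv (μ j) f x := by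
      intro j
      rw [cv_sub (nice_shift hf y) hf]
      show cv (μ j) (fun z => f (z + y)) x - cv (μ j) f x = _
      congr 1
      unfold cv
      refine integral_congr_ae (Filter.Eventually.of_forall fun w => ?_)
      show f (x + w + y) = f (x + y + w)
      rw [add_right_comm]
    rw [eg_eq, eg_eq, eg_eq, Finset.sum_congr rfl fun j _ => h2 j, Finset.sum_sub_distrib]
    ring
  have h2 : ∀ y, (Mg μ h f (x + y) - Mg μ h f x) ^ 2 ≤
      Mg μ h (fun z => (f (z + y) - f z) ^ 2) x := by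
    intro y
    rw [← ht y]
    have h3 := en_one hμ h0 h1 (hgn y) x
    have h4 : 0 ≤ h / 2 * ∑ i, En (μ i) (fun z => f (z + y) - f z) x :=
      mul_nonneg (by linarith) (Finset.sum_nonneg fun i _ => en_nonneg _ _ _)
    linarith
  obtain ⟨C, hC⟩ := hf.bdd
  have hb : ∀ z y, |f (z + y) - f z| ≤ 2 * C := by
    intro z y
    have := abs_sub (f (z + y)) (f z)
    linarith [hC (z + y), hC z]
  have hb2 : ∀ z y, (f (z + y) - f z) ^ 2 ≤ (2 * C) ^ 2 := by
    intro z y
    rw [← sq_abs]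
    exact pow_le_pow_left₀ (abs_nonneg _) (hb z y) 2
  have hI : ∀ j, Integrable (Function.uncurry fun y w : V n => (f (x + w + y) - f (x + w)) ^ 2)
      ((μ i).prod (μ j)) := by
    intro j
    refine Integrable.of_bound (C := (2 * C) ^ 2) ?_ (Filter.Eventually.of_forall fun p => ?_)
    · apply Continuous.aestronglyMeasurable
      have c1 := hf.cont
      show Continuous fun p : V n × V n => (f (x + p.2 + p.1) - f (x + p.2)) ^ 2
      fun_prop
    · show ‖(f (x + p.2 + p.1) - f (x + p.2)) ^ 2‖ ≤ (2 * C) ^ 2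
      rw [Real.norm_eq_abs, abs_of_nonneg (sq_nonneg _)]
      exact hb2 _ _
  have i1 : Integrable (fun y => (f (x + y) - f x) ^ 2) (μ i) := by
    refine Integrable.of_bound (C := (2 * C) ^ 2) ?_ (Filter.Eventually.of_forall fun y => ?_)
    · apply Continuous.aestronglyMeasurable
      have c1 := hf.cont
      fun_prop
    · rw [Real.norm_eq_abs, abs_of_nonneg (sq_nonneg _)]
      exact hb2 _ _
  have i2 : ∀ j, Integrable (fun y => ∫ w, (f (x + w + y) - f (x + w)) ^ 2 ∂(μ j)) (μ i) :=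
    fun j => (hI j).integral_prod_left
  have e1 : (fun y => Mg μ h (fun z => (f (z + y) - f z) ^ 2) x) =
      fun y => (1 - n * h) * (f (x + y) - f x) ^ 2 +
        h * ∑ j, ∫ w, (f (x + w + y) - f (x + w)) ^ 2 ∂(μ j) := by
    funext y
    rw [eg_eq]
    rfl
  have i3 : Integrable (fun y => ∑ j, ∫ w, (f (x + w + y) - f (x + w)) ^ 2 ∂(μ j)) (μ i) :=
    integrable_finsetSum _ fun j _ => i2 j
  have i4 : Integrable (fun y => Mg μ h (fun z => (f (z + y) - f z) ^ 2) x) (μ i) := by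
    rw [e1]
    exact (i1.const_mul _).add (i3.const_mul _)
  have h3 : ∫ y, Mg μ h (fun z => (f (z + y) - f z) ^ 2) x ∂(μ i) = Mg μ h (En (μ i) f) x := by
    rw [e1, integral_add (i1.const_mul _) (i3.const_mul _), integral_const_mul,
      integral_const_mul, integral_finsetSum _ fun j _ => i2 j, eg_eq]
    congr 2
    refine Finset.sum_congr rfl fun j _ => ?_
    exact integral_integral_swap (hI j)
  calc En (μ i) (Mg μ h f) x ≤ ∫ y, Mg μ h (fun z => (f (z + y) - f z) ^ 2) x ∂(μ i) :=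
        integral_mono_of_nonneg (Filter.Eventually.of_forall fun y => sq_nonneg _) i4
          (Filter.Eventually.of_forall h2)
    _ = _ := h3

private theorem iter_nice {μ : Fin n → Measure (V n)} (hμ : ∀ i, SymP (μ i)) {h : ℝ}
    (h0 : 0 ≤ h) (h1 : n * h ≤ 1) {f : V n → ℝ} (hf : Nice f) (k : ℕ) :
    Nice ((Mg μ h)^[k] f) := by
  induction k with
  | zero => exact hf
  | succ k ih =>
    rw [Function.iterate_succ_apply']
    exact eg_nice hμ h0 h1 ih

/-- (3) -/
private theorem en_three {μ : Fin n → Measure (V n)} (hμ : ∀ i, SymP (μ i)) {h : ℝ} (h0 : 0 ≤ h)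
    (h1 : n * h ≤ 1 / 2) {f : V n → ℝ} (hf : Nice f) (k : ℕ) (x : V n) :
    ((k : ℝ) + 1) * h / 2 * ∑ i, En (μ i) ((Mg μ h)^[k] f) x + ((Mg μ h)^[k + 1] f x) ^ 2 ≤
      (Mg μ h)^[k + 1] (fun y => f y ^ 2) x := by
  have hp : ∀ j, IsProbabilityMeasure (μ j) := fun j => (hμ j).prob
  have h1' : n * h ≤ 1 := by linarith
  induction k generalizing x with
  | zero =>
    have h2 := en_one hμ h0 h1 hf x
    simp only [Function.iterate_zero, id_eq, Nat.cast_zero, zero_add, one_mul,
      Function.iterate_one]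
    exact h2
  | succ k ih =>
    have hg := iter_nice hμ h0 h1' hf k
    have hg1 := iter_nice hμ h0 h1' hf (k + 1)
    set g := (Mg μ h)^[k] f with hgd
    set g1 := (Mg μ h)^[k + 1] f with hg1d
    have hg1e : g1 = Mg μ h g := by
      rw [hg1d, Function.iterate_succ_apply']
    have hsumE : Nice fun y => ∑ i, En (μ i) g y := nice_fsum _ fun i _ => nice_en hg
    have hF := iter_nice hμ h0 h1' (nice_sq hf) (k + 1)
    have h2 := eg_mono hμ h0 h1' ((hsumE.const_mul (((k : ℝ) + 1) * h / 2)).add (nice_sq hg1)) hF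
      ih x
    rw [eg_add hμ (hsumE.const_mul _) (nice_sq hg1), eg_smul] at h2
    have h3 := en_one hμ h0 h1 hg1 x
    have h4 : ∑ i, En (μ i) g1 x ≤ Mg μ h (fun y => ∑ i, En (μ i) g y) x := by
      have h5 : Mg μ h (fun y => ∑ i, En (μ i) g y) x = ∑ i, Mg μ h (En (μ i) g) x := by
        have h6 : ∀ j, cv (μ j) (fun y => ∑ i, En (μ i) g y) x =
            ∑ i, cv (μ j) (En (μ i) g) x := by
          intro j
          unfold cv
          exact integral_finsetSum _ fun i _ => cv_integrable (nice_en hg) x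
        rw [eg_eq, Finset.sum_congr rfl fun j _ => h6 j, Finset.sum_comm, Finset.mul_sum,
          Finset.mul_sum, ← Finset.sum_add_distrib]
        refine Finset.sum_congr rfl fun i _ => ?_
        rw [eg_eq]
      rw [h5, hg1e]
      exact Finset.sum_le_sum fun i _ => en_two hμ h0 h1 hg i x
    have h5 : 0 ≤ ((k : ℝ) + 1) * h / 2 := by positivity
    have h6 := mul_le_mul_of_nonneg_left h4 h5
    rw [Function.iterate_succ_apply' (Mg μ h) (k + 1) f,
      Function.iterate_succ_apply' (Mg μ h) (k + 1) (fun y => f y ^ 2)]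
    push_cast
    have h7 : ((k : ℝ) + 1 + 1) * h / 2 * ∑ i, En (μ i) g1 x =
        ((k : ℝ) + 1) * h / 2 * ∑ i, En (μ i) g1 x + h / 2 * ∑ i, En (μ i) g1 x := by ring
    rw [h7]
    linarith

theorem energy {μ μa : Fin n → Measure (V n)} (hμ : Dm μ μa) {h : ℝ} {k : ℕ} (hh : 0 < h)
    (hk1 : 1 ≤ k) (hnh : n * h ≤ 1 / 2) {f : V n → ℝ} (hf : Nice f) (x : V n) :
    ∑ i, ∫ y, ((Mg μ h)^[k - 1] f (x + y) - (Mg μ h)^[k - 1] f x) ^ 2 ∂(μa i) ≤
      8 / (k * h) * (Mg μ h)^[k] (fun y => f y ^ 2) x := by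
  obtain ⟨h1, h2, μb, h3, h4⟩ := hμ
  obtain ⟨m, rfl⟩ : ∃ m, k = m + 1 := ⟨k - 1, by omega⟩
  rw [Nat.add_sub_cancel]
  have hg := iter_nice h1 hh.le (by linarith : n * h ≤ 1) hf m
  set g := (Mg μ h)^[m] f with hgd
  have hE : ∀ i, ∫ y, (g (x + y) - g x) ^ 2 ∂(μa i) ≤ 4 * En (μ i) g x := by
    intro i
    have p1 := (h1 i).prob
    have p2 := (h2 i).prob
    have p3 := (h3 i).prob
    obtain ⟨C, hC⟩ := hg.bdd
    have hI : ∀ (ν : Measure (V n)) [IsProbabilityMeasure ν],
        Integrable (fun y => (g (x + y) - g x) ^ 2) ν := by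
      intro ν _
      refine Integrable.of_bound (C := (2 * C) ^ 2) ?_ (Filter.Eventually.of_forall fun y => ?_)
      · apply Continuous.aestronglyMeasurable
        have c1 := hg.cont
        fun_prop
      · rw [Real.norm_eq_abs, abs_of_nonneg (sq_nonneg _), ← sq_abs]
        refine pow_le_pow_left₀ (abs_nonneg _) ?_ 2
        have := abs_sub (g (x + y)) (g x)
        linarith [hC (x + y), hC x]
    have e : En (μ i) g x = 1 / 4 * ∫ y, (g (x + y) - g x) ^ 2 ∂(μa i) +
        3 / 4 * ∫ y, (g (x + y) - g x) ^ 2 ∂(μb i) := by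
      unfold En
      rw [h4 i, integral_add_measure ((hI (μa i)).smul_measure (by norm_num))
        ((hI (μb i)).smul_measure (ENNReal.div_ne_top (by norm_num) (by norm_num))),
        integral_smul_measure, integral_smul_measure]
      norm_num
    have e2 : 0 ≤ ∫ y, (g (x + y) - g x) ^ 2 ∂(μb i) := integral_nonneg fun _ => sq_nonneg _
    rw [e]
    linarith
  have h5 := Finset.sum_le_sum fun i (_ : i ∈ Finset.univ) => hE i
  rw [← Finset.mul_sum] at h5
  refine h5.trans ?_
  have h6 := en_three h1 hh.le hnh hf m x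
  have h7 : 0 ≤ ((Mg μ h)^[m + 1] f x) ^ 2 := sq_nonneg _
  have h8 : ((m : ℝ) + 1) * h / 2 * ∑ i, En (μ i) g x ≤ (Mg μ h)^[m + 1] (fun y => f y ^ 2) x := by
    linarith
  have hpos : 0 < ((m + 1 : ℕ) : ℝ) * h := by positivity
  rw [div_mul_eq_mul_div, le_div_iff₀ hpos]
  push_cast
  linarith

/-- The mean of the absolute differences. -/
noncomputable def Gi (r : ℝ) (i : Fin n) (g : V n → ℝ) (x : V n) : ℝ :=
  ∫ s, |g (x + s • bv i) - g x| ∂(uni r)

theorem nice_Gi {r : ℝ} (hr : 0 < r) (i : Fin n) {g : V n → ℝ} (hg : Nice g) : Nice (Gi r i g) := by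
  have hs := symR_uni hr
  have hp := hs.prob
  have hp2 := (symP_dm hs i).prob
  obtain ⟨C, hC⟩ := hg.bdd
  have hb : ∀ (x : V n) (s : ℝ), |g (x + s • bv i) - g x| ≤ 2 * C := by
    intro x s
    have := abs_sub (g (x + s • bv i)) (g x)
    linarith [hC (x + s • bv i), hC x]
  have c1 := hg.cont
  have hcont : Continuous (Gi r i g) := by
    refine continuous_of_dominated (bound := fun _ => 2 * C) (fun x => ?_) (fun x => ?_)
      (integrable_const _) ?_
    · apply Continuous.aestronglyMeasurable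
      fun_prop
    · refine Filter.Eventually.of_forall fun s => ?_
      rw [Real.norm_eq_abs, abs_abs]
      exact hb x s
    · refine Filter.Eventually.of_forall fun s => ?_
      fun_prop
  have h0 : ∀ x, 0 ≤ Gi r i g x := fun x => integral_nonneg fun _ => abs_nonneg _
  have hI : ∀ x, Integrable (fun s => |g (x + s • bv i) - g x|) (uni r) := by
    intro x
    refine Integrable.of_bound (C := 2 * C) ?_ (Filter.Eventually.of_forall fun s => ?_)
    · apply Continuous.aestronglyMeasurable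
      fun_prop
    · rw [Real.norm_eq_abs, abs_abs]
      exact hb x s
  refine ⟨hcont, ⟨2 * C, fun x => ?_⟩, ?_⟩
  · rw [abs_of_nonneg (h0 x)]
    calc Gi r i g x ≤ ∫ _s, 2 * C ∂(uni r) :=
          integral_mono (hI x) (integrable_const _) fun s => hb x s
      _ = 2 * C := by simp
  · have hN : Nice fun x => cv (dm (uni r) i) (fun y => |g y|) x + |g x| :=
      (nice_cv hg.abs).add hg.abs
    refine hN.int.mono' hcont.aestronglyMeasurable (Filter.Eventually.of_forall fun x => ?_)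
    rw [Real.norm_eq_abs, abs_of_nonneg (h0 x), cv_dm hs i hg.abs.cont.measurable x]
    have i1 : Integrable (fun s => |g (x + s • bv i)|) (uni r) := by
      refine Integrable.of_bound (C := C) ?_ (Filter.Eventually.of_forall fun s => ?_)
      · apply Continuous.aestronglyMeasurable
        fun_prop
      · rw [Real.norm_eq_abs, abs_abs]
        exact hC _
    calc Gi r i g x ≤ ∫ s, (|g (x + s • bv i)| + |g x|) ∂(uni r) :=
          integral_mono (hI x) (i1.add (integrable_const _)) fun s => abs_sub _ _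
      _ = ∫ s, |g (x + s • bv i)| ∂(uni r) + |g x| := by
          rw [integral_add i1 (integrable_const _)]
          simp

private theorem gi_sq {r : ℝ} (hr : 0 < r) (i : Fin n) {g : V n → ℝ} (hg : Nice g) (x : V n) :
    Gi r i g x ^ 2 ≤ ∫ y, (g (x + y) - g x) ^ 2 ∂(dm (uni r) i) := by
  have hs := symR_uni hr
  have hp := hs.prob
  obtain ⟨C, hC⟩ := hg.bdd
  have hb : ∀ s : ℝ, |g (x + s • bv i) - g x| ≤ 2 * C := by
    intro s
    have := abs_sub (g (x + s • bv i)) (g x)
    linarith [hC (x + s • bv i), hC x]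
  have c1 := hg.cont
  have hI : Integrable (fun s => |g (x + s • bv i) - g x|) (uni r) := by
    refine Integrable.of_bound (C := 2 * C) ?_ (Filter.Eventually.of_forall fun s => ?_)
    · apply Continuous.aestronglyMeasurable
      fun_prop
    · rw [Real.norm_eq_abs, abs_abs]
      exact hb s
  have hI2 : Integrable (fun s => (g (x + s • bv i) - g x) ^ 2) (uni r) := by
    refine Integrable.of_bound (C := (2 * C) ^ 2) ?_ (Filter.Eventually.of_forall fun s => ?_)
    · apply Continuous.aestronglyMeasurable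
      fun_prop
    · rw [Real.norm_eq_abs, abs_of_nonneg (sq_nonneg _), ← sq_abs]
      exact pow_le_pow_left₀ (abs_nonneg _) (hb s) 2
  have e1 : ∫ y, (g (x + y) - g x) ^ 2 ∂(dm (uni r) i) =
      ∫ s, (g (x + s • bv i) - g x) ^ 2 ∂(uni r) := by
    have hm : Measurable fun y : V n => (g y - g x) ^ 2 := by
      apply Continuous.measurable
      fun_prop
    exact cv_dm hs i hm x
  rw [e1]
  set m := Gi r i g x with hm
  have h1 : 0 ≤ ∫ s, (|g (x + s • bv i) - g x| - m) ^ 2 ∂(uni r) :=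
    integral_nonneg fun _ => sq_nonneg _
  have e2 : (fun s : ℝ => (|g (x + s • bv i) - g x| - m) ^ 2) =
      fun s => (g (x + s • bv i) - g x) ^ 2 - 2 * m * |g (x + s • bv i) - g x| + m ^ 2 := by
    funext s
    rw [sub_sq, sq_abs]
    ring
  have hI3 : Integrable (fun s =>
      (g (x + s • bv i) - g x) ^ 2 - 2 * m * |g (x + s • bv i) - g x|) (uni r) :=
    hI2.sub (hI.const_mul _)
  rw [e2, integral_add hI3 (integrable_const _),
    integral_sub hI2 (hI.const_mul _), integral_const_mul] at h1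
  have e3 : ∫ s, |g (x + s • bv i) - g x| ∂(uni r) = m := rfl
  rw [e3] at h1
  simp only [integral_const, probReal_univ, one_smul] at h1
  nlinarith

/-- `Gi² ≤ ∫ |..|²`, `energy`, and `‖M^k (f²)‖_j ≤ ‖f²‖_j = ‖f‖_{2j}²`. -/
theorem nm_Gi {j : ℕ} (hj : 1 ≤ j) {r lam : ℝ} (hr : 0 < r) (hl0 : 0 < lam) (hl1 : lam ≤ 1)
    {f : V n → ℝ} (hf : Nice f) :
    nm ((2 * j : ℕ) : ℝ≥0∞) (sqf fun i => Gi r i ((Mo r lam)^[kk n - 1] f)) ≤
      ENNReal.ofReal (Real.sqrt (8 / lam)) * nm ((2 * j : ℕ) : ℝ≥0∞) f := by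
  have hD := dm_uni (n := n) hr
  have hkk : (0 : ℝ) < kk n := by
    unfold kk
    positivity
  have hkk1 : 1 ≤ kk n := by
    unfold kk
    omega
  have hh0 : 0 < hh n lam := div_pos hl0 hkk
  have hnh : (n : ℝ) * hh n lam ≤ 1 / 2 := by
    unfold hh
    rw [mul_div_assoc', div_le_iff₀ hkk]
    have h1 : (n : ℝ) * lam ≤ n := by
      have : (0 : ℝ) ≤ n := Nat.cast_nonneg n
      nlinarith
    have h2 : (2 * n : ℝ) ≤ kk n := by
      have h3 : 2 * n ≤ kk n := by
        unfold kk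
        rcases Nat.eq_zero_or_pos n with h0 | h0
        · rw [h0]
          norm_num
        · nlinarith
      exact_mod_cast h3
    linarith
  have hkh : (kk n : ℝ) * hh n lam = lam := by
    unfold hh
    field_simp
  have hMo : (Mo (n := n) r lam) = Mg (fun i => dm (kap r) i) (hh n lam) := rfl
  have hG : Nice ((Mo (n := n) r lam)^[kk n - 1] f) := by
    rw [hMo]
    exact iter_nice hD.1 hh0.le (by linarith) hf _
  set g := (Mo (n := n) r lam)^[kk n - 1] f with hgd
  have hpt : ∀ x, |sqf (fun i => Gi r i g) x ^ 2| ≤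
      8 / lam * (Mo (n := n) r lam)^[kk n] (fun y => f y ^ 2) x := by
    intro x
    rw [abs_of_nonneg (sq_nonneg _)]
    unfold sqf
    rw [Real.sq_sqrt (Finset.sum_nonneg fun i _ => sq_nonneg _)]
    have h1 := energy hD hh0 hkk1 hnh hf x
    rw [hkh] at h1
    exact (Finset.sum_le_sum fun i _ => gi_sq hr i hG x).trans h1
  have h2 : nm (j : ℝ≥0∞) (fun x => sqf (fun i => Gi r i g) x ^ 2) ≤
      nm (j : ℝ≥0∞) (fun x => 8 / lam * (Mo (n := n) r lam)^[kk n] (fun y => f y ^ 2) x) :=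
    nm_mono hpt
  rw [nm_sq hj, nm_smul] at h2
  have h3 : nm (j : ℝ≥0∞) ((Mo (n := n) r lam)^[kk n] (fun y => f y ^ 2)) ≤
      nm (j : ℝ≥0∞) (fun y => f y ^ 2) := by
    have h4 := ((opr_Mo (n := n) hr hl0 hl1).iter (kk n)).bd (j : ℝ≥0∞)
      (by exact_mod_cast hj) (fun y => f y ^ 2) (nice_sq hf)
    simpa using h4
  rw [nm_sq hj] at h3
  have h5 : nm ((2 * j : ℕ) : ℝ≥0∞) (sqf fun i => Gi r i g) ^ 2 ≤
      (ENNReal.ofReal (Real.sqrt (8 / lam)) * nm ((2 * j : ℕ) : ℝ≥0∞) f) ^ 2 := by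
    rw [mul_pow, ← ENNReal.ofReal_pow (Real.sqrt_nonneg _), Real.sq_sqrt (by positivity)]
    refine h2.trans ?_
    rw [abs_of_pos (by positivity)]
    exact mul_le_mul_right h3 _
  exact (ENNReal.pow_le_pow_left_iff two_ne_zero).1 h5

end Pool.Agent.UB
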