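import Pool.Agent.UB.Defs

/-!
# UB-Khin: Khintchine's inequality for even powers

Proof by the exponential moments of `∑ ε_i w_i`, normalised to `∑ w_i² = 1`.
-/

set_option autoImplicit false

namespace Pool.Agent.UB

private theorem pow_le_exp (j : ℕ) (x : ℝ) :
    x ^ (2 * j) ≤ ((2 * j).factorial : ℝ) * (Real.exp x + Real.exp (-x)) := by
  have h1 := Real.pow_div_factorial_le_exp |x| (abs_nonneg x) (2 * j)
  have h0 : (0 : ℝ) < ((2 * j).factorial : ℝ) := by exact_mod_cast Nat.factorial_pos _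
  rw [div_le_iff₀ h0] at h1
  have h2 : |x| ^ (2 * j) = x ^ (2 * j) := by
    rw [pow_mul, sq_abs, ← pow_mul]
  rw [h2] at h1
  refine h1.trans ?_
  rw [mul_comm]
  refine mul_le_mul_of_nonneg_left ?_ h0.le
  rcases abs_cases x with h | h
  · rw [h.1]
    linarith [Real.exp_pos (-x)]
  · rw [h.1]
    linarith [Real.exp_pos x]

private theorem exp_mean {m : ℕ} (u : Fin m → ℝ) (hu : ∑ i, u i ^ 2 = 1) :
    ∑ ε : Fin m → Bool, Real.exp (∑ i, sg (ε i) * u i) ≤ 2 ^ m * 2 := by
  have h1 : ∑ ε : Fin m → Bool, Real.exp (∑ i, sg (ε i) * u i) =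
      ∏ i : Fin m, ∑ b : Bool, Real.exp (sg b * u i) := by
    rw [Fintype.prod_sum]
    refine Finset.sum_congr rfl fun ε _ => ?_
    rw [Real.exp_sum]
  have h2 : ∀ i : Fin m, ∑ b : Bool, Real.exp (sg b * u i) ≤ 2 * Real.exp (u i ^ 2 / 2) := by
    intro i
    have h3 : ∑ b : Bool, Real.exp (sg b * u i) = 2 * Real.cosh (u i) := by
      rw [Fintype.sum_bool, Real.cosh_eq]
      unfold sg
      simp
      ring
    rw [h3]
    exact mul_le_mul_of_nonneg_left (Real.cosh_le_exp_half_sq _) (by norm_num)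
  rw [h1]
  refine (Finset.prod_le_prod (fun i _ => Finset.sum_nonneg fun b _ => (Real.exp_pos _).le)
    fun i _ => h2 i).trans ?_
  rw [Finset.prod_mul_distrib, Finset.prod_const, Finset.card_univ, Fintype.card_fin,
    ← Real.exp_sum, ← Finset.sum_div, hu]
  refine mul_le_mul_of_nonneg_left ?_ (by positivity)
  have h4 : Real.exp (1 / 2) * Real.exp (1 / 2) = Real.exp 1 := by
    rw [← Real.exp_add]
    norm_num
  have h5 := Real.exp_one_lt_d9
  by_contra hc
  push Not at hc
  nlinarith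

private theorem khin_one (j : ℕ) {m : ℕ} (u : Fin m → ℝ) (hu : ∑ i, u i ^ 2 = 1) :
    ∑ ε : Fin m → Bool, (∑ i, sg (ε i) * u i) ^ (2 * j) ≤
      2 ^ m * (4 * ((2 * j).factorial : ℝ)) := by
  have h1 := exp_mean u hu
  have h2 := exp_mean (fun i => -u i) (by simpa using hu)
  have h0 : (0 : ℝ) < ((2 * j).factorial : ℝ) := by exact_mod_cast Nat.factorial_pos _
  calc ∑ ε : Fin m → Bool, (∑ i, sg (ε i) * u i) ^ (2 * j)
      ≤ ∑ ε : Fin m → Bool, ((2 * j).factorial : ℝ) *
          (Real.exp (∑ i, sg (ε i) * u i) + Real.exp (-∑ i, sg (ε i) * u i)) :=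
        Finset.sum_le_sum fun ε _ => pow_le_exp j _
    _ = ((2 * j).factorial : ℝ) * (∑ ε : Fin m → Bool, Real.exp (∑ i, sg (ε i) * u i) +
          ∑ ε : Fin m → Bool, Real.exp (∑ i, sg (ε i) * -u i)) := by
        rw [← Finset.mul_sum, Finset.sum_add_distrib]
        congr 2
        refine Finset.sum_congr rfl fun ε _ => ?_
        rw [← Finset.sum_neg_distrib]
        congr 1
        refine Finset.sum_congr rfl fun i _ => ?_
        ring
    _ ≤ ((2 * j).factorial : ℝ) * (2 ^ m * 2 + 2 ^ m * 2) :=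
        mul_le_mul_of_nonneg_left (add_le_add h1 h2) h0.le
    _ = _ := by ring

theorem khin (j : ℕ) {m : ℕ} (w : Fin m → ℝ) :
    (1 / 2 ^ m : ℝ) * ∑ ε : Fin m → Bool, (∑ i, sg (ε i) * w i) ^ (2 * j) ≤
      4 * ((2 * j).factorial : ℝ) * (∑ i, w i ^ 2) ^ j := by
  have h0 : (1 : ℝ) ≤ ((2 * j).factorial : ℝ) := by exact_mod_cast Nat.factorial_pos _
  have h2m : (0 : ℝ) < 2 ^ m := by positivity
  obtain ⟨s, hs⟩ : ∃ s : ℝ, s = ∑ i, w i ^ 2 := ⟨_, rfl⟩
  have hs0 : 0 ≤ s := by
    rw [hs]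
    exact Finset.sum_nonneg fun i _ => sq_nonneg _
  rw [← hs]
  rcases hs0.eq_or_lt with h | h
  · have hw : ∀ i, w i = 0 := by
      intro i
      have h1 : ∑ i, w i ^ 2 = 0 := by rw [← hs, ← h]
      have h2 := (Finset.sum_eq_zero_iff_of_nonneg fun i _ => sq_nonneg (w i)).1 h1 i
        (Finset.mem_univ i)
      exact pow_eq_zero_iff two_ne_zero |>.1 h2
    have h3 : ∀ ε : Fin m → Bool, (∑ i, sg (ε i) * w i) ^ (2 * j) = (0 : ℝ) ^ j := by
      intro ε
      have h4 : ∑ i, sg (ε i) * w i = 0 :=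
        Finset.sum_eq_zero fun i _ => by rw [hw i, mul_zero]
      rw [h4, pow_mul, zero_pow two_ne_zero]
    rw [Finset.sum_congr rfl fun ε _ => h3 ε, Finset.sum_const, Finset.card_univ,
      Fintype.card_fun, Fintype.card_bool, Fintype.card_fin, nsmul_eq_mul, ← h]
    push_cast
    rw [← mul_assoc, one_div, inv_mul_cancel₀ h2m.ne', one_mul]
    have h5 : (0 : ℝ) ≤ 0 ^ j := by positivity
    nlinarith
  · obtain ⟨r, hr⟩ : ∃ r : ℝ, r = Real.sqrt s := ⟨_, rfl⟩
    have hr0 : 0 < r := by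
      rw [hr]
      exact Real.sqrt_pos.2 h
    have hr2 : r ^ 2 = s := by
      rw [hr]
      exact Real.sq_sqrt hs0
    have hu : ∑ i, (w i / r) ^ 2 = 1 := by
      rw [Finset.sum_congr rfl fun i _ => div_pow (w i) r 2, ← Finset.sum_div, ← hs, hr2]
      exact div_self h.ne'
    have h1 := khin_one j (fun i => w i / r) hu
    have h2 : ∀ ε : Fin m → Bool, (∑ i, sg (ε i) * w i) ^ (2 * j) =
        s ^ j * (∑ i, sg (ε i) * (w i / r)) ^ (2 * j) := by
      intro ε
      have h3 : ∑ i, sg (ε i) * w i = r * ∑ i, sg (ε i) * (w i / r) := by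
        rw [Finset.mul_sum]
        refine Finset.sum_congr rfl fun i _ => ?_
        field_simp
      rw [h3, mul_pow, pow_mul r 2 j, hr2]
    rw [Finset.sum_congr rfl fun ε _ => h2 ε, ← Finset.mul_sum]
    have hsj : 0 < s ^ j := pow_pos h j
    calc 1 / 2 ^ m * (s ^ j * ∑ ε : Fin m → Bool, (∑ i, sg (ε i) * (w i / r)) ^ (2 * j))
        ≤ 1 / 2 ^ m * (s ^ j * (2 ^ m * (4 * ((2 * j).factorial : ℝ)))) :=
          mul_le_mul_of_nonneg_left (mul_le_mul_of_nonneg_left h1 hsj.le) (by positivity)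
      _ = _ := by
          field_simp

/-- Orthogonality of the signs. -/
theorem sg_orth {m : ℕ} (i j : Fin m) :
    (1 / 2 ^ m : ℝ) * ∑ ε : Fin m → Bool, sg (ε i) * sg (ε j) = if i = j then 1 else 0 := by
  have h2m : (0 : ℝ) < 2 ^ m := by positivity
  have hneg : ∀ b : Bool, sg (!b) = -sg b := by
    intro b
    cases b <;> simp [sg]
  have hsq : ∀ b : Bool, sg b * sg b = 1 := by
    intro b
    cases b <;> simp [sg]
  by_cases hij : i = j
  · subst hij
    rw [if_pos rfl, Finset.sum_congr rfl fun ε _ => hsq (ε i), Finset.sum_const, Finset.card_univ,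
      Fintype.card_fun, Fintype.card_bool, Fintype.card_fin, nsmul_eq_mul, mul_one]
    push_cast
    rw [one_div, inv_mul_cancel₀ h2m.ne']
  · rw [if_neg hij]
    have hinv : Function.Involutive fun ε : Fin m → Bool => Function.update ε i (!ε i) := by
      intro ε
      funext k
      by_cases hk : k = i
      · subst hk
        simp
      · simp [hk]
    have h1 := Equiv.sum_comp (hinv.toPerm _) fun ε : Fin m → Bool => sg (ε i) * sg (ε j)
    have h2 : ∀ ε : Fin m → Bool, sg ((hinv.toPerm _ ε) i) * sg ((hinv.toPerm _ ε) j) =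
        -(sg (ε i) * sg (ε j)) := by
      intro ε
      have e1 : (hinv.toPerm _ ε) i = !ε i := Function.update_self ..
      have e2 : (hinv.toPerm _ ε) j = ε j := Function.update_of_ne (fun h => hij h.symm) _ _
      rw [e1, e2, hneg]
      ring
    rw [Finset.sum_congr rfl fun ε _ => h2 ε, Finset.sum_neg_distrib] at h1
    have h3 : ∑ ε : Fin m → Bool, sg (ε i) * sg (ε j) = 0 := by linarith
    rw [h3, mul_zero]

end Pool.Agent.UB
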