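import Pool.Agent.UB.Coef
import Pool.Agent.UB.Khin
import Pool.Agent.UB.Norms
import Pool.Agent.UB.KapA
import Pool.Agent.UB.MulB

/-!
# UB-SumD: the sign trick

`‖∑ (1 - μa_i) M^(k-1) w_i‖_q ≤ (c3 q/(k h)) ‖(∑ w_i²)^(1/2)‖_q`, `q = 2 j`: the sum is the mean over the signs of
`∑ ε_i (1 - μa_i) M^(k-1) (∑ ε_l w_l)`; apply `UB.coef` for every choice of the signs, then Jensen's and Khintchine's
inequalities.
-/

set_option autoImplicit false

open MeasureTheory Set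
open scoped ENNReal NNReal

namespace Pool.Agent.UB

open Pool.Agent.CB

variable {n : ℕ}

/-- The constant. -/
noncomputable def c3 (q : ℕ) : ℝ := 64 * q * (q.factorial : ℝ)

private lemma sd_rpow {j : ℕ} (hj : 1 ≤ j) (f : V n → ℝ) :
    nm ((2 * j : ℕ) : ℝ≥0∞) f ^ ((2 * j : ℕ) : ℝ) = ∫⁻ x, ENNReal.ofReal (f x ^ (2 * j)) := by
  have h0 : ((2 * j : ℕ) : ℝ≥0∞) ≠ 0 := by
    have : (2 * j : ℕ) ≠ 0 := by omega
    exact_mod_cast this
  have h1 : ((2 * j : ℕ) : ℝ≥0∞) ≠ ⊤ := ENNReal.natCast_ne_top _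
  have h2 : (((2 * j : ℕ) : ℝ≥0∞)).toReal = ((2 * j : ℕ) : ℝ) := ENNReal.toReal_natCast _
  have h3 : ((2 * j : ℕ) : ℝ) ≠ 0 := by
    have : (2 * j : ℕ) ≠ 0 := by omega
    exact_mod_cast this
  have h4 : nm ((2 * j : ℕ) : ℝ≥0∞) f = (∫⁻ x, ‖f x‖ₑ ^ ((2 * j : ℕ) : ℝ)) ^ (1 / ((2 * j : ℕ) : ℝ)) := by
    show eLpNorm f _ volume = _
    rw [eLpNorm_eq_lintegral_rpow_enorm_toReal h0 h1, h2]
  rw [h4, ← ENNReal.rpow_mul, one_div, inv_mul_cancel₀ h3, ENNReal.rpow_one]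
  refine lintegral_congr fun x => ?_
  rw [ENNReal.rpow_natCast, Real.enorm_eq_ofReal_abs, ← ENNReal.ofReal_pow (abs_nonneg _),
    Even.pow_abs (even_two_mul j)]

private lemma sd_sqf (w : Fin n → V n → ℝ) (j : ℕ) (x : V n) :
    sqf w x ^ (2 * j) = (∑ i, w i x ^ 2) ^ j := by
  unfold sqf
  rw [pow_mul, Real.sq_sqrt (Finset.sum_nonneg fun i _ => sq_nonneg _)]

/-- Jensen and Khintchine. -/
private lemma sd_mean {j : ℕ} (hj : 1 ≤ j) {w : Fin n → V n → ℝ} (hw : ∀ i, Nice (w i)) :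
    ∑ ε : Fin n → Bool, ENNReal.ofReal (1 / 2 ^ n) *
      nm ((2 * j : ℕ) : ℝ≥0∞) (fun x => ∑ l, sg (ε l) * w l x) ≤
      ENNReal.ofReal (4 * ((2 * j).factorial : ℝ)) * nm ((2 * j : ℕ) : ℝ≥0∞) (sqf w) := by
  have hq1 : (1 : ℝ) ≤ ((2 * j : ℕ) : ℝ) := by exact_mod_cast (by omega : 1 ≤ 2 * j)
  have hq0 : (0 : ℝ) < ((2 * j : ℕ) : ℝ) := by linarith
  have hA : (1 : ℝ) ≤ 4 * ((2 * j).factorial : ℝ) := by
    have : (1 : ℝ) ≤ ((2 * j).factorial : ℝ) := by exact_mod_cast Nat.factorial_pos _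
    linarith
  have hsum : ∑ _ε : Fin n → Bool, ENNReal.ofReal (1 / 2 ^ n) = 1 := by
    rw [Finset.sum_const, Finset.card_univ, Fintype.card_fun, Fintype.card_bool, Fintype.card_fin,
      nsmul_eq_mul]
    have h1 : (((2 ^ n : ℕ) : ℝ≥0∞)) = ENNReal.ofReal (2 ^ n) := by
      rw [← ENNReal.ofReal_natCast]
      norm_num
    rw [h1, ← ENNReal.ofReal_mul (by positivity)]
    rw [mul_one_div_cancel (by positivity), ENNReal.ofReal_one]
  rw [← ENNReal.rpow_le_rpow_iff hq0]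
  have hjen := ENNReal.rpow_arith_mean_le_arith_mean_rpow Finset.univ
    (fun _ : Fin n → Bool => ENNReal.ofReal (1 / 2 ^ n))
    (fun ε => nm ((2 * j : ℕ) : ℝ≥0∞) (fun x => ∑ l, sg (ε l) * w l x)) hsum hq1
  refine hjen.trans ?_
  have hmeas : ∀ ε : Fin n → Bool, Measurable fun x => ENNReal.ofReal (1 / 2 ^ n) *
      ENNReal.ofReal ((∑ l, sg (ε l) * w l x) ^ (2 * j)) := by
    intro ε
    have hc : Continuous fun x => ∑ l, sg (ε l) * w l x :=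
      continuous_finsetSum _ fun l _ => continuous_const.mul (hw l).cont
    exact measurable_const.mul (ENNReal.measurable_ofReal.comp (hc.pow _).measurable)
  have h2 : ∑ ε : Fin n → Bool, ENNReal.ofReal (1 / 2 ^ n) *
      nm ((2 * j : ℕ) : ℝ≥0∞) (fun x => ∑ l, sg (ε l) * w l x) ^ ((2 * j : ℕ) : ℝ) =
      ∫⁻ x, ∑ ε : Fin n → Bool, ENNReal.ofReal (1 / 2 ^ n) *
        ENNReal.ofReal ((∑ l, sg (ε l) * w l x) ^ (2 * j)) := by
    rw [lintegral_finsetSum _ fun ε _ => hmeas ε]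
    refine Finset.sum_congr rfl fun ε _ => ?_
    rw [sd_rpow hj, lintegral_const_mul']
    exact ENNReal.ofReal_ne_top
  rw [h2]
  have h3 : ∀ x, ∑ ε : Fin n → Bool, ENNReal.ofReal (1 / 2 ^ n) *
        ENNReal.ofReal ((∑ l, sg (ε l) * w l x) ^ (2 * j)) ≤
      ENNReal.ofReal (4 * ((2 * j).factorial : ℝ)) * ENNReal.ofReal (sqf w x ^ (2 * j)) := by
    intro x
    have h4 : ∀ ε : Fin n → Bool, ENNReal.ofReal (1 / 2 ^ n) *
        ENNReal.ofReal ((∑ l, sg (ε l) * w l x) ^ (2 * j)) =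
        ENNReal.ofReal ((1 / 2 ^ n) * (∑ l, sg (ε l) * w l x) ^ (2 * j)) := fun ε =>
      (ENNReal.ofReal_mul (by positivity)).symm
    rw [Finset.sum_congr rfl fun ε _ => h4 ε, ← ENNReal.ofReal_sum_of_nonneg, ← Finset.mul_sum,
      ← ENNReal.ofReal_mul (by positivity)]
    · refine ENNReal.ofReal_le_ofReal ?_
      rw [sd_sqf]
      exact khin j fun l => w l x
    · intro ε _
      have : 0 ≤ (∑ l, sg (ε l) * w l x) ^ (2 * j) := (even_two_mul j).pow_nonneg _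
      positivity
  refine (lintegral_mono h3).trans ?_
  rw [lintegral_const_mul' _ _ ENNReal.ofReal_ne_top, ← sd_rpow hj,
    ENNReal.mul_rpow_of_nonneg _ _ hq0.le]
  refine mul_le_mul_left ?_ _
  refine ENNReal.le_rpow_self_of_one_le ?_ hq1
  rw [← ENNReal.ofReal_one]
  exact ENNReal.ofReal_le_ofReal hA

private lemma sd_nh {h : ℝ} {k : ℕ} (hh : 0 < h) (hk : 24 * n ^ 2 ≤ k) (hkh : k * h ≤ 1) :
    (n : ℝ) * h ≤ 1 := by
  have h1 : n ≤ k := by nlinarith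
  have h2 : (n : ℝ) ≤ k := by exact_mod_cast h1
  nlinarith

theorem sumD {j : ℕ} (hj : 1 ≤ j) {μ μa : Fin n → Measure (V n)} (hμ : Dm μ μa) {h : ℝ} {k : ℕ}
    (hh : 0 < h) (hk1 : 1 ≤ k) (hk : 24 * n ^ 2 ≤ k) (hkh : k * h ≤ 1)
    {w : Fin n → V n → ℝ} (hw : ∀ i, Nice (w i)) :
    nm ((2 * j : ℕ) : ℝ≥0∞) (fun x => ∑ i, om (cv (μa i)) ((Mg μ h)^[k - 1] (w i)) x) ≤
      ENNReal.ofReal (c3 (2 * j) / (k * h)) * nm ((2 * j : ℕ) : ℝ≥0∞) (sqf w) := by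
  have hq1 : (1 : ℝ≥0∞) ≤ ((2 * j : ℕ) : ℝ≥0∞) := by exact_mod_cast (by omega : 1 ≤ 2 * j)
  have hM := (opr_Mg hμ.1 hh.le (sd_nh hh hk hkh)).toMul
  have hT : ∀ i, Mul (fun ξ => (1 - ft (μa i) ξ) * (1 - h * ∑ i, (1 - ft (μ i) ξ)) ^ (k - 1))
      (fun f => om (cv (μa i)) ((Mg μ h)^[k - 1] f)) := fun i =>
    Mul.comp (Mul.om (Mul.cv (hμ.2.1 i))) (Mul.iter hM (k - 1))
  have hsm : ∀ (ε : Fin n → Bool) (l : Fin n), Nice fun x => sg (ε l) * w l x := fun ε l =>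
    (hw l).const_mul _
  have hW : ∀ ε : Fin n → Bool, Nice fun x => ∑ l, sg (ε l) * w l x := fun ε =>
    nice_sum _ fun l _ => hsm ε l
  -- linearity
  have hlin : ∀ (ε : Fin n → Bool) (i : Fin n) (x : V n),
      om (cv (μa i)) ((Mg μ h)^[k - 1] fun x => ∑ l, sg (ε l) * w l x) x =
        ∑ l, sg (ε l) * om (cv (μa i)) ((Mg μ h)^[k - 1] (w l)) x := by
    intro ε i x
    have h1 := congrFun ((hT i).map_sum Finset.univ (f := fun l x => sg (ε l) * w l x)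
      fun l _ => hsm ε l) x
    refine h1.trans ?_
    refine Finset.sum_congr rfl fun l _ => ?_
    exact congrFun ((hT i).map_smul (sg (ε l)) (hw l)) x
  have hid : (fun x => ∑ i, om (cv (μa i)) ((Mg μ h)^[k - 1] (w i)) x) = fun x =>
      ∑ ε : Fin n → Bool, (1 / 2 ^ n : ℝ) *
        ∑ i, sg (ε i) * om (cv (μa i)) ((Mg μ h)^[k - 1] fun x => ∑ l, sg (ε l) * w l x) x := by
    funext x
    have h1 : ∀ ε : Fin n → Bool, (1 / 2 ^ n : ℝ) *
        ∑ i, sg (ε i) * om (cv (μa i)) ((Mg μ h)^[k - 1] fun x => ∑ l, sg (ε l) * w l x) x =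
        ∑ i, ∑ l, ((1 / 2 ^ n : ℝ) * (sg (ε i) * sg (ε l))) *
          om (cv (μa i)) ((Mg μ h)^[k - 1] (w l)) x := by
      intro ε
      rw [Finset.mul_sum]
      refine Finset.sum_congr rfl fun i _ => ?_
      rw [hlin, Finset.mul_sum, Finset.mul_sum]
      refine Finset.sum_congr rfl fun l _ => ?_
      ring
    rw [Finset.sum_congr rfl fun ε _ => h1 ε, Finset.sum_comm]
    refine Finset.sum_congr rfl fun i _ => ?_
    rw [Finset.sum_comm]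
    have h2 : ∀ l, ∑ ε : Fin n → Bool, ((1 / 2 ^ n : ℝ) * (sg (ε i) * sg (ε l))) *
          om (cv (μa i)) ((Mg μ h)^[k - 1] (w l)) x =
        (if i = l then 1 else 0) * om (cv (μa i)) ((Mg μ h)^[k - 1] (w l)) x := by
      intro l
      rw [← Finset.sum_mul, ← Finset.mul_sum, sg_orth i l]
    rw [Finset.sum_congr rfl fun l _ => h2 l]
    simp
  rw [hid]
  have hni : ∀ ε : Fin n → Bool, Nice fun x => ∑ i, sg (ε i) *
      om (cv (μa i)) ((Mg μ h)^[k - 1] fun x => ∑ l, sg (ε l) * w l x) x := fun ε =>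
    nice_sum _ fun i _ => ((hT i).nice _ (hW ε)).const_mul _
  refine (nm_sum_le hq1 Finset.univ fun ε _ => (hni ε).const_mul _).trans ?_
  have hc1 : ∀ (ε : Fin n → Bool) (i : Fin n), |sg (ε i)| ≤ 1 := by
    intro ε i
    unfold sg
    split_ifs
    · norm_num
    · norm_num
  have hkp : (0 : ℝ) < k := by exact_mod_cast hk1
  have hkh0 : (0 : ℝ) < k * h := mul_pos hkp hh
  have hterm : ∀ ε ∈ (Finset.univ : Finset (Fin n → Bool)),
      nm ((2 * j : ℕ) : ℝ≥0∞) (fun x => (1 / 2 ^ n : ℝ) * ∑ i, sg (ε i) *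
        om (cv (μa i)) ((Mg μ h)^[k - 1] fun x => ∑ l, sg (ε l) * w l x) x) ≤
      ENNReal.ofReal (16 * (((2 * j : ℕ) : ℝ) - 1) / (k * h)) * (ENNReal.ofReal (1 / 2 ^ n) *
        nm ((2 * j : ℕ) : ℝ≥0∞) (fun x => ∑ l, sg (ε l) * w l x)) := by
    intro ε _
    rw [nm_smul, abs_of_nonneg (by positivity)]
    have h1 := coef (q := 2 * j) (by omega) hμ (c := fun i => sg (ε i)) (hc1 ε) hh hk1 hk hkh (hW ε)
    refine (mul_le_mul_right h1 _).trans (le_of_eq ?_)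
    ring
  refine (Finset.sum_le_sum hterm).trans ?_
  rw [← Finset.mul_sum]
  refine (mul_le_mul_right (sd_mean hj hw) _).trans ?_
  rw [← mul_assoc]
  refine mul_le_mul_left ?_ _
  have hq2 : (1 : ℝ) ≤ ((2 * j : ℕ) : ℝ) := by exact_mod_cast (by omega : 1 ≤ 2 * j)
  rw [← ENNReal.ofReal_mul (div_nonneg (by linarith) hkh0.le)]
  refine ENNReal.ofReal_le_ofReal ?_
  rw [div_mul_eq_mul_div]
  refine div_le_div_of_nonneg_right ?_ hkh0.le
  unfold c3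
  have hf : (0 : ℝ) < ((2 * j).factorial : ℝ) := by exact_mod_cast Nat.factorial_pos _
  nlinarith

private lemma sd_kh (n : ℕ) (lam : ℝ) : (kk n : ℝ) * hh n lam = lam := by
  unfold hh
  have : (kk n : ℝ) ≠ 0 := by
    have : kk n ≠ 0 := by unfold kk; omega
    exact_mod_cast this
  field_simp

private lemma sd_hpos {lam : ℝ} (n : ℕ) (h : 0 < lam) : 0 < hh n lam := by
  unfold hh kk
  positivity

/-- The form used later: `λ = lam`, `k = kk n`, `h = hh n lam`. -/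
theorem sumM {j : ℕ} (hj : 1 ≤ j) {r lam : ℝ} (hr : 0 < r) (hl0 : 0 < lam) (hl1 : lam ≤ 1)
    {w : Fin n → V n → ℝ} (hw : ∀ i, Nice (w i)) :
    nm ((2 * j : ℕ) : ℝ≥0∞) (fun x => ∑ i, om (cv (dm lap i)) ((Mo r lam)^[kk n - 1] (w i)) x) ≤
      ENNReal.ofReal (c3 (2 * j) / lam) * nm ((2 * j : ℕ) : ℝ≥0∞) (sqf w) := by
  have h1 := sumD hj (dm_lap (n := n) hr) (sd_hpos n hl0) (k := kk n) (by unfold kk; omega)
    (by unfold kk; omega) (by rw [sd_kh]; exact hl1) hw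
  rw [sd_kh] at h1
  exact h1

/-- The scalar form for `∑ Θ_i (1 - H_i) M^(k-1) f`. -/
theorem sumT {j : ℕ} (hj : 1 ≤ j) {r lam : ℝ} (hr : 0 < r) (hl0 : 0 < lam) (hl1 : lam ≤ 1)
    {f : V n → ℝ} (hf : Nice f) :
    nm ((2 * j : ℕ) : ℝ≥0∞)
        (fun x => ∑ i, cv (dm (tht r) i) (om (cv (dm lap i)) ((Mo r lam)^[kk n - 1] f)) x) ≤
      ENNReal.ofReal (c3 (2 * j) / lam) * nm ((2 * j : ℕ) : ℝ≥0∞) f := by
  have hq1 : (1 : ℝ≥0∞) ≤ ((2 * j : ℕ) : ℝ≥0∞) := by exact_mod_cast (by omega : 1 ≤ 2 * j)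
  have hk1 : 1 ≤ kk n := by unfold kk; omega
  have hk2 : 24 * n ^ 2 ≤ kk n := by unfold kk; omega
  have hkh : (kk n : ℝ) * hh n lam ≤ 1 := by rw [sd_kh]; exact hl1
  have hA := coef (q := 2 * j) (by omega) (dm_thl (n := n) hr) (c := fun _ => 1) (fun _ => by norm_num)
    (sd_hpos n hl0) hk1 hk2 hkh hf
  have hB := coef (q := 2 * j) (by omega) (dm_tht (n := n) hr) (c := fun _ => 1) (fun _ => by norm_num)
    (sd_hpos n hl0) hk1 hk2 hkh hf
  rw [sd_kh] at hA hB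
  set g : V n → ℝ := (Mo r lam)^[kk n - 1] f with hg
  have hgn : Nice g := ((opr_Mo hr hl0 hl1).toMul.iter (kk n - 1)).nice f hf
  have hA' : nm ((2 * j : ℕ) : ℝ≥0∞) (fun x => ∑ i, om (cv (dm (thl r) i)) g x) ≤
      ENNReal.ofReal (16 * (((2 * j : ℕ) : ℝ) - 1) / lam) * nm ((2 * j : ℕ) : ℝ≥0∞) f := by
    simp only [one_mul] at hA
    exact hA
  have hB' : nm ((2 * j : ℕ) : ℝ≥0∞) (fun x => ∑ i, om (cv (dm (tht r) i)) g x) ≤
      ENNReal.ofReal (16 * (((2 * j : ℕ) : ℝ) - 1) / lam) * nm ((2 * j : ℕ) : ℝ≥0∞) f := by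
    simp only [one_mul] at hB
    exact hB
  have hSl := symR_lap
  have hSt := symR_tht hr
  have hSh := symR_thl hr
  have hcvl : ∀ i, Mul (ft (dm lap i)) (cv (dm lap i : Measure (V n))) := fun i =>
    Mul.cv (symP_dm hSl i)
  have hcvt : ∀ i, Mul (ft (dm (tht r) i)) (cv (dm (tht r) i : Measure (V n))) := fun i =>
    Mul.cv (symP_dm hSt i)
  have hcvh : ∀ i, Mul (ft (dm (thl r) i)) (cv (dm (thl r) i : Measure (V n))) := fun i =>
    Mul.cv (symP_dm hSh i)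
  have hcomp : ∀ i : Fin n, cv (dm (thl r) i) g = cv (dm (tht r) i) (cv (dm lap i) g) := by
    intro i
    refine Mul.ext (hcvh i) (Mul.comp (hcvt i) (hcvl i)) (fun ξ => ?_) hgn
    rw [ft_dm hSh, ft_dm hSt, ft_dm hSl]
    exact cs_thl hr _
  have hpt : ∀ (i : Fin n) (x : V n), cv (dm (tht r) i) (om (cv (dm lap i)) g) x =
      om (cv (dm (thl r) i)) g x + -1 * om (cv (dm (tht r) i)) g x := by
    intro i x
    have h1 := congrFun ((hcvt i).map_sub hgn ((hcvl i).nice g hgn)) x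
    have h2 : om (cv (dm lap i)) g = fun x => g x - cv (dm lap i) g x := rfl
    rw [h2, h1]
    unfold om
    rw [hcomp i]
    ring
  have hfun : (fun x => ∑ i, cv (dm (tht r) i) (om (cv (dm lap i)) g) x) = fun x =>
      (∑ i, om (cv (dm (thl r) i)) g x) + -1 * ∑ i, om (cv (dm (tht r) i)) g x := by
    funext x
    rw [Finset.mul_sum, ← Finset.sum_add_distrib]
    exact Finset.sum_congr rfl fun i _ => hpt i x
  rw [hfun]
  have hnA : Nice fun x => ∑ i, om (cv (dm (thl r) i)) g x :=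
    nice_sum _ fun i _ => (Mul.om (hcvh i)).nice g hgn
  have hnB : Nice fun x => ∑ i, om (cv (dm (tht r) i)) g x :=
    nice_sum _ fun i _ => (Mul.om (hcvt i)).nice g hgn
  refine (nm_add_le hq1 hnA (hnB.const_mul (-1))).trans ?_
  rw [nm_smul]
  have h5 : ENNReal.ofReal |(-1 : ℝ)| = 1 := by norm_num
  rw [h5, one_mul]
  refine (add_le_add hA' hB').trans ?_
  rw [← add_mul]
  refine mul_le_mul_left ?_ _
  have hq2 : (1 : ℝ) ≤ ((2 * j : ℕ) : ℝ) := by exact_mod_cast (by omega : 1 ≤ 2 * j)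
  have hpos : 0 ≤ 16 * (((2 * j : ℕ) : ℝ) - 1) / lam := div_nonneg (by linarith) hl0.le
  rw [← ENNReal.ofReal_add hpos hpos]
  refine ENNReal.ofReal_le_ofReal ?_
  rw [← add_div]
  refine div_le_div_of_nonneg_right ?_ hl0.le
  unfold c3
  have hf : (1 : ℝ) ≤ ((2 * j).factorial : ℝ) := by exact_mod_cast Nat.factorial_pos _
  nlinarith

end Pool.Agent.UB
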