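import Pool.Agent.UB.XG
import Pool.Agent.UB.SumD
import Pool.Agent.UB.SetId
import Pool.Agent.UB.VK

/-!
# UB-PD: the main term

PLAN.  `r = 2^(-m)`, `g = M^(k-1) f`, `w_i = P (1 - Γ_i) g`, `P = unif K`.  `setid` and `layer`:
`|w_i| ≤ r (∑_{b<m} τ_i^{b,r} G_i + τ_i^{sh} G_i)`, `G_i = Gi r i g ≥ 0` nice.  `sqf_mono`, `sqf_add`, `nm_add_le`:
`‖sqf w‖ ≤ r (∑_b VB + Vs) ‖sqf G‖ ≤ r (m W + Ws) √(8/λ) ‖f‖` (`nm_Gi`).  `partD`: `sumM` and the norms of `Qa`, `XG`, `M²`.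
-/

set_option autoImplicit false

open MeasureTheory Set
open scoped ENNReal NNReal

namespace Pool.Agent.UB

open Pool.Agent.CB

/-- `w_i = P (1 - Γ_i) M^(k-1) f`. -/
noncomputable def wi {n : ℕ} (K : Set (V n)) (r lam : ℝ) (f : V n → ℝ) (i : Fin n) : V n → ℝ :=
  cv (MX.unif K) (om (cv (dm (uni r) i)) ((Mo r lam)^[kk n - 1] f))

/-- `∑ (1 - H_i) M^(k-1) w_i`. -/
noncomputable def UD {n : ℕ} (K : Set (V n)) (r lam : ℝ) (f : V n → ℝ) (x : V n) : ℝ :=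
  ∑ i, om (cv (dm lap i)) ((Mo r lam)^[kk n - 1] (wi K r lam f i)) x

/-- `Q X M² ∑ (1 - H_i) M^(k-1) w_i`. -/
noncomputable def TD {n : ℕ} (K : Set (V n)) (a : ℝ) (M0 : ℕ) (r lam mu : ℝ) (f : V n → ℝ) :
    V n → ℝ :=
  Qa a M0 (XG r mu ((Mo r lam)^[2] (UD K r lam f)))

private theorem pd_nice_g {n : ℕ} {r lam : ℝ} (hr : 0 < r) (hl0 : 0 < lam) (hl1 : lam ≤ 1)
    {f : V n → ℝ} (hf : Nice f) (k : ℕ) : Nice ((Mo r lam)^[k] f) :=
  ((opr_Mo hr hl0 hl1).iter k).nice f hf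

private theorem pd_sqf_sum {l n : ℕ} (s : Finset ℕ) (v : ℕ → Fin l → V n → ℝ) (x : V n) :
    sqf (fun i x => ∑ b ∈ s, v b i x) x ≤ ∑ b ∈ s, sqf (v b) x := by
  classical
  induction s using Finset.induction_on with
  | empty => simp [sqf]
  | insert b s hb ih =>
    rw [Finset.sum_insert hb]
    have e : (fun i x => ∑ c ∈ insert b s, v c i x) = fun i x => v b i x + ∑ c ∈ s, v c i x := by
      funext i x
      rw [Finset.sum_insert hb]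
    rw [e]
    exact (sqf_add (v b) (fun i x => ∑ c ∈ s, v c i x) x).trans (by linarith)

private theorem pd_int {n : ℕ} {μ : Measure (V n)} [IsProbabilityMeasure μ] {w : V n → ℝ}
    (hw : Wtt w) {G : V n → ℝ} (hG : Nice G) (x : V n) :
    Integrable (fun y => w y * G (x + y)) μ := by
  obtain ⟨B, hB⟩ := hw.bdd
  obtain ⟨C, hC⟩ := hG.bdd
  refine Integrable.of_bound (C := B * C) ?_ (Filter.Eventually.of_forall fun y => ?_)
  · exact (hw.meas.mul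
      ((hG.cont.comp (continuous_const.add continuous_id)).measurable)).aestronglyMeasurable
  · rw [Real.norm_eq_abs, abs_mul]
    exact mul_le_mul (hB y) (hC _) (abs_nonneg _) ((abs_nonneg _).trans (hB y))

private theorem pd_ptw {n : ℕ} {K : Set (V n)} (hK : Unc K) {m : ℕ} (hm : 1 ≤ m) (i : Fin n)
    {g : V n → ℝ} (hg : Nice g) (x : V n) :
    |cv (MX.unif K) (om (cv (dm (uni ((1 / 2) ^ m)) i)) g) x| ≤
      (1 / 2 : ℝ) ^ m * (∑ b ∈ Finset.range m,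
        ta K b ((1 / 2) ^ m) i (Gi ((1 / 2) ^ m) i g) x +
        ts K ((1 / 2) ^ m) i (Gi ((1 / 2) ^ m) i g) x) := by
  classical
  have hr : (0 : ℝ) < (1 / 2) ^ m := by positivity
  have hP := hK.prob
  have hG := nice_Gi hr i hg
  have hG0 : ∀ x, 0 ≤ Gi ((1 / 2) ^ m) i g x := fun x => integral_nonneg fun s => abs_nonneg _
  refine (setid hK hr i hg x).trans ?_
  have e : (1 / 2 : ℝ) ^ m * (∑ b ∈ Finset.range m,
        ta K b ((1 / 2) ^ m) i (Gi ((1 / 2) ^ m) i g) x +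
        ts K ((1 / 2) ^ m) i (Gi ((1 / 2) ^ m) i g) x) =
      ∫ y, (1 / 2 : ℝ) ^ m * (∑ b ∈ Finset.range m,
        wt K b ((1 / 2) ^ m) i y * Gi ((1 / 2) ^ m) i g (x + y) +
        ws K ((1 / 2) ^ m) i y * Gi ((1 / 2) ^ m) i g (x + y)) ∂(MX.unif K) := by
    rw [integral_const_mul, integral_add, integral_finsetSum]
    · rfl
    · exact fun b _ => pd_int (wtt_wt hK b hr i) hG x
    · exact integrable_finsetSum _ fun b _ => pd_int (wtt_wt hK b hr i) hG x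
    · exact pd_int (wtt_ws hK hr i) hG x
  rw [e]
  refine integral_mono_of_nonneg ?_ ?_ ?_
  · refine Filter.Eventually.of_forall fun y => ?_
    refine mul_nonneg ?_ (hG0 _)
    split_ifs
    · exact zero_le_one
    · exact le_rfl
  · exact ((integrable_finsetSum _ fun b _ => pd_int (wtt_wt hK b hr i) hG x).add
      (pd_int (wtt_ws hK hr i) hG x)).const_mul _
  · filter_upwards [hK.ae_mem] with y hy
    have h1 := mul_le_mul_of_nonneg_right (layer hK hm i hy) (hG0 (x + y))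
    refine h1.trans (le_of_eq ?_)
    rw [← Finset.sum_mul]
    ring

theorem nice_wi {n : ℕ} {K : Set (V n)} (hK : Unc K) {r lam : ℝ} (hr : 0 < r) (hl0 : 0 < lam)
    (hl1 : lam ≤ 1) {f : V n → ℝ} (hf : Nice f) (i : Fin n) : Nice (wi K r lam f i) := by
  exact (Mul.cv hK.symP).nice _ ((Mul.cv (symP_dm (symR_uni hr) i)).om.nice _
    (pd_nice_g hr hl0 hl1 hf _))

theorem nice_UD {n : ℕ} {K : Set (V n)} (hK : Unc K) {r lam : ℝ} (hr : 0 < r) (hl0 : 0 < lam)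
    (hl1 : lam ≤ 1) {f : V n → ℝ} (hf : Nice f) : Nice (UD K r lam f) := by
  exact nice_sum _ fun i _ => (Mul.cv (symP_dm symR_lap i)).om.nice _
    (pd_nice_g hr hl0 hl1 (nice_wi hK hr hl0 hl1 hf i) _)

theorem wbound {n : ℕ} {K : Set (V n)} (hK : Unc K) {j : ℕ} (hj : 1 ≤ j) {m : ℕ} (hm : 1 ≤ m)
    {lam : ℝ} (hl0 : 0 < lam) (hl1 : lam ≤ 1) {W Ws : ℝ} (hW : 0 ≤ W) (hWs : 0 ≤ Ws)
    (h1 : ∀ b < m, VB ((2 * j : ℕ) : ℝ≥0∞) W (ta K b ((1 / 2) ^ m)))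
    (h2 : VB ((2 * j : ℕ) : ℝ≥0∞) Ws (ts K ((1 / 2) ^ m))) {f : V n → ℝ} (hf : Nice f) :
    nm ((2 * j : ℕ) : ℝ≥0∞) (sqf (wi K ((1 / 2) ^ m) lam f)) ≤
      ENNReal.ofReal ((1 / 2) ^ m * (m * W + Ws) * Real.sqrt (8 / lam)) *
        nm ((2 * j : ℕ) : ℝ≥0∞) f := by
  have hr : (0 : ℝ) < (1 / 2) ^ m := by positivity
  obtain ⟨g, hg⟩ : ∃ g, g = (Mo ((1 / 2) ^ m) lam)^[kk n - 1] f := ⟨_, rfl⟩
  have hgn : Nice g := by
    rw [hg]
    exact pd_nice_g hr hl0 hl1 hf _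
  have hGn : ∀ i, Nice (Gi ((1 / 2) ^ m) i g) := fun i => nice_Gi hr i hgn
  have hq : (1 : ℝ≥0∞) ≤ ((2 * j : ℕ) : ℝ≥0∞) := by exact_mod_cast (by omega : 1 ≤ 2 * j)
  have hA : ∀ b, ∀ i, Nice (ta K b ((1 / 2) ^ m) i (Gi ((1 / 2) ^ m) i g)) := fun b i =>
    (mul_kv hK.symP (wtt_wt hK b hr i)).nice _ (hGn i)
  have hS : ∀ i, Nice (ts K ((1 / 2) ^ m) i (Gi ((1 / 2) ^ m) i g)) := fun i =>
    (mul_kv hK.symP (wtt_ws hK hr i)).nice _ (hGn i)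
  have hAn : ∀ b, Nice (sqf (fun i => ta K b ((1 / 2) ^ m) i (Gi ((1 / 2) ^ m) i g))) :=
    fun b => nice_sqf (hA b)
  have hBn : Nice (sqf (fun i => ts K ((1 / 2) ^ m) i (Gi ((1 / 2) ^ m) i g))) := nice_sqf hS
  have hpt : ∀ x, |sqf (wi K ((1 / 2) ^ m) lam f) x| ≤ (1 / 2) ^ m *
      (∑ b ∈ Finset.range m, sqf (fun i => ta K b ((1 / 2) ^ m) i (Gi ((1 / 2) ^ m) i g)) x +
        sqf (fun i => ts K ((1 / 2) ^ m) i (Gi ((1 / 2) ^ m) i g)) x) := by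
    intro x
    rw [abs_of_nonneg (sqf_nonneg _ _)]
    have h3 : sqf (wi K ((1 / 2) ^ m) lam f) x ≤ sqf (fun i x => (1 / 2) ^ m *
        (∑ b ∈ Finset.range m, ta K b ((1 / 2) ^ m) i (Gi ((1 / 2) ^ m) i g) x +
          ts K ((1 / 2) ^ m) i (Gi ((1 / 2) ^ m) i g) x)) x := by
      refine sqf_mono fun i => ?_
      have h4 := (pd_ptw hK hm i hgn x).trans (le_abs_self _)
      rw [hg] at h4 ⊢
      exact h4
    refine h3.trans ?_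
    rw [sqf_smul ((1 / 2) ^ m) (fun i x =>
        ∑ b ∈ Finset.range m, ta K b ((1 / 2) ^ m) i (Gi ((1 / 2) ^ m) i g) x +
          ts K ((1 / 2) ^ m) i (Gi ((1 / 2) ^ m) i g) x) x, abs_of_pos hr]
    refine mul_le_mul_of_nonneg_left ?_ hr.le
    refine (sqf_add (fun i x => ∑ b ∈ Finset.range m,
      ta K b ((1 / 2) ^ m) i (Gi ((1 / 2) ^ m) i g) x)
      (fun i => ts K ((1 / 2) ^ m) i (Gi ((1 / 2) ^ m) i g)) x).trans ?_
    exact add_le_add (pd_sqf_sum (Finset.range m)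
      (fun b i => ta K b ((1 / 2) ^ m) i (Gi ((1 / 2) ^ m) i g)) x) le_rfl
  have hmW : 0 ≤ (m : ℝ) * W + Ws := by positivity
  calc nm ((2 * j : ℕ) : ℝ≥0∞) (sqf (wi K ((1 / 2) ^ m) lam f))
      ≤ nm ((2 * j : ℕ) : ℝ≥0∞) (fun x => (1 / 2) ^ m *
      (∑ b ∈ Finset.range m, sqf (fun i => ta K b ((1 / 2) ^ m) i (Gi ((1 / 2) ^ m) i g)) x +
        sqf (fun i => ts K ((1 / 2) ^ m) i (Gi ((1 / 2) ^ m) i g)) x)) := nm_mono hpt
    _ = ENNReal.ofReal ((1 / 2) ^ m) * nm ((2 * j : ℕ) : ℝ≥0∞) (fun x =>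
      ∑ b ∈ Finset.range m, sqf (fun i => ta K b ((1 / 2) ^ m) i (Gi ((1 / 2) ^ m) i g)) x +
        sqf (fun i => ts K ((1 / 2) ^ m) i (Gi ((1 / 2) ^ m) i g)) x) := by
        rw [nm_smul, abs_of_pos hr]
    _ ≤ ENNReal.ofReal ((1 / 2) ^ m) * (ENNReal.ofReal (m * W + Ws) *
        nm ((2 * j : ℕ) : ℝ≥0∞) (sqf fun i => Gi ((1 / 2) ^ m) i g)) := by
      gcongr
      refine (nm_add_le hq (nice_sum _ fun b _ => hAn b) hBn).trans ?_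
      have h5 : nm ((2 * j : ℕ) : ℝ≥0∞) (fun x => ∑ b ∈ Finset.range m,
          sqf (fun i => ta K b ((1 / 2) ^ m) i (Gi ((1 / 2) ^ m) i g)) x) ≤
          ∑ b ∈ Finset.range m, ENNReal.ofReal W *
            nm ((2 * j : ℕ) : ℝ≥0∞) (sqf fun i => Gi ((1 / 2) ^ m) i g) :=
        (nm_sum_le hq _ (fun b _ => hAn b)).trans
          (Finset.sum_le_sum fun b hb => h1 b (Finset.mem_range.1 hb) _ hGn)
      rw [Finset.sum_const, Finset.card_range, nsmul_eq_mul] at h5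
      have h6 : nm ((2 * j : ℕ) : ℝ≥0∞)
          (sqf (fun i => ts K ((1 / 2) ^ m) i (Gi ((1 / 2) ^ m) i g))) ≤
          ENNReal.ofReal Ws * nm ((2 * j : ℕ) : ℝ≥0∞) (sqf fun i => Gi ((1 / 2) ^ m) i g) :=
        h2 _ hGn
      refine (add_le_add h5 h6).trans (le_of_eq ?_)
      rw [← mul_assoc, ← add_mul, ENNReal.ofReal_add (by positivity) hWs,
        ENNReal.ofReal_mul (by positivity), ENNReal.ofReal_natCast]
    _ ≤ ENNReal.ofReal ((1 / 2) ^ m) * (ENNReal.ofReal (m * W + Ws) *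
        (ENNReal.ofReal (Real.sqrt (8 / lam)) * nm ((2 * j : ℕ) : ℝ≥0∞) f)) := by
      have h7 := nm_Gi hj hr hl0 hl1 hf
      rw [← hg] at h7
      gcongr
    _ = ENNReal.ofReal ((1 / 2) ^ m * (m * W + Ws) * Real.sqrt (8 / lam)) *
        nm ((2 * j : ℕ) : ℝ≥0∞) f := by
      rw [ENNReal.ofReal_mul (by positivity), ENNReal.ofReal_mul (by positivity)]
      ring

theorem partD {n : ℕ} {K : Set (V n)} (hK : Unc K) {j : ℕ} (hj : 1 ≤ j) {a : ℝ} (ha : 0 ≤ a)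
    (M0 : ℕ) {m : ℕ} (hm : 1 ≤ m) {lam mu : ℝ} (hl0 : 0 < lam) (hl1 : lam ≤ 1) (hmu : 0 < mu)
    {W Ws : ℝ} (hW : 0 ≤ W) (hWs : 0 ≤ Ws)
    (h1 : ∀ b < m, VB ((2 * j : ℕ) : ℝ≥0∞) W (ta K b ((1 / 2) ^ m)))
    (h2 : VB ((2 * j : ℕ) : ℝ≥0∞) Ws (ts K ((1 / 2) ^ m))) :
    Bq ((2 * j : ℕ) : ℝ≥0∞)
      (2 ^ M0 * mu * (c3 (2 * j) / lam) * ((1 / 2) ^ m * (m * W + Ws) * Real.sqrt (8 / lam)))
      (TD K a M0 ((1 / 2) ^ m) lam mu) := by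
  intro f hf
  have hr : (0 : ℝ) < (1 / 2) ^ m := by positivity
  have hq : (1 : ℝ≥0∞) ≤ ((2 * j : ℕ) : ℝ≥0∞) := by exact_mod_cast (by omega : 1 ≤ 2 * j)
  have hU : Nice (UD K ((1 / 2) ^ m) lam f) := nice_UD hK hr hl0 hl1 hf
  have hM2 : Nice ((Mo ((1 / 2) ^ m) lam)^[2] (UD K ((1 / 2) ^ m) lam f)) :=
    pd_nice_g hr hl0 hl1 hU 2
  have hX : Nice (XG ((1 / 2) ^ m) mu ((Mo ((1 / 2) ^ m) lam)^[2] (UD K ((1 / 2) ^ m) lam f))) :=
    (opr_XG hr hmu).nice _ hM2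
  have hc3 : 0 ≤ c3 (2 * j) / lam := by
    unfold c3
    positivity
  have hmW : 0 ≤ (m : ℝ) * W + Ws := by positivity
  have h3 := (opr_Qa (n := n) ha M0).bd _ hq _ hX
  have h4 := (opr_XG (n := n) hr hmu).bd _ hq _ hM2
  have h5 := ((opr_Mo (n := n) hr hl0 hl1).iter 2).bd _ hq _ hU
  have h6 := sumM hj hr hl0 hl1 (fun i => nice_wi hK hr hl0 hl1 hf i)
  have h7 := wbound hK hj hm hl0 hl1 hW hWs h1 h2 hf
  rw [one_pow, ENNReal.ofReal_one, one_mul] at h5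
  calc nm ((2 * j : ℕ) : ℝ≥0∞) (TD K a M0 ((1 / 2) ^ m) lam mu f)
      ≤ ENNReal.ofReal (2 ^ M0) * nm ((2 * j : ℕ) : ℝ≥0∞)
          (XG ((1 / 2) ^ m) mu ((Mo ((1 / 2) ^ m) lam)^[2] (UD K ((1 / 2) ^ m) lam f))) := h3
    _ ≤ ENNReal.ofReal (2 ^ M0) * (ENNReal.ofReal mu * (ENNReal.ofReal (c3 (2 * j) / lam) *
        (ENNReal.ofReal ((1 / 2) ^ m * (m * W + Ws) * Real.sqrt (8 / lam)) *
          nm ((2 * j : ℕ) : ℝ≥0∞) f))) := by
      refine mul_le_mul' le_rfl (h4.trans (mul_le_mul' le_rfl (h5.trans ?_)))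
      exact h6.trans (mul_le_mul' le_rfl h7)
    _ = _ := by
      rw [ENNReal.ofReal_mul (by positivity : (0 : ℝ) ≤ 2 ^ M0 * mu * (c3 (2 * j) / lam)),
        ENNReal.ofReal_mul (by positivity : (0 : ℝ) ≤ 2 ^ M0 * mu),
        ENNReal.ofReal_mul (by positivity : (0 : ℝ) ≤ 2 ^ M0)]
      ring

end Pool.Agent.UB
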