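import Pool.Agent.UB.PC
import Pool.Agent.UB.PD

/-!
# UB-FI: the identity `P Q S (1 - S^G) = T_D + T_C`

PLAN.  Both sides are multiplier operators (`Mul`), compare the symbols and use `Mul.ext`.  With `p = ft (unif K)`, `s = ms^(2k)`, `k = kk n ≥ 1`:
left: `p (1-g)^(M0) ms^(2k) (1 - sgs)`, `1 - sgs = ∑ (1 - sinc (r ξ_i)) xgs` (`sgs_id`).
`TD`: `(1-g)^(M0) xgs ms² ∑ (1 - η_i) ms^(k-1) p (1 - sinc_i) ms^(k-1)`, `η_i = 1/(1+ξ_i²)` (`cs_lap`, `ft_dm`), and `2 + 2 (k-1) = 2k`.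
`TC`: `(r²/6) p (1-g)^(M0) xgs ms^(k+1) ∑ θ_i (1 - η_i) ms^(k-1)`, `(k+1) + (k-1) = 2k`, `θ_i = cs (tht r) (ξ_i)`, and
`(r²/6) θ_i (1 - η_i) = (r²/6) θ_i ξ_i²/(1+ξ_i²) = (1 - sinc_i) η_i` (`cs_tht`).  Sum: `(1 - sinc_i)(1 - η_i) + (1 - sinc_i) η_i = 1 - sinc_i`.
-/

set_option autoImplicit false

open MeasureTheory Set
open scoped ENNReal NNReal

namespace Pool.Agent.UB

open Pool.Agent.CB

private theorem key {r t θ s : ℝ} (h : (r * t) ^ 2 * θ = 6 * (1 - s)) :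
    (1 - 1 / (1 + t ^ 2)) * (1 - s) + r ^ 2 / 6 * (θ * (1 - 1 / (1 + t ^ 2))) = 1 - s := by
  have h0 : (1 : ℝ) + t ^ 2 ≠ 0 := by positivity
  have h1 : 1 - 1 / (1 + t ^ 2) = t ^ 2 / (1 + t ^ 2) := by
    field_simp
    ring
  rw [h1]
  field_simp
  linear_combination h

theorem ident {n : ℕ} {K : Set (V n)} (hK : Unc K) {a : ℝ} (ha : 0 ≤ a) (M0 : ℕ) {r lam mu : ℝ}
    (hr : 0 < r) (hl0 : 0 < lam) (hl1 : lam ≤ 1) (hm : 0 < mu) {f : V n → ℝ} (hf : Nice f) :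
    cv (MX.unif K) (Qa a M0 (So r lam (om (SG r mu) f))) =
      fun x => TD K a M0 r lam mu f x + TC K a M0 r lam mu f x := by
  have mP := Mul.cv hK.symP
  have mQ := (opr_Qa (n := n) ha M0).toMul
  have mX := (opr_XG (n := n) hr hm).toMul
  have mM := (opr_Mo (n := n) hr hl0 hl1).toMul
  have mL : ∀ i : Fin n, Mul (ft (dm lap i)) (cv (dm lap i)) := fun i =>
    Mul.cv (symP_dm symR_lap i)
  have mU : ∀ i : Fin n, Mul (ft (dm (uni r) i)) (cv (dm (uni r) i)) := fun i =>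
    Mul.cv (symP_dm (symR_uni hr) i)
  have mT : ∀ i : Fin n, Mul (ft (dm (tht r) i)) (cv (dm (tht r) i)) := fun i =>
    Mul.cv (symP_dm (symR_tht hr) i)
  have m1 := mP.comp (mQ.comp ((opr_So (n := n) hr hl0 hl1).toMul.comp
    (opr_SG (n := n) hr hm).toMul.om))
  have m2 : Mul _ (UD K r lam) := Mul.sum Finset.univ fun i _ => (mL i).om.comp
    ((mM.iter (kk n - 1)).comp (mP.comp ((mU i).om.comp (mM.iter (kk n - 1)))))
  have m3 : Mul _ (TD K a M0 r lam mu) := mQ.comp (mX.comp ((mM.iter 2).comp m2))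
  have m4 : Mul _ (UT (n := n) r lam) := Mul.sum Finset.univ fun i _ => (mT i).comp
    ((mL i).om.comp (mM.iter (kk n - 1)))
  have m5 : Mul _ (TC K a M0 r lam mu) := (mP.comp (mQ.comp (mX.comp
    ((mM.iter (kk n + 1)).comp m4)))).smul (r ^ 2 / 6)
  refine Mul.ext m1 (m3.add m5) (fun ξ => ?_) hf
  have hk : ∃ k, kk n = k + 1 := ⟨24 * n ^ 2, rfl⟩
  obtain ⟨k, hk⟩ := hk
  have hsum : ∑ i, (1 - Real.sinc (r * ξ i)) = ∑ i : Fin n,
      ((1 - ft (dm lap i) ξ) * (1 - ft (dm (uni r) i) ξ) +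
        r ^ 2 / 6 * (ft (dm (tht r) i) ξ * (1 - ft (dm lap i) ξ))) := by
    refine Finset.sum_congr rfl fun i _ => ?_
    rw [ft_dm symR_lap, ft_dm (symR_uni hr), ft_dm (symR_tht hr), cs_lap, cs_uni hr]
    exact (key (cs_tht hr (ξ i))).symm
  have hss : ss r lam ξ = ms r lam ξ ^ (2 * kk n) := rfl
  rw [sgs_id hm ξ, hsum, hss, hk, Nat.add_sub_cancel]
  simp only [Finset.sum_mul, Finset.mul_sum]
  rw [← Finset.sum_add_distrib]
  refine Finset.sum_congr rfl fun i _ => ?_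
  ring

end Pool.Agent.UB
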