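import Mathlib

/-!
# UB-G3a: where the cosine is close to `±1`

PLAN.  `x = 0`: the set is empty.  `1 - |cos u| ≥ (2/π²) dist(u, πℤ)²` (`|cos|` is `π`-periodic and `1 - cos v ≥ (2/π²) v²` for `|v| ≤ π/2`,
`Real.cos_le_one_sub_mul_cos_sq` or Jordan's inequality `Real.mul_le_sin`).  So in the set `dist(x s, πℤ)² < 5 d min (1, x²)`, i.e. `s` is within
`3 √d min (1, |x|)/|x|` of a point of `(π/|x|) ℤ`.  `|x| ≤ 1`: within `3 √d` of one of at most `2 (R+3)|x|/π + 1 ≤ 3 (1+R) + 1` points.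
`|x| > 1`: within `3 √d/|x|` of one of at most `2 (R+3) |x|/π + 1 ≤ C (1+R) |x|` points.  The measure is `≤ C √d (1+R)` in both cases.
-/

set_option autoImplicit false

open MeasureTheory Set

namespace Pool.Agent.UB

/-- The exceptional set. -/
def Zs (x d R : ℝ) : Set ℝ := {s | |s| ≤ R ∧ 1 - |Real.cos (x * s)| < d * min 1 (x ^ 2)}

theorem measurable_Zs (x d R : ℝ) : MeasurableSet (Zs x d R) := by
  have h1 : MeasurableSet {s : ℝ | |s| ≤ R} :=
    (isClosed_le continuous_abs continuous_const).measurableSet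
  have h2 : MeasurableSet {s : ℝ | 1 - |Real.cos (x * s)| < d * min 1 (x ^ 2)} := by
    refine (isOpen_lt ?_ continuous_const).measurableSet
    fun_prop
  exact h1.inter h2

private theorem near_pt {y d s : ℝ} (hy : 0 < y) (hd : 0 < d)
    (h : 1 - |Real.cos (y * s)| < d * min 1 (y ^ 2)) :
    |s - round (y * s / Real.pi) * (Real.pi / y)| ≤ 3 * Real.sqrt d * min 1 y / y := by
  have hpi := Real.pi_pos
  set k : ℤ := round (y * s / Real.pi) with hk
  set v : ℝ := y * s - k * Real.pi with hv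
  have hround : |y * s / Real.pi - k| ≤ 1 / 2 := abs_sub_round _
  have hveq : v = (y * s / Real.pi - k) * Real.pi := by
    rw [hv]; field_simp
  have hvabs : |v| ≤ Real.pi / 2 := by
    rw [hveq, abs_mul, abs_of_pos hpi]
    nlinarith
  have hcos : |Real.cos (y * s)| = Real.cos v := by
    have h1 : Real.cos v = (-1) ^ k * Real.cos (y * s) := by
      rw [hv]; exact Real.cos_sub_int_mul_pi _ _
    have h2 : 0 ≤ Real.cos v :=
      Real.cos_nonneg_of_mem_Icc ⟨by linarith [(abs_le.mp hvabs).1], (abs_le.mp hvabs).2⟩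
    rw [← abs_of_nonneg h2, h1, abs_mul, abs_zpow, abs_neg, abs_one, one_zpow, one_mul]
  have hq : Real.cos v ≤ 1 - 2 / Real.pi ^ 2 * v ^ 2 :=
    Real.cos_le_one_sub_mul_cos_sq (by linarith)
  have hmin : min 1 (y ^ 2) = (min 1 y) ^ 2 := by
    rcases le_total 1 y with h1 | h1
    · rw [min_eq_left h1, min_eq_left (by nlinarith)]; norm_num
    · rw [min_eq_right h1, min_eq_right (by nlinarith)]
  have hm0 : 0 < min 1 y := lt_min one_pos hy
  have h3 : 2 / Real.pi ^ 2 * v ^ 2 < d * (min 1 y) ^ 2 := by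
    rw [hcos, hmin] at h; linarith
  have hpi4 : Real.pi ^ 2 < 16 := by nlinarith [Real.pi_lt_four, Real.pi_pos]
  have h4 : v ^ 2 ≤ (3 * Real.sqrt d * min 1 y) ^ 2 := by
    have h5 : 2 * v ^ 2 < Real.pi ^ 2 * (d * (min 1 y) ^ 2) := by
      have h6 : 2 / Real.pi ^ 2 * v ^ 2 = 2 * v ^ 2 / Real.pi ^ 2 := by ring
      rw [h6, div_lt_iff₀ (by positivity)] at h3
      linarith
    have h7 : (3 * Real.sqrt d * min 1 y) ^ 2 = 9 * (d * (min 1 y) ^ 2) := by
      rw [mul_pow, mul_pow, Real.sq_sqrt hd.le]; ring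
    rw [h7]
    have h8 : 0 < d * (min 1 y) ^ 2 := by positivity
    nlinarith
  have h9 : |v| ≤ 3 * Real.sqrt d * min 1 y := abs_le_of_sq_le_sq h4 (by positivity)
  have h10 : s - k * (Real.pi / y) = v / y := by
    rw [hv]; field_simp
  rw [h10, abs_div, abs_of_pos hy]
  exact div_le_div_of_nonneg_right h9 hy.le

private theorem zset_pos {y d R : ℝ} (hy : 0 < y) (hd : 0 < d) (hR : 0 < R) :
    volume (Zs y d R) ≤ ENNReal.ofReal (12 * Real.sqrt d * (1 + R)) := by
  have hpi := Real.pi_pos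
  set r : ℝ := 3 * Real.sqrt d * min 1 y / y with hr
  have hm0 : 0 < min 1 y := lt_min one_pos hy
  have hr0 : 0 ≤ r := by positivity
  set K : ℤ := ⌊y * R / Real.pi + 1 / 2⌋ with hK
  have hK0 : 0 ≤ K := by
    rw [hK]; exact Int.floor_nonneg.mpr (by positivity)
  have hsub : Zs y d R ⊆ ⋃ k ∈ Finset.Icc (-K) K,
      Icc ((k : ℝ) * (Real.pi / y) - r) ((k : ℝ) * (Real.pi / y) + r) := by
    intro s hs
    obtain ⟨hs1, hs2⟩ := hs
    have h1 := near_pt hy hd hs2
    rw [← hr] at h1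
    refine mem_biUnion (x := round (y * s / Real.pi)) ?_ ?_
    · have h2 : |y * s / Real.pi - round (y * s / Real.pi)| ≤ 1 / 2 := abs_sub_round _
      have h3 : |y * s / Real.pi| ≤ y * R / Real.pi := by
        rw [abs_div, abs_mul, abs_of_pos hy, abs_of_pos hpi]
        gcongr
      have h4 : |((round (y * s / Real.pi) : ℤ) : ℝ)| ≤ y * R / Real.pi + 1 / 2 := by
        have h5 := abs_sub_abs_le_abs_sub ((round (y * s / Real.pi) : ℤ) : ℝ) (y * s / Real.pi)
        rw [abs_sub_comm] at h5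
        linarith
      have h6 : |round (y * s / Real.pi)| ≤ K := by
        rw [hK, Int.le_floor]
        push_cast
        exact h4
      have h7 := abs_le.mp h6
      simp only [Finset.coe_Icc, mem_Icc]
      exact h7
    · have h2 := abs_le.mp h1
      exact ⟨by linarith [h2.1], by linarith [h2.2]⟩
  have hle1 : volume (Zs y d R) ≤ ∑ k ∈ Finset.Icc (-K) K, ENNReal.ofReal (2 * r) := by
    refine (measure_mono hsub).trans ((measure_biUnion_finset_le _ _).trans ?_)
    refine Finset.sum_le_sum fun k _ => ?_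
    rw [Real.volume_Icc]
    apply le_of_eq
    congr 1
    ring
  refine hle1.trans ?_
  rw [Finset.sum_const, nsmul_eq_mul, ← ENNReal.ofReal_natCast, ← ENNReal.ofReal_mul (by positivity)]
  apply ENNReal.ofReal_le_ofReal
  have hcard : (((Finset.Icc (-K) K).card : ℕ) : ℝ) = 2 * K + 1 := by
    rw [Int.card_Icc]
    have h1 : ((K + 1 - -K).toNat : ℤ) = 2 * K + 1 := by
      rw [Int.toNat_of_nonneg (by linarith)]; ring
    have h2 : (((K + 1 - -K).toNat : ℤ) : ℝ) = ((2 * K + 1 : ℤ) : ℝ) := by rw [h1]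
    rw [Int.cast_natCast] at h2
    rw [h2]
    push_cast
    ring
  rw [hcard]
  have hKle : (K : ℝ) ≤ y * R / Real.pi + 1 / 2 := Int.floor_le _
  have h3 : y * R / Real.pi ≤ y * R / 2 := by
    apply div_le_div_of_nonneg_left (by positivity) (by norm_num)
    linarith [Real.pi_gt_three]
  have h4 : (2 * (K : ℝ) + 1) ≤ y * R + 2 := by linarith
  have hs0 : 0 ≤ Real.sqrt d := Real.sqrt_nonneg d
  have h5 : y * r = 3 * Real.sqrt d * min 1 y := by
    rw [hr]; field_simp
  have h6 : r ≤ 3 * Real.sqrt d := by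
    rw [hr, div_le_iff₀ hy]
    exact mul_le_mul_of_nonneg_left (min_le_right _ _) (by positivity)
  have h7 : y * r ≤ 3 * Real.sqrt d := by
    rw [h5]
    have := mul_le_mul_of_nonneg_left (min_le_left (1 : ℝ) y) (by positivity : 0 ≤ 3 * Real.sqrt d)
    linarith
  calc (2 * (K : ℝ) + 1) * (2 * r) ≤ (y * R + 2) * (2 * r) := by
        apply mul_le_mul_of_nonneg_right h4 (by positivity)
    _ = 2 * R * (y * r) + 4 * r := by ring
    _ ≤ 2 * R * (3 * Real.sqrt d) + 4 * (3 * Real.sqrt d) := by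
        gcongr
    _ ≤ 12 * Real.sqrt d * (1 + R) := by
        nlinarith [mul_nonneg hs0 hR.le]

theorem zset : ∃ C : ℝ, 0 < C ∧ ∀ x d R : ℝ, 0 < d → d ≤ 1 → 0 < R →
    volume (Zs x d R) ≤ ENNReal.ofReal (C * Real.sqrt d * (1 + R)) := by
  refine ⟨12, by norm_num, fun x d R hd _ hR => ?_⟩
  rcases lt_trichotomy x 0 with hx | hx | hx
  · have h1 : Zs x d R = Zs (-x) d R := by
      unfold Zs
      ext s
      simp only [mem_ofPred_eq, neg_mul, Real.cos_neg, neg_sq]
    rw [h1]
    exact zset_pos (by linarith) hd hR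
  · have h1 : Zs x d R = ∅ := by
      unfold Zs
      ext s
      simp [hx]
    rw [h1]
    simp
  · exact zset_pos hx hd hR

end Pool.Agent.UB
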