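import Mathlib

/-!
# UB-G3b: splitting into blocks, and a product inequality

PLAN.  `blocks`: prefix sums `p_j = ∑_{i ≤ j} a_i`, `A = p_(last)`; the block `b` consists of the `j` with `b A/m < p_j ≤ (b+1) A/m`.  Its sum is at
least `A/m - 1 ≥ A/(2m)` (`a ≤ 1`, `A ≥ 2m`).  (Or induction on `m`: take a minimal prefix with sum `≥ A/(2m)`, it is `≤ A/(2m) + 1 ≤ A/m`, apply
the induction hypothesis in a form like: if `∑_{j ∈ s} a_j ≥ m c'`, ... with `c' = A/(2m)`, `c' ≥ 1`: a block with sum in `[c', 2c')` exists.)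
`prod_sum_blocks`: expand the product (`Finset.prod_univ_sum` / `Finset.prod_sum`).
-/

set_option autoImplicit false

open Finset

namespace Pool.Agent.UB

/-- A subset with sum in `[c, 2 c]`. -/
private theorem exists_block {n : ℕ} (a : Fin n → ℝ) (h1 : ∀ j, a j ≤ 1) {c : ℝ} (hc : 1 ≤ c)
    (s : Finset (Fin n)) (hs : c ≤ ∑ j ∈ s, a j) :
    ∃ t ⊆ s, c ≤ ∑ j ∈ t, a j ∧ ∑ j ∈ t, a j ≤ 2 * c := by
  classical
  induction s using Finset.strongInduction with
  | H s ih =>
    by_cases hle : ∑ j ∈ s, a j ≤ 2 * c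
    · exact ⟨s, Finset.Subset.refl s, hs, hle⟩
    · push Not at hle
      have hne : s.Nonempty := by
        rw [Finset.nonempty_iff_ne_empty]
        rintro rfl
        simp only [Finset.sum_empty] at hs
        linarith
      obtain ⟨j, hj⟩ := hne
      have h2 : ∑ i ∈ s.erase j, a i = ∑ i ∈ s, a i - a j := by
        rw [← Finset.add_sum_erase s a hj]; ring
      have h3 := h1 j
      obtain ⟨t, ht, h4⟩ := ih (s.erase j) (Finset.erase_ssubset hj) (by rw [h2]; linarith)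
      exact ⟨t, ht.trans (Finset.erase_subset j s), h4⟩

private theorem blocks_aux {n : ℕ} (a : Fin n → ℝ) (h1 : ∀ j, a j ≤ 1) {c : ℝ} (hc : 1 ≤ c)
    (m : ℕ) : ∀ s : Finset (Fin n), (m : ℝ) * (2 * c) ≤ ∑ j ∈ s, a j →
    ∃ T : Fin m → Finset (Fin n), (∀ b b', b ≠ b' → Disjoint (T b) (T b')) ∧
      (∀ b, T b ⊆ s) ∧ ∀ b, c ≤ ∑ j ∈ T b, a j := by
  classical
  induction m with
  | zero => exact fun s _ => ⟨fun b => b.elim0, fun b => b.elim0, fun b => b.elim0, fun b => b.elim0⟩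
  | succ m ih =>
    intro s hs
    push_cast at hs
    have hm0 : (0 : ℝ) ≤ m := Nat.cast_nonneg m
    have hmc : 0 ≤ (m : ℝ) * (2 * c) := by positivity
    obtain ⟨t, hts, ht1, ht2⟩ := exists_block a h1 hc s (by nlinarith)
    have h3 : ∑ j ∈ s \ t, a j = ∑ j ∈ s, a j - ∑ j ∈ t, a j := by
      rw [← Finset.sum_sdiff hts]; ring
    obtain ⟨T, hT1, hT2, hT3⟩ := ih (s \ t) (by rw [h3]; nlinarith)
    have hdis : ∀ b, Disjoint t (T b) := fun b =>
      Finset.disjoint_of_subset_right (hT2 b) Finset.disjoint_sdiff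
    refine ⟨Fin.cons t T, ?_, ?_, ?_⟩
    · intro b
      refine Fin.cases ?_ (fun b => ?_) b
      · intro b'
        refine Fin.cases ?_ (fun b' => ?_) b'
        · exact fun h => absurd rfl h
        · intro _
          simpa using hdis b'
      · intro b'
        refine Fin.cases ?_ (fun b' => ?_) b'
        · intro _
          simpa using (hdis b).symm
        · intro h
          simpa using hT1 b b' (fun h' => h (by rw [h']))
    · intro b
      refine Fin.cases ?_ (fun b => ?_) b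
      · simpa using hts
      · simpa using (hT2 b).trans Finset.sdiff_subset
    · intro b
      refine Fin.cases ?_ (fun b => ?_) b
      · simpa using ht1
      · simpa using hT3 b

theorem blocks {m : ℕ} (hm : 1 ≤ m) {n : ℕ} (a : Fin n → ℝ) (h0 : ∀ j, 0 ≤ a j) (h1 : ∀ j, a j ≤ 1)
    (hA : 2 * (m : ℝ) ≤ ∑ j, a j) :
    ∃ T : Fin m → Finset (Fin n), (∀ b b', b ≠ b' → Disjoint (T b) (T b')) ∧
      ∀ b, (∑ j, a j) / (2 * m) ≤ ∑ j ∈ T b, a j := by
  have hm0 : (0 : ℝ) < m := by exact_mod_cast hm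
  obtain ⟨T, hT1, -, hT3⟩ := blocks_aux a h1 (c := (∑ j, a j) / (2 * m))
    (by rw [le_div_iff₀ (by positivity)]; linarith) m Finset.univ
    (by field_simp; exact le_refl _)
  exact ⟨T, hT1, hT3⟩

/-- If `F b = ∑_{j ∈ T b} (a j/A b) 1[j ∈ Y]`, then the mean of `∏ F b` is at most the largest of the probabilities. -/
theorem prod_sum_blocks {m n : ℕ} {Ω : Type} [MeasurableSpace Ω] {P : MeasureTheory.Measure Ω}
    [MeasureTheory.IsProbabilityMeasure P] (T : Fin m → Finset (Fin n)) (a : Fin n → ℝ)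
    (h0 : ∀ j, 0 ≤ a j) {A : Fin m → ℝ} (hA : ∀ b, 0 < A b) (hs : ∀ b, ∑ j ∈ T b, a j = A b)
    (E : Fin n → Set Ω) (hE : ∀ j, MeasurableSet (E j)) {ε : ℝ}
    (h : ∀ c : Fin m → Fin n, (∀ b, c b ∈ T b) → P.real {ω | ∀ b, ω ∈ E (c b)} ≤ ε) :
    P.real {ω | ∀ b, A b / 2 ≤ ∑ j ∈ T b, a j * (E j).indicator (fun _ => (1 : ℝ)) ω} ≤
      2 ^ m * ε := by
  classical
  have hexp : ∀ ω, ∏ b, ∑ j ∈ T b, a j * (E j).indicator (fun _ => (1 : ℝ)) ω =
      ∑ c ∈ Fintype.piFinset T, (∏ b, a (c b)) *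
        ({ω | ∀ b, ω ∈ E (c b)} : Set Ω).indicator (fun _ => (1 : ℝ)) ω := by
    intro ω
    rw [Finset.prod_univ_sum]
    refine Finset.sum_congr rfl fun c _ => ?_
    rw [Finset.prod_mul_distrib]
    congr 1
    by_cases hω : ∀ b, ω ∈ E (c b)
    · rw [Set.indicator_of_mem (show ω ∈ {ω | ∀ b, ω ∈ E (c b)} from hω)]
      refine Finset.prod_eq_one fun b _ => ?_
      rw [Set.indicator_of_mem (hω b)]
    · rw [Set.indicator_of_notMem (show ω ∉ {ω | ∀ b, ω ∈ E (c b)} from hω)]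
      push Not at hω
      obtain ⟨b, hb⟩ := hω
      refine Finset.prod_eq_zero (Finset.mem_univ b) ?_
      rw [Set.indicator_of_notMem hb]
  have hmeas : ∀ c : Fin m → Fin n, MeasurableSet {ω | ∀ b, ω ∈ E (c b)} := by
    intro c
    rw [show {ω | ∀ b, ω ∈ E (c b)} = ⋂ b, E (c b) by ext ω; simp]
    exact MeasurableSet.iInter fun b => hE (c b)
  have hint : ∀ c : Fin m → Fin n, MeasureTheory.Integrable (fun ω => (∏ b, a (c b)) *
        ({ω | ∀ b, ω ∈ E (c b)} : Set Ω).indicator (fun _ => (1 : ℝ)) ω) P := by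
    intro c
    refine MeasureTheory.Integrable.const_mul ?_ _
    exact (MeasureTheory.integrable_const (1 : ℝ)).indicator (hmeas c)
  have hFint : MeasureTheory.Integrable (fun ω => ∏ b, ∑ j ∈ T b, a j *
      (E j).indicator (fun _ => (1 : ℝ)) ω) P := by
    simp only [hexp]
    exact MeasureTheory.integrable_finsetSum _ fun c _ => hint c
  have hI : ∫ ω, ∏ b, ∑ j ∈ T b, a j * (E j).indicator (fun _ => (1 : ℝ)) ω ∂P ≤
      (∏ b, A b) * ε := by
    simp only [hexp]
    rw [MeasureTheory.integral_finsetSum _ fun c _ => hint c]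
    have h2 : ∀ c ∈ Fintype.piFinset T, ∫ ω, (∏ b, a (c b)) *
        ({ω | ∀ b, ω ∈ E (c b)} : Set Ω).indicator (fun _ => (1 : ℝ)) ω ∂P ≤
        (∏ b, a (c b)) * ε := by
      intro c hc
      rw [MeasureTheory.integral_const_mul]
      refine mul_le_mul_of_nonneg_left ?_ (Finset.prod_nonneg fun b _ => h0 (c b))
      rw [MeasureTheory.integral_indicator (hmeas c), MeasureTheory.setIntegral_const, smul_eq_mul,
        mul_one]
      exact h c (Fintype.mem_piFinset.mp hc)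
    refine (Finset.sum_le_sum h2).trans (le_of_eq ?_)
    rw [← Finset.sum_mul, ← Finset.prod_univ_sum]
    congr 1
    exact Finset.prod_congr rfl fun b _ => hs b
  have hP0 : ∀ ω, 0 ≤ ∏ b, ∑ j ∈ T b, a j * (E j).indicator (fun _ => (1 : ℝ)) ω := by
    intro ω
    refine Finset.prod_nonneg fun b _ => Finset.sum_nonneg fun j _ => mul_nonneg (h0 j) ?_
    exact Set.indicator_nonneg (fun _ _ => zero_le_one) ω
  have hM := MeasureTheory.mul_meas_ge_le_integral_of_nonneg
    (Filter.Eventually.of_forall hP0) hFint (∏ b, A b / 2)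
  have hsub : {ω | ∀ b, A b / 2 ≤ ∑ j ∈ T b, a j * (E j).indicator (fun _ => (1 : ℝ)) ω} ⊆
      {ω | ∏ b, A b / 2 ≤ ∏ b, ∑ j ∈ T b, a j * (E j).indicator (fun _ => (1 : ℝ)) ω} := by
    intro ω hω
    exact Finset.prod_le_prod (fun b _ => (half_pos (hA b)).le) fun b _ => hω b
  have hmono := MeasureTheory.measureReal_mono (μ := P) hsub
  have hprod : ∏ b, A b / 2 = (∏ b, A b) / 2 ^ m := by
    rw [Finset.prod_div_distrib]; simp
  have hApos : 0 < ∏ b, A b := Finset.prod_pos fun b _ => hA b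
  have h5 : (∏ b, A b / 2) * P.real {ω | ∀ b, A b / 2 ≤ ∑ j ∈ T b, a j *
      (E j).indicator (fun _ => (1 : ℝ)) ω} ≤ (∏ b, A b) * ε := by
    refine le_trans ?_ (hM.trans hI)
    exact mul_le_mul_of_nonneg_left hmono (Finset.prod_nonneg fun b _ => (half_pos (hA b)).le)
  rw [hprod, div_mul_eq_mul_div, div_le_iff₀ (by positivity), mul_assoc] at h5
  have h6 := le_of_mul_le_mul_left h5 hApos
  linarith

end Pool.Agent.UB
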