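import Pool.Agent.UB.G2b
import Pool.Agent.UB.G3a
import Pool.Agent.UB.G3b

/-!
# UB-G3c: super-decay

PLAN.  `m = 8 l` (or `8 l + 8`), `a_j = min (1, ξ_j²)`, `A = Am ξ`.  If `A ≤ A_0(l)` (in particular `A < 2m`): `Phi ≤ 1`.  Otherwise `blocks`, `A_b ≥ A/(2m)`;
`d = A^(-1/2)`, `R = d^(-1/4)`, `Z_j = Zs (ξ_j) d R ∪ {|s| > R}`.  `Y` = law `unif K`.  If for some `b` the weighted share of the
`j ∈ T_b` with `Y_j ∈ Z_j` is `< 1/2`, then `∏ |cos (ξ_j Y_j)| ≤ ∏_{j ∈ T_b, Y_j ∉ Z_j} exp (-(1 - |cos|)) ≤ exp (-d A_b/2)` (`1 - |cos| ≥ d a_j` outside `Z_j`).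
The event that all blocks are bad has probability `≤ 2^m ε` (`prod_sum_blocks`) with, for distinct `j_b ∈ T_b`,
`P(Y_{j_b} ∈ Z_{j_b} ∀ b) ≤ ∑_b P(|Y_{j_b}| > R) + P(Y_{j_b} ∈ Zs ∀ b) ≤ m 2^(-R/2) + C (C' √d (1+R))^m ≤ m 2^(-R/2) + C'' d^(m/4)` (`tail`, `boxZ`, `zset`).
So `Phi ≤ exp (-A^(1/2)/(4m)) + C (A^(-m/8) + 2^(-A^(1/8)/2)) ≤ C_l (1 + A)^(-l)`.
-/

set_option autoImplicit false

open MeasureTheory Set
open scoped ENNReal NNReal

namespace Pool.Agent.UB

open Pool.Agent.CB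

private theorem sd_exp (k : ℕ) {c : ℝ} (hc : 0 < c) :
    ∃ B : ℝ, 0 ≤ B ∧ ∀ x : ℝ, 0 ≤ x → x ^ k * Real.exp (-(c * x)) ≤ B := by
  refine ⟨k.factorial / c ^ k, by positivity, fun x hx => ?_⟩
  have h := Real.pow_div_factorial_le_exp (c * x) (by positivity) k
  rw [Real.exp_neg, ← div_eq_mul_inv, div_le_div_iff₀ (Real.exp_pos _) (by positivity)]
  rw [div_le_iff₀ (by positivity), mul_pow] at h
  nlinarith

private theorem sd_cont {n : ℕ} (ξ : V n) :
    Continuous fun y : V n => ∏ j, |Real.cos (ξ j * y j)| := by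
  refine continuous_finset_prod _ fun j _ => ?_
  fun_prop

private theorem sd_nonneg {n : ℕ} (ξ y : V n) : 0 ≤ ∏ j, |Real.cos (ξ j * y j)| :=
  Finset.prod_nonneg fun _ _ => abs_nonneg _

private theorem sd_le_one {n : ℕ} (ξ y : V n) : ∏ j, |Real.cos (ξ j * y j)| ≤ 1 :=
  Finset.prod_le_one (fun _ _ => abs_nonneg _) fun _ _ => Real.abs_cos_le_one _

private theorem sd_phi_le {n : ℕ} {K : Set (V n)} (hK : NUnc K) (ξ : V n) : Phi K ξ ≤ 1 := by
  haveI := hK.toUnc.prob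
  have h : ‖∫ y, ∏ j, |Real.cos (ξ j * y j)| ∂(MX.unif K)‖ ≤ 1 * (MX.unif K).real Set.univ := by
    refine norm_integral_le_of_norm_le_const (Filter.Eventually.of_forall fun y => ?_)
    rw [Real.norm_eq_abs, abs_of_nonneg (sd_nonneg ξ y)]
    exact sd_le_one ξ y
  rw [probReal_univ, mul_one] at h
  exact (le_abs_self _).trans h

private theorem sd_phi_nonneg {n : ℕ} (K : Set (V n)) (ξ : V n) : 0 ≤ Phi K ξ :=
  integral_nonneg fun y => sd_nonneg ξ y

/-- the product on the good event -/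
private theorem sd_good {n : ℕ} (ξ y : V n) {d : ℝ} (hd : 0 < d) (T : Finset (Fin n))
    (E : Fin n → Set (V n)) (hE : ∀ j, y ∉ E j → d * min 1 (ξ j ^ 2) ≤ 1 - |Real.cos (ξ j * y j)|)
    {B : ℝ} (hB : B ≤ ∑ j ∈ T, min 1 (ξ j ^ 2))
    (h : ∑ j ∈ T, min 1 (ξ j ^ 2) * (E j).indicator (fun _ => (1 : ℝ)) y < B / 2) :
    ∏ j, |Real.cos (ξ j * y j)| ≤ Real.exp (-(d * (B / 2))) := by
  classical
  have h1 : ∏ j, |Real.cos (ξ j * y j)| ≤
      ∏ j ∈ T, Real.exp (-(d * (min 1 (ξ j ^ 2) * (1 - (E j).indicator (fun _ => (1 : ℝ)) y)))) := by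
    have h2 : ∏ j, |Real.cos (ξ j * y j)| ≤ ∏ j ∈ T, |Real.cos (ξ j * y j)| := by
      have h3 := Finset.prod_mul_prod_compl T fun j => |Real.cos (ξ j * y j)|
      rw [← h3]
      refine mul_le_of_le_one_right (Finset.prod_nonneg fun _ _ => abs_nonneg _) ?_
      exact Finset.prod_le_one (fun _ _ => abs_nonneg _) fun _ _ => Real.abs_cos_le_one _
    refine h2.trans (Finset.prod_le_prod (fun _ _ => abs_nonneg _) fun j _ => ?_)
    by_cases hj : y ∈ E j
    · rw [Set.indicator_of_mem hj]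
      simp only [sub_self, mul_zero, neg_zero, Real.exp_zero]
      exact Real.abs_cos_le_one _
    · rw [Set.indicator_of_notMem hj, sub_zero, mul_one]
      have h4 := hE j hj
      have h5 := Real.add_one_le_exp (-(d * min 1 (ξ j ^ 2)))
      linarith
  refine h1.trans ?_
  rw [← Real.exp_sum]
  apply Real.exp_le_exp.2
  rw [Finset.sum_neg_distrib, ← Finset.mul_sum]
  apply neg_le_neg
  apply mul_le_mul_of_nonneg_left _ hd.le
  have h6 : ∑ j ∈ T, min 1 (ξ j ^ 2) * (1 - (E j).indicator (fun _ => (1 : ℝ)) y) =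
      ∑ j ∈ T, min 1 (ξ j ^ 2) - ∑ j ∈ T, min 1 (ξ j ^ 2) * (E j).indicator (fun _ => (1 : ℝ)) y := by
    rw [← Finset.sum_sub_distrib]
    exact Finset.sum_congr rfl fun j _ => by ring
  rw [h6]
  linarith

theorem superdecay (l : ℕ) : ∃ C : ℝ, ∀ (n : ℕ) (K : Set (V n)), NUnc K → ∀ ξ : V n,
    Phi K ξ * (1 + Am ξ) ^ l ≤ C := by
  classical
  obtain ⟨m, hm⟩ : ∃ m, m = 8 * (l + 1) := ⟨_, rfl⟩
  have hm1 : 1 ≤ m := by omega
  have hm0 : (0 : ℝ) < m := by exact_mod_cast hm1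
  obtain ⟨C1, hC1, hZ⟩ := boxZ m
  obtain ⟨C2, hC2, hS⟩ := zset
  obtain ⟨B1, hB1, hE1⟩ := sd_exp (8 * l) (c := 1 / (4 * (m : ℝ))) (by positivity)
  obtain ⟨B2, hB2, hE2⟩ := sd_exp (8 * l) (c := Real.log 2 / 2)
    (by have := Real.log_pos (show (1 : ℝ) < 2 by norm_num); positivity)
  refine ⟨max ((1 + 2 * (m : ℝ)) ^ l)
    (2 ^ l * (B1 + 2 ^ m * (m * B2 + C1 * (2 * C2) ^ m))), ?_⟩
  intro n K hK ξ
  haveI := hK.toUnc.prob
  obtain ⟨A, hA⟩ : ∃ A, A = Am ξ := ⟨_, rfl⟩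
  rw [← hA]
  have ha0 : ∀ j, 0 ≤ min 1 (ξ j ^ 2) := fun j => le_min zero_le_one (sq_nonneg _)
  have ha1 : ∀ j, min 1 (ξ j ^ 2) ≤ 1 := fun j => min_le_left _ _
  have hAsum : A = ∑ j, min 1 (ξ j ^ 2) := hA
  have hA0 : 0 ≤ A := by rw [hAsum]; exact Finset.sum_nonneg fun j _ => ha0 j
  have hphi0 := sd_phi_nonneg K ξ
  rcases lt_or_ge A (2 * (m : ℝ)) with hlt | hge
  · refine le_trans ?_ (le_max_left _ _)
    have h1 : (1 + A) ^ l ≤ (1 + 2 * (m : ℝ)) ^ l := pow_le_pow_left₀ (by linarith) (by linarith) _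
    calc Phi K ξ * (1 + A) ^ l ≤ 1 * (1 + A) ^ l :=
          mul_le_mul_of_nonneg_right (sd_phi_le hK ξ) (by positivity)
      _ ≤ (1 + 2 * (m : ℝ)) ^ l := by rw [one_mul]; exact h1
  refine le_trans ?_ (le_max_right _ _)
  have hm1' : (1 : ℝ) ≤ m := by exact_mod_cast hm1
  have hA1 : 1 ≤ A := by linarith
  -- the scale
  obtain ⟨D, hD⟩ : ∃ D, D = A ^ (1 / 8 : ℝ) := ⟨_, rfl⟩
  have hD1 : 1 ≤ D := by rw [hD]; exact Real.one_le_rpow hA1 (by norm_num)
  have hD0 : 0 < D := by linarith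
  have hD8 : D ^ 8 = A := by
    rw [hD, ← Real.rpow_natCast, ← Real.rpow_mul hA0]
    norm_num
  obtain ⟨d, hd⟩ : ∃ d, d = (D ^ 4)⁻¹ := ⟨_, rfl⟩
  have hd0 : 0 < d := by rw [hd]; positivity
  have hd1 : d ≤ 1 := by rw [hd]; exact inv_le_one_of_one_le₀ (one_le_pow₀ hD1)
  have hsd : Real.sqrt d = (D ^ 2)⁻¹ := by
    rw [hd, show D ^ 4 = (D ^ 2) ^ 2 by ring, Real.sqrt_inv, Real.sqrt_sq (by positivity)]
  have hvol : ∀ x : ℝ, volume (Zs x d D) ≤ ENNReal.ofReal (2 * C2 / D) := by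
    intro x
    refine (hS x d D hd0 hd1 hD0).trans (ENNReal.ofReal_le_ofReal ?_)
    rw [hsd]
    have h1 : C2 * (D ^ 2)⁻¹ * (1 + D) ≤ C2 * (D ^ 2)⁻¹ * (2 * D) :=
      mul_le_mul_of_nonneg_left (by linarith) (by positivity)
    refine h1.trans (le_of_eq ?_)
    field_simp
  have hvolR : ∀ x : ℝ, (volume (Zs x d D)).toReal ≤ 2 * C2 / D := fun x =>
    ENNReal.toReal_le_of_le_ofReal (by positivity) (hvol x)
  -- the blocks
  obtain ⟨T, hTd, hTA⟩ := blocks hm1 (fun j => min 1 (ξ j ^ 2)) ha0 ha1 (by rw [← hAsum]; exact hge)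
  simp only at hTA
  rw [← hAsum] at hTA
  let E : Fin n → Set (V n) := fun j => {y | y j ∈ Zs (ξ j) d D ∨ D < |y j|}
  have hmeas : ∀ j, Measurable fun y : V n => y j := fun j => by fun_prop
  have hEm : ∀ j, MeasurableSet (E j) := fun j =>
    MeasurableSet.union (hmeas j (measurable_Zs _ _ _))
      (measurableSet_lt measurable_const (hmeas j).abs)
  have hEc : ∀ y : V n, ∀ j, y ∉ E j → d * min 1 (ξ j ^ 2) ≤ 1 - |Real.cos (ξ j * y j)| := by
    intro y j hy
    simp only [E, Set.mem_setOf_eq, not_or, not_lt] at hy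
    by_contra hcon
    push Not at hcon
    exact hy.1 ⟨hy.2, hcon⟩
  have hAb : ∀ b, 0 < ∑ j ∈ T b, min 1 (ξ j ^ 2) := fun b =>
    lt_of_lt_of_le (by positivity) (hTA b)
  let Bad : Set (V n) := {ω | ∀ b, (∑ j ∈ T b, min 1 (ξ j ^ 2)) / 2 ≤
    ∑ j ∈ T b, min 1 (ξ j ^ 2) * (E j).indicator (fun _ => (1 : ℝ)) ω}
  have hBadm : MeasurableSet Bad := by
    have : Bad = ⋂ b, {ω | (∑ j ∈ T b, min 1 (ξ j ^ 2)) / 2 ≤
        ∑ j ∈ T b, min 1 (ξ j ^ 2) * (E j).indicator (fun _ => (1 : ℝ)) ω} := by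
      ext ω
      simp only [Bad, Set.mem_setOf_eq, Set.mem_iInter]
    rw [this]
    refine MeasurableSet.iInter fun b => measurableSet_le measurable_const ?_
    refine Finset.measurable_sum _ fun j _ => ?_
    exact (measurable_const.indicator (hEm j)).const_mul _
  have hBadP : (MX.unif K).real Bad ≤
      2 ^ m * (m * Real.exp (-(Real.log 2 / 2 * D)) + C1 * (2 * C2 / D) ^ m) := by
    refine prod_sum_blocks T (fun j => min 1 (ξ j ^ 2)) ha0 hAb (fun b => rfl) E hEm ?_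
    intro c hc
    have hinj : Function.Injective c := by
      intro b b' hbb
      by_contra hne
      exact Finset.disjoint_left.1 (hTd b b' hne) (hc b) (hbb ▸ hc b')
    have hsub : {ω : V n | ∀ b, ω ∈ E (c b)} ⊆
        (⋃ b, {y : V n | D < |y (c b)|}) ∪
          {y : V n | ∀ i ∈ Finset.univ.image c, y i ∈ Zs (ξ i) d D} := by
      intro ω hω
      by_cases hex : ∃ b, D < |ω (c b)|
      · obtain ⟨b, hb⟩ := hex
        exact Or.inl (Set.mem_iUnion.2 ⟨b, hb⟩)
      · push Not at hex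
        refine Or.inr ?_
        intro i hi
        obtain ⟨b, -, rfl⟩ := Finset.mem_image.1 hi
        rcases hω b with h | h
        · exact h
        · exact absurd h (not_lt.2 (hex b))
    have hcard : (Finset.univ.image c).card ≤ m := by
      refine Finset.card_image_le.trans ?_
      rw [Finset.card_univ, Fintype.card_fin]
    have h1 := hZ n K hK (Finset.univ.image c) hcard (fun i => Zs (ξ i) d D)
      (fun i _ => measurable_Zs _ _ _)
      (fun i _ => ne_top_of_le_ne_top ENNReal.ofReal_ne_top (hvol (ξ i)))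
    rw [Finset.prod_image (fun x _ y _ h => hinj h)] at h1
    have h2 : ∏ b : Fin m, (volume (Zs (ξ (c b)) d D)).toReal ≤ (2 * C2 / D) ^ m := by
      have h3 : ∏ b : Fin m, (volume (Zs (ξ (c b)) d D)).toReal ≤
          ∏ _b : Fin m, (2 * C2 / D) :=
        Finset.prod_le_prod (fun _ _ => ENNReal.toReal_nonneg) fun b _ => hvolR _
      rwa [Finset.prod_const, Finset.card_univ, Fintype.card_fin] at h3
    have h3 : (MX.unif K).real (⋃ b, {y : V n | D < |y (c b)|}) ≤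
        m * Real.exp (-(Real.log 2 / 2 * D)) := by
      refine (measureReal_iUnion_fintype_le _).trans ?_
      have h4 : ∀ b ∈ (Finset.univ : Finset (Fin m)),
          (MX.unif K).real {y : V n | D < |y (c b)|} ≤ Real.exp (-(Real.log 2 / 2 * D)) := by
        intro b _
        have h5 := tail hK.toUnc (c b) (hK.Sx_one (c b)).le hD1
        unfold Sx at h5
        refine h5.trans (le_of_eq ?_)
        rw [Real.rpow_def_of_pos (by norm_num), one_div, Real.log_inv]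
        congr 1
        ring
      refine (Finset.sum_le_card_nsmul _ _ _ h4).trans (le_of_eq ?_)
      rw [Finset.card_univ, Fintype.card_fin, nsmul_eq_mul]
    refine (measureReal_mono hsub).trans ((measureReal_union_le _ _).trans ?_)
    refine add_le_add h3 (h1.trans ?_)
    exact mul_le_mul_of_nonneg_left h2 hC1.le
  -- the integral
  have hPhi : Phi K ξ ≤ Real.exp (-(1 / (4 * (m : ℝ)) * D)) + (MX.unif K).real Bad := by
    have hint : Integrable (fun y : V n => ∏ j, |Real.cos (ξ j * y j)|) (MX.unif K) := by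
      refine Integrable.of_bound (sd_cont ξ).aestronglyMeasurable 1
        (Filter.Eventually.of_forall fun y => ?_)
      rw [Real.norm_eq_abs, abs_of_nonneg (sd_nonneg ξ y)]
      exact sd_le_one ξ y
    have hint2 : Integrable (Bad.indicator fun _ : V n => (1 : ℝ)) (MX.unif K) :=
      (integrable_const _).indicator hBadm
    have h1 : Phi K ξ ≤ ∫ y, (Real.exp (-(1 / (4 * (m : ℝ)) * D)) +
        Bad.indicator (fun _ : V n => (1 : ℝ)) y) ∂(MX.unif K) := by
      refine integral_mono hint ((integrable_const _).add hint2) fun y => ?_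
      simp only
      by_cases hy : y ∈ Bad
      · rw [Set.indicator_of_mem hy]
        have := sd_le_one ξ y
        have := Real.exp_pos (-(1 / (4 * (m : ℝ)) * D))
        linarith
      · rw [Set.indicator_of_notMem hy, add_zero]
        simp only [Bad, Set.mem_setOf_eq, not_forall, not_le] at hy
        obtain ⟨b, hb⟩ := hy
        refine (sd_good ξ y hd0 (T b) E (hEc y) le_rfl hb).trans (Real.exp_le_exp.2 ?_)
        apply neg_le_neg
        have h2 := hTA b
        have h3 : 1 / (4 * (m : ℝ)) * D ≤ d * (A / (2 * m) / 2) := by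
          have h4 : d * (A / (2 * m) / 2) = 1 / (4 * (m : ℝ)) * D ^ 4 := by
            rw [← hD8, hd]
            field_simp
            ring
          rw [h4]
          refine mul_le_mul_of_nonneg_left ?_ (by positivity)
          calc D = D ^ 1 := (pow_one D).symm
            _ ≤ D ^ 4 := pow_le_pow_right₀ hD1 (by norm_num)
        refine h3.trans (mul_le_mul_of_nonneg_left ?_ hd0.le)
        linarith
    rw [integral_add (integrable_const _) hint2, integral_const, probReal_univ,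
      integral_indicator_const _ hBadm] at h1
    simpa using h1
  -- conclusion
  have h1A : (1 + A) ^ l ≤ 2 ^ l * D ^ (8 * l) := by
    rw [pow_mul, hD8, ← mul_pow]
    exact pow_le_pow_left₀ (by linarith) (by linarith) _
  have e1 := hE1 D hD0.le
  have e2 := hE2 D hD0.le
  have e3 : (2 * C2 / D) ^ m * D ^ (8 * l) ≤ (2 * C2) ^ m := by
    rw [div_pow, div_mul_eq_mul_div, div_le_iff₀ (by positivity)]
    refine mul_le_mul_of_nonneg_left ?_ (by positivity)
    exact pow_le_pow_right₀ hD1 (by omega)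
  have hDl : 0 ≤ D ^ (8 * l) := by positivity
  have h2 : Phi K ξ * D ^ (8 * l) ≤ B1 + 2 ^ m * (m * B2 + C1 * (2 * C2) ^ m) := by
    have h3 : Phi K ξ ≤ Real.exp (-(1 / (4 * (m : ℝ)) * D)) +
        2 ^ m * (m * Real.exp (-(Real.log 2 / 2 * D)) + C1 * (2 * C2 / D) ^ m) :=
      hPhi.trans (by linarith)
    have h4 := mul_le_mul_of_nonneg_right h3 hDl
    refine h4.trans ?_
    have h5 : (Real.exp (-(1 / (4 * (m : ℝ)) * D)) +
        2 ^ m * (m * Real.exp (-(Real.log 2 / 2 * D)) + C1 * (2 * C2 / D) ^ m)) * D ^ (8 * l) =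
        D ^ (8 * l) * Real.exp (-(1 / (4 * (m : ℝ)) * D)) +
        2 ^ m * (m * (D ^ (8 * l) * Real.exp (-(Real.log 2 / 2 * D))) +
          C1 * ((2 * C2 / D) ^ m * D ^ (8 * l))) := by ring
    rw [h5]
    gcongr
  calc Phi K ξ * (1 + A) ^ l ≤ Phi K ξ * (2 ^ l * D ^ (8 * l)) :=
        mul_le_mul_of_nonneg_left h1A hphi0
    _ = 2 ^ l * (Phi K ξ * D ^ (8 * l)) := by ring
    _ ≤ 2 ^ l * (B1 + 2 ^ m * (m * B2 + C1 * (2 * C2) ^ m)) :=
        mul_le_mul_of_nonneg_left h2 (by positivity)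

end Pool.Agent.UB
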