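import Pool.Agent.UB.G0
import Pool.Agent.UB.Sgn
import Pool.Agent.CB.LCmom
import Pool.Agent.UB.Khin

/-!
# UB-G4: moments

PLAN.  `E |Y_i|^l ≤ C_l` from `tail` (layer cake, or `∑_k (k+1)^l P(|Y_i| > k)`).  For `l = 2j` even: by sign invariance
`E |<ξ, Y>|^(2j) = E 2^(-n) ∑_ε (∑ ε_i ξ_i Y_i)^(2j) ≤ 4 (2j)! E (∑ ξ_i² Y_i²)^j` (`khin`) and by convexity (`inner_le_nnorm_mul_nnorm`/Jensen with weights
`ξ_i²/‖ξ‖²`) `(∑ ξ_i² Y_i²)^j ≤ ‖ξ‖^(2j) ∑ (ξ_i²/‖ξ‖²) Y_i^(2j)`.  Odd `l`: `|x|^l ≤ (E |x|^(2l))^(1/2)` (Cauchy-Schwarz).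
-/

set_option autoImplicit false

open MeasureTheory Set
open scoped ENNReal NNReal

namespace Pool.Agent.UB

open Pool.Agent.CB

private theorem g4_int {n : ℕ} {K : Set (V n)} (hK : Unc K) {f : V n → ℝ} (hf : Continuous f) :
    Integrable f (MX.unif K) := by
  unfold MX.unif
  refine Integrable.smul_measure ?_ (ENNReal.inv_ne_top.mpr hK.vol_pos.ne')
  exact hf.continuousOn.integrableOn_compact hK.compact

private theorem g4_pt (m N : ℕ) {x : ℝ} (hx0 : 0 ≤ x) (hxN : x ≤ N) :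
    x ^ m ≤ 1 + ∑ k ∈ Finset.range N, ((k : ℝ) + 2) ^ m * (Ioi ((k : ℝ) + 1)).indicator 1 x := by
  have hnn : ∀ k ∈ Finset.range N, 0 ≤ ((k : ℝ) + 2) ^ m * (Ioi ((k : ℝ) + 1)).indicator 1 x := by
    intro k _
    refine mul_nonneg (by positivity) ?_
    exact Set.indicator_nonneg (fun _ _ => zero_le_one) x
  by_cases hx1 : x ≤ 1
  · have h1 : x ^ m ≤ 1 := pow_le_one₀ hx0 hx1
    have h2 := Finset.sum_nonneg hnn
    linarith
  · push Not at hx1
    have h2 : 2 ≤ ⌈x⌉₊ := by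
      have : 1 < ⌈x⌉₊ := by
        rw [Nat.lt_ceil]; exact_mod_cast hx1
      omega
    obtain ⟨k, hk⟩ : ∃ k, ⌈x⌉₊ = k + 2 := ⟨⌈x⌉₊ - 2, by omega⟩
    have h3 : ((k : ℝ) + 1) < x := by
      have : k + 1 < ⌈x⌉₊ := by omega
      rw [Nat.lt_ceil] at this
      exact_mod_cast this
    have h4 : x ≤ (k : ℝ) + 2 := by
      have := Nat.le_ceil x
      rw [hk] at this
      exact_mod_cast this
    have h5 : k < N := by
      have : (k : ℝ) < N := by linarith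
      exact_mod_cast this
    have h6 := Finset.single_le_sum hnn (Finset.mem_range.mpr h5)
    rw [Set.indicator_of_mem (show x ∈ Ioi ((k : ℝ) + 1) from h3), Pi.one_apply, mul_one] at h6
    have h7 : x ^ m ≤ ((k : ℝ) + 2) ^ m := pow_le_pow_left₀ hx0 h4 m
    linarith

private theorem g4_summable (m : ℕ) :
    Summable fun k : ℕ => ((k : ℝ) + 2) ^ m * (1 / 2 : ℝ) ^ (((k : ℝ) + 1) / 2) := by
  set r : ℝ := (1 / 2 : ℝ) ^ (1 / 2 : ℝ) with hr
  have hr0 : 0 < r := Real.rpow_pos_of_pos (by norm_num) _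
  have hr1 : r < 1 := Real.rpow_lt_one (by norm_num) (by norm_num) (by norm_num)
  have h1 := summable_pow_mul_geometric_of_norm_lt_one (R := ℝ) m (r := r)
    (by rw [Real.norm_eq_abs, abs_of_pos hr0]; exact hr1)
  have h2 := ((summable_nat_add_iff 2).mpr h1).mul_left r⁻¹
  refine h2.congr fun k => ?_
  have h3 : (1 / 2 : ℝ) ^ (((k : ℝ) + 1) / 2) = r ^ (k + 1) := by
    rw [hr, ← Real.rpow_natCast, ← Real.rpow_mul (by norm_num)]
    congr 1
    push_cast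
    ring
  rw [h3]
  push_cast
  field_simp
  ring

private theorem g4_coord (m : ℕ) : ∃ C : ℝ, 0 ≤ C ∧ ∀ (n : ℕ) (K : Set (V n)), NUnc K →
    ∀ i : Fin n, ∫ y : V n, |y i| ^ m ∂(MX.unif K) ≤ C := by
  refine ⟨1 + ∑' k : ℕ, ((k : ℝ) + 2) ^ m * (1 / 2 : ℝ) ^ (((k : ℝ) + 1) / 2), ?_, ?_⟩
  · have : 0 ≤ ∑' k : ℕ, ((k : ℝ) + 2) ^ m * (1 / 2 : ℝ) ^ (((k : ℝ) + 1) / 2) :=
      tsum_nonneg fun k => by positivity
    linarith
  intro n K hK i
  have := hK.toUnc.prob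
  obtain ⟨R, hR⟩ := hK.compact.isBounded.exists_norm_le
  obtain ⟨N, hN⟩ := exists_nat_ge R
  have hms : ∀ k : ℕ, MeasurableSet {y : V n | (k : ℝ) + 1 < |y i|} := by
    intro k
    have hc : Continuous fun y : V n => |y i| := by fun_prop
    exact (isOpen_lt continuous_const hc).measurableSet
  have hI : ∀ k : ℕ, Integrable (fun y : V n => ((k : ℝ) + 2) ^ m *
      ({y : V n | (k : ℝ) + 1 < |y i|}).indicator (1 : V n → ℝ) y) (MX.unif K) := by
    intro k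
    exact ((integrable_const (1 : ℝ)).indicator (hms k)).const_mul _
  have h1 : ∫ y : V n, |y i| ^ m ∂(MX.unif K) ≤ ∫ y : V n, (1 + ∑ k ∈ Finset.range N,
      ((k : ℝ) + 2) ^ m * ({y : V n | (k : ℝ) + 1 < |y i|}).indicator (1 : V n → ℝ) y)
        ∂(MX.unif K) := by
    refine integral_mono_ae (g4_int hK.toUnc (by fun_prop))
      ((integrable_const 1).add (integrable_finsetSum _ fun k _ => hI k)) ?_
    filter_upwards [hK.toUnc.ae_mem] with y hy
    have h2 : |y i| ≤ N := by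
      have h3 : ‖y i‖ ≤ ‖y‖ := PiLp.norm_apply_le y i
      rw [Real.norm_eq_abs] at h3
      exact h3.trans ((hR y hy).trans hN)
    have h4 := g4_pt m N (abs_nonneg (y i)) h2
    refine h4.trans (le_of_eq ?_)
    congr 1
  refine h1.trans ?_
  rw [integral_add (integrable_const 1) (integrable_finsetSum _ fun k _ => hI k),
    integral_finsetSum _ fun k _ => hI k]
  simp only [integral_const, probReal_univ, smul_eq_mul, mul_one, integral_const_mul]
  gcongr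
  have h5 : ∀ k ∈ Finset.range N, ((k : ℝ) + 2) ^ m *
      ∫ y : V n, ({y : V n | (k : ℝ) + 1 < |y i|}).indicator (1 : V n → ℝ) y ∂(MX.unif K) ≤
      ((k : ℝ) + 2) ^ m * (1 / 2 : ℝ) ^ (((k : ℝ) + 1) / 2) := by
    intro k _
    rw [integral_indicator_one (hms k)]
    refine mul_le_mul_of_nonneg_left ?_ (by positivity)
    exact tail hK.toUnc i (hK.Sx_one i).le (by
      have : (0 : ℝ) ≤ k := Nat.cast_nonneg k
      linarith)
  refine (Finset.sum_le_sum h5).trans ?_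
  exact (g4_summable m).sum_le_tsum _ fun k _ => by positivity

private theorem g4_inner {n : ℕ} (ξ y : V n) : inner ℝ ξ y = ∑ i, ξ i * y i := by
  rw [PiLp.inner_apply]
  exact Finset.sum_congr rfl fun i _ => by simp [mul_comm]

private theorem g4_even (j : ℕ) : ∃ C : ℝ, 0 ≤ C ∧ ∀ (n : ℕ) (K : Set (V n)), NUnc K →
    ∀ ξ : V n, 0 < ‖ξ‖ → ∫ y : V n, inner ℝ ξ y ^ (2 * j) ∂(MX.unif K) ≤ C * ‖ξ‖ ^ (2 * j) := by
  obtain ⟨C, hC0, hC⟩ := g4_coord (2 * j)
  refine ⟨4 * ((2 * j).factorial : ℝ) * C, by positivity, ?_⟩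
  intro n K hK ξ hξ
  have := hK.toUnc.prob
  have hsgn : ∀ ε : Fin n → Bool, ∫ y : V n, inner ℝ ξ y ^ (2 * j) ∂(MX.unif K) =
      ∫ y : V n, (∑ i, sg (ε i) * (ξ i * y i)) ^ (2 * j) ∂(MX.unif K) := by
    intro ε
    have hc : Continuous fun y : V n => (WithLp.toLp 2 fun i => sg (ε i) * y i : V n) := by
      refine (PiLp.continuous_toLp 2 _).comp ?_
      fun_prop
    have hc2 : Continuous fun y : V n => (inner ℝ ξ y : ℝ) ^ (2 * j) := by fun_prop
    conv_lhs => rw [← hK.toUnc.sign_inv ε]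
    rw [integral_map hc.measurable.aemeasurable hc2.aestronglyMeasurable]
    refine integral_congr_ae (Filter.Eventually.of_forall fun y => ?_)
    simp only [g4_inner]
    congr 1
    exact Finset.sum_congr rfl fun i _ => by ring
  have hIe : ∀ ε : Fin n → Bool, Integrable (fun y : V n =>
      (∑ i, sg (ε i) * (ξ i * y i)) ^ (2 * j)) (MX.unif K) := fun ε =>
    g4_int hK.toUnc (by fun_prop)
  have h1 : ∫ y : V n, inner ℝ ξ y ^ (2 * j) ∂(MX.unif K) =
      ∫ y : V n, (1 / 2 ^ n : ℝ) * ∑ ε : Fin n → Bool,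
        (∑ i, sg (ε i) * (ξ i * y i)) ^ (2 * j) ∂(MX.unif K) := by
    rw [integral_const_mul, integral_finsetSum _ fun ε _ => hIe ε,
      Finset.sum_congr rfl fun ε _ => (hsgn ε).symm, Finset.sum_const, Finset.card_univ,
      nsmul_eq_mul]
    simp only [Fintype.card_pi, Fintype.card_bool, Finset.prod_const, Finset.card_univ,
      Fintype.card_fin]
    push_cast
    field_simp
  rw [h1]
  have hnorm : ∑ i, ξ i ^ 2 = ‖ξ‖ ^ 2 := by
    rw [EuclideanSpace.norm_sq_eq]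
    exact Finset.sum_congr rfl fun i _ => by rw [Real.norm_eq_abs, sq_abs]
  have hpt : ∀ y : V n, (1 / 2 ^ n : ℝ) * ∑ ε : Fin n → Bool,
        (∑ i, sg (ε i) * (ξ i * y i)) ^ (2 * j) ≤
      4 * ((2 * j).factorial : ℝ) * (‖ξ‖ ^ (2 * j) *
        ∑ i, (ξ i ^ 2 / ‖ξ‖ ^ 2) * |y i| ^ (2 * j)) := by
    intro y
    refine (khin j fun i => ξ i * y i).trans ?_
    refine mul_le_mul_of_nonneg_left ?_ (by positivity)
    have h2 := Real.pow_arith_mean_le_arith_mean_pow Finset.univ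
      (fun i => ξ i ^ 2 / ‖ξ‖ ^ 2) (fun i => ‖ξ‖ ^ 2 * y i ^ 2)
      (fun i _ => by positivity) (by rw [← Finset.sum_div, hnorm]; field_simp)
      (fun i _ => by positivity) j
    have h3 : ∑ i, (ξ i ^ 2 / ‖ξ‖ ^ 2) * (‖ξ‖ ^ 2 * y i ^ 2) = ∑ i, (ξ i * y i) ^ 2 := by
      refine Finset.sum_congr rfl fun i _ => ?_
      field_simp
    rw [h3] at h2
    refine h2.trans (le_of_eq ?_)
    rw [Finset.mul_sum]
    refine Finset.sum_congr rfl fun i _ => ?_
    rw [mul_pow, ← pow_mul, ← pow_mul, pow_mul |y i| 2 j, sq_abs, ← pow_mul]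
    ring
  have hI2 : ∀ i : Fin n, Integrable (fun y : V n => (ξ i ^ 2 / ‖ξ‖ ^ 2) * |y i| ^ (2 * j))
      (MX.unif K) := fun i => g4_int hK.toUnc (by fun_prop)
  refine (integral_mono ((integrable_finsetSum _ fun ε _ => hIe ε).const_mul _)
    (((integrable_finsetSum _ fun i _ => hI2 i).const_mul _).const_mul _) hpt).trans ?_
  rw [integral_const_mul, integral_const_mul, integral_finsetSum _ fun i _ => hI2 i]
  have h4 : ∑ i : Fin n, ∫ y : V n, (ξ i ^ 2 / ‖ξ‖ ^ 2) * |y i| ^ (2 * j) ∂(MX.unif K) ≤ C := by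
    have h5 : ∀ i ∈ (Finset.univ : Finset (Fin n)),
        ∫ y : V n, (ξ i ^ 2 / ‖ξ‖ ^ 2) * |y i| ^ (2 * j) ∂(MX.unif K) ≤
        (ξ i ^ 2 / ‖ξ‖ ^ 2) * C := by
      intro i _
      rw [integral_const_mul]
      exact mul_le_mul_of_nonneg_left (hC n K hK i) (by positivity)
    refine (Finset.sum_le_sum h5).trans (le_of_eq ?_)
    rw [← Finset.sum_mul, ← Finset.sum_div, hnorm]
    field_simp
  calc 4 * ((2 * j).factorial : ℝ) * (‖ξ‖ ^ (2 * j) *
        ∑ i : Fin n, ∫ y : V n, (ξ i ^ 2 / ‖ξ‖ ^ 2) * |y i| ^ (2 * j) ∂(MX.unif K))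
      ≤ 4 * ((2 * j).factorial : ℝ) * (‖ξ‖ ^ (2 * j) * C) := by gcongr
    _ = 4 * ((2 * j).factorial : ℝ) * C * ‖ξ‖ ^ (2 * j) := by ring

theorem moments (l : ℕ) : ∃ C : ℝ, ∀ (n : ℕ) (K : Set (V n)), NUnc K → ∀ ξ : V n,
    ∫ y, |inner ℝ ξ y| ^ l ∂(MX.unif K) ≤ C * ‖ξ‖ ^ l := by
  obtain ⟨C, hC0, hC⟩ := g4_even l
  refine ⟨1 + C, ?_⟩
  intro n K hK ξ
  have := hK.toUnc.prob
  rcases eq_or_lt_of_le (norm_nonneg ξ) with h0 | h0
  · have hξ : ξ = 0 := norm_eq_zero.mp h0.symm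
    subst hξ
    simp only [inner_zero_left, abs_zero, integral_const, probReal_univ, smul_eq_mul, one_mul,
      norm_zero]
    have : (0 : ℝ) ≤ 0 ^ l := by positivity
    nlinarith
  · have hpt : ∀ y : V n, |inner ℝ ξ y| ^ l ≤
        ‖ξ‖ ^ l + inner ℝ ξ y ^ (2 * l) / ‖ξ‖ ^ l := by
      intro y
      have h1 : (inner ℝ ξ y : ℝ) ^ (2 * l) = (|inner ℝ ξ y| ^ l) ^ 2 := by
        rw [← pow_mul, mul_comm l 2, pow_mul, pow_mul, sq_abs]
      rw [h1]
      set a := |(inner ℝ ξ y : ℝ)| ^ l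
      have hp : 0 < ‖ξ‖ ^ l := pow_pos h0 l
      set b := ‖ξ‖ ^ l
      have ha : 0 ≤ a := by positivity
      rw [← sub_nonneg]
      have : b + a ^ 2 / b - a = (b ^ 2 + a ^ 2 - a * b) / b := by field_simp
      rw [this]
      refine div_nonneg ?_ hp.le
      nlinarith [sq_nonneg (a - b), mul_nonneg ha hp.le]
    have hI1 : Integrable (fun y : V n => (inner ℝ ξ y : ℝ) ^ (2 * l)) (MX.unif K) :=
      g4_int hK.toUnc (by fun_prop)
    refine (integral_mono (g4_int hK.toUnc (by fun_prop))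
      ((integrable_const _).add (hI1.div_const _)) hpt).trans ?_
    rw [integral_add' (integrable_const _) (hI1.div_const _), integral_div]
    simp only [integral_const, probReal_univ, smul_eq_mul, one_mul]
    have h2 := hC n K hK ξ h0
    have hp : 0 < ‖ξ‖ ^ l := pow_pos h0 l
    have h3 : (∫ y : V n, inner ℝ ξ y ^ (2 * l) ∂(MX.unif K)) / ‖ξ‖ ^ l ≤ C * ‖ξ‖ ^ l := by
      rw [div_le_iff₀ hp]
      refine h2.trans (le_of_eq ?_)
      rw [two_mul, pow_add]; ring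
    linarith

end Pool.Agent.UB
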