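import Pool.Agent.UB.G1
import Pool.Agent.UB.G3c
import Pool.Agent.UB.G4

/-!
# UB-GeoX: the geometric input

PLAN.  `c l = max (4, C_dec l, C_mom l)`, from `g1`, `superdecay`, `moments` (`choose`).
-/

set_option autoImplicit false

open MeasureTheory Set
open scoped ENNReal NNReal

namespace Pool.Agent.UB

open Pool.Agent.CB

theorem geoX : ∃ c : ℕ → ℝ, ∀ (n : ℕ) (K : Set (V n)), NUnc K → Geo c K := by
  choose Cd hCd using superdecay
  choose Cm hCm using moments
  refine ⟨fun l => max (max 4 (Cd l)) (Cm l), fun n K hK => ?_⟩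
  refine ⟨hK.toUnc, fun i h hh => ?_, fun l ξ => ?_, fun l ξ => ?_⟩
  · exact (g1 hK i hh).trans
      (mul_le_mul_of_nonneg_right ((le_max_left _ _).trans (le_max_left _ _)) (sq_nonneg h))
  · exact (hCd l n K hK ξ).trans ((le_max_right _ _).trans (le_max_left _ _))
  · exact (hCm l n K hK ξ).trans
      (mul_le_mul_of_nonneg_right (le_max_right _ _) (pow_nonneg (norm_nonneg ξ) l))

end Pool.Agent.UB
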