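import Pool.Agent.UB.Chord
import Pool.Agent.MO.Body

/-!
# UB-Nrm: normalisation and transfer

PLAN.  `nrm`: for `i`, `s ↦ unif K {s < |y_i|}` is continuous (hyperplanes are null), `1` at `0`, `0` for large `s`, so it takes the value `1/2` at some
`s_i > 0`; `d_i = 1/s_i`.  The image of an unconditional body under a diagonal map is unconditional; `unif` of the image is the image of `unif`.
`locE_of_map`: as `MO.locBdd_map` (file `MO/Body.lean`), with the roles exchanged: `f ∘ T⁻¹`, change of variables in the outer integral.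
-/

set_option autoImplicit false

open MeasureTheory Set
open scoped ENNReal NNReal

namespace Pool.Agent.UB

open Pool.Agent.CB

/-- Diagonal maps. -/
noncomputable def dg {n : ℕ} (d : Fin n → ℝ) (y : V n) : V n := WithLp.toLp 2 fun i => d i * y i

private theorem dg_apply {n : ℕ} (d : Fin n → ℝ) (y : V n) (i : Fin n) : dg d y i = d i * y i := rfl

private noncomputable def dgE {n : ℕ} (d : Fin n → ℝ) (hd : ∀ i, d i ≠ 0) : V n ≃L[ℝ] V n :=
  LinearEquiv.toContinuousLinearEquiv
    { toFun := dg d
      map_add' := by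
        intro x y
        ext i
        simp only [dg_apply, PiLp.add_apply]
        ring
      map_smul' := by
        intro c x
        ext i
        simp only [dg_apply, PiLp.smul_apply, smul_eq_mul, RingHom.id_apply]
        ring
      invFun := dg fun i => (d i)⁻¹
      left_inv := by
        intro x
        ext i
        simp only [dg_apply]
        rw [← mul_assoc, inv_mul_cancel₀ (hd i), one_mul]
      right_inv := by
        intro x
        ext i
        simp only [dg_apply]
        rw [← mul_assoc, mul_inv_cancel₀ (hd i), one_mul] }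

private theorem dgE_apply {n : ℕ} (d : Fin n → ℝ) (hd : ∀ i, d i ≠ 0) (y : V n) :
    dgE d hd y = dg d y := rfl

private theorem unc_dg {n : ℕ} {K : Set (V n)} (hK : Unc K) (d : Fin n → ℝ) (hd : ∀ i, 0 < d i) :
    Unc (dg d '' K) := by
  have hd0 : ∀ i, d i ≠ 0 := fun i => (hd i).ne'
  have him : dg d '' K = dgE d hd0 '' K := rfl
  refine ⟨?_, ?_, ?_, ?_⟩
  · rw [him]
    exact hK.compact.image (dgE d hd0).continuous
  · rw [him]
    exact hK.convex.linear_image (dgE d hd0).toLinearEquiv.toLinearMap
  · rw [him]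
    have h1 := (dgE d hd0).toHomeomorph.image_interior K
    have h2 : (dgE d hd0).toHomeomorph '' interior K = dgE d hd0 '' interior K := rfl
    have h3 : (dgE d hd0).toHomeomorph '' K = dgE d hd0 '' K := rfl
    rw [h2, h3] at h1
    rw [← h1]
    exact hK.nonempty.image _
  · rintro _ ⟨y, hy, rfl⟩ z hz
    refine ⟨dg (fun i => (d i)⁻¹) z, hK.unc y hy _ ?_, ?_⟩
    · intro i
      rw [dg_apply, abs_mul, hz i, dg_apply, abs_mul, ← mul_assoc, ← abs_mul,
        inv_mul_cancel₀ (hd0 i), abs_one, one_mul]
    · ext i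
      simp only [dg_apply]
      rw [← mul_assoc, mul_inv_cancel₀ (hd0 i), one_mul]

private theorem null_abs {n : ℕ} (i : Fin n) (s : ℝ) :
    volume {y : V n | |y i| = s} = 0 := by
  have h1 : MeasurePreserving (fun y : V n => (WithLp.ofLp y : Fin n → ℝ)) volume volume :=
    PiLp.volume_preserving_ofLp (Fin n)
  have h2 : Measure.QuasiMeasurePreserving (Function.eval i : (Fin n → ℝ) → ℝ) volume volume :=
    Measure.quasiMeasurePreserving_eval _ i
  have h3 : volume ({s, -s} : Set ℝ) = 0 := by
    exact (Set.Finite.measure_zero (by simp) volume)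
  have h4 := (h2.comp h1.quasiMeasurePreserving).preimage_null h3
  refine measure_mono_null (fun y hy => ?_) h4
  simp only [mem_setOf_eq] at hy
  simp only [mem_preimage, Function.comp_apply, Function.eval, mem_insert_iff, mem_singleton_iff]
  rcases abs_choice (y i) with h | h
  · left
    rw [← hy, h]
  · right
    rw [← hy, h, neg_neg]

private theorem null_unif {n : ℕ} {K : Set (V n)} (i : Fin n) (s : ℝ) :
    (MX.unif K) {y : V n | |y i| = s} = 0 := by
  unfold MX.unif
  rw [Measure.smul_apply, smul_eq_mul]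
  have h3 : volume.restrict K {y : V n | |y i| = s} = 0 :=
    le_antisymm ((Measure.restrict_apply_le _ _).trans (null_abs i s).le) bot_le
  rw [h3, mul_zero]

private theorem unif_abs_cont {n : ℕ} {K : Set (V n)} (hK : Unc K) (i : Fin n) :
    Continuous fun s : ℝ => (MX.unif K).real {y : V n | s < |y i|} := by
  have hP := hK.prob
  have hmi : ∀ s : ℝ, MeasurableSet {y : V n | s < |y i|} := fun s =>
    measurableSet_lt measurable_const (by fun_prop)
  have h1 : (fun s : ℝ => (MX.unif K).real {y : V n | s < |y i|}) =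
      fun s : ℝ => ∫ y, ({y : V n | s < |y i|}.indicator (fun _ => (1 : ℝ)) y) ∂(MX.unif K) := by
    funext s
    rw [integral_indicator_const _ (hmi s), smul_eq_mul, mul_one]
  rw [h1, continuous_iff_continuousAt]
  intro s
  refine continuousAt_of_dominated (bound := fun _ => 1) ?_ ?_ (integrable_const _) ?_
  · exact Filter.Eventually.of_forall fun t =>
      (measurable_const.indicator (hmi t)).aestronglyMeasurable
  · refine Filter.Eventually.of_forall fun t => Filter.Eventually.of_forall fun y => ?_
    rw [Real.norm_eq_abs]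
    by_cases h : y ∈ {y : V n | t < |y i|}
    · rw [indicator_of_mem h, abs_one]
    · rw [indicator_of_notMem h, abs_zero]
      exact zero_le_one
  · have h2 : (MX.unif K) {y : V n | |y i| = s} = 0 := null_unif i s
    have h3 : ∀ᵐ y ∂(MX.unif K), |y i| ≠ s := by
      rw [ae_iff]
      simpa using h2
    filter_upwards [h3] with y hy
    rcases lt_or_gt_of_ne hy with h | h
    · refine ContinuousAt.congr (f := fun _ => (0 : ℝ)) continuousAt_const ?_
      filter_upwards [eventually_gt_nhds h] with t ht
      rw [indicator_of_notMem]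
      simp only [mem_setOf_eq, not_lt]
      exact ht.le
    · refine ContinuousAt.congr (f := fun _ => (1 : ℝ)) continuousAt_const ?_
      filter_upwards [eventually_lt_nhds h] with t ht
      rw [indicator_of_mem]
      exact ht

private theorem exists_med {n : ℕ} {K : Set (V n)} (hK : Unc K) (i : Fin n) :
    ∃ s : ℝ, 0 < s ∧ MX.unif K {y : V n | s < |y i|} = 1 / 2 := by
  have hP := hK.prob
  obtain ⟨R, hR⟩ := hK.compact.isBounded.exists_norm_le
  have h0 : (MX.unif K).real {y : V n | 0 < |y i|} = 1 := by
    have h5 : ({y : V n | 0 < |y i|} : Set (V n)) =ᵐ[MX.unif K] (univ : Set (V n)) := by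
      rw [ae_eq_univ]
      refine measure_mono_null (fun y hy => ?_) (null_unif (K := K) i 0)
      simp only [mem_compl_iff, mem_setOf_eq, not_lt] at hy ⊢
      exact le_antisymm hy (abs_nonneg _)
    rw [Measure.real, measure_congr h5, measure_univ, ENNReal.toReal_one]
  have h1 : (MX.unif K).real {y : V n | max R 0 < |y i|} = 0 := by
    rw [Measure.real, ENNReal.toReal_eq_zero_iff]
    left
    refine measure_mono_null (t := Kᶜ) ?_ ?_
    · intro y hy hyK
      simp only [mem_setOf_eq] at hy
      have h2 := hR y hyK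
      have h3 := PiLp.norm_apply_le y i
      rw [Real.norm_eq_abs] at h3
      have := le_max_left R 0
      linarith
    · have := hK.ae_mem
      rwa [ae_iff] at this
  have h2 := intermediate_value_Icc' (le_max_right R 0) (unif_abs_cont hK i).continuousOn
  have h3 : (1 / 2 : ℝ) ∈ Icc ((MX.unif K).real {y : V n | max R 0 < |y i|})
      ((MX.unif K).real {y : V n | 0 < |y i|}) := by
    rw [h0, h1]
    constructor <;> norm_num
  obtain ⟨s, hs, hs2⟩ := h2 h3
  refine ⟨s, ?_, ?_⟩
  · rcases hs.1.eq_or_lt with h | h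
    · rw [← h] at hs2
      simp only [h0] at hs2
      norm_num at hs2
    · exact h
  · simp only at hs2
    rw [Measure.real] at hs2
    rw [← ENNReal.ofReal_toReal (measure_ne_top (MX.unif K) {y : V n | s < |y i|}), hs2]
    rw [ENNReal.ofReal_div_of_pos (by norm_num)]
    simp

theorem nrm {n : ℕ} {K : Set (V n)} (hK : Unc K) :
    ∃ d : Fin n → ℝ, (∀ i, 0 < d i) ∧ NUnc (dg d '' K) := by
  choose s hs0 hs using fun i => exists_med hK i
  have hd : ∀ i, 0 < (s i)⁻¹ := fun i => inv_pos.mpr (hs0 i)
  refine ⟨fun i => (s i)⁻¹, hd, ⟨unc_dg hK _ hd, ?_⟩⟩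
  intro i
  have hd0 : ∀ i, (s i)⁻¹ ≠ 0 := fun i => (hd i).ne'
  have h1 := CB.unif_map (dgE (fun i => (s i)⁻¹) hd0) hK.compact.measurableSet
  have h2 : dgE (fun i => (s i)⁻¹) hd0 '' K = dg (fun i => (s i)⁻¹) '' K := rfl
  rw [← h2, ← h1, Measure.map_apply (dgE (fun i => (s i)⁻¹) hd0).continuous.measurable
    (measurableSet_lt measurable_const (by fun_prop)), ← hs i]
  congr 1
  ext y
  simp only [mem_preimage, mem_setOf_eq, dgE_apply, dg_apply]
  rw [abs_mul, abs_of_pos (hd i), inv_mul_eq_div, lt_div_iff₀ (hs0 i), one_mul]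

theorem unif_map {E F : Type} [NormedAddCommGroup E] [NormedSpace ℝ E] [FiniteDimensional ℝ E]
    [MeasureSpace E] [BorelSpace E] [Measure.IsAddHaarMeasure (volume : Measure E)]
    [NormedAddCommGroup F] [NormedSpace ℝ F] [FiniteDimensional ℝ F]
    [MeasureSpace F] [BorelSpace F] [Measure.IsAddHaarMeasure (volume : Measure F)]
    (T : E ≃L[ℝ] F) {K : Set E} (hK : MeasurableSet K) (h0 : volume K ≠ 0) (h1 : volume K ≠ ⊤) :
    (MX.unif K).map T = MX.unif (T '' K) :=
  CB.unif_map T hK

theorem locE_of_map {E : Type} [NormedAddCommGroup E] [NormedSpace ℝ E] [FiniteDimensional ℝ E]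
    [MeasureSpace E] [BorelSpace E] [Measure.IsAddHaarMeasure (volume : Measure E)] {n : ℕ}
    (T : E ≃L[ℝ] V n) {p : ℝ} {D : ℝ≥0∞} {μ : Measure E} (h : LocBdd p D (μ.map T)) :
    MO.LocE p D μ := by
  have hhaar : Measure.IsAddHaarMeasure ((volume : Measure E).map T) :=
    T.isAddHaarMeasure_map volume
  obtain ⟨c, hc0, hct, hc⟩ : ∃ c : ℝ≥0∞, c ≠ 0 ∧ c ≠ ∞ ∧
      (volume : Measure E).map T = c • (volume : Measure (V n)) := by
    refine ⟨(Measure.addHaarScalarFactor ((volume : Measure E).map T) (volume : Measure (V n)) :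
      ℝ≥0∞), ?_, ENNReal.coe_ne_top, ?_⟩
    · exact ENNReal.coe_ne_zero.mpr (Measure.addHaarScalarFactor_pos_of_isAddHaarMeasure _ _).ne'
    · exact Measure.isAddLeftInvariant_eq_smul _ _
  let e : E ≃ᵐ V n := T.toHomeomorph.toMeasurableEquiv
  have he : ∀ y, e y = T y := fun _ => rfl
  have hmap : ∀ g : V n → ℝ≥0∞, ∫⁻ x, g (T x) = c * ∫⁻ y, g y := by
    intro g
    have h1 := lintegral_map_equiv (μ := (volume : Measure E)) g e
    have h2 : (volume : Measure E).map e = c • (volume : Measure (V n)) := hc
    rw [h2, lintegral_smul_measure, smul_eq_mul] at h1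
    exact h1.symm
  intro k S hS f hf
  have hT : Measurable T := T.continuous.measurable
  have hT' : Measurable T.symm := T.symm.continuous.measurable
  have h1 := h k S hS (fun x => f (T.symm x)) (hf.comp hT')
  have h2 : ∀ x : E, MX.mx μ S f x = MX.mx (μ.map T) S (fun x => f (T.symm x)) (T x) := by
    intro x
    unfold MX.mx
    refine iSup_congr fun t => iSup_congr fun _ => ?_
    rw [lintegral_map (by fun_prop) hT]
    refine lintegral_congr fun y => ?_
    simp only [map_add, map_smul, ContinuousLinearEquiv.symm_apply_apply]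
  have h3 : ∀ x : E, f x = (fun y => f (T.symm y)) (T x) := by
    intro x
    simp
  simp_rw [h2]
  rw [hmap (fun y => MX.mx (μ.map T) S (fun x => f (T.symm x)) y ^ p)]
  have h4 : ∫⁻ x : E, f x ^ p = c * ∫⁻ y, f (T.symm y) ^ p := by
    rw [← hmap (fun y => f (T.symm y) ^ p)]
    simp
  rw [h4]
  calc c * ∫⁻ y, MX.mx (μ.map T) S (fun x => f (T.symm x)) y ^ p
      ≤ c * (D ^ p * ∫⁻ y, f (T.symm y) ^ p) := by gcongr
    _ = D ^ p * (c * ∫⁻ y, f (T.symm y) ^ p) := by ring

end Pool.Agent.UB
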