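import Pool.Agent.UB.EdB
import Pool.Agent.UB.LocC
import Pool.Agent.UB.GeoX
import Pool.Agent.UB.Nrm
import Pool.Agent.CB.Fin

/-!
# UB-Fin: the theorem

`uncBdd`: the maximal operator of every unconditional body is bounded on `L^p`, `1 < p ≤ 2`, with a constant which depends only on `p`; `fin` is the
explicit form.
-/

set_option autoImplicit false

open MeasureTheory Set
open scoped Pointwise ENNReal NNReal

namespace Pool.Agent.UB

open Pool.Agent.CB

/-- the coordinates with respect to `b`, multiplied by `d` -/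
private noncomputable def coE {n : ℕ} (b : Module.Basis (Fin n) ℝ (Fin n → ℝ)) (d : Fin n → ℝ)
    (hd : ∀ i, 0 < d i) : (Fin n → ℝ) ≃ₗ[ℝ] V n where
  toFun x := WithLp.toLp 2 fun i => d i * b.repr x i
  map_add' x y := by
    ext i
    have h1 : (WithLp.toLp 2 (fun i => d i * b.repr (x + y) i) : V n) i =
      d i * b.repr (x + y) i := rfl
    have h2 : ((WithLp.toLp 2 (fun i => d i * b.repr x i) : V n) +
      (WithLp.toLp 2 (fun i => d i * b.repr y i) : V n)) i =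
      d i * b.repr x i + d i * b.repr y i := rfl
    rw [h1, h2, map_add, Finsupp.add_apply]
    ring
  map_smul' r x := by
    ext i
    have h1 : (WithLp.toLp 2 (fun i => d i * b.repr (r • x) i) : V n) i =
      d i * b.repr (r • x) i := rfl
    have h2 : ((RingHom.id ℝ) r • (WithLp.toLp 2 (fun i => d i * b.repr x i) : V n)) i =
      r * (d i * b.repr x i) := rfl
    rw [h1, h2, map_smul, Finsupp.smul_apply, smul_eq_mul]
    ring
  invFun y := b.equivFun.symm fun i => (d i)⁻¹ * y i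
  left_inv x := by
    show b.equivFun.symm (fun i => (d i)⁻¹ * (d i * b.repr x i)) = x
    have h1 : (fun i => (d i)⁻¹ * (d i * b.repr x i)) = b.equivFun x := by
      funext i
      rw [← mul_assoc, inv_mul_cancel₀ (hd i).ne', one_mul]
      rfl
    rw [h1, LinearEquiv.symm_apply_apply]
  right_inv y := by
    ext i
    show d i * b.repr (b.equivFun.symm fun i => (d i)⁻¹ * y i) i = y i
    have h1 : b.repr (b.equivFun.symm fun i => (d i)⁻¹ * y i) i = (d i)⁻¹ * y i := by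
      have h2 := congrFun (LinearEquiv.apply_symm_apply b.equivFun (fun i => (d i)⁻¹ * y i)) i
      exact h2
    rw [h1, ← mul_assoc, mul_inv_cancel₀ (hd i).ne', one_mul]

private noncomputable def coT {n : ℕ} (b : Module.Basis (Fin n) ℝ (Fin n → ℝ)) (d : Fin n → ℝ)
    (hd : ∀ i, 0 < d i) : (Fin n → ℝ) ≃L[ℝ] V n := (coE b d hd).toContinuousLinearEquiv

private theorem coT_apply {n : ℕ} (b : Module.Basis (Fin n) ℝ (Fin n → ℝ)) (d : Fin n → ℝ)
    (hd : ∀ i, 0 < d i) (x : Fin n → ℝ) :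
    coT b d hd x = WithLp.toLp 2 fun i => d i * b.repr x i := rfl

private theorem unc_image {n : ℕ} (b : Module.Basis (Fin n) ℝ (Fin n → ℝ)) {B : Set (Fin n → ℝ)}
    (h1 : IsCompact B) (h2 : Convex ℝ B) (h3 : (interior B).Nonempty)
    (h4 : ∀ x ∈ B, ∀ y, (∀ i, |b.repr y i| = |b.repr x i|) → y ∈ B) :
    Unc (coT b (fun _ => 1) (fun _ => one_pos) '' B) := by
  set T := coT b (fun _ => 1) (fun _ => one_pos) with hT
  have hTa : ∀ x i, (T x) i = b.repr x i := by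
    intro x i
    have : (T x) i = 1 * b.repr x i := rfl
    rw [this, one_mul]
  refine ⟨h1.image T.continuous, ?_, ?_, ?_⟩
  · exact h2.is_linear_image (coE b (fun _ => 1) (fun _ => one_pos)).toLinearMap.isLinear
  · obtain ⟨x, hx⟩ := h3
    refine ⟨T x, ?_⟩
    have h5 := T.toHomeomorph.image_interior B
    have h6 : T x ∈ T.toHomeomorph '' interior B := ⟨x, hx, rfl⟩
    rw [h5] at h6
    exact h6
  · rintro y ⟨x, hx, rfl⟩ z hz
    refine ⟨T.symm z, h4 x hx _ fun i => ?_, T.apply_symm_apply z⟩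
    rw [← hTa, ← hTa, T.apply_symm_apply]
    exact hz i

theorem uncBdd {p : ℝ} (hp : 1 < p) (hp2 : p ≤ 2) : ∃ C : ℝ≥0, ∀ (n : ℕ)
    (b : Module.Basis (Fin n) ℝ (Fin n → ℝ)) (B : Set (Fin n → ℝ)), IsCompact B → Convex ℝ B →
      (interior B).Nonempty → (∀ x ∈ B, ∀ y, (∀ i, |b.repr y i| = |b.repr x i|) → y ∈ B) →
      MX.Bdd p (C : ℝ≥0∞) B := by
  obtain ⟨j0, hj0⟩ := pow_unbounded_of_one_lt (p / (p - 1)) (one_lt_two (α := ℝ))
  have hj : 2 ≤ j0 + 2 := by omega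
  obtain ⟨p0, hp0⟩ : ∃ p0 : ℝ, p0 = (2 : ℝ) ^ (j0 + 2) / ((2 : ℝ) ^ (j0 + 2) - 1) := ⟨_, rfl⟩
  have h4 : (4 : ℝ) ≤ 2 ^ (j0 + 2) := by
    have h41 : (1 : ℝ) ≤ 2 ^ j0 := one_le_pow₀ (by norm_num)
    have h42 : (2 : ℝ) ^ (j0 + 2) = 2 ^ j0 * 4 := by
      rw [pow_add]
      norm_num
    rw [h42]
    linarith
  have h5 : (2 : ℝ) ^ j0 ≤ 2 ^ (j0 + 2) := pow_le_pow_right₀ (by norm_num) (by omega)
  have hden : (0 : ℝ) < 2 ^ (j0 + 2) - 1 := by linarith
  have h1 : 1 < p0 := by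
    rw [hp0, lt_div_iff₀ hden]
    linarith
  have h2 : p0 < p := by
    rw [hp0, div_lt_iff₀ hden]
    have hp1 : 0 < p - 1 := by linarith
    have h6 : p / (p - 1) < 2 ^ (j0 + 2) := lt_of_lt_of_le hj0 h5
    rw [div_lt_iff₀ hp1] at h6
    linarith
  obtain ⟨c, hc⟩ := geoX
  obtain ⟨N, C1, κ, hN, hC1, hκ, hE⟩ := edB c hj hp0
  obtain ⟨D, hD⟩ := locC hN h1.le hC1 hκ
  obtain ⟨C, hC⟩ := MO.body_bdd h1 h2 hp2 D
  refine ⟨C, fun n b B hB1 hB2 hB3 hB4 => ?_⟩
  have hU := unc_image b hB1 hB2 hB3 hB4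
  obtain ⟨d, hd, hNU⟩ := nrm hU
  have him : dg d '' (coT b (fun _ => 1) (fun _ => one_pos) '' B) = coT b d hd '' B := by
    rw [← image_comp]
    refine image_congr fun x _ => ?_
    rw [coT_apply]
    ext i
    show d i * (1 * b.repr x i) = d i * b.repr x i
    rw [one_mul]
  rw [him] at hNU
  have hL : LocBdd p0 (D : ℝ≥0∞) (MX.unif (coT b d hd '' B)) :=
    hD n _ hNU.toUnc.symP fun h hh0 hh1 s f hf => hE n _ (hc n _ hNU) h hh0 hh1 s f hf
  have hpos : volume B ≠ 0 := (Measure.measure_pos_of_nonempty_interior volume hB3).ne'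
  rw [← unif_map (coT b d hd) hB1.measurableSet hpos hB1.measure_lt_top.ne] at hL
  refine hC _ B hB1 hB2 hB3 ?_ (locE_of_map (coT b d hd) hL)
  intro x hx
  refine hB4 x hx (-x) fun i => ?_
  rw [map_neg, Finsupp.neg_apply, abs_neg]

theorem fin {p : ℝ} (hp : 1 < p) (hp2 : p ≤ 2) :
    ∃ C : ℝ, ∀ (n : ℕ) (b : Module.Basis (Fin n) ℝ (Fin n → ℝ)) (B : Set (Fin n → ℝ)),
      IsCompact B → Convex ℝ B → (interior B).Nonempty → volume B = 1 →
      (∀ x ∈ B, ∀ y, (∀ i, |b.repr y i| = |b.repr x i|) → y ∈ B) →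
      ∀ f : (Fin n → ℝ) → ℝ, Measurable f →
        ∫⁻ x, (⨆ t : ℝ, ⨆ (_ : 0 < t),
            (∫⁻ y in t • B, ‖f (x + y)‖ₑ) / ENNReal.ofReal (t ^ n)) ^ p ≤
          ENNReal.ofReal C * ∫⁻ x, ‖f x‖ₑ ^ p := by
  obtain ⟨C, hC⟩ := uncBdd hp hp2
  refine ⟨(C : ℝ) ^ p, fun n b B hB1 hB2 hB3 hB4 hB5 f hf => ?_⟩
  have h := hC n b B hB1 hB2 hB3 hB5 f hf
  have hp0 : 0 ≤ p := by linarith
  have e1 : ENNReal.ofReal ((C : ℝ) ^ p) = (C : ℝ≥0∞) ^ p := by
    rw [← ENNReal.ofReal_rpow_of_nonneg (NNReal.coe_nonneg C) hp0, ENNReal.ofReal_coe_nnreal]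
  rw [e1]
  refine le_trans (le_of_eq ?_) h
  refine lintegral_congr fun x => ?_
  congr 1
  unfold MX.maxF
  refine iSup_congr fun t => iSup_congr fun ht => ?_
  rw [Measure.addHaar_smul, hB4, mul_one]
  congr 2
  rw [Module.finrank_fin_fun, abs_of_pos (pow_pos ht n)]

end Pool.Agent.UB
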