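import Pool.Agent.UB.Chord
import Pool.Agent.CB.LCu
import Pool.Agent.CB.GenIso

/-!
# UB-G0: tails and small balls of one coordinate

`Sx K i s = P(|Y_i| > s) = 2 P(Y_i > s)` for `s ≥ 0` (sign invariance; hyperplanes are null).
`Sx_mid`: `unif K` is log-concave (`CB.lc_unif_gen`).
-/

set_option autoImplicit false

open MeasureTheory Set
open scoped ENNReal NNReal

namespace Pool.Agent.UB

open Pool.Agent.CB

variable {n : ℕ} {K : Set (V n)}

/-- `P(|Y_i| > s)`. -/
noncomputable def Sx (K : Set (V n)) (i : Fin n) (s : ℝ) : ℝ := (MX.unif K).real {y | s < |y i|}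

private theorem g0_meas (i : Fin n) : Measurable fun y : V n => y i := by
  fun_prop

private theorem g0_two (hK : Unc K) (i : Fin n) {s : ℝ} (hs : 0 ≤ s) :
    MX.unif K {y : V n | s < |y i|} = 2 * MX.unif K {y : V n | s < y i} := by
  have h1 : {y : V n | s < |y i|} = {y : V n | s < y i} ∪ {y : V n | s < -y i} := by
    ext y
    simp only [mem_setOf_eq, mem_union]
    exact lt_abs
  have hm1 : MeasurableSet {y : V n | s < y i} := measurableSet_lt measurable_const (g0_meas i)
  have hm2 : MeasurableSet {y : V n | s < -y i} :=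
    measurableSet_lt measurable_const (g0_meas i).neg
  have hd : Disjoint {y : V n | s < y i} {y : V n | s < -y i} := by
    rw [Set.disjoint_left]
    intro y h2 h3
    simp only [mem_setOf_eq] at h2 h3
    linarith
  rw [h1, measure_union hd hm2]
  have h4 : MX.unif K {y : V n | s < -y i} = MX.unif K {y : V n | s < y i} := by
    have h5 := hK.symP.symm
    conv_rhs => rw [← h5]
    rw [Measure.map_apply measurable_neg hm1]
    rfl
  rw [h4, two_mul]

theorem Sx_mid (hK : Unc K) (i : Fin n) {s t : ℝ} (hs : 0 ≤ s) (ht : 0 ≤ t) :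
    Sx K i s * Sx K i t ≤ Sx K i ((s + t) / 2) ^ 2 := by
  have hP := hK.prob
  have hlc : LC (MX.unif K) := lc_unif_gen hK.compact.measurableSet hK.convex
  have hm : ∀ u : ℝ, MeasurableSet {y : V n | u < y i} := fun u =>
    measurableSet_lt measurable_const (g0_meas i)
  have h1 := hlc {y | s < y i} {y | t < y i} {y | (s + t) / 2 < y i} (hm _) (hm _) (hm _) (by
    intro a ha b hb
    have h2 : ((1 / 2 : ℝ) • (a + b)) i = 1 / 2 * (a i + b i) := rfl
    simp only [mem_setOf_eq] at ha hb ⊢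
    rw [h2]
    linarith)
  have h2 : ∀ u : ℝ, 0 ≤ u → Sx K i u = 2 * (MX.unif K {y | u < y i}).toReal := by
    intro u hu
    unfold Sx
    rw [Measure.real, g0_two hK i hu, ENNReal.toReal_mul]
    simp
  rw [h2 s hs, h2 t ht, h2 _ (by positivity)]
  have h3 := (ENNReal.toReal_le_toReal (ENNReal.mul_ne_top (measure_ne_top _ _)
    (measure_ne_top _ _)) (ENNReal.pow_ne_top (measure_ne_top _ _))).2 h1
  rw [ENNReal.toReal_mul, ENNReal.toReal_pow] at h3
  nlinarith [h3]

theorem Sx_zero (hK : Unc K) (i : Fin n) : Sx K i 0 = 1 := by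
  have hP := hK.prob
  have hm : MeasurableSet {y : V n | y i = 0} :=
    measurableSet_eq_fun (g0_meas i) measurable_const
  have hvol : volume {y : V n | y i = 0} = 0 := by
    have h1 := Measure.addHaar_submodule (volume : Measure (V n))
      (LinearMap.ker ((EuclideanSpace.proj i : V n →L[ℝ] ℝ) : V n →ₗ[ℝ] ℝ)) (by
        intro h
        rw [LinearMap.ker_eq_top] at h
        have h2 := congrArg (fun f : V n →ₗ[ℝ] ℝ => f (bv i)) h
        have h3 : (bv i : V n) i = 0 := h2
        unfold bv at h3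
        rw [EuclideanSpace.single_apply, if_pos rfl] at h3
        exact one_ne_zero h3)
    exact h1
  have h0 : MX.unif K {y : V n | y i = 0} = 0 := by
    rw [MX.unif, Measure.smul_apply, Measure.restrict_apply hm, smul_eq_mul]
    have h2 : volume ({y : V n | y i = 0} ∩ K) = 0 := measure_mono_null inter_subset_left hvol
    rw [h2, mul_zero]
  unfold Sx
  have h1 : {y : V n | (0 : ℝ) < |y i|} = {y : V n | y i = 0}ᶜ := by
    ext y
    simp only [mem_setOf_eq, mem_compl_iff, abs_pos, ne_eq]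
  rw [h1, Measure.real, prob_compl_eq_one_sub hm, h0]
  simp

theorem Sx_anti (hK : Unc K) (i : Fin n) {s t : ℝ} (h : s ≤ t) : Sx K i t ≤ Sx K i s := by
  have hP := hK.prob
  unfold Sx
  refine measureReal_mono (fun y hy => ?_)
  exact lt_of_le_of_lt h hy

theorem Sx_compl (hK : Unc K) (i : Fin n) (s : ℝ) :
    (MX.unif K).real {y | |y i| ≤ s} = 1 - Sx K i s := by
  have hP := hK.prob
  have hm : MeasurableSet {y : V n | s < |y i|} :=
    measurableSet_lt measurable_const (measurable_abs.comp (g0_meas i))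
  have h1 : {y : V n | |y i| ≤ s} = {y : V n | s < |y i|}ᶜ := by
    ext y
    simp only [mem_setOf_eq, mem_compl_iff, not_lt]
  rw [h1, probReal_compl_eq_one_sub hm]
  rfl

private theorem Sx_nonneg (K : Set (V n)) (i : Fin n) (s : ℝ) : 0 ≤ Sx K i s := by
  unfold Sx
  exact measureReal_nonneg

private theorem Sx_le_one (hK : Unc K) (i : Fin n) (s : ℝ) : Sx K i s ≤ 1 := by
  have hP := hK.prob
  unfold Sx
  exact measureReal_le_one

private theorem Sx_double (hK : Unc K) (i : Fin n) {s : ℝ} (hs : 0 ≤ s) :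
    Sx K i (2 * s) ≤ Sx K i s ^ 2 := by
  have h1 := Sx_mid hK i (le_refl (0 : ℝ)) (t := 2 * s) (by positivity)
  rw [Sx_zero hK, one_mul] at h1
  have h2 : (0 + 2 * s) / 2 = s := by ring
  rwa [h2] at h1

theorem small_ball (hK : Unc K) (i : Fin n) {η : ℝ} (hη : 0 < η) (h : η ≤ Sx K i 1) {s : ℝ}
    (hs : 0 ≤ s) (hs1 : s ≤ 1) :
    (MX.unif K).real {y | |y i| ≤ s} ≤ 2 * Real.log (1 / η) * s := by
  rw [Sx_compl hK]
  have hη1 : η ≤ 1 := h.trans (Sx_le_one hK i 1)
  have hL : 0 ≤ Real.log (1 / η) := by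
    refine Real.log_nonneg ?_
    rw [le_div_iff₀ hη]
    linarith
  have hLe : Real.log η = -Real.log (1 / η) := by
    rw [one_div, Real.log_inv, neg_neg]
  rcases hs.eq_or_lt with h0 | h0
  · rw [← h0, Sx_zero hK]
    simp
  obtain ⟨j, hj1, hj2⟩ := exists_nat_pow_near_of_lt_one h0 hs1 (by norm_num : (0 : ℝ) < 1 / 2)
    (by norm_num : (1 / 2 : ℝ) < 1)
  have key : ∀ j : ℕ, Real.exp (-((1 / 2 : ℝ) ^ j * Real.log (1 / η))) ≤
      Sx K i ((1 / 2 : ℝ) ^ j) := by
    intro j
    induction j with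
    | zero =>
      rw [pow_zero, one_mul, ← hLe, Real.exp_log hη]
      exact h
    | succ j ih =>
      have h1 := Sx_double hK i (s := (1 / 2 : ℝ) ^ (j + 1)) (by positivity)
      have h2 : 2 * (1 / 2 : ℝ) ^ (j + 1) = (1 / 2 : ℝ) ^ j := by
        rw [pow_succ]
        ring
      rw [h2] at h1
      have h3 : Real.exp (-((1 / 2 : ℝ) ^ (j + 1) * Real.log (1 / η))) ^ 2 =
          Real.exp (-((1 / 2 : ℝ) ^ j * Real.log (1 / η))) := by
        rw [← Real.exp_nat_mul]
        congr 1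
        rw [pow_succ]
        push_cast
        ring
      have h4 : Real.exp (-((1 / 2 : ℝ) ^ (j + 1) * Real.log (1 / η))) ^ 2 ≤
          Sx K i ((1 / 2 : ℝ) ^ (j + 1)) ^ 2 := by
        rw [h3]
        exact ih.trans h1
      exact (sq_le_sq₀ (Real.exp_pos _).le (Sx_nonneg K i _)).1 h4
  have h1 : Sx K i ((1 / 2 : ℝ) ^ j) ≤ Sx K i s := Sx_anti hK i hj2
  have h2 : 1 - (1 / 2 : ℝ) ^ j * Real.log (1 / η) ≤
      Real.exp (-((1 / 2 : ℝ) ^ j * Real.log (1 / η))) := by
    have := Real.add_one_le_exp (-((1 / 2 : ℝ) ^ j * Real.log (1 / η)))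
    linarith
  have h3 : (1 / 2 : ℝ) ^ j ≤ 2 * s := by
    rw [pow_succ] at hj1
    linarith
  have h4 : (1 / 2 : ℝ) ^ j * Real.log (1 / η) ≤ 2 * s * Real.log (1 / η) :=
    mul_le_mul_of_nonneg_right h3 hL
  have h5 := key j
  nlinarith

theorem tail (hK : Unc K) (i : Fin n) (h : Sx K i 1 ≤ 1 / 2) {t : ℝ} (ht : 1 ≤ t) :
    Sx K i t ≤ (1 / 2 : ℝ) ^ (t / 2) := by
  obtain ⟨j, hj1, hj2⟩ := exists_nat_pow_near ht (by norm_num : (1 : ℝ) < 2)
  have key : ∀ j : ℕ, Sx K i ((2 : ℝ) ^ j) ≤ (1 / 2 : ℝ) ^ ((2 : ℕ) ^ j) := by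
    intro j
    induction j with
    | zero =>
      rw [pow_zero, pow_zero, pow_one]
      exact h
    | succ j ih =>
      have h1 := Sx_double hK i (s := (2 : ℝ) ^ j) (by positivity)
      have h2 : 2 * (2 : ℝ) ^ j = (2 : ℝ) ^ (j + 1) := by
        rw [pow_succ]
        ring
      rw [h2] at h1
      refine h1.trans ((pow_le_pow_left₀ (Sx_nonneg K i _) ih 2).trans (le_of_eq ?_))
      rw [← pow_mul, pow_succ]
  refine (Sx_anti hK i hj1).trans ((key j).trans ?_)
  rw [← Real.rpow_natCast]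
  refine Real.rpow_le_rpow_of_exponent_ge (by norm_num) (by norm_num) ?_
  rw [pow_succ] at hj2
  push_cast
  linarith

theorem NUnc.Sx_one (hK : NUnc K) (i : Fin n) : Sx K i 1 = 1 / 2 := by
  unfold Sx
  rw [Measure.real, hK.med i]
  simp

end Pool.Agent.UB
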