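import Pool.Agent.UB.Chord

/-!
# UB-LineL: integration over lines

PLAN.  `∫ F = ∫ 1[0 ≤ y_i < 1] (∫ F (y + s • bv i) ds) dy`: Tonelli/Fubini, translation invariance and
`∫ 1[0 ≤ y_i - s < 1] ds = 1`.
-/

set_option autoImplicit false

open MeasureTheory Set
open scoped ENNReal NNReal

namespace Pool.Agent.UB

open Pool.Agent.CB

variable {n : ℕ}

private lemma bv_apply_self (i : Fin n) : (bv i : V n) i = 1 := by
  simp [bv]

private lemma meas_coord (i : Fin n) : Measurable fun y : V n => y i := by
  fun_prop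

private lemma meas_S (i : Fin n) : MeasurableSet {y : V n | 0 ≤ y i ∧ y i < 1} :=
  (measurableSet_le measurable_const (meas_coord i)).inter
    (measurableSet_lt (meas_coord i) measurable_const)

private lemma meas_g (i : Fin n) : Measurable fun p : V n × ℝ => p.1 + p.2 • (bv i : V n) := by
  fun_prop

theorem line_lint {F : V n → ℝ≥0∞} (hF : Measurable F) (i : Fin n) :
    ∫⁻ y, F y = ∫⁻ y in {y : V n | 0 ≤ y i ∧ y i < 1}, ∫⁻ s : ℝ, F (y + s • bv i) := by
  set S : Set (V n) := {y : V n | 0 ≤ y i ∧ y i < 1} with hS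
  have hSm : MeasurableSet S := meas_S i
  have hind : Measurable (S.indicator (fun _ : V n => (1 : ℝ≥0∞))) :=
    measurable_const.indicator hSm
  have hs : ∀ y : V n, ∫⁻ s : ℝ, S.indicator (fun _ => (1 : ℝ≥0∞)) (y - s • bv i) = 1 := by
    intro y
    have h1 : (fun s : ℝ => S.indicator (fun _ => (1 : ℝ≥0∞)) (y - s • bv i)) =
        (Ioc (y i - 1) (y i)).indicator (fun _ => (1 : ℝ≥0∞)) := by
      funext s
      have h2 : (y - s • bv i : V n) ∈ S ↔ s ∈ Ioc (y i - 1) (y i) := by
        simp only [hS, mem_setOf_eq, PiLp.sub_apply, PiLp.smul_apply, bv_apply_self, smul_eq_mul,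
          mul_one, mem_Ioc]
        constructor
        · rintro ⟨h1, h2⟩
          exact ⟨by linarith, by linarith⟩
        · rintro ⟨h1, h2⟩
          exact ⟨by linarith, by linarith⟩
      by_cases h : s ∈ Ioc (y i - 1) (y i)
      · rw [indicator_of_mem h, indicator_of_mem (h2.2 h)]
      · rw [indicator_of_notMem h, indicator_of_notMem (fun h' => h (h2.1 h'))]
    rw [h1, lintegral_indicator measurableSet_Ioc, lintegral_const]
    simp
  have hFg : Measurable (fun p : V n × ℝ => F (p.1 + p.2 • (bv i : V n))) := hF.comp (meas_g i)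
  have hm1 : Measurable (Function.uncurry fun (y : V n) (s : ℝ) =>
      S.indicator (fun _ => (1 : ℝ≥0∞)) y * F (y + s • bv i)) :=
    (hind.comp measurable_fst).mul hFg
  have hm2 : Measurable (Function.uncurry fun (s : ℝ) (y : V n) =>
      S.indicator (fun _ => (1 : ℝ≥0∞)) (y - s • bv i) * F y) := by
    have : Measurable fun p : ℝ × V n => p.2 - p.1 • (bv i : V n) := by fun_prop
    exact (hind.comp this).mul (hF.comp measurable_snd)
  calc ∫⁻ y, F y = ∫⁻ y, (∫⁻ s : ℝ, S.indicator (fun _ => (1 : ℝ≥0∞)) (y - s • bv i)) * F y := by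
        simp only [hs, one_mul]
    _ = ∫⁻ y, ∫⁻ s : ℝ, S.indicator (fun _ => (1 : ℝ≥0∞)) (y - s • bv i) * F y := by
        refine lintegral_congr fun y => ?_
        rw [lintegral_mul_const]
        have : Measurable fun s : ℝ => y - s • (bv i : V n) := by fun_prop
        exact hind.comp this
    _ = ∫⁻ s : ℝ, ∫⁻ y, S.indicator (fun _ => (1 : ℝ≥0∞)) (y - s • bv i) * F y := by
        rw [lintegral_lintegral_swap]
        exact (hm2.comp measurable_swap).aemeasurable
    _ = ∫⁻ s : ℝ, ∫⁻ y, S.indicator (fun _ => (1 : ℝ≥0∞)) y * F (y + s • bv i) := by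
        refine lintegral_congr fun s => ?_
        rw [← lintegral_add_right_eq_self (fun y => S.indicator (fun _ => (1 : ℝ≥0∞)) (y - s • bv i)
          * F y) (s • bv i)]
        simp only [add_sub_cancel_right]
    _ = ∫⁻ y, ∫⁻ s : ℝ, S.indicator (fun _ => (1 : ℝ≥0∞)) y * F (y + s • bv i) := by
        rw [lintegral_lintegral_swap]
        exact (hm1.comp measurable_swap).aemeasurable
    _ = ∫⁻ y, S.indicator (fun y => ∫⁻ s : ℝ, F (y + s • bv i)) y := by
        refine lintegral_congr fun y => ?_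
        by_cases h : y ∈ S
        · simp only [indicator_of_mem h, one_mul]
        · simp only [indicator_of_notMem h, zero_mul, lintegral_zero]
    _ = ∫⁻ y in S, ∫⁻ s : ℝ, F (y + s • bv i) := lintegral_indicator hSm _

private lemma map_line (i : Fin n) :
    (((volume : Measure (V n)).restrict {y : V n | 0 ≤ y i ∧ y i < 1}).prod
      (volume : Measure ℝ)).map (fun p : V n × ℝ => p.1 + p.2 • (bv i : V n)) = volume := by
  refine Measure.ext fun A hA => ?_
  rw [Measure.map_apply (meas_g i) hA, Measure.prod_apply ((meas_g i) hA)]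
  have h1 := line_lint (F := A.indicator fun _ => (1 : ℝ≥0∞)) (measurable_const.indicator hA) i
  rw [lintegral_indicator hA, setLIntegral_one] at h1
  rw [h1]
  refine lintegral_congr fun y => ?_
  have h2 : (fun s : ℝ => A.indicator (fun _ => (1 : ℝ≥0∞)) (y + s • bv i)) =
      (Prod.mk y ⁻¹' ((fun p : V n × ℝ => p.1 + p.2 • (bv i : V n)) ⁻¹' A)).indicator
        (fun _ => (1 : ℝ≥0∞)) := by
    funext s
    rfl
  rw [h2, lintegral_indicator, setLIntegral_one]
  exact measurable_prodMk_left ((meas_g i) hA)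

theorem line_int {F : V n → ℝ} (hF : Integrable F) (hm : Measurable F) (i : Fin n) :
    ∫ y, F y = ∫ y in {y : V n | 0 ≤ y i ∧ y i < 1}, ∫ s : ℝ, F (y + s • bv i) := by
  have h0 := map_line (n := n) i
  have h1 : ∫ y, F y = ∫ p, F (p.1 + p.2 • (bv i : V n))
      ∂(((volume : Measure (V n)).restrict {y : V n | 0 ≤ y i ∧ y i < 1}).prod
        (volume : Measure ℝ)) := by
    conv_lhs => rw [← h0]
    rw [integral_map (meas_g i).aemeasurable hm.aestronglyMeasurable]
  rw [h1, integral_prod]
  have h2 : Integrable F ((((volume : Measure (V n)).restrict {y : V n | 0 ≤ y i ∧ y i < 1}).prod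
      (volume : Measure ℝ)).map (fun p : V n × ℝ => p.1 + p.2 • (bv i : V n))) := by
    rw [h0]
    exact hF
  exact (integrable_map_measure hm.aestronglyMeasurable (meas_g i).aemeasurable).1 h2

/-- If all line integrals vanish, so does the integral. -/
theorem line_zero {F : V n → ℝ} (hF : Integrable F) (hm : Measurable F) (i : Fin n)
    (h : ∀ y, ∫ s : ℝ, F (y + s • bv i) = 0) : ∫ y, F y = 0 := by
  rw [line_int hF hm i]
  simp only [h, integral_zero]

/-- If all line integrals are nonnegative, so is the integral. -/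
theorem line_nonneg {F : V n → ℝ} (hF : Integrable F) (hm : Measurable F) (i : Fin n)
    (h : ∀ y, 0 ≤ ∫ s : ℝ, F (y + s • bv i)) : 0 ≤ ∫ y, F y := by
  rw [line_int hF hm i]
  exact integral_nonneg h

private lemma line_key {K : Set (V n)} (hK : Unc K) (i : Fin n) (F : V n → ℝ) (y : V n)
    (hy : ∃ s : ℝ, y + s • bv i ∈ K) :
    ∃ z : V n, z i = 0 ∧ 0 ≤ hl K i z ∧ z ∈ K ∧
      ∫ s : ℝ, K.indicator F (y + s • bv i) =
        ∫ s in (-hl K i z)..(hl K i z), F (z + s • bv i) := by
  set z : V n := y + (-(y i)) • bv i with hz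
  have hzi : z i = 0 := by
    simp only [hz, PiLp.add_apply, PiLp.smul_apply, bv_apply_self, smul_eq_mul]
    ring
  have hl0 : 0 ≤ hl K i z := hl_nonneg i z
  have hzs : ∃ s : ℝ, z + s • bv i ∈ K := by
    obtain ⟨s, hs⟩ := hy
    refine ⟨s + y i, ?_⟩
    have : z + (s + y i) • (bv i : V n) = y + s • bv i := by
      rw [hz]
      module
    rw [this]
    exact hs
  have hch := hK.chord i hzs
  have hzK : z ∈ K := by
    have h1 := (hch 0).2 (by rw [hzi]; simpa using hl0)
    simpa using h1
  refine ⟨z, hzi, hl0, hzK, ?_⟩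
  have h1 : ∫ s : ℝ, K.indicator F (y + s • bv i) = ∫ s : ℝ, K.indicator F (z + s • bv i) := by
    rw [← integral_add_right_eq_self (fun s : ℝ => K.indicator F (z + s • bv i)) (y i)]
    refine integral_congr_ae (Filter.Eventually.of_forall fun s => ?_)
    have : z + (s + y i) • (bv i : V n) = y + s • bv i := by
      rw [hz]
      module
    simp only [this]
  have h2 : (fun s : ℝ => K.indicator F (z + s • bv i)) =
      (Icc (-hl K i z) (hl K i z)).indicator (fun s => F (z + s • bv i)) := by
    funext s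
    have h3 : z + s • (bv i : V n) ∈ K ↔ s ∈ Icc (-hl K i z) (hl K i z) := by
      rw [hch s, hzi, zero_add, abs_le, mem_Icc]
    by_cases h : s ∈ Icc (-hl K i z) (hl K i z)
    · rw [indicator_of_mem h, indicator_of_mem (h3.2 h)]
    · rw [indicator_of_notMem h, indicator_of_notMem (fun h' => h (h3.1 h'))]
  rw [h1, h2, integral_indicator measurableSet_Icc, integral_Icc_eq_integral_Ioc,
    intervalIntegral.integral_of_le (by linarith)]

private lemma line_key0 {K : Set (V n)} (i : Fin n) (F : V n → ℝ) (y : V n)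
    (hy : ¬ ∃ s : ℝ, y + s • bv i ∈ K) :
    ∫ s : ℝ, K.indicator F (y + s • bv i) = 0 := by
  push Not at hy
  have : (fun s : ℝ => K.indicator F (y + s • bv i)) = fun _ => 0 := by
    funext s
    exact indicator_of_notMem (hy s) F
  rw [this, integral_zero]

private lemma ind_int {K : Set (V n)} (hK : Unc K) {F : V n → ℝ} (hm : Measurable F)
    (hb : ∃ B, ∀ y, |F y| ≤ B) : Integrable (K.indicator F) := by
  obtain ⟨B, hB⟩ := hb
  have hKm : MeasurableSet K := hK.compact.isClosed.measurableSet
  rw [integrable_indicator_iff hKm]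
  refine Measure.integrableOn_of_bounded hK.vol_lt_top.ne hm.aestronglyMeasurable (M := B) ?_
  exact Filter.Eventually.of_forall fun y => by rw [Real.norm_eq_abs]; exact hB y

private lemma unif_int {K : Set (V n)} (hK : Unc K) (F : V n → ℝ) :
    ∫ y, F y ∂(MX.unif K) = (volume K)⁻¹.toReal * ∫ y, K.indicator F y := by
  have hKm : MeasurableSet K := hK.compact.isClosed.measurableSet
  unfold MX.unif
  rw [integral_smul_measure, integral_indicator hKm, smul_eq_mul]

/-- The line integrals of a function of `(l_i (y), y_i)` and of the line, for the uniform measure on `K`: it is enough to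
compare, for every line which meets `K`, the integrals over `[-l, l]`. -/
theorem Unc.line_zero {K : Set (V n)} (hK : Unc K) (i : Fin n) {F : V n → ℝ} (hm : Measurable F)
    (hb : ∃ B, ∀ y, |F y| ≤ B)
    (h : ∀ y : V n, y i = 0 → 0 ≤ hl K i y → y ∈ K →
      ∫ s in (-hl K i y)..(hl K i y), F (y + s • bv i) = 0) :
    ∫ y, F y ∂(MX.unif K) = 0 := by
  have hKm : MeasurableSet K := hK.compact.isClosed.measurableSet
  rw [unif_int hK F]
  rw [UB.line_zero (ind_int hK hm hb) (hm.indicator hKm) i, mul_zero]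
  intro y
  by_cases hy : ∃ s : ℝ, y + s • bv i ∈ K
  · obtain ⟨z, hz1, hz2, hz3, hz4⟩ := line_key hK i F y hy
    rw [hz4]
    exact h z hz1 hz2 hz3
  · exact line_key0 i F y hy

theorem Unc.line_nonneg {K : Set (V n)} (hK : Unc K) (i : Fin n) {F : V n → ℝ} (hm : Measurable F)
    (hb : ∃ B, ∀ y, |F y| ≤ B)
    (h : ∀ y : V n, y i = 0 → 0 ≤ hl K i y → y ∈ K →
      0 ≤ ∫ s in (-hl K i y)..(hl K i y), F (y + s • bv i)) :
    0 ≤ ∫ y, F y ∂(MX.unif K) := by
  have hKm : MeasurableSet K := hK.compact.isClosed.measurableSet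
  rw [unif_int hK F]
  refine mul_nonneg ENNReal.toReal_nonneg
    (UB.line_nonneg (ind_int hK hm hb) (hm.indicator hKm) i fun y => ?_)
  by_cases hy : ∃ s : ℝ, y + s • bv i ∈ K
  · obtain ⟨z, hz1, hz2, hz3, hz4⟩ := line_key hK i F y hy
    rw [hz4]
    exact h z hz1 hz2 hz3
  · rw [line_key0 i F y hy]

end Pool.Agent.UB
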