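import Pool.Agent.UB.G0
import Pool.Agent.UB.LineL

/-!
# UB-G1: short chords

PLAN.  `Φ(s) = P(|Y_i| ≤ s)`.  For `0 ≤ h ≤ 1`: `P(|Y_i| ≤ 2h, l_i > h) ≤ 2 P(|Y_i| ≤ h, l_i > h)` by `Unc.line_nonneg` (on a chord of half length
`l > h`: length of `{|t| ≤ min (2h, l)} ≤ 4 h = 2 ·` length of `{|t| ≤ h}`).  Since `|Y_i| ≤ l_i`:
`Φ(2h) = P(l ≤ h) + P(|Y| ≤ 2h, l > h) ≤ P(l ≤ h) + 2 (Φ(h) - P(l ≤ h)) = 2 Φ(h) - P(l ≤ h)`, so
`P(l ≤ h) ≤ 2 Φ(h) - Φ(2h) = 1 - 2 S(h) + S(2h) ≤ (1 - S(h))² = Φ(h)²` (`S(2h) = S(0) S(2h) ≤ S(h)²`).  `Φ(h) ≤ 2 (log 2) h ≤ 2 h` for `h ≤ 1` (`small_ball`,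
`η = 1/2`).  For `h > 1`: `4 h² ≥ 1`.
-/

set_option autoImplicit false

open MeasureTheory Set
open scoped ENNReal NNReal

namespace Pool.Agent.UB

open Pool.Agent.CB

private theorem g1_at (n : ℕ) (i : Fin n) (y : V n) (s : ℝ) : (y + s • bv i) i = y i + s := by
  have h : (y + s • bv i) i = y i + s * (bv i : V n) i := rfl
  rw [h]
  have h2 : (bv i : V n) i = 1 := by
    unfold bv
    rw [EuclideanSpace.single_apply, if_pos rfl]
  rw [h2, mul_one]

private theorem g1_int {l h : ℝ} (hh : 0 ≤ h) (hl : h ≤ l) :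
    ∫ s in (-l)..l, ({s : ℝ | |s| ≤ h}.indicator (fun _ => (1 : ℝ))) s = 2 * h := by
  rw [intervalIntegral.integral_of_le (by linarith), integral_indicator, setIntegral_const]
  · have h1 : (volume.restrict (Ioc (-l) l)) {s : ℝ | |s| ≤ h} = ENNReal.ofReal (2 * h) := by
      rw [Measure.restrict_apply (measurableSet_le (by fun_prop) (by fun_prop))]
      have h2 : {s : ℝ | |s| ≤ h} = Icc (-h) h := by
        ext s
        rw [mem_setOf_eq, abs_le, mem_Icc]
      rw [h2]
      refine le_antisymm ?_ ?_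
      · refine (measure_mono inter_subset_left).trans (le_of_eq ?_)
        rw [Real.volume_Icc]
        congr 1
        ring
      · have h3 : Ioc (-h) h ⊆ Icc (-h) h ∩ Ioc (-l) l := by
          intro s hs
          exact ⟨⟨hs.1.le, hs.2⟩, ⟨by linarith [hs.1], by linarith [hs.2]⟩⟩
        refine le_trans (le_of_eq ?_) (measure_mono h3)
        rw [Real.volume_Ioc]
        congr 1
        ring
    rw [Measure.real, h1, ENNReal.toReal_ofReal (by linarith), smul_eq_mul, mul_one]
  · exact measurableSet_le (by fun_prop) (by fun_prop)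

private theorem g1_int' {l h : ℝ} (hh : 0 ≤ h) (hl : 0 ≤ l) :
    ∫ s in (-l)..l, ({s : ℝ | |s| ≤ h}.indicator (fun _ => (1 : ℝ))) s ≤ 2 * h := by
  rw [intervalIntegral.integral_of_le (by linarith), integral_indicator, setIntegral_const]
  · have h1 : (volume.restrict (Ioc (-l) l)) {s : ℝ | |s| ≤ h} ≤ ENNReal.ofReal (2 * h) := by
      rw [Measure.restrict_apply (measurableSet_le (by fun_prop) (by fun_prop))]
      have h2 : {s : ℝ | |s| ≤ h} = Icc (-h) h := by
        ext s
        rw [mem_setOf_eq, abs_le, mem_Icc]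
      rw [h2]
      refine (measure_mono inter_subset_left).trans (le_of_eq ?_)
      rw [Real.volume_Icc]
      congr 1
      ring
    rw [smul_eq_mul, mul_one, Measure.real]
    exact ENNReal.toReal_le_of_le_ofReal (by linarith) h1
  · exact measurableSet_le (by fun_prop) (by fun_prop)

private theorem g1_ii (l h : ℝ) :
    IntervalIntegrable (fun s => ({s : ℝ | |s| ≤ h}.indicator (fun _ => (1 : ℝ))) s) volume
      (-l) l := by
  rw [intervalIntegrable_iff]
  refine Integrable.indicator ?_ (measurableSet_le (by fun_prop) (by fun_prop))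
  have hf : IsFiniteMeasure (volume.restrict (uIoc (-l) l)) := by
    constructor
    rw [Measure.restrict_apply_univ, uIoc, Real.volume_Ioc]
    exact ENNReal.ofReal_lt_top
  exact integrable_const _

private theorem g1_key {n : ℕ} {K : Set (V n)} (hK : Unc K) (i : Fin n) {h : ℝ} (hh : 0 ≤ h) :
    (MX.unif K).real {y | hl K i y ≤ h} ≤
      2 * (MX.unif K).real {y | |y i| ≤ h} - (MX.unif K).real {y | |y i| ≤ 2 * h} := by
  haveI := hK.prob
  have mA : ∀ t : ℝ, MeasurableSet {y : V n | |y i| ≤ t} := fun t =>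
    measurableSet_le (by fun_prop) (by fun_prop)
  have mL : MeasurableSet {y : V n | hl K i y ≤ h} :=
    measurableSet_le (hK.measurable_hl i) measurable_const
  set F : V n → ℝ := fun y => 2 * ({y : V n | |y i| ≤ h}.indicator (fun _ => (1 : ℝ))) y
    - ({y : V n | |y i| ≤ 2 * h}.indicator (fun _ => (1 : ℝ))) y
    - ({y : V n | hl K i y ≤ h}.indicator (fun _ => (1 : ℝ))) y with hF
  have hm : Measurable F := by
    refine Measurable.sub (Measurable.sub (Measurable.const_mul ?_ _) ?_) ?_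
    · exact measurable_const.indicator (mA _)
    · exact measurable_const.indicator (mA _)
    · exact measurable_const.indicator mL
  have hb : ∃ B, ∀ y, |F y| ≤ B := by
    refine ⟨4, fun y => ?_⟩
    have h1 : ∀ (s : Set (V n)), 0 ≤ (s.indicator (fun _ => (1 : ℝ))) y ∧
        (s.indicator (fun _ => (1 : ℝ))) y ≤ 1 := by
      intro s
      by_cases hs : y ∈ s
      · rw [indicator_of_mem hs]; norm_num
      · rw [indicator_of_notMem hs]; norm_num
    have h2 := h1 {y : V n | |y i| ≤ h}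
    have h3 := h1 {y : V n | |y i| ≤ 2 * h}
    have h4 := h1 {y : V n | hl K i y ≤ h}
    rw [abs_le]
    constructor
    · show -4 ≤ _ - _ - _
      linarith [h2.1, h3.2, h4.2]
    · show _ - _ - _ ≤ (4 : ℝ)
      linarith [h2.2, h3.1, h4.1]
  have hpos : 0 ≤ ∫ y, F y ∂(MX.unif K) := by
    refine hK.line_nonneg i hm hb fun y hy hl0 _ => ?_
    have e1 : ∀ (s t : ℝ), ({y : V n | |y i| ≤ t}.indicator (fun _ => (1 : ℝ))) (y + s • bv i) =
        ({s : ℝ | |s| ≤ t}.indicator (fun _ => (1 : ℝ))) s := by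
      intro s t
      simp only [indicator, mem_setOf_eq, g1_at, hy, zero_add]
    have e2 : ∀ s : ℝ, ({y : V n | hl K i y ≤ h}.indicator (fun _ => (1 : ℝ))) (y + s • bv i) =
        if hl K i y ≤ h then 1 else 0 := by
      intro s
      simp only [indicator, mem_setOf_eq, hl_add]
    have e3 : ∀ s : ℝ, F (y + s • bv i) = 2 * ({s : ℝ | |s| ≤ h}.indicator (fun _ => (1 : ℝ))) s
        - ({s : ℝ | |s| ≤ 2 * h}.indicator (fun _ => (1 : ℝ))) s
        - (if hl K i y ≤ h then 1 else 0) := by
      intro s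
      show _ - _ - _ = _
      rw [e1, e1, e2]
    simp only [e3]
    by_cases hc : hl K i y ≤ h
    · simp only [hc, if_true]
      refine intervalIntegral.integral_nonneg (by linarith) fun s hs => ?_
      have hs1 : |s| ≤ h := (abs_le.2 ⟨hs.1, hs.2⟩).trans hc
      have hs2 : |s| ≤ 2 * h := by linarith
      have i1 : ({s : ℝ | |s| ≤ h}.indicator (fun _ => (1 : ℝ))) s = 1 :=
        indicator_of_mem (by exact hs1) _
      have i2 : ({s : ℝ | |s| ≤ 2 * h}.indicator (fun _ => (1 : ℝ))) s = 1 :=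
        indicator_of_mem (by exact hs2) _
      rw [i1, i2]
      norm_num
    · simp only [hc, if_false, sub_zero]
      push Not at hc
      rw [intervalIntegral.integral_sub ((g1_ii _ _).const_mul _) (g1_ii _ _),
        intervalIntegral.integral_const_mul, g1_int hh hc.le]
      have h2 := g1_int' (l := hl K i y) (h := 2 * h) (by linarith) (by linarith)
      linarith
  have hI : ∀ s : Set (V n), MeasurableSet s →
      Integrable (fun y => (s.indicator (fun _ => (1 : ℝ))) y) (MX.unif K) := fun s hs =>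
    (integrable_const (1 : ℝ)).indicator hs
  have hV : ∀ s : Set (V n), MeasurableSet s →
      ∫ y, (s.indicator (fun _ => (1 : ℝ))) y ∂(MX.unif K) = (MX.unif K).real s := by
    intro s hs
    rw [integral_indicator hs, setIntegral_const, smul_eq_mul, mul_one]
  have h5 : ∫ y, F y ∂(MX.unif K) = 2 * (MX.unif K).real {y | |y i| ≤ h} -
      (MX.unif K).real {y | |y i| ≤ 2 * h} - (MX.unif K).real {y | hl K i y ≤ h} := by
    rw [hF, integral_sub, integral_sub, integral_const_mul, hV _ (mA _), hV _ (mA _), hV _ mL]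
    · exact (hI _ (mA _)).const_mul _
    · exact hI _ (mA _)
    · exact ((hI _ (mA _)).const_mul _).sub (hI _ (mA _))
    · exact hI _ mL
  rw [h5] at hpos
  linarith

theorem g1 {n : ℕ} {K : Set (V n)} (hK : NUnc K) (i : Fin n) {h : ℝ} (hh : 0 ≤ h) :
    (MX.unif K).real {y | hl K i y ≤ h} ≤ 4 * h ^ 2 := by
  haveI := hK.toUnc.prob
  by_cases h1 : h ≤ 1
  · have k1 := g1_key hK.toUnc i hh
    rw [Sx_compl hK.toUnc, Sx_compl hK.toUnc] at k1
    have k2 := Sx_mid hK.toUnc i (s := 0) (t := 2 * h) le_rfl (by linarith)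
    rw [Sx_zero hK.toUnc, one_mul, zero_add, mul_div_cancel_left₀ h (two_ne_zero)] at k2
    have k3 := small_ball hK.toUnc i (η := 1 / 2) (by norm_num) (hK.Sx_one i).ge hh h1
    rw [Sx_compl hK.toUnc] at k3
    have k4 : Real.log (1 / (1 / 2)) ≤ 1 := by
      rw [one_div_one_div]
      have := Real.log_two_lt_d9
      linarith
    have k5 : 0 ≤ 1 - Sx K i h := by
      rw [← Sx_compl hK.toUnc]
      exact measureReal_nonneg
    have k6 : 1 - Sx K i h ≤ 2 * h := by
      refine k3.trans ?_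
      have := mul_le_mul_of_nonneg_right k4 hh
      linarith
    have k7 : (1 - Sx K i h) ^ 2 ≤ (2 * h) ^ 2 := pow_le_pow_left₀ k5 k6 2
    nlinarith
  · push Not at h1
    have k1 : (MX.unif K).real {y | hl K i y ≤ h} ≤ 1 := measureReal_le_one
    nlinarith

end Pool.Agent.UB
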