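import Pool.Agent.UB.G0

/-!
# UB-G2a: boxes

PLAN.  Induction on `k` (or on `T`).  `R = R_k ≥ 1` with `k 2^(-R/2) ≤ 1/4`.  If some `s_t > 1` (`t ∈ T`): drop it (`P ≤ P(T \ {t}) ≤ C ∏_{T \ {t}} ≤ C ∏_T`).
If some `s_t = 0`: the probability is `0` (hyperplane).  Otherwise `0 < s_i ≤ 1`; pick `t ∈ T`, `T' = T \ {t}`, `K' = K ∩ {|y_i| ≤ s_i, i ∈ T'}`: `Unc K'`.
The map `y_i → (s_i/R) y_i` (`i ∈ T'`) maps `K ∩ {|y_i| ≤ R (i ∈ T'), |y_t| > 1}` into `K' ∩ {|y_t| > 1}` (solidity) and has the determinant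
`∏ (s_i/R)`; so `P(K', |Y_t| > 1) ≥ ∏_{T'} (s_i/R) P(|Y_i| ≤ R (i ∈ T'), |Y_t| > 1) ≥ ∏ (s_i/R) (1/2 - k 2^(-R/2)) ≥ (1/4) R^(-k) ∏_{T'} s_i`
(`tail`, `Sx_one`), and `P(K') ≤ C_(k-1) ∏_{T'} s_i`.  Hence `P_{K'}(|Y_t| > 1) ≥ η := 1/(4 R^k C_(k-1))`, and `small_ball` for `K'` gives
`P_{K'}(|Y_t| ≤ s_t) ≤ 2 log (1/η) s_t`; multiply by `P(K')`.  (`unif K'` = conditional law: `unif K` restricted to `K'`, normalised.)
-/

set_option autoImplicit false

open MeasureTheory Set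
open scoped ENNReal NNReal

namespace Pool.Agent.UB

open Pool.Agent.CB

private theorem unif_real {n : ℕ} (K : Set (V n)) {A : Set (V n)} (hA : MeasurableSet A) :
    (MX.unif K).real A = (volume K).toReal⁻¹ * (volume (A ∩ K)).toReal := by
  unfold MX.unif Measure.real
  rw [Measure.smul_apply, Measure.restrict_apply hA, smul_eq_mul, ENNReal.toReal_mul,
    ENNReal.toReal_inv]

/-- diagonal maps -/
private noncomputable def dg {n : ℕ} (d : Fin n → ℝ) : V n →ₗ[ℝ] V n :=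
  ((WithLp.linearEquiv 2 ℝ (Fin n → ℝ)).symm.toLinearMap) ∘ₗ (Matrix.toLin' (Matrix.diagonal d)) ∘ₗ
    ((WithLp.linearEquiv 2 ℝ (Fin n → ℝ)).symm.symm.toLinearMap)

private theorem dg_apply {n : ℕ} (d : Fin n → ℝ) (y : V n) (i : Fin n) : dg d y i = d i * y i := by
  change (Matrix.toLin' (Matrix.diagonal d)) (fun i => y i) i = d i * y i
  rw [Matrix.toLin'_apply, Matrix.mulVec_diagonal]

private theorem dg_det {n : ℕ} (d : Fin n → ℝ) : LinearMap.det (dg d) = ∏ i, d i := by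
  unfold dg
  rw [LinearMap.det_conj, LinearMap.det_toLin', Matrix.det_diagonal]

private theorem vol_dg {n : ℕ} (d : Fin n → ℝ) (B : Set (V n)) :
    volume (dg d '' B) = ENNReal.ofReal |∏ i, d i| * volume B := by
  rw [Measure.addHaar_image_linearMap, dg_det]

private theorem cont_coord {n : ℕ} (i : Fin n) : Continuous (fun y : V n => |y i|) := by
  fun_prop

private theorem bx_closed {n : ℕ} (T : Finset (Fin n)) (s : Fin n → ℝ) :
    IsClosed {y : V n | ∀ i ∈ T, |y i| ≤ s i} := by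
  have : {y : V n | ∀ i ∈ T, |y i| ≤ s i} = ⋂ i ∈ T, {y : V n | |y i| ≤ s i} := by
    ext y
    simp
  rw [this]
  exact isClosed_biInter fun i _ => isClosed_le (cont_coord i) continuous_const

private theorem bx_open {n : ℕ} (T : Finset (Fin n)) (s : Fin n → ℝ) :
    IsOpen {y : V n | ∀ i ∈ T, |y i| < s i} := by
  have : {y : V n | ∀ i ∈ T, |y i| < s i} = ⋂ i ∈ T, {y : V n | |y i| < s i} := by
    ext y
    simp
  rw [this]
  exact isOpen_biInter_finset fun i _ => isOpen_lt (cont_coord i) continuous_const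

private theorem bx_convex {n : ℕ} (T : Finset (Fin n)) (s : Fin n → ℝ) :
    Convex ℝ {y : V n | ∀ i ∈ T, |y i| ≤ s i} := by
  intro x hx y hy a b ha hb hab i hi
  have h1 := hx i hi
  have h2 := hy i hi
  have h3 : (a • x + b • y) i = a * x i + b * y i := by
    simp
  change |(a • x + b • y) i| ≤ s i
  rw [h3]
  calc |a * x i + b * y i| ≤ |a * x i| + |b * y i| := abs_add_le _ _
    _ = a * |x i| + b * |y i| := by rw [abs_mul, abs_mul, abs_of_nonneg ha, abs_of_nonneg hb]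
    _ ≤ a * s i + b * s i := by gcongr
    _ = s i := by rw [← add_mul, hab, one_mul]

/-- the intersection with a box -/
private theorem unc_box {n : ℕ} {K : Set (V n)} (hK : Unc K) (T : Finset (Fin n)) (s : Fin n → ℝ)
    (hs : ∀ i ∈ T, 0 < s i) : Unc (K ∩ {y : V n | ∀ i ∈ T, |y i| ≤ s i}) := by
  refine ⟨hK.compact.inter_right (bx_closed T s), hK.convex.inter (bx_convex T s), ?_, ?_⟩
  · refine ⟨0, ?_⟩
    have h1 : (0 : V n) ∈ interior K ∩ {y : V n | ∀ i ∈ T, |y i| < s i} := by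
      refine ⟨hK.zero_mem_interior, fun i hi => ?_⟩
      simpa using hs i hi
    have h2 : interior K ∩ {y : V n | ∀ i ∈ T, |y i| < s i} ⊆
        K ∩ {y : V n | ∀ i ∈ T, |y i| ≤ s i} := by
      intro y hy
      exact ⟨interior_subset hy.1, fun i hi => (hy.2 i hi).le⟩
    exact interior_maximal h2 (isOpen_interior.inter (bx_open T s)) h1
  · intro y hy z hz
    refine ⟨hK.unc y hy.1 z hz, fun i hi => ?_⟩
    rw [hz i]
    exact hy.2 i hi

/-- conditional law -/
private theorem unif_cond {n : ℕ} {K : Set (V n)} (hK : Unc K) (T : Finset (Fin n)) (s : Fin n → ℝ)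
    (hs : ∀ i ∈ T, 0 < s i) {A : Set (V n)} (hA : MeasurableSet A) :
    (MX.unif (K ∩ {y : V n | ∀ i ∈ T, |y i| ≤ s i})).real A *
      (MX.unif K).real {y : V n | ∀ i ∈ T, |y i| ≤ s i} =
      (MX.unif K).real (A ∩ {y : V n | ∀ i ∈ T, |y i| ≤ s i}) := by
  have hK' := unc_box hK T s hs
  have hE : MeasurableSet {y : V n | ∀ i ∈ T, |y i| ≤ s i} := (bx_closed T s).measurableSet
  rw [unif_real _ hA, unif_real _ hE, unif_real _ (hA.inter hE)]
  set E := {y : V n | ∀ i ∈ T, |y i| ≤ s i} with hEd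
  have h1 : (volume (K ∩ E)).toReal ≠ 0 :=
    (ENNReal.toReal_pos hK'.vol_pos.ne' hK'.vol_lt_top.ne).ne'
  have h2 : E ∩ K = K ∩ E := Set.inter_comm _ _
  have h3 : A ∩ E ∩ K = A ∩ (K ∩ E) := by
    rw [Set.inter_assoc, h2]
  rw [h2, h3]
  field_simp

private theorem prod_d {n : ℕ} (T : Finset (Fin n)) (f : Fin n → ℝ) :
    ∏ i, (if i ∈ T then f i else 1) = ∏ i ∈ T, f i := by
  classical
  rw [Finset.prod_ite_mem, Finset.univ_inter]

/-- lower bound for the mass far away in one direction -/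
private theorem key {n : ℕ} {K : Set (V n)} (hK : Unc K) (T : Finset (Fin n)) (t : Fin n)
    (ht : t ∉ T) (s : Fin n → ℝ) (hs : ∀ i ∈ T, 0 < s i) (hs1 : ∀ i ∈ T, s i ≤ 1) {R : ℝ}
    (hR : 1 ≤ R) :
    (∏ i ∈ T, (s i / R)) * (MX.unif K).real ({y : V n | 1 < |y t|} ∩ {y : V n | ∀ i ∈ T, |y i| ≤ R}) ≤
      (MX.unif K).real ({y : V n | 1 < |y t|} ∩ {y : V n | ∀ i ∈ T, |y i| ≤ s i}) := by
  classical
  have hm1 : MeasurableSet {y : V n | 1 < |y t|} := (isOpen_lt continuous_const (cont_coord t)).measurableSet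
  have hm2 : MeasurableSet {y : V n | ∀ i ∈ T, |y i| ≤ R} := (bx_closed T (fun _ => R)).measurableSet
  have hm3 : MeasurableSet {y : V n | ∀ i ∈ T, |y i| ≤ s i} := (bx_closed T s).measurableSet
  rw [unif_real _ (hm1.inter hm2), unif_real _ (hm1.inter hm3)]
  set d : Fin n → ℝ := fun i => if i ∈ T then s i / R else 1 with hd
  have hR0 : 0 < R := by linarith
  have hdp : ∏ i, d i = ∏ i ∈ T, (s i / R) := prod_d T (fun i => s i / R)
  have hpos : 0 ≤ ∏ i ∈ T, (s i / R) := Finset.prod_nonneg fun i hi =>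
    div_nonneg (hs i hi).le hR0.le
  have hsub : dg d '' (({y : V n | 1 < |y t|} ∩ {y : V n | ∀ i ∈ T, |y i| ≤ R}) ∩ K) ⊆
      ({y : V n | 1 < |y t|} ∩ {y : V n | ∀ i ∈ T, |y i| ≤ s i}) ∩ K := by
    rintro _ ⟨y, ⟨⟨h1, h2⟩, h3⟩, rfl⟩
    have h1' : 1 < |y t| := h1
    refine ⟨⟨?_, ?_⟩, ?_⟩
    · change 1 < |dg d y t|
      rw [dg_apply, hd]
      simp only [if_neg ht, one_mul]
      exact h1'
    · intro i hi
      have h4 : |y i| ≤ R := h2 i hi
      rw [dg_apply, hd]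
      simp only [if_pos hi]
      rw [abs_mul, abs_of_nonneg (div_nonneg (hs i hi).le hR0.le), div_mul_eq_mul_div,
        div_le_iff₀ hR0]
      exact mul_le_mul_of_nonneg_left h4 (hs i hi).le
    · apply hK.solid h3
      intro i
      rw [dg_apply, abs_mul, hd]
      by_cases hi : i ∈ T
      · simp only [if_pos hi]
        have h5 : |s i / R| ≤ 1 := by
          rw [abs_of_nonneg (div_nonneg (hs i hi).le hR0.le), div_le_one hR0]
          exact (hs1 i hi).trans hR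
        calc |s i / R| * |y i| ≤ 1 * |y i| := mul_le_mul_of_nonneg_right h5 (abs_nonneg _)
          _ = |y i| := one_mul _
      · simp only [if_neg hi, abs_one, one_mul]
        exact le_rfl
  have hv := measure_mono (μ := (volume : Measure (V n))) hsub
  rw [vol_dg, hdp, abs_of_nonneg hpos] at hv
  have hfin : volume (({y : V n | 1 < |y t|} ∩ {y : V n | ∀ i ∈ T, |y i| ≤ s i}) ∩ K) ≠ ⊤ :=
    ((measure_mono Set.inter_subset_right).trans_lt hK.vol_lt_top).ne
  have hv2 := ENNReal.toReal_mono hfin hv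
  rw [ENNReal.toReal_mul, ENNReal.toReal_ofReal hpos] at hv2
  calc (∏ i ∈ T, (s i / R)) * ((volume K).toReal⁻¹ *
        (volume (({y : V n | 1 < |y t|} ∩ {y : V n | ∀ i ∈ T, |y i| ≤ R}) ∩ K)).toReal)
      = (volume K).toReal⁻¹ * ((∏ i ∈ T, (s i / R)) *
        (volume (({y : V n | 1 < |y t|} ∩ {y : V n | ∀ i ∈ T, |y i| ≤ R}) ∩ K)).toReal) := by ring
    _ ≤ _ := mul_le_mul_of_nonneg_left hv2 (inv_nonneg.2 ENNReal.toReal_nonneg)

/-- most of the mass is in a box -/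
private theorem big_box {n : ℕ} {K : Set (V n)} (hK : NUnc K) (T : Finset (Fin n)) (t : Fin n)
    {R : ℝ} (hR : 1 ≤ R) {k : ℕ} (hT : T.card ≤ k) (hkR : (k : ℝ) * (1 / 2 : ℝ) ^ (R / 2) ≤ 1 / 4) :
    1 / 4 ≤ (MX.unif K).real ({y : V n | 1 < |y t|} ∩ {y : V n | ∀ i ∈ T, |y i| ≤ R}) := by
  classical
  haveI := hK.toUnc.prob
  have h1 : (MX.unif K).real {y : V n | 1 < |y t|} = 1 / 2 := hK.Sx_one t
  have h2 : {y : V n | 1 < |y t|} ⊆ ({y : V n | 1 < |y t|} ∩ {y : V n | ∀ i ∈ T, |y i| ≤ R}) ∪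
      ⋃ i ∈ T, {y : V n | R < |y i|} := by
    intro y hy
    by_cases h : ∀ i ∈ T, |y i| ≤ R
    · exact Or.inl ⟨hy, h⟩
    · push Not at h
      obtain ⟨i, hi, hi2⟩ := h
      exact Or.inr (Set.mem_biUnion hi hi2)
  have h3 := measureReal_mono (μ := MX.unif K) h2
  have h4 := measureReal_union_le (μ := MX.unif K)
    ({y : V n | 1 < |y t|} ∩ {y : V n | ∀ i ∈ T, |y i| ≤ R}) (⋃ i ∈ T, {y : V n | R < |y i|})
  have h5 : (MX.unif K).real (⋃ i ∈ T, {y : V n | R < |y i|}) ≤ ∑ i ∈ T, (MX.unif K).real {y : V n | R < |y i|} :=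
    measureReal_biUnion_finset_le _ _
  have h6 : ∑ i ∈ T, (MX.unif K).real {y : V n | R < |y i|} ≤ ∑ _i ∈ T, (1 / 2 : ℝ) ^ (R / 2) :=
    Finset.sum_le_sum fun i _ => tail hK.toUnc i (hK.Sx_one i).le hR
  rw [Finset.sum_const, nsmul_eq_mul] at h6
  have h7 : (T.card : ℝ) * (1 / 2 : ℝ) ^ (R / 2) ≤ (k : ℝ) * (1 / 2 : ℝ) ^ (R / 2) := by
    have : (T.card : ℝ) ≤ k := by exact_mod_cast hT
    exact mul_le_mul_of_nonneg_right this (Real.rpow_nonneg (by norm_num) _)
  linarith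

private theorem exists_R (k : ℕ) : ∃ R : ℝ, 1 ≤ R ∧ (k : ℝ) * (1 / 2 : ℝ) ^ (R / 2) ≤ 1 / 4 := by
  obtain ⟨m, hm⟩ := exists_pow_lt_of_lt_one (show (0 : ℝ) < 1 / (4 * (k + 1)) by positivity)
    (show (1 / 2 : ℝ) < 1 by norm_num)
  refine ⟨2 * (m + 1), by
    have : (0 : ℝ) ≤ m := Nat.cast_nonneg m
    linarith, ?_⟩
  have h1 : (2 * ((m : ℝ) + 1) / 2) = ((m + 1 : ℕ) : ℝ) := by
    push_cast
    ring
  rw [h1, Real.rpow_natCast]
  have h2 : (1 / 2 : ℝ) ^ (m + 1) ≤ 1 / (4 * (k + 1)) := by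
    rw [pow_succ]
    have : (0 : ℝ) ≤ (1 / 2 : ℝ) ^ m := by positivity
    linarith
  calc (k : ℝ) * (1 / 2 : ℝ) ^ (m + 1) ≤ k * (1 / (4 * (k + 1))) :=
        mul_le_mul_of_nonneg_left h2 (Nat.cast_nonneg k)
    _ ≤ 1 / 4 := by
        rw [mul_one_div, div_le_div_iff₀ (by positivity) (by norm_num)]
        have : (0 : ℝ) ≤ k := Nat.cast_nonneg k
        linarith

theorem box (k : ℕ) : ∃ C : ℝ, 0 < C ∧ ∀ (n : ℕ) (K : Set (V n)), NUnc K →
    ∀ T : Finset (Fin n), T.card ≤ k → ∀ s : Fin n → ℝ, (∀ i ∈ T, 0 ≤ s i) →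
      (MX.unif K).real {y | ∀ i ∈ T, |y i| ≤ s i} ≤ C * ∏ i ∈ T, s i := by
  classical
  induction k with
  | zero =>
    refine ⟨1, one_pos, fun n K hK T hT s hs => ?_⟩
    haveI := hK.toUnc.prob
    have hT0 : T = ∅ := Finset.card_eq_zero.1 (Nat.le_zero.1 hT)
    subst hT0
    rw [Finset.prod_empty, mul_one]
    exact measureReal_le_one
  | succ k ih =>
    obtain ⟨C, hC, ih⟩ := ih
    obtain ⟨R, hR, hkR⟩ := exists_R k
    have hR0 : 0 < R := by linarith
    set η : ℝ := 1 / (4 * R ^ k * C) with hη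
    have hη0 : 0 < η := by positivity
    refine ⟨max C (2 * Real.log (1 / η) * C), lt_max_of_lt_left hC, fun n K hK T hT s hs => ?_⟩
    haveI := hK.toUnc.prob
    have hprod0 : 0 ≤ ∏ i ∈ T, s i := Finset.prod_nonneg hs
    have hCm : C * ∏ i ∈ T, s i ≤ max C (2 * Real.log (1 / η) * C) * ∏ i ∈ T, s i :=
      mul_le_mul_of_nonneg_right (le_max_left _ _) hprod0
    rcases Nat.lt_or_ge T.card (k + 1) with hc | hc
    · exact (ih n K hK T (by omega) s hs).trans hCm
    have hcard : T.card = k + 1 := le_antisymm hT hc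
    by_cases hbig : ∃ t ∈ T, 1 < s t
    · -- a large side
      obtain ⟨t, ht, hst⟩ := hbig
      have h1 : {y : V n | ∀ i ∈ T, |y i| ≤ s i} ⊆ {y : V n | ∀ i ∈ T.erase t, |y i| ≤ s i} :=
        fun y hy i hi => hy i (Finset.mem_of_mem_erase hi)
      have h2 := ih n K hK (T.erase t) (by rw [Finset.card_erase_of_mem ht]; omega) s
        (fun i hi => hs i (Finset.mem_of_mem_erase hi))
      have h3 : ∏ i ∈ T.erase t, s i ≤ ∏ i ∈ T, s i := by
        rw [← Finset.mul_prod_erase T s ht]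
        have : 0 ≤ ∏ i ∈ T.erase t, s i :=
          Finset.prod_nonneg fun i hi => hs i (Finset.mem_of_mem_erase hi)
        nlinarith
      calc (MX.unif K).real {y : V n | ∀ i ∈ T, |y i| ≤ s i}
          ≤ (MX.unif K).real {y : V n | ∀ i ∈ T.erase t, |y i| ≤ s i} := measureReal_mono h1
        _ ≤ C * ∏ i ∈ T.erase t, s i := h2
        _ ≤ C * ∏ i ∈ T, s i := mul_le_mul_of_nonneg_left h3 hC.le
        _ ≤ _ := hCm
    push Not at hbig
    by_cases hzero : ∃ t ∈ T, s t = 0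
    · obtain ⟨t, ht, hst⟩ := hzero
      have h1 : {y : V n | ∀ i ∈ T, |y i| ≤ s i} ⊆ {y : V n | |y t| ≤ 0} := by
        intro y hy
        have := hy t ht
        rw [hst] at this
        exact this
      have h2 : (MX.unif K).real {y : V n | |y t| ≤ 0} = 0 := by
        rw [Sx_compl hK.toUnc t 0, Sx_zero hK.toUnc t, sub_self]
      have h3 : (MX.unif K).real {y : V n | ∀ i ∈ T, |y i| ≤ s i} ≤ 0 := by
        rw [← h2]
        exact measureReal_mono h1
      refine h3.trans ?_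
      exact mul_nonneg (le_max_of_le_left hC.le) hprod0
    push Not at hzero
    have hspos : ∀ i ∈ T, 0 < s i := fun i hi => lt_of_le_of_ne (hs i hi) (hzero i hi).symm
    obtain ⟨t, ht⟩ : T.Nonempty := by
      rw [← Finset.card_pos, hcard]
      omega
    set T' := T.erase t with hT'
    have htT' : t ∉ T' := Finset.notMem_erase t T
    have hcard' : T'.card = k := by
      rw [hT', Finset.card_erase_of_mem ht, hcard]
      omega
    have hsub : ∀ i ∈ T', i ∈ T := fun i hi => Finset.mem_of_mem_erase hi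
    have hpos' : ∀ i ∈ T', 0 < s i := fun i hi => hspos i (hsub i hi)
    have hle' : ∀ i ∈ T', s i ≤ 1 := fun i hi => hbig i (hsub i hi)
    have hPpos : 0 < ∏ i ∈ T', s i := Finset.prod_pos hpos'
    have k1 := key hK.toUnc T' t htT' s hpos' hle' hR
    have k2 := big_box hK T' t hR hcard'.le hkR
    have k3 := ih n K hK T' hcard'.le s (fun i hi => (hpos' i hi).le)
    have hK' := unc_box hK.toUnc T' s hpos'
    have hm1 : MeasurableSet {y : V n | 1 < |y t|} :=
      (isOpen_lt continuous_const (cont_coord t)).measurableSet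
    have hm2 : MeasurableSet {y : V n | |y t| ≤ s t} :=
      (isClosed_le (cont_coord t) continuous_const).measurableSet
    have c1 := unif_cond hK.toUnc T' s hpos' hm1
    have c2 := unif_cond hK.toUnc T' s hpos' hm2
    set E := {y : V n | ∀ i ∈ T', |y i| ≤ s i} with hE
    have hprodR : ∏ i ∈ T', (s i / R) = (∏ i ∈ T', s i) / R ^ k := by
      rw [Finset.prod_div_distrib, Finset.prod_const, hcard']
    have k4 : (∏ i ∈ T', s i) / R ^ k * (1 / 4) ≤
        (MX.unif K).real ({y : V n | 1 < |y t|} ∩ E) := by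
      refine le_trans ?_ k1
      rw [hprodR]
      exact mul_le_mul_of_nonneg_left k2 (by positivity)
    have hpE : 0 ≤ (MX.unif K).real E := measureReal_nonneg
    have k5 : η ≤ Sx (K ∩ E) t 1 := by
      have e1 : Sx (K ∩ E) t 1 = (MX.unif (K ∩ E)).real {y : V n | 1 < |y t|} := rfl
      rw [e1]
      by_contra hlt
      rw [not_le] at hlt
      have h0 : 0 ≤ (MX.unif (K ∩ E)).real {y : V n | 1 < |y t|} := measureReal_nonneg
      have h5 : (∏ i ∈ T', s i) / R ^ k * (1 / 4) = η * (C * ∏ i ∈ T', s i) := by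
        rw [hη]
        field_simp
      have h6 : (MX.unif (K ∩ E)).real {y : V n | 1 < |y t|} * (MX.unif K).real E ≤
          (MX.unif (K ∩ E)).real {y : V n | 1 < |y t|} * (C * ∏ i ∈ T', s i) :=
        mul_le_mul_of_nonneg_left k3 h0
      have h7 : (MX.unif (K ∩ E)).real {y : V n | 1 < |y t|} * (C * ∏ i ∈ T', s i) <
          η * (C * ∏ i ∈ T', s i) := mul_lt_mul_of_pos_right hlt (by positivity)
      rw [c1] at h6
      linarith
    have hle1 : s t ≤ 1 := hbig t ht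
    have k6 := small_ball hK' t hη0 k5 (hs t ht) hle1
    have hset : {y : V n | ∀ i ∈ T, |y i| ≤ s i} = {y : V n | |y t| ≤ s t} ∩ E := by
      ext y
      constructor
      · intro hy
        exact ⟨hy t ht, fun i hi => hy i (hsub i hi)⟩
      · rintro ⟨h1, h2⟩ i hi
        by_cases hit : i = t
        · rw [hit]
          exact h1
        · exact h2 i (Finset.mem_erase.2 ⟨hit, hi⟩)
    have hnn : 0 ≤ 2 * Real.log (1 / η) * s t := le_trans measureReal_nonneg k6
    rw [hset, ← c2, ← Finset.mul_prod_erase T s ht]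
    calc (MX.unif (K ∩ E)).real {y : V n | |y t| ≤ s t} * (MX.unif K).real E
        ≤ (2 * Real.log (1 / η) * s t) * (C * ∏ i ∈ T', s i) :=
          mul_le_mul k6 k3 hpE hnn
      _ = (2 * Real.log (1 / η) * C) * (s t * ∏ i ∈ T', s i) := by ring
      _ ≤ max C (2 * Real.log (1 / η) * C) * (s t * ∏ i ∈ T', s i) :=
          mul_le_mul_of_nonneg_right (le_max_right _ _) (mul_nonneg (hs t ht) hPpos.le)

end Pool.Agent.UB
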