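import Pool.Agent.UB.G2a
import Pool.Agent.UB.LineL

/-!
# UB-G2b: general sets

PLAN.  One coordinate at a time: for `j ∈ T`, if the other conditions are `y_i ∈ Z_i` or `|y_i| ≤ |Z_i|/2` (`i ≠ j`), replacing `y_j ∈ Z_j` by
`|y_j| ≤ |Z_j|/2` does not decrease the probability: `Unc.line_nonneg` in the direction `j` (on a chord `[-l, l]` the other conditions are constant,
and `|Z ∩ [-l, l]| ≤ min (|Z|, 2l) = |[-|Z|/2, |Z|/2] ∩ [-l, l]|`).  Induction over the subset of replaced indices, then `box`, constant `C/2^k ≤ C`.
-/

set_option autoImplicit false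

open MeasureTheory Set
open scoped ENNReal NNReal

namespace Pool.Agent.UB

open Pool.Agent.CB

private theorem bv_same {n : ℕ} (j : Fin n) (y : V n) (t : ℝ) : (y + t • bv j) j = y j + t := by
  simp [bv]

private theorem bv_other {n : ℕ} {i j : Fin n} (h : i ≠ j) (y : V n) (t : ℝ) :
    (y + t • bv j) i = y i := by
  simp [bv, h]

private theorem ev_meas {n : ℕ} (T : Finset (Fin n)) (W : Fin n → Set ℝ)
    (hW : ∀ i ∈ T, MeasurableSet (W i)) : MeasurableSet {y : V n | ∀ i ∈ T, y i ∈ W i} := by
  have : {y : V n | ∀ i ∈ T, y i ∈ W i} = ⋂ i ∈ T, {y : V n | y i ∈ W i} := by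
    ext y
    simp
  rw [this]
  refine Finset.measurableSet_biInter T fun i hi => ?_
  have hc : Measurable (fun y : V n => y i) := by
    have : Continuous (fun y : V n => y i) := by fun_prop
    exact this.measurable
  exact hc (hW i hi)

/-- the one dimensional comparison -/
private theorem one_dim (W : Set ℝ) (hm : MeasurableSet W) (hf : volume W ≠ ⊤) {l : ℝ} (hl : 0 ≤ l) :
    0 ≤ ∫ t in (-l)..l, ((Icc (-((volume W).toReal / 2)) ((volume W).toReal / 2)).indicator
      (fun _ => (1 : ℝ)) t - W.indicator (fun _ => (1 : ℝ)) t) := by
  set v : ℝ := (volume W).toReal with hv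
  have hv0 : 0 ≤ v := ENNReal.toReal_nonneg
  have hvW : volume W = ENNReal.ofReal v := (ENNReal.ofReal_toReal hf).symm
  rw [intervalIntegral.integral_of_le (by linarith)]
  have hmI : MeasurableSet (Icc (-(v / 2)) (v / 2)) := measurableSet_Icc
  have hfin : IsFiniteMeasure (volume.restrict (Ioc (-l) l)) := by
    refine ⟨?_⟩
    rw [Measure.restrict_apply_univ, Real.volume_Ioc]
    exact ENNReal.ofReal_lt_top
  have i1 : Integrable ((Icc (-(v / 2)) (v / 2)).indicator (fun _ => (1 : ℝ)))
      (volume.restrict (Ioc (-l) l)) := (integrable_const (1 : ℝ)).indicator hmI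
  have i2 : Integrable (W.indicator (fun _ => (1 : ℝ))) (volume.restrict (Ioc (-l) l)) :=
    (integrable_const (1 : ℝ)).indicator hm
  rw [integral_sub i1 i2]
  have e1 : ∫ t in Ioc (-l) l, (Icc (-(v / 2)) (v / 2)).indicator (fun _ => (1 : ℝ)) t =
      (volume.restrict (Ioc (-l) l)).real (Icc (-(v / 2)) (v / 2)) := integral_indicator_one hmI
  have e2 : ∫ t in Ioc (-l) l, W.indicator (fun _ => (1 : ℝ)) t =
      (volume.restrict (Ioc (-l) l)).real W := integral_indicator_one hm
  rw [e1, e2, sub_nonneg]
  unfold Measure.real
  apply ENNReal.toReal_mono (measure_ne_top _ _)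
  rw [Measure.restrict_apply hm, Measure.restrict_apply hmI]
  rcases le_or_gt (v / 2) l with h | h
  · have hsub : Ioc (-(v / 2)) (v / 2) ⊆ Icc (-(v / 2)) (v / 2) ∩ Ioc (-l) l := by
      intro t ht
      exact ⟨⟨ht.1.le, ht.2⟩, ⟨by linarith [ht.1], by linarith [ht.2]⟩⟩
    calc volume (W ∩ Ioc (-l) l) ≤ volume W := measure_mono Set.inter_subset_left
      _ = volume (Ioc (-(v / 2)) (v / 2)) := by
          rw [Real.volume_Ioc, hvW]
          congr 1
          ring
      _ ≤ _ := measure_mono hsub
  · apply measure_mono
    intro t ht
    exact ⟨⟨by linarith [ht.2.1], by linarith [ht.2.2]⟩, ht.2⟩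

/-- replacing one condition -/
private theorem repl {n : ℕ} {K : Set (V n)} (hK : Unc K) (T : Finset (Fin n)) (W : Fin n → Set ℝ)
    (hW : ∀ i ∈ T, MeasurableSet (W i)) (j : Fin n) (hj : j ∈ T) (hf : volume (W j) ≠ ⊤) :
    (MX.unif K).real {y : V n | ∀ i ∈ T, y i ∈ W i} ≤
      (MX.unif K).real {y : V n | ∀ i ∈ T, y i ∈ Function.update W j
        (Icc (-((volume (W j)).toReal / 2)) ((volume (W j)).toReal / 2)) i} := by
  classical
  haveI := hK.prob
  set I : Set ℝ := Icc (-((volume (W j)).toReal / 2)) ((volume (W j)).toReal / 2) with hI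
  have hmI : MeasurableSet I := measurableSet_Icc
  set W' := Function.update W j I with hW'
  have hW'm : ∀ i ∈ T, MeasurableSet (W' i) := by
    intro i hi
    by_cases h : i = j
    · rw [h, hW', Function.update_self]
      exact hmI
    · rw [hW', Function.update_of_ne h]
      exact hW i hi
  have hA := ev_meas T W hW
  have hA' := ev_meas T W' hW'm
  set A := {y : V n | ∀ i ∈ T, y i ∈ W i} with hAd
  set A' := {y : V n | ∀ i ∈ T, y i ∈ W' i} with hA'd
  have key : 0 ≤ ∫ y, (A'.indicator (fun _ => (1 : ℝ)) y - A.indicator (fun _ => (1 : ℝ)) y)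
      ∂(MX.unif K) := by
    apply hK.line_nonneg j
    · exact (measurable_const.indicator hA').sub (measurable_const.indicator hA)
    · refine ⟨2, fun y => ?_⟩
      unfold Set.indicator
      split_ifs <;> norm_num
    · intro y hy0 hl hyK
      by_cases hB : ∀ i ∈ T, i ≠ j → y i ∈ W i
      · have e : ∀ t : ℝ, A'.indicator (fun _ => (1 : ℝ)) (y + t • bv j) -
            A.indicator (fun _ => (1 : ℝ)) (y + t • bv j) =
            I.indicator (fun _ => (1 : ℝ)) t - (W j).indicator (fun _ => (1 : ℝ)) t := by
          intro t
          have m1 : (y + t • bv j) ∈ A' ↔ t ∈ I := by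
            constructor
            · intro h
              have := h j hj
              rw [hW', Function.update_self, bv_same, hy0, zero_add] at this
              exact this
            · intro h i hi
              by_cases hij : i = j
              · subst hij
                rw [hW', Function.update_self, bv_same, hy0, zero_add]
                exact h
              · rw [hW', Function.update_of_ne hij, bv_other hij]
                exact hB i hi hij
          have m2 : (y + t • bv j) ∈ A ↔ t ∈ W j := by
            constructor
            · intro h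
              have := h j hj
              rw [bv_same, hy0, zero_add] at this
              exact this
            · intro h i hi
              by_cases hij : i = j
              · subst hij
                rw [bv_same, hy0, zero_add]
                exact h
              · rw [bv_other hij]
                exact hB i hi hij
          congr 1
          · unfold Set.indicator
            simp only [m1]
          · unfold Set.indicator
            simp only [m2]
        simp only [e]
        exact one_dim (W j) (hW j hj) hf hl
      · have e : ∀ t : ℝ, A'.indicator (fun _ => (1 : ℝ)) (y + t • bv j) -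
            A.indicator (fun _ => (1 : ℝ)) (y + t • bv j) = 0 := by
          intro t
          have m1 : (y + t • bv j) ∉ A' := by
            intro h
            apply hB
            intro i hi hij
            have := h i hi
            rw [hW', Function.update_of_ne hij, bv_other hij] at this
            exact this
          have m2 : (y + t • bv j) ∉ A := by
            intro h
            apply hB
            intro i hi hij
            have := h i hi
            rw [bv_other hij] at this
            exact this
          rw [Set.indicator_of_notMem m1, Set.indicator_of_notMem m2, sub_zero]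
        simp only [e]
        simp
  have i1 : Integrable (A'.indicator (fun _ => (1 : ℝ))) (MX.unif K) :=
    (integrable_const (1 : ℝ)).indicator hA'
  have i2 : Integrable (A.indicator (fun _ => (1 : ℝ))) (MX.unif K) :=
    (integrable_const (1 : ℝ)).indicator hA
  rw [integral_sub i1 i2] at key
  have e1 : ∫ y, A'.indicator (fun _ => (1 : ℝ)) y ∂(MX.unif K) = (MX.unif K).real A' :=
    integral_indicator_one hA'
  have e2 : ∫ y, A.indicator (fun _ => (1 : ℝ)) y ∂(MX.unif K) = (MX.unif K).real A :=
    integral_indicator_one hA
  rw [e1, e2] at key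
  linarith

theorem boxZ (k : ℕ) : ∃ C : ℝ, 0 < C ∧ ∀ (n : ℕ) (K : Set (V n)), NUnc K →
    ∀ T : Finset (Fin n), T.card ≤ k → ∀ Z : Fin n → Set ℝ, (∀ i ∈ T, MeasurableSet (Z i)) →
      (∀ i ∈ T, volume (Z i) ≠ ⊤) →
      (MX.unif K).real {y | ∀ i ∈ T, y i ∈ Z i} ≤ C * ∏ i ∈ T, (volume (Z i)).toReal := by
  classical
  obtain ⟨C, hC, hbox⟩ := box k
  refine ⟨C, hC, fun n K hK T hT Z hZ hZf => ?_⟩
  haveI := hK.toUnc.prob
  set v : Fin n → ℝ := fun i => (volume (Z i)).toReal with hv
  have hv0 : ∀ i, 0 ≤ v i := fun i => ENNReal.toReal_nonneg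
  set Y : Finset (Fin n) → Fin n → Set ℝ :=
    fun S i => if i ∈ S then Icc (-(v i / 2)) (v i / 2) else Z i with hY
  have hstep : ∀ S : Finset (Fin n), S ⊆ T →
      (MX.unif K).real {y : V n | ∀ i ∈ T, y i ∈ Z i} ≤
        (MX.unif K).real {y : V n | ∀ i ∈ T, y i ∈ Y S i} := by
    intro S
    induction S using Finset.induction_on with
    | empty =>
      intro _
      apply le_of_eq
      congr 1
    | insert j S hjS ih =>
      intro hS
      refine (ih (fun i hi => hS (Finset.mem_insert_of_mem hi))).trans ?_
      have hj : j ∈ T := hS (Finset.mem_insert_self j S)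
      have hYm : ∀ i ∈ T, MeasurableSet (Y S i) := by
        intro i hi
        rw [hY]
        by_cases h : i ∈ S
        · simp only [if_pos h]
          exact measurableSet_Icc
        · simp only [if_neg h]
          exact hZ i hi
      have hYj : Y S j = Z j := by
        rw [hY]
        simp only [if_neg hjS]
      have h1 := repl hK.toUnc T (Y S) hYm j hj (by rw [hYj]; exact hZf j hj)
      refine h1.trans (le_of_eq ?_)
      have h2 : Function.update (Y S) j
          (Icc (-((volume (Y S j)).toReal / 2)) ((volume (Y S j)).toReal / 2)) = Y (insert j S) := by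
        funext i
        by_cases h : i = j
        · subst h
          rw [Function.update_self, hYj, hY]
          simp only [Finset.mem_insert_self, if_true]
          rfl
        · rw [Function.update_of_ne h, hY]
          simp only [Finset.mem_insert, h, false_or]
      rw [h2]
  have h1 := hstep T (Finset.Subset.refl T)
  have h2 : {y : V n | ∀ i ∈ T, y i ∈ Y T i} = {y : V n | ∀ i ∈ T, |y i| ≤ v i / 2} := by
    ext y
    simp only [Set.mem_setOf_eq]
    refine forall₂_congr fun i hi => ?_
    rw [hY]
    simp only [if_pos hi]
    rw [Set.mem_Icc, abs_le]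
  rw [h2] at h1
  have h3 := hbox n K hK T hT (fun i => v i / 2) (fun i _ => div_nonneg (hv0 i) (by norm_num))
  refine h1.trans (h3.trans ?_)
  apply mul_le_mul_of_nonneg_left _ hC.le
  apply Finset.prod_le_prod
  · intro i _
    exact div_nonneg (hv0 i) (by norm_num)
  · intro i _
    have := hv0 i
    change v i / 2 ≤ v i
    linarith

end Pool.Agent.UB
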