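import Pool.Agent.UB.Defs

/-!
# UB-LapA: the Laplace distribution

PLAN.  `∫ e^{-|s|}/2 ds = 1` and `∫ cos (t s) e^{-|s|}/2 ds = 1/(1+t²)`: evenness reduces to `∫_0^∞ cos(ts) e^{-s} ds = 1/(1+t²)`,
antiderivative `e^{-s} (t sin(ts) - cos(ts))/(1+t²)` (`integral_Ioi_of_hasDerivAt_of_tendsto` or the complex exponential
`integral_exp_mul_complex_Ioi`).  `cs` is an integral against `withDensity` (`integral_withDensity_eq_integral_toReal_smul`).
-/

set_option autoImplicit false

open MeasureTheory Set
open scoped ENNReal NNReal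

namespace Pool.Agent.UB

private lemma int_cos_exp (t : ℝ) :
    IntegrableOn (fun s : ℝ => Real.cos (t * s) * Real.exp (-s)) (Ioi 0) := by
  have h := integrableOn_exp_neg_Ioi (0 : ℝ)
  refine Integrable.mono' (g := fun s : ℝ => Real.exp (-s)) h ?_ ?_
  · exact (by fun_prop : Continuous fun s : ℝ => Real.cos (t * s) * Real.exp (-s)).aestronglyMeasurable
  · refine Filter.Eventually.of_forall fun s => ?_
    rw [norm_mul, Real.norm_eq_abs, Real.norm_eq_abs, abs_of_pos (Real.exp_pos _)]
    have := Real.abs_cos_le_one (t * s)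
    have h2 := Real.exp_pos (-s)
    nlinarith

private lemma ioi_cos_exp (t : ℝ) :
    ∫ s in Ioi (0 : ℝ), Real.cos (t * s) * Real.exp (-s) = 1 / (1 + t ^ 2) := by
  have hpos : (0 : ℝ) < 1 + t ^ 2 := by positivity
  have hd : ∀ x ∈ Ici (0 : ℝ), HasDerivAt
      (fun s : ℝ => Real.exp (-s) * (t * Real.sin (t * s) - Real.cos (t * s)) / (1 + t ^ 2))
      (Real.cos (t * x) * Real.exp (-x)) x := by
    intro x _
    have h1 : HasDerivAt (fun s : ℝ => Real.exp (-s)) (-Real.exp (-x)) x := by
      have := (hasDerivAt_neg x).exp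
      simpa using this
    have hl : HasDerivAt (fun s : ℝ => t * s) t x := by
      simpa using (hasDerivAt_id x).const_mul t
    have h2 : HasDerivAt (fun s : ℝ => Real.sin (t * s)) (Real.cos (t * x) * t) x := hl.sin
    have h3 : HasDerivAt (fun s : ℝ => Real.cos (t * s)) (-Real.sin (t * x) * t) x := hl.cos
    have h4 := ((h1.mul ((h2.const_mul t).sub h3)).div_const (1 + t ^ 2))
    refine h4.congr_deriv ?_
    simp only [Pi.sub_apply]
    field_simp
    ring
  have hlim : Filter.Tendsto
      (fun s : ℝ => Real.exp (-s) * (t * Real.sin (t * s) - Real.cos (t * s)) / (1 + t ^ 2))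
      Filter.atTop (nhds 0) := by
    have h0 : Filter.Tendsto (fun s : ℝ => Real.exp (-s) * ((|t| + 1) / (1 + t ^ 2)))
        Filter.atTop (nhds 0) := by
      have := (Real.tendsto_exp_neg_atTop_nhds_zero).mul_const ((|t| + 1) / (1 + t ^ 2))
      simpa using this
    refine squeeze_zero_norm (fun s => ?_) h0
    rw [Real.norm_eq_abs, abs_div, abs_mul, abs_of_pos (Real.exp_pos _), abs_of_pos hpos,
      mul_div_assoc]
    refine mul_le_mul_of_nonneg_left ?_ (Real.exp_pos _).le
    refine div_le_div_of_nonneg_right ?_ hpos.le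
    calc |t * Real.sin (t * s) - Real.cos (t * s)| ≤ |t * Real.sin (t * s)| + |Real.cos (t * s)| :=
          abs_sub _ _
      _ ≤ |t| * 1 + 1 := by
          rw [abs_mul]
          gcongr
          · exact Real.abs_sin_le_one _
          · exact Real.abs_cos_le_one _
      _ = |t| + 1 := by ring
  have h := integral_Ioi_of_hasDerivAt_of_tendsto' hd (int_cos_exp t) hlim
  rw [h]
  simp
  field_simp

private lemma full_cos_exp (t : ℝ) :
    ∫ s : ℝ, Real.cos (t * s) * Real.exp (-|s|) = 2 * (1 / (1 + t ^ 2)) := by
  rw [← ioi_cos_exp t, ← integral_comp_abs (f := fun s => Real.cos (t * s) * Real.exp (-s))]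
  refine integral_congr_ae (Filter.Eventually.of_forall fun s => ?_)
  show Real.cos (t * s) * Real.exp (-|s|) = Real.cos (t * |s|) * Real.exp (-|s|)
  congr 1
  rcases abs_choice s with h | h
  · rw [h]
  · rw [h, mul_neg, Real.cos_neg]

private lemma meas_den : Measurable fun s : ℝ => ENNReal.ofReal (Real.exp (-|s|) / 2) := by
  have : Continuous fun s : ℝ => Real.exp (-|s|) / 2 := by fun_prop
  exact this.measurable.ennreal_ofReal

private lemma integrable_den : Integrable fun s : ℝ => Real.exp (-|s|) / 2 := by
  by_contra hn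
  have h := full_cos_exp 0
  have h1 : ∫ s : ℝ, Real.exp (-|s|) / 2 = 1 := by
    have : (fun s : ℝ => Real.exp (-|s|) / 2) =
        fun s => (1 / 2) * (Real.cos (0 * s) * Real.exp (-|s|)) := by
      funext s; simp; ring
    rw [this, integral_const_mul, h]
    norm_num
  rw [integral_undef hn] at h1
  norm_num at h1

private lemma lint_den : ∫⁻ s : ℝ, ENNReal.ofReal (Real.exp (-|s|) / 2) = 1 := by
  rw [← ofReal_integral_eq_lintegral_ofReal integrable_den
    (Filter.Eventually.of_forall fun s => by positivity)]
  have h := full_cos_exp 0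
  have h1 : ∫ s : ℝ, Real.exp (-|s|) / 2 = 1 := by
    have : (fun s : ℝ => Real.exp (-|s|) / 2) =
        fun s => (1 / 2) * (Real.cos (0 * s) * Real.exp (-|s|)) := by
      funext s; simp; ring
    rw [this, integral_const_mul, h]
    norm_num
  rw [h1, ENNReal.ofReal_one]

theorem symR_lap : SymR lap := by
  constructor
  · constructor
    rw [lap, withDensity_apply _ MeasurableSet.univ, Measure.restrict_univ]
    exact lint_den
  · ext A hA
    have hneg : Measurable fun s : ℝ => -s := measurable_neg
    rw [Measure.map_apply hneg hA, lap, withDensity_apply _ (hneg hA), withDensity_apply _ hA]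
    have hmp : MeasurePreserving (fun s : ℝ => -s) volume volume :=
      Measure.measurePreserving_neg volume
    rw [← hmp.setLIntegral_comp_preimage hA meas_den]
    refine lintegral_congr fun s => ?_
    simp

theorem cs_lap (t : ℝ) : cs lap t = 1 / (1 + t ^ 2) := by
  rw [cs, lap, integral_withDensity_eq_integral_toReal_smul meas_den
    (Filter.Eventually.of_forall fun s => ENNReal.ofReal_lt_top)]
  have h : ∀ s : ℝ, (ENNReal.ofReal (Real.exp (-|s|) / 2)).toReal • Real.cos (t * s) =
      (1 / 2) * (Real.cos (t * s) * Real.exp (-|s|)) := by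
    intro s
    rw [ENNReal.toReal_ofReal (by positivity), smul_eq_mul]
    ring
  simp_rw [h]
  rw [integral_const_mul, full_cos_exp]
  ring

end Pool.Agent.UB
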