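import Pool.Agent.UB.Wts
import Pool.Agent.UB.LineL

/-!
# UB-MassA: the masses of the weights

PLAN.  `Unc.line_zero` with `F y = 1[l_i ∈ I_b] (1[l_i - |y_i| < θ] - θ/l_i)`: on a chord of half length `l ≥ θ` the set
`{|s| ≤ l, l - |s| < θ}` has length `2θ`.  So `P(l_i ∈ I_b, l_i - |Y_i| < θ) = E 1[l_i ∈ I_b] θ/l_i ≤ 2^(b+1) θ P(l_i ∈ I_b)`, and
`P(l_i ∈ I_b) ≤ c 0 2^(-2b)` for `b ≥ 1` (`Geo.mass`), `≤ 1` for `b = 0`.
-/

set_option autoImplicit false

open MeasureTheory Set
open scoped ENNReal NNReal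

namespace Pool.Agent.UB

open Pool.Agent.CB

variable {n : ℕ} {K : Set (V n)} {c : ℕ → ℝ}

theorem Geo.c0_nonneg (hK : Geo c K) (hn : 0 < n) : 0 ≤ c 0 := by
  have h := hK.dec 0 0
  rw [pow_zero, mul_one] at h
  refine le_trans ?_ h
  unfold Phi
  exact integral_nonneg fun y => Finset.prod_nonneg fun j _ => abs_nonneg _

private theorem meas_cut (l θ : ℝ) :
    Measurable fun s : ℝ => if l - |s| < θ then θ⁻¹ else (0 : ℝ) := by
  refine Measurable.ite ?_ measurable_const measurable_const
  exact measurableSet_lt (by fun_prop) measurable_const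

private theorem int_cut (l θ a b : ℝ) :
    IntervalIntegrable (fun s : ℝ => if l - |s| < θ then θ⁻¹ else (0 : ℝ)) volume a b := by
  refine (intervalIntegrable_const (c := θ⁻¹)).mono_fun (meas_cut l θ).aestronglyMeasurable ?_
  refine Filter.Eventually.of_forall fun s => ?_
  dsimp only
  split_ifs
  · exact le_rfl
  · rw [norm_zero]
    exact norm_nonneg _

private theorem cut_eq {l θ : ℝ} (hθ : 0 < θ) (hl : θ ≤ l) :
    ∫ s in (-l)..l, (if l - |s| < θ then θ⁻¹ else (0 : ℝ)) = 2 := by
  have h1 : ∫ s in (0 : ℝ)..l, (if l - |s| < θ then θ⁻¹ else (0 : ℝ)) = 1 := by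
    rw [← intervalIntegral.integral_add_adjacent_intervals (int_cut l θ 0 (l - θ))
      (int_cut l θ (l - θ) l)]
    have h2 : ∫ s in (0 : ℝ)..(l - θ), (if l - |s| < θ then θ⁻¹ else (0 : ℝ)) = 0 := by
      rw [intervalIntegral.integral_congr_ae (g := fun _ => (0 : ℝ))
        (Filter.Eventually.of_forall fun s hs => ?_)]
      · simp
      · rw [uIoc_of_le (by linarith)] at hs
        have : |s| = s := abs_of_pos hs.1
        rw [if_neg]
        rw [this]
        linarith [hs.2]
    have h3 : ∫ s in (l - θ)..l, (if l - |s| < θ then θ⁻¹ else (0 : ℝ)) = 1 := by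
      rw [intervalIntegral.integral_congr_ae (g := fun _ => θ⁻¹)
        (Filter.Eventually.of_forall fun s hs => ?_)]
      · rw [intervalIntegral.integral_const, smul_eq_mul]
        have : l - (l - θ) = θ := by ring
        rw [this, mul_inv_cancel₀ hθ.ne']
      · rw [uIoc_of_le (by linarith)] at hs
        have : |s| = s := abs_of_pos (by linarith [hs.1])
        rw [if_pos]
        rw [this]
        linarith [hs.1]
    rw [h2, h3, zero_add]
  have h4 : ∫ s in (-l)..0, (if l - |s| < θ then θ⁻¹ else (0 : ℝ)) = 1 := by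
    have h5 := intervalIntegral.integral_comp_neg (a := 0) (b := l)
      (fun s : ℝ => if l - |s| < θ then θ⁻¹ else (0 : ℝ))
    simp only [abs_neg, neg_zero] at h5
    rw [← h5, h1]
  rw [← intervalIntegral.integral_add_adjacent_intervals (int_cut l θ (-l) 0)
    (int_cut l θ 0 l), h1, h4]
  norm_num

private theorem meas_Ib' (b : ℕ) : MeasurableSet (Ib b) := by
  unfold Ib
  split_ifs
  · exact measurableSet_Ioi
  · exact measurableSet_Ioc

private theorem Ib_gt {b : ℕ} {l : ℝ} (h : l ∈ Ib b) : (1 / 2 : ℝ) ^ (b + 1) < l := by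
  unfold Ib at h
  split_ifs at h with h0
  · rw [h0, zero_add, pow_one]
    exact h
  · exact h.1

open Classical in
/-- the comparison function -/
private noncomputable def cmp (K : Set (V n)) (b : ℕ) (i : Fin n) (y : V n) : ℝ :=
  if hl K i y ∈ Ib b then (hl K i y)⁻¹ else 0

private theorem cmp_nonneg (b : ℕ) (i : Fin n) (y : V n) : 0 ≤ cmp K b i y := by
  unfold cmp
  split_ifs
  · exact inv_nonneg.mpr (hl_nonneg i y)
  · exact le_rfl

private theorem cmp_le (b : ℕ) (i : Fin n) (y : V n) : cmp K b i y ≤ 2 ^ (b + 1) := by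
  unfold cmp
  split_ifs with h
  · have h1 := Ib_gt h
    rw [inv_le_comm₀ (lt_trans (by positivity) h1) (by positivity)]
    calc ((2 : ℝ) ^ (b + 1))⁻¹ = (1 / 2) ^ (b + 1) := by rw [one_div, inv_pow]
      _ ≤ _ := h1.le
  · positivity

private theorem cmp_meas (hK : Unc K) (b : ℕ) (i : Fin n) : Measurable (cmp K b i) := by
  unfold cmp
  exact Measurable.ite (hK.measurable_hl i (meas_Ib' b)) (hK.measurable_hl i).inv
    measurable_const

private theorem line_coord (i : Fin n) {y : V n} (hy : y i = 0) (s : ℝ) :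
    (y + s • bv i) i = s := by
  rw [PiLp.add_apply, PiLp.smul_apply, hy, zero_add]
  unfold bv
  simp

theorem mass_wt (hK : Geo c K) (b : ℕ) {θ : ℝ} (hθ : 0 < θ) (hθb : θ ≤ (1 / 2) ^ (b + 1))
    (i : Fin n) : ∫ y, wt K b θ i y ∂(MX.unif K) ≤ 2 * (c 0 + 1) * (1 / 2) ^ b := by
  classical
  haveI := hK.toUnc.prob
  have hn : 0 < n := i.pos
  have hc0 := hK.c0_nonneg hn
  have hW := wtt_wt hK.toUnc b hθ i
  have hWint : Integrable (wt K b θ i) (MX.unif K) := by
    refine Integrable.of_bound hW.meas.aestronglyMeasurable θ⁻¹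
      (Filter.Eventually.of_forall fun y => ?_)
    rw [Real.norm_of_nonneg (wt_nonneg b hθ i y)]
    exact wt_le b hθ i y
  have hCint : Integrable (cmp K b i) (MX.unif K) := by
    refine Integrable.of_bound (cmp_meas hK.toUnc b i).aestronglyMeasurable (2 ^ (b + 1))
      (Filter.Eventually.of_forall fun y => ?_)
    rw [Real.norm_of_nonneg (cmp_nonneg b i y)]
    exact cmp_le b i y
  have h1 : ∫ y, (wt K b θ i y - cmp K b i y) ∂(MX.unif K) = 0 := by
    refine hK.toUnc.line_zero i (hW.meas.sub (cmp_meas hK.toUnc b i))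
      ⟨θ⁻¹ + 2 ^ (b + 1), fun y => ?_⟩ ?_
    · have e1 := wt_nonneg (K := K) b hθ i y
      have e2 := wt_le (K := K) b hθ i y
      have e3 := cmp_nonneg (K := K) b i y
      have e4 := cmp_le (K := K) b i y
      rw [abs_le]
      constructor <;> linarith
    · intro y hy hl0 hyK
      have e1 : ∀ s : ℝ, wt K b θ i (y + s • bv i) - cmp K b i (y + s • bv i) =
          if hl K i y ∈ Ib b then
            (if hl K i y - |s| < θ then θ⁻¹ else 0) - (hl K i y)⁻¹ else 0 := by
        intro s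
        unfold wt cmp
        rw [hl_add, line_coord i hy]
        by_cases h2 : hl K i y ∈ Ib b
        · rw [if_pos h2, if_pos h2]
          by_cases h3 : hl K i y - |s| < θ
          · rw [if_pos ⟨h2, h3⟩, if_pos h3]
          · rw [if_neg (fun h => h3 h.2), if_neg h3]
        · rw [if_neg h2, if_neg h2, if_neg (fun h => h2 h.1), sub_zero]
      simp only [e1]
      by_cases h2 : hl K i y ∈ Ib b
      · simp only [if_pos h2]
        have hlθ : θ ≤ hl K i y := hθb.trans (Ib_gt h2).le
        have hl1 : 0 < hl K i y := lt_of_lt_of_le hθ hlθ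
        rw [intervalIntegral.integral_sub (int_cut _ _ _ _) intervalIntegrable_const,
          cut_eq hθ hlθ, intervalIntegral.integral_const, smul_eq_mul]
        field_simp
        ring
      · simp only [if_neg h2]
        simp
  rw [integral_sub hWint hCint, sub_eq_zero] at h1
  rw [h1]
  have hS : MeasurableSet {y : V n | hl K i y ∈ Ib b} := hK.toUnc.measurable_hl i (meas_Ib' b)
  have h2 : ∫ y, cmp K b i y ∂(MX.unif K) ≤
      (MX.unif K).real {y : V n | hl K i y ∈ Ib b} * 2 ^ (b + 1) := by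
    have h3 : ∫ y, ({y : V n | hl K i y ∈ Ib b}).indicator (fun _ => (2 : ℝ) ^ (b + 1)) y
        ∂(MX.unif K) = (MX.unif K).real {y : V n | hl K i y ∈ Ib b} * 2 ^ (b + 1) := by
      rw [integral_indicator_const _ hS, smul_eq_mul]
    rw [← h3]
    refine integral_mono hCint ((integrable_const _).indicator hS) fun y => ?_
    by_cases h4 : hl K i y ∈ Ib b
    · rw [Set.indicator_of_mem (show y ∈ {y : V n | hl K i y ∈ Ib b} from h4)]
      exact cmp_le b i y
    · rw [Set.indicator_of_notMem (show y ∉ {y : V n | hl K i y ∈ Ib b} from h4)]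
      unfold cmp
      rw [if_neg h4]
  refine h2.trans ?_
  have hpow : (2 : ℝ) ^ (b + 1) = 2 * 2 ^ b := by rw [pow_succ]; ring
  have hpow2 : (2 : ℝ) ^ b * (1 / 2) ^ b = 1 := by
    rw [← mul_pow]
    norm_num
  have hb0 : (0 : ℝ) < (1 / 2 : ℝ) ^ b := by positivity
  have hb1 : (0 : ℝ) < (2 : ℝ) ^ b := by positivity
  rcases Nat.eq_zero_or_pos b with rfl | hb
  · have h3 : (MX.unif K).real {y : V n | hl K i y ∈ Ib 0} ≤ 1 := measureReal_le_one
    rw [zero_add, pow_one, pow_zero, mul_one]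
    linarith
  · have h3 : (MX.unif K).real {y : V n | hl K i y ∈ Ib b} ≤ c 0 * ((1 / 2 : ℝ) ^ b) ^ 2 := by
      refine le_trans (measureReal_mono ?_) (hK.mass i ((1 / 2) ^ b) hb0.le)
      intro y hy
      have hy' : hl K i y ∈ Ib b := hy
      unfold Ib at hy'
      rw [if_neg (by omega)] at hy'
      exact hy'.2
    calc (MX.unif K).real {y : V n | hl K i y ∈ Ib b} * 2 ^ (b + 1)
        ≤ c 0 * ((1 / 2 : ℝ) ^ b) ^ 2 * 2 ^ (b + 1) :=
          mul_le_mul_of_nonneg_right h3 (by positivity)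
      _ = 2 * c 0 * (1 / 2) ^ b * (2 ^ b * (1 / 2) ^ b) := by rw [hpow]; ring
      _ = 2 * c 0 * (1 / 2) ^ b := by rw [hpow2, mul_one]
      _ ≤ 2 * (c 0 + 1) * (1 / 2) ^ b := by nlinarith

theorem mass_ws (hK : Geo c K) {r : ℝ} (hr : 0 < r) (i : Fin n) :
    ∫ y, ws K r i y ∂(MX.unif K) ≤ c 0 * r := by
  classical
  have hS : MeasurableSet {y : V n | hl K i y ≤ r} :=
    measurableSet_le (hK.toUnc.measurable_hl i) measurable_const
  have h1 : ws K r i = ({y : V n | hl K i y ≤ r}).indicator (fun _ => r⁻¹) := by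
    funext y
    unfold ws
    by_cases h : hl K i y ≤ r
    · rw [if_pos h, Set.indicator_of_mem (show y ∈ {y : V n | hl K i y ≤ r} from h)]
    · rw [if_neg h, Set.indicator_of_notMem (show y ∉ {y : V n | hl K i y ≤ r} from h)]
  rw [h1, integral_indicator_const _ hS, smul_eq_mul]
  calc (MX.unif K).real {y : V n | hl K i y ≤ r} * r⁻¹ ≤ c 0 * r ^ 2 * r⁻¹ :=
        mul_le_mul_of_nonneg_right (hK.mass i r hr.le) (inv_nonneg.mpr hr.le)
    _ = c 0 * r := by
        field_simp

end Pool.Agent.UB
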