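import Pool.Agent.UB.Scal

/-!
# UB-NcA: complex nice functions

Sums, products, powers and averages of complex functions which are continuous, bounded and
integrable.
-/

set_option autoImplicit false

open MeasureTheory Set
open scoped ENNReal NNReal ComplexConjugate

namespace Pool.Agent.UB

open Pool.Agent.CB

variable {n : ℕ} {f g : V n → ℂ}

theorem NiceC.add (hf : NiceC f) (hg : NiceC g) : NiceC fun x => f x + g x := by
  obtain ⟨C, hC⟩ := hf.bdd
  obtain ⟨D, hD⟩ := hg.bdd
  exact ⟨hf.cont.add hg.cont, ⟨C + D, fun x => (norm_add_le _ _).trans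
    (add_le_add (hC x) (hD x))⟩, hf.int.add hg.int⟩

theorem NiceC.sub (hf : NiceC f) (hg : NiceC g) : NiceC fun x => f x - g x := by
  obtain ⟨C, hC⟩ := hf.bdd
  obtain ⟨D, hD⟩ := hg.bdd
  exact ⟨hf.cont.sub hg.cont, ⟨C + D, fun x => (norm_sub_le _ _).trans
    (add_le_add (hC x) (hD x))⟩, hf.int.sub hg.int⟩

theorem NiceC.smul (hf : NiceC f) (c : ℂ) : NiceC fun x => c * f x := by
  obtain ⟨C, hC⟩ := hf.bdd
  refine ⟨continuous_const.mul hf.cont, ⟨‖c‖ * C, fun x => ?_⟩, hf.int.const_mul c⟩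
  rw [norm_mul]
  exact mul_le_mul_of_nonneg_left (hC x) (norm_nonneg _)

theorem NiceC.zero : NiceC (fun _ : V n => (0 : ℂ)) :=
  ⟨continuous_const, ⟨0, fun _ => by simp⟩, integrable_zero _ _ _⟩

theorem NiceC.sum {ι : Type} (s : Finset ι) {f : ι → V n → ℂ} (hf : ∀ i ∈ s, NiceC (f i)) :
    NiceC fun x => ∑ i ∈ s, f i x := by
  classical
  induction s using Finset.induction_on with
  | empty => simpa using NiceC.zero
  | insert a s ha ih =>
    have h1 : (fun x => ∑ i ∈ insert a s, f i x) = fun x => f a x + ∑ i ∈ s, f i x := by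
      funext x
      rw [Finset.sum_insert ha]
    rw [h1]
    exact (hf a (Finset.mem_insert_self a s)).add
      (ih fun i hi => hf i (Finset.mem_insert_of_mem hi))

/-- functions dominated by a multiple of a nice function -/
private theorem niceC_of_le (hf : NiceC f) (hg : Continuous g) {K : ℝ}
    (h : ∀ x, ‖g x‖ ≤ K * ‖f x‖) : NiceC g := by
  obtain ⟨C, hC⟩ := hf.bdd
  have hK : ∀ x, ‖g x‖ ≤ |K| * ‖f x‖ := fun x =>
    (h x).trans (mul_le_mul_of_nonneg_right (le_abs_self K) (norm_nonneg _))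
  refine ⟨hg, ⟨|K| * C, fun x => (hK x).trans
    (mul_le_mul_of_nonneg_left (hC x) (abs_nonneg _))⟩, ?_⟩
  refine (hf.int.norm.const_mul |K|).mono hg.aestronglyMeasurable
    (Filter.Eventually.of_forall fun x => ?_)
  rw [Real.norm_eq_abs, abs_of_nonneg (mul_nonneg (abs_nonneg _) (norm_nonneg _))]
  exact hK x

theorem NiceC.J (hf : NiceC f) {q : ℕ} (hq : 2 ≤ q) : NiceC fun x => Jq q (f x) := by
  obtain ⟨C, hC⟩ := hf.bdd
  refine niceC_of_le hf ((continuous_Jq q).comp hf.cont) (K := C ^ (q - 2)) fun x => ?_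
  rw [norm_Jq hq]
  have h1 : q - 1 = (q - 2) + 1 := by omega
  rw [h1, pow_succ]
  exact mul_le_mul_of_nonneg_right (pow_le_pow_left₀ (norm_nonneg _) (hC x) _) (norm_nonneg _)

theorem NiceC.conj (hf : NiceC f) : NiceC fun x => conj (f x) := by
  refine niceC_of_le hf (Complex.continuous_conj.comp hf.cont) (K := 1) fun x => ?_
  rw [RCLike.norm_conj, one_mul]

theorem NiceC.mul (hf : NiceC f) (hg : NiceC g) : NiceC fun x => f x * g x := by
  obtain ⟨C, hC⟩ := hg.bdd
  refine niceC_of_le hf (hf.cont.mul hg.cont) (K := C) fun x => ?_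
  rw [norm_mul, mul_comm]
  exact mul_le_mul_of_nonneg_right (hC x) (norm_nonneg _)

private theorem cvc_intg (hf : NiceC f) {μ : Measure (V n)} [IsProbabilityMeasure μ] (x : V n) :
    Integrable (fun y => f (x + y)) μ := by
  obtain ⟨C, hC⟩ := hf.bdd
  exact Integrable.of_bound (hf.cont.comp (continuous_const.add continuous_id)).aestronglyMeasurable
    C (Filter.Eventually.of_forall fun y => hC (x + y))

theorem NiceC.cvc (hf : NiceC f) {μ : Measure (V n)} [IsProbabilityMeasure μ] : NiceC (cvc μ f) := by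
  obtain ⟨C, hC⟩ := hf.bdd
  have hc : Continuous (UB.cvc μ f) := by
    refine continuous_of_dominated (bound := fun _ => C) (fun x => ?_) (fun x => ?_)
      (integrable_const C) ?_
    · exact (hf.cont.comp (continuous_const.add continuous_id)).aestronglyMeasurable
    · exact Filter.Eventually.of_forall fun y => hC (x + y)
    · exact Filter.Eventually.of_forall fun y => hf.cont.comp (continuous_id.add continuous_const)
  refine ⟨hc, ⟨C, fun x => ?_⟩, hc.aestronglyMeasurable, ?_⟩
  · have h1 : ‖∫ y, f (x + y) ∂μ‖ ≤ C * μ.real Set.univ :=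
      norm_integral_le_of_norm_le_const (Filter.Eventually.of_forall fun y => hC (x + y))
    simpa [UB.cvc] using h1
  · have hm2 : Measurable (Function.uncurry fun (x y : V n) => ‖f (x + y)‖ₑ) := by
      have h5 : Measurable fun q : V n × V n => f (q.1 + q.2) :=
        (hf.cont.comp (continuous_fst.add continuous_snd)).measurable
      exact h5.enorm
    have h2 : ∫⁻ x, ‖UB.cvc μ f x‖ₑ ≤ ∫⁻ x, ‖f x‖ₑ := by
      calc ∫⁻ x, ‖UB.cvc μ f x‖ₑ
          ≤ ∫⁻ x, ∫⁻ y, ‖f (x + y)‖ₑ ∂μ :=
            lintegral_mono fun x => enorm_integral_le_lintegral_enorm _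
        _ = ∫⁻ y, ∫⁻ x, ‖f (x + y)‖ₑ ∂volume ∂μ := lintegral_lintegral_swap hm2.aemeasurable
        _ = ∫⁻ _, (∫⁻ x, ‖f x‖ₑ ∂volume) ∂μ := by
            refine lintegral_congr fun y => ?_
            exact lintegral_add_right_eq_self (fun x => ‖f x‖ₑ) y
        _ = ∫⁻ x, ‖f x‖ₑ := by
            rw [lintegral_const, measure_univ, mul_one]
    exact lt_of_le_of_lt h2 hf.int.2

theorem NiceC.pow_int (hf : NiceC f) {q : ℕ} (hq : 1 ≤ q) : Integrable fun x => ‖f x‖ ^ q := by
  obtain ⟨C, hC⟩ := hf.bdd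
  have hC0 : 0 ≤ C := (norm_nonneg _).trans (hC 0)
  refine (hf.int.norm.const_mul (C ^ (q - 1))).mono (hf.cont.norm.pow q).aestronglyMeasurable
    (Filter.Eventually.of_forall fun x => ?_)
  rw [Real.norm_eq_abs, Real.norm_eq_abs, abs_of_nonneg (pow_nonneg (norm_nonneg _) _),
    abs_of_nonneg (mul_nonneg (pow_nonneg hC0 _) (norm_nonneg _))]
  have h1 : ‖f x‖ ^ q = ‖f x‖ ^ (q - 1) * ‖f x‖ := by
    rw [← pow_succ]
    congr 1
    omega
  rw [h1]
  exact mul_le_mul_of_nonneg_right (pow_le_pow_left₀ (norm_nonneg _) (hC x) _) (norm_nonneg _)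

theorem niceC_ofReal {f : V n → ℝ} (hf : Nice f) : NiceC fun x => (f x : ℂ) := by
  obtain ⟨C, hC⟩ := hf.bdd
  refine ⟨Complex.continuous_ofReal.comp hf.cont, ⟨C, fun x => ?_⟩, hf.int.ofReal⟩
  rw [Complex.norm_real, Real.norm_eq_abs]
  exact hC x

theorem cvc_ofReal {μ : Measure (V n)} (f : V n → ℝ) (x : V n) :
    UB.cvc μ (fun y => (f y : ℂ)) x = (cv μ f x : ℂ) :=
  integral_ofReal

theorem cvc_add {μ : Measure (V n)} [IsProbabilityMeasure μ] (hf : NiceC f) (hg : NiceC g) (x : V n) :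
    UB.cvc μ (fun y => f y + g y) x = UB.cvc μ f x + UB.cvc μ g x :=
  integral_add (cvc_intg hf x) (cvc_intg hg x)

theorem cvc_smul {μ : Measure (V n)} (c : ℂ) (f : V n → ℂ) (x : V n) :
    UB.cvc μ (fun y => c * f y) x = c * UB.cvc μ f x :=
  integral_const_mul c _

theorem cvc_comm {μ ν : Measure (V n)} [IsProbabilityMeasure μ] [IsProbabilityMeasure ν]
    (hf : NiceC f) (x : V n) : UB.cvc μ (UB.cvc ν f) x = UB.cvc ν (UB.cvc μ f) x := by
  have h1 : Integrable (Function.uncurry fun y z => f (x + y + z)) (μ.prod ν) := by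
    obtain ⟨C, hC⟩ := hf.bdd
    refine Integrable.of_bound (Continuous.aestronglyMeasurable ?_) C
      (Filter.Eventually.of_forall fun q => hC (x + q.1 + q.2))
    exact hf.cont.comp ((continuous_const.add continuous_fst).add continuous_snd)
  have h2 := integral_integral_swap h1
  unfold UB.cvc
  rw [h2]
  refine integral_congr_ae (Filter.Eventually.of_forall fun z => ?_)
  refine integral_congr_ae (Filter.Eventually.of_forall fun y => ?_)
  change f (x + y + z) = f (x + z + y)
  rw [add_right_comm]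

end Pool.Agent.UB
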