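import Pool.Agent.UB.XG
import Pool.Agent.UB.SumD
import Pool.Agent.UB.Chord

/-!
# UB-PC: the term with `Θ_i`

PLAN.  `sumT` and the norms of `cv P` (`1`), `Qa` (`2^M0`), `XG` (`mu`), `(Mo)^[k+1]` (`1`); `r²/6 ≤ r²`.
-/

set_option autoImplicit false

open MeasureTheory Set
open scoped ENNReal NNReal

namespace Pool.Agent.UB

open Pool.Agent.CB

/-- `∑ Θ_i (1 - H_i) M^(k-1) f`. -/
noncomputable def UT {n : ℕ} (r lam : ℝ) (f : V n → ℝ) (x : V n) : ℝ :=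
  ∑ i, cv (dm (tht r) i) (om (cv (dm lap i)) ((Mo r lam)^[kk n - 1] f)) x

/-- `P Q X M^(k+1) ∑ Θ_i (1 - H_i) M^(k-1) f`. -/
noncomputable def TC {n : ℕ} (K : Set (V n)) (a : ℝ) (M0 : ℕ) (r lam mu : ℝ) (f : V n → ℝ)
    (x : V n) : ℝ :=
  r ^ 2 / 6 * cv (MX.unif K) (Qa a M0 (XG r mu ((Mo r lam)^[kk n + 1] (UT r lam f)))) x

theorem nice_UT {n : ℕ} {r lam : ℝ} (hr : 0 < r) (hl0 : 0 < lam) (hl1 : lam ≤ 1) {f : V n → ℝ}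
    (hf : Nice f) : Nice (UT r lam f) := by
  unfold UT
  refine nice_sum _ fun i _ => ?_
  have h1 := ((opr_Mo (n := n) hr hl0 hl1).iter (kk n - 1)).nice f hf
  have h2 := ((opr_cv (symP_dm symR_lap i)).om).nice _ h1
  exact (opr_cv (symP_dm (symR_tht hr) i)).nice _ h2

theorem partC {n : ℕ} {K : Set (V n)} (hK : Unc K) {j : ℕ} (hj : 1 ≤ j) {a : ℝ} (ha : 0 ≤ a)
    (M0 : ℕ) {r lam mu : ℝ} (hr : 0 < r) (hl0 : 0 < lam) (hl1 : lam ≤ 1) (hm : 0 < mu) :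
    Bq ((2 * j : ℕ) : ℝ≥0∞) (r ^ 2 * 2 ^ M0 * mu * (c3 (2 * j) / lam)) (TC K a M0 r lam mu) := by
  have hq : (1 : ℝ≥0∞) ≤ ((2 * j : ℕ) : ℝ≥0∞) := by
    have : 1 ≤ 2 * j := by omega
    exact_mod_cast this
  have hO := ((((opr_cv hK.symP).comp (opr_Qa ha M0)).comp (opr_XG (n := n) hr hm)).comp
    ((opr_Mo (n := n) hr hl0 hl1).iter (kk n + 1))).smul (r ^ 2 / 6)
  intro f hf
  have h1 := hO.bd _ hq (UT r lam f) (nice_UT hr hl0 hl1 hf)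
  have h2 : nm ((2 * j : ℕ) : ℝ≥0∞) (UT r lam f) ≤
      ENNReal.ofReal (c3 (2 * j) / lam) * nm ((2 * j : ℕ) : ℝ≥0∞) f := sumT hj hr hl0 hl1 hf
  have h3 : nm ((2 * j : ℕ) : ℝ≥0∞) (TC K a M0 r lam mu f) ≤
      ENNReal.ofReal (|r ^ 2 / 6| * (1 * 2 ^ M0 * mu * 1 ^ (kk n + 1))) *
        nm ((2 * j : ℕ) : ℝ≥0∞) (UT r lam f) := h1
  have h4 : |r ^ 2 / 6| * (1 * 2 ^ M0 * mu * 1 ^ (kk n + 1)) ≤ r ^ 2 * 2 ^ M0 * mu := by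
    rw [abs_of_nonneg (by positivity), one_pow, one_mul, mul_one]
    have h5 : r ^ 2 / 6 ≤ r ^ 2 := by nlinarith [sq_nonneg r]
    calc r ^ 2 / 6 * (2 ^ M0 * mu) ≤ r ^ 2 * (2 ^ M0 * mu) := by gcongr
      _ = r ^ 2 * 2 ^ M0 * mu := by ring
  calc nm ((2 * j : ℕ) : ℝ≥0∞) (TC K a M0 r lam mu f)
      ≤ ENNReal.ofReal (|r ^ 2 / 6| * (1 * 2 ^ M0 * mu * 1 ^ (kk n + 1))) *
        nm ((2 * j : ℕ) : ℝ≥0∞) (UT r lam f) := h3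
    _ ≤ ENNReal.ofReal (r ^ 2 * 2 ^ M0 * mu) *
        (ENNReal.ofReal (c3 (2 * j) / lam) * nm ((2 * j : ℕ) : ℝ≥0∞) f) := by
        gcongr
    _ = ENNReal.ofReal (r ^ 2 * 2 ^ M0 * mu * (c3 (2 * j) / lam)) *
        nm ((2 * j : ℕ) : ℝ≥0∞) f := by
        rw [ENNReal.ofReal_mul (p := r ^ 2 * 2 ^ M0 * mu) (by positivity), ← mul_assoc]

end Pool.Agent.UB
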