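import Pool.Agent.UB.Defs

/-!
# UB-Scal: the scalar inequality

`‖a - b‖ ‖J a - J b‖ ≤ 2 (q-1) Re ((a - b) conj (J a - J b))`, `J a = |a|^(q-2) a`.
-/

set_option autoImplicit false

namespace Pool.Agent.UB

open ComplexConjugate

private theorem pow_dif {x y : ℝ} (hx : 0 ≤ x) (hxy : x ≤ y) (k : ℕ) :
    (y ^ k - x ^ k) * y ≤ k * y ^ k * (y - x) := by
  induction k with
  | zero => simp
  | succ k ih =>
    have hy : 0 ≤ y := hx.trans hxy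
    have h1 : x ^ k ≤ y ^ k := pow_le_pow_left₀ hx hxy k
    have h2 : 0 ≤ (y - x) * y := mul_nonneg (by linarith) hy
    calc (y ^ (k + 1) - x ^ (k + 1)) * y = y * ((y ^ k - x ^ k) * y) + x ^ k * ((y - x) * y) := by
          ring
      _ ≤ y * (k * y ^ k * (y - x)) + y ^ k * ((y - x) * y) := by gcongr
      _ = ((k + 1 : ℕ) : ℝ) * y ^ (k + 1) * (y - x) := by
          push_cast
          ring

private theorem pow_dif2 {x y : ℝ} (hx : 0 ≤ x) (hxy : x ≤ y) (k : ℕ) :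
    (y ^ k - x ^ k) * (x + y) ≤ 2 * k * (x ^ k + y ^ k) * (y - x) := by
  have hy : 0 ≤ y := hx.trans hxy
  have h0 : 0 ≤ x ^ k := pow_nonneg hx k
  have h1 : x ^ k ≤ y ^ k := pow_le_pow_left₀ hx hxy k
  have h2 := pow_dif hx hxy k
  have h3 : (y ^ k - x ^ k) * (x + y) ≤ (y ^ k - x ^ k) * (2 * y) :=
    mul_le_mul_of_nonneg_left (by linarith) (by linarith)
  have h4 : (k : ℝ) * y ^ k * (y - x) ≤ k * (x ^ k + y ^ k) * (y - x) := by
    have hk : (0 : ℝ) ≤ k := Nat.cast_nonneg k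
    gcongr
    linarith
  linarith

private theorem pow_dif3 {x y : ℝ} (hx : 0 ≤ x) (hy : 0 ≤ y) (k : ℕ) :
    |x ^ k - y ^ k| * (x + y) ≤ 2 * k * (x ^ k + y ^ k) * |x - y| := by
  rcases le_total x y with h | h
  · rw [abs_sub_comm, abs_sub_comm x y, abs_of_nonneg (sub_nonneg.2 (pow_le_pow_left₀ hx h k)),
      abs_of_nonneg (sub_nonneg.2 h)]
    exact pow_dif2 hx h k
  · rw [abs_of_nonneg (sub_nonneg.2 (pow_le_pow_left₀ hy h k)), abs_of_nonneg (sub_nonneg.2 h),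
      add_comm x y, add_comm (x ^ k)]
    exact pow_dif2 hy h k

private theorem re_form (a b : ℂ) (u v : ℝ) :
    ((a - b) * conj ((u : ℂ) * a - (v : ℂ) * b)).re =
      (u + v) / 2 * ‖a - b‖ ^ 2 + (u - v) / 2 * (‖a‖ ^ 2 - ‖b‖ ^ 2) := by
  rw [Complex.sq_norm, Complex.sq_norm, Complex.sq_norm]
  simp only [Complex.normSq_apply, map_sub, map_mul, Complex.conj_ofReal, Complex.mul_re,
    Complex.sub_re, Complex.sub_im, Complex.mul_im, Complex.conj_re, Complex.conj_im,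
    Complex.ofReal_re, Complex.ofReal_im]
  ring

theorem scal {q : ℕ} (hq : 2 ≤ q) (a b : ℂ) :
    ‖a - b‖ * ‖Jq q a - Jq q b‖ ≤
      2 * ((q : ℝ) - 1) * ((a - b) * conj (Jq q a - Jq q b)).re := by
  unfold Jq
  have hx : 0 ≤ ‖a‖ := norm_nonneg a
  have hy : 0 ≤ ‖b‖ := norm_nonneg b
  have hu : 0 ≤ ‖a‖ ^ (q - 2) := pow_nonneg hx _
  have hv : 0 ≤ ‖b‖ ^ (q - 2) := pow_nonneg hy _
  have hd := pow_dif3 hx hy (q - 2)
  have hmono : 0 ≤ (‖a‖ ^ (q - 2) - ‖b‖ ^ (q - 2)) * (‖a‖ ^ 2 - ‖b‖ ^ 2) := by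
    rcases le_total ‖a‖ ‖b‖ with h | h
    · have h1 := pow_le_pow_left₀ hx h (q - 2)
      have h2 := pow_le_pow_left₀ hx h 2
      nlinarith
    · have h1 := pow_le_pow_left₀ hy h (q - 2)
      have h2 := pow_le_pow_left₀ hy h 2
      nlinarith
  rw [re_form]
  have hk : ((q - 2 : ℕ) : ℝ) = (q : ℝ) - 2 := by
    rw [Nat.cast_sub hq]
    norm_num
  rw [hk] at hd
  have hq' : (2 : ℝ) ≤ q := by exact_mod_cast hq
  have habs : |‖a‖ - ‖b‖| ≤ ‖a - b‖ := abs_norm_sub_norm_le a b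
  have hadd : ‖a + b‖ ≤ ‖a‖ + ‖b‖ := norm_add_le a b
  generalize ‖a‖ ^ (q - 2) = u at *
  generalize ‖b‖ ^ (q - 2) = v at *
  have hsplit : (u : ℂ) * a - (v : ℂ) * b =
      (((u + v) / 2 : ℝ) : ℂ) * (a - b) + (((u - v) / 2 : ℝ) : ℂ) * (a + b) := by
    push_cast
    ring
  have hnorm : ‖(u : ℂ) * a - (v : ℂ) * b‖ ≤ (u + v) / 2 * ‖a - b‖ + |u - v| / 2 * ‖a + b‖ := by
    rw [hsplit]
    refine (norm_add_le _ _).trans (le_of_eq ?_)
    rw [norm_mul, norm_mul, Complex.norm_real, Complex.norm_real, Real.norm_eq_abs,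
      Real.norm_eq_abs, abs_of_nonneg (by linarith : 0 ≤ (u + v) / 2), abs_div, abs_two]
  have hD : 0 ≤ ‖a - b‖ := norm_nonneg _
  have h1 : |u - v| * ‖a + b‖ ≤ 2 * ((q : ℝ) - 2) * (u + v) * ‖a - b‖ := by
    calc |u - v| * ‖a + b‖ ≤ |u - v| * (‖a‖ + ‖b‖) := by gcongr
      _ ≤ 2 * ((q : ℝ) - 2) * (u + v) * |‖a‖ - ‖b‖| := hd
      _ ≤ 2 * ((q : ℝ) - 2) * (u + v) * ‖a - b‖ := by
          refine mul_le_mul_of_nonneg_left habs ?_
          exact mul_nonneg (by linarith) (by linarith)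
  have h2 : ‖(u : ℂ) * a - (v : ℂ) * b‖ ≤ (2 * (q : ℝ) - 3) * ((u + v) / 2) * ‖a - b‖ := by
    linarith
  have h3 : ‖a - b‖ * ‖(u : ℂ) * a - (v : ℂ) * b‖ ≤
      (2 * (q : ℝ) - 3) * ((u + v) / 2 * ‖a - b‖ ^ 2) := by
    calc ‖a - b‖ * ‖(u : ℂ) * a - (v : ℂ) * b‖ ≤
        ‖a - b‖ * ((2 * (q : ℝ) - 3) * ((u + v) / 2) * ‖a - b‖) :=
          mul_le_mul_of_nonneg_left h2 hD
      _ = _ := by ring
  have h4 : 0 ≤ (u + v) / 2 * ‖a - b‖ ^ 2 := mul_nonneg (by linarith) (sq_nonneg _)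
  have h5 : (2 * (q : ℝ) - 3) * ((u + v) / 2 * ‖a - b‖ ^ 2) ≤
      2 * ((q : ℝ) - 1) * ((u + v) / 2 * ‖a - b‖ ^ 2) :=
    mul_le_mul_of_nonneg_right (by linarith) h4
  have h6 : 0 ≤ 2 * ((q : ℝ) - 1) * ((u - v) / 2 * (‖a‖ ^ 2 - ‖b‖ ^ 2)) := by
    refine mul_nonneg (by linarith) ?_
    have : (u - v) / 2 * (‖a‖ ^ 2 - ‖b‖ ^ 2) = (u - v) * (‖a‖ ^ 2 - ‖b‖ ^ 2) / 2 := by ring
    rw [this]
    linarith
  rw [mul_add]
  linarith

theorem mul_conj_Jq {q : ℕ} (hq : 2 ≤ q) (a : ℂ) : a * conj (Jq q a) = ((‖a‖ ^ q : ℝ) : ℂ) := by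
  unfold Jq
  rw [map_mul, Complex.conj_ofReal, mul_left_comm, Complex.mul_conj, ← Complex.sq_norm,
    ← Complex.ofReal_mul, ← pow_add]
  congr 2
  omega

theorem norm_Jq {q : ℕ} (hq : 2 ≤ q) (a : ℂ) : ‖Jq q a‖ = ‖a‖ ^ (q - 1) := by
  unfold Jq
  rw [norm_mul, Complex.norm_real, Real.norm_eq_abs, abs_of_nonneg (pow_nonneg (norm_nonneg a) _),
    ← pow_succ]
  congr 1
  omega

theorem continuous_Jq (q : ℕ) : Continuous (Jq q) := by
  unfold Jq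
  exact (Complex.continuous_ofReal.comp (continuous_norm.pow _)).mul continuous_id

end Pool.Agent.UB
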