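import Pool.Agent.UB.Wts
import Pool.Agent.UB.LineL
import Pool.Agent.UB.LapA
import Pool.Agent.UB.Line

/-!
# UB-WSym: the symbol identity `wd^ = ξ_i² we^`

PLAN.  `Unc.line_zero` with `F y = (wd y - ξ_i² we y) cos <ξ, y>`.  On a line through `y`, `y i = 0`, `l = hl K i y` (if `l ∉ Ib b`
everything vanishes): `<ξ, y + s e_i> = <ξ, y> + s ξ_i`, `cos (a + s ξ_i) = cos a cos (s ξ_i) - sin a sin (s ξ_i)`, the second part is odd
in `s`, and the weights are even in `s`.  It remains: `∫_{-l}^{l} θ⁻¹ Df (l - |s|) cos (ξ s) ds = ξ² ∫_{-l}^{l} Ef θ (l - |s|) cos (ξ s) ds`,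
where `Df u = 1` on `[0, θ/2)`, `-1` on `[θ/2, θ)`, `0` for `u ≥ θ`, and `θ ≤ 2^(-b-1) < l`.  By evenness over `[0, l]`, with
`G s = Ef θ (l - s)`: `G` is `C¹` on `[0, l]`, `G (l) = 0`, `G' (l) = 0`, `G' (0) = 0` (as `l ≥ θ`), `G'' = - θ⁻¹ Df (l - s)` piecewise; integrate
by parts twice: `ξ² ∫ G cos = ξ [G sin] - ξ ∫ G' sin = [G' cos] - ∫ G'' cos = ∫ θ⁻¹ Df cos`.
(Or compute both integrals explicitly on the two pieces `[l - θ, l - θ/2]`, `[l - θ/2, l]` and `[0, l - θ]`.)
-/

set_option autoImplicit false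

open MeasureTheory Set
open scoped ENNReal NNReal

namespace Pool.Agent.UB

open Pool.Agent.CB

variable {n : ℕ} {K : Set (V n)}

/-! ### One-dimensional functions -/

private noncomputable def pp (u : ℝ) : ℝ := max u 0

private noncomputable def Dd (θ u : ℝ) : ℝ :=
  (if u < θ / 2 then (θ / 2)⁻¹ else 0) - (if u < θ then θ⁻¹ else 0)

private noncomputable def E1 (θ u : ℝ) : ℝ := -(θ⁻¹ * (pp u - 2 * pp (u - θ / 2) + pp (u - θ)))

private theorem pp_pos {u : ℝ} (h : 0 ≤ u) : pp u = u := max_eq_left h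

private theorem pp_neg {u : ℝ} (h : u ≤ 0) : pp u = 0 := max_eq_right h

private theorem pp_cont : Continuous pp := continuous_id.max continuous_const

private theorem hasDeriv_pp_pos {u : ℝ} (h : 0 < u) : HasDerivAt pp 1 u := by
  refine (hasDerivAt_id u).congr_of_eventuallyEq ?_
  filter_upwards [lt_mem_nhds h] with v hv
  exact pp_pos hv.le

private theorem hasDeriv_pp_neg {u : ℝ} (h : u < 0) : HasDerivAt pp 0 u := by
  refine (hasDerivAt_const u (0 : ℝ)).congr_of_eventuallyEq ?_
  filter_upwards [gt_mem_nhds h] with v hv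
  exact pp_neg (le_of_lt hv)

private theorem hasDeriv_pp_sq (u : ℝ) : HasDerivAt (fun v => pp v ^ 2) (2 * pp u) u := by
  rcases lt_trichotomy u 0 with h | h | h
  · have h1 : HasDerivAt (fun v => pp v ^ 2) (((2 : ℕ) : ℝ) * pp u ^ (2 - 1) * 0) u :=
      (hasDeriv_pp_neg h).pow 2
    refine h1.congr_deriv ?_
    rw [pp_neg h.le]
    simp
  · subst h
    rw [pp_pos le_rfl, mul_zero]
    have h1 : (fun v : ℝ => pp v ^ 2) =O[nhds 0] fun v => ‖v - 0‖ ^ 2 := by
      refine Asymptotics.IsBigO.of_bound 1 (Filter.Eventually.of_forall fun v => ?_)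
      rw [sub_zero, one_mul, norm_pow, norm_pow, norm_norm]
      refine pow_le_pow_left₀ (norm_nonneg _) ?_ 2
      rw [Real.norm_eq_abs, Real.norm_eq_abs]
      rcases le_total v 0 with h | h
      · rw [pp_neg h, abs_zero]
        exact abs_nonneg v
      · rw [pp_pos h]
    have h2 : HasFDerivAt (fun v : ℝ => pp v ^ 2) (0 : ℝ →L[ℝ] ℝ) 0 := h1.hasFDerivAt one_lt_two
    have h3 := h2.hasDerivAt
    simpa using h3
  · have h1 : HasDerivAt (fun v => pp v ^ 2) (((2 : ℕ) : ℝ) * pp u ^ (2 - 1) * 1) u :=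
      (hasDeriv_pp_pos h).pow 2
    refine h1.congr_deriv ?_
    simp

private theorem Ef_eq {θ : ℝ} (hθ : 0 < θ) (u : ℝ) :
    Ef θ u = -(θ⁻¹ * (pp u ^ 2 / 2 - pp (u - θ / 2) ^ 2 + pp (u - θ) ^ 2 / 2)) := by
  unfold Ef
  split_ifs with h1 h2 h3
  · rw [pp_neg h1.le, pp_neg (by linarith), pp_neg (by linarith)]
    ring
  · rw [pp_pos (by linarith), pp_neg (by linarith), pp_neg (by linarith)]
    ring
  · rw [pp_pos (by linarith), pp_pos (by linarith), pp_neg (by linarith)]
    field_simp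
    ring
  · rw [pp_pos (by linarith), pp_pos (by linarith), pp_pos (by linarith)]
    field_simp
    ring

private theorem hasDeriv_Ef {θ : ℝ} (hθ : 0 < θ) (u : ℝ) : HasDerivAt (Ef θ) (E1 θ u) u := by
  have h0 : Ef θ = fun u => -(θ⁻¹ * (pp u ^ 2 / 2 - pp (u - θ / 2) ^ 2 + pp (u - θ) ^ 2 / 2)) :=
    funext (Ef_eq hθ)
  rw [h0]
  have a1 := (hasDeriv_pp_sq u).div_const 2
  have b1 : HasDerivAt (fun u : ℝ => u - θ / 2) 1 u := (hasDerivAt_id u).sub_const _
  have b2 : HasDerivAt (fun u : ℝ => u - θ) 1 u := (hasDerivAt_id u).sub_const _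
  have a2 : HasDerivAt (fun u => pp (u - θ / 2) ^ 2) (2 * pp (u - θ / 2) * 1) u := by
    have := HasDerivAt.comp u (hasDeriv_pp_sq (u - θ / 2)) b1
    exact this
  have a3 : HasDerivAt (fun u => pp (u - θ) ^ 2 / 2) (2 * pp (u - θ) * 1 / 2) u := by
    have := (HasDerivAt.comp u (hasDeriv_pp_sq (u - θ)) b2).div_const 2
    exact this
  have a4 := (((a1.sub a2).add a3).const_mul θ⁻¹).neg
  refine a4.congr_deriv ?_
  unfold E1
  ring

private theorem hasDeriv_E1 {θ : ℝ} (hθ : 0 < θ) {u : ℝ} (h0 : 0 < u) (h1 : u ≠ θ / 2)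
    (h2 : u ≠ θ) : HasDerivAt (E1 θ) (-Dd θ u) u := by
  have a1 := hasDeriv_pp_pos h0
  have b1 : HasDerivAt (fun u : ℝ => u - θ / 2) 1 u := (hasDerivAt_id u).sub_const _
  have b2 : HasDerivAt (fun u : ℝ => u - θ) 1 u := (hasDerivAt_id u).sub_const _
  have key : ∀ c d : ℝ, HasDerivAt pp c (u - θ / 2) → HasDerivAt pp d (u - θ) →
      HasDerivAt (E1 θ) (-(θ⁻¹ * (1 - 2 * c + d))) u := by
    intro c d hc hd
    have c1 : HasDerivAt (fun u => pp (u - θ / 2)) (c * 1) u := by
      have := HasDerivAt.comp u hc b1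
      exact this
    have c2 : HasDerivAt (fun u => pp (u - θ)) (d * 1) u := by
      have := HasDerivAt.comp u hd b2
      exact this
    have c3 := (((a1.sub (c1.const_mul 2)).add c2).const_mul θ⁻¹).neg
    refine c3.congr_deriv ?_
    ring
  unfold Dd
  rcases lt_or_gt_of_ne h1 with g1 | g1
  · have g2 : u < θ := by linarith
    rw [if_pos g1, if_pos g2]
    refine (key 0 0 (hasDeriv_pp_neg (by linarith)) (hasDeriv_pp_neg (by linarith))).congr_deriv ?_
    field_simp
    ring
  · rcases lt_or_gt_of_ne h2 with g2 | g2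
    · rw [if_neg (not_lt.mpr g1.le), if_pos g2]
      refine (key 1 0 (hasDeriv_pp_pos (by linarith)) (hasDeriv_pp_neg (by linarith))).congr_deriv ?_
      field_simp
      ring
    · rw [if_neg (not_lt.mpr g1.le), if_neg (not_lt.mpr g2.le)]
      refine (key 1 1 (hasDeriv_pp_pos (by linarith)) (hasDeriv_pp_pos (by linarith))).congr_deriv ?_
      ring

private theorem E1_cont (θ : ℝ) : Continuous (E1 θ) := by
  unfold E1
  have h1 : Continuous fun u : ℝ => pp (u - θ / 2) := pp_cont.comp (continuous_id.sub continuous_const)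
  have h2 : Continuous fun u : ℝ => pp (u - θ) := pp_cont.comp (continuous_id.sub continuous_const)
  exact (((pp_cont.sub (continuous_const.mul h1)).add h2).const_mul _).neg

private theorem Dd_meas (θ : ℝ) : Measurable (Dd θ) := by
  unfold Dd
  exact (Measurable.ite measurableSet_Iio measurable_const measurable_const).sub
    (Measurable.ite measurableSet_Iio measurable_const measurable_const)

private theorem Dd_bd {θ : ℝ} (hθ : 0 < θ) (u : ℝ) : |Dd θ u| ≤ (θ / 2)⁻¹ + θ⁻¹ := by
  have h1 : 0 < (θ / 2)⁻¹ := by positivity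
  have h2 : 0 < θ⁻¹ := by positivity
  unfold Dd
  split_ifs
  · rw [abs_le]
    constructor <;> linarith
  · rw [abs_le]
    constructor <;> linarith
  · rw [abs_le]
    constructor <;> linarith
  · rw [abs_le]
    constructor <;> linarith

private theorem Dd_int {θ : ℝ} (hθ : 0 < θ) {g h : ℝ → ℝ} (hg : Continuous g) (hh : Continuous h)
    (hh1 : ∀ s, |h s| ≤ 1) (a b : ℝ) :
    IntervalIntegrable (fun s => Dd θ (g s) * h s) volume a b := by
  have hm : Measurable fun s => Dd θ (g s) * h s :=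
    ((Dd_meas θ).comp hg.measurable).mul hh.measurable
  have hb : ∀ s, ‖Dd θ (g s) * h s‖ ≤ (θ / 2)⁻¹ + θ⁻¹ := by
    intro s
    rw [Real.norm_eq_abs, abs_mul]
    have := mul_le_mul (Dd_bd hθ (g s)) (hh1 s) (abs_nonneg _) (by positivity)
    rwa [mul_one] at this
  rw [intervalIntegrable_iff]
  exact Measure.integrableOn_of_bounded (by simp) hm.aestronglyMeasurable
    (Filter.Eventually.of_forall hb)

private theorem line_right {θ l : ℝ} (hθ : 0 < θ) (hl : θ ≤ l) (a x : ℝ) :
    ∫ s in (0 : ℝ)..l, (Dd θ (l - s) - x ^ 2 * Ef θ (l - s)) * Real.cos (a + s * x) =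
      x * Ef θ l * Real.sin a := by
  have hc1 : Continuous (fun s : ℝ => l - s) := continuous_const.sub continuous_id
  have hEc : Continuous (Ef θ) := continuous_iff_continuousAt.mpr fun u =>
    (hasDeriv_Ef hθ u).continuousAt
  have hcos : Continuous fun s : ℝ => Real.cos (a + s * x) := by fun_prop
  have hsin : Continuous fun s : ℝ => Real.sin (a + s * x) := by fun_prop
  have hF := integral_eq_of_hasDerivAt_off_countable_of_le
    (fun s => E1 θ (l - s) * Real.cos (a + s * x) - x * (Ef θ (l - s) * Real.sin (a + s * x)))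
    (fun s => (Dd θ (l - s) - x ^ 2 * Ef θ (l - s)) * Real.cos (a + s * x))
    (a := 0) (b := l) (by linarith) (s := {l - θ / 2, l - θ}) (Set.to_countable _)
    (Continuous.continuousOn (((E1_cont θ).comp hc1).mul hcos |>.sub
      (continuous_const.mul ((hEc.comp hc1).mul hsin))))
    (by
      rintro s ⟨⟨hs0, hsl⟩, hs⟩
      simp only [Set.mem_insert_iff, Set.mem_singleton_iff, not_or] at hs
      have d0 : HasDerivAt (fun s : ℝ => l - s) (-1) s := by
        have := (hasDerivAt_id s).const_sub l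
        exact this
      have d1 : HasDerivAt (fun s => E1 θ (l - s)) (-Dd θ (l - s) * (-1)) s := by
        have := HasDerivAt.comp s (hasDeriv_E1 hθ (u := l - s) (by linarith)
          (fun h => hs.1 (by linarith)) (fun h => hs.2 (by linarith))) d0
        exact this
      have d2 : HasDerivAt (fun s => Ef θ (l - s)) (E1 θ (l - s) * (-1)) s := by
        have := HasDerivAt.comp s (hasDeriv_Ef hθ (l - s)) d0
        exact this
      have d3 : HasDerivAt (fun s : ℝ => a + s * x) (1 * x) s := by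
        have := ((hasDerivAt_id s).mul_const x).const_add a
        exact this
      have d4 : HasDerivAt (fun s : ℝ => Real.cos (a + s * x)) (-Real.sin (a + s * x) * (1 * x)) s := by
        have := HasDerivAt.comp s (Real.hasDerivAt_cos (a + s * x)) d3
        exact this
      have d5 : HasDerivAt (fun s : ℝ => Real.sin (a + s * x)) (Real.cos (a + s * x) * (1 * x)) s := by
        have := HasDerivAt.comp s (Real.hasDerivAt_sin (a + s * x)) d3
        exact this
      refine ((d1.mul d4).sub ((d2.mul d5).const_mul x)).congr_deriv ?_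
      ring)
    (by
      have i1 := Dd_int hθ hc1 hcos (fun s => Real.abs_cos_le_one _) 0 l
      have i2 : IntervalIntegrable (fun s => x ^ 2 * Ef θ (l - s) * Real.cos (a + s * x)) volume
          0 l := ((continuous_const.mul (hEc.comp hc1)).mul hcos).intervalIntegrable _ _
      exact (i1.sub i2).congr fun s _ => by
        ring)
  rw [hF]
  have z1 : E1 θ (l - l) = 0 := by
    unfold E1
    rw [sub_self, pp_pos le_rfl, pp_neg (by linarith), pp_neg (by linarith)]
    ring
  have z2 : Ef θ (l - l) = 0 := by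
    rw [Ef_eq hθ, sub_self, pp_pos le_rfl, pp_neg (by linarith), pp_neg (by linarith)]
    ring
  have z3 : E1 θ l = 0 := by
    unfold E1
    rw [pp_pos (by linarith), pp_pos (by linarith), pp_pos (by linarith)]
    ring
  simp only [z1, z2, z3, sub_zero, zero_mul, add_zero, mul_zero]
  ring

private theorem line_left {θ l : ℝ} (hθ : 0 < θ) (hl : θ ≤ l) (a x : ℝ) :
    ∫ s in (-l)..(0 : ℝ), (Dd θ (l + s) - x ^ 2 * Ef θ (l + s)) * Real.cos (a + s * x) =
      -(x * Ef θ l * Real.sin a) := by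
  have h1 := intervalIntegral.integral_comp_neg (a := 0) (b := l)
    (fun s => (Dd θ (l + s) - x ^ 2 * Ef θ (l + s)) * Real.cos (a + s * x))
  rw [neg_zero] at h1
  rw [← h1]
  have h2 : ∀ s : ℝ, (Dd θ (l + -s) - x ^ 2 * Ef θ (l + -s)) * Real.cos (a + -s * x) =
      (Dd θ (l - s) - (-x) ^ 2 * Ef θ (l - s)) * Real.cos (a + s * (-x)) := by
    intro s
    have e1 : l + -s = l - s := by ring
    have e2 : a + -s * x = a + s * (-x) := by ring
    rw [e1, e2]
    ring
  simp only [h2]
  rw [line_right hθ hl a (-x)]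
  ring

private theorem line_full {θ l : ℝ} (hθ : 0 < θ) (hl : θ ≤ l) (a x : ℝ) :
    ∫ s in (-l)..l, (Dd θ (l - |s|) - x ^ 2 * Ef θ (l - |s|)) * Real.cos (a + s * x) = 0 := by
  have hEc : Continuous (Ef θ) := continuous_iff_continuousAt.mpr fun u =>
    (hasDeriv_Ef hθ u).continuousAt
  have hc1 : Continuous (fun s : ℝ => l - |s|) := continuous_const.sub continuous_abs
  have hcos : Continuous fun s : ℝ => Real.cos (a + s * x) := by fun_prop
  have hint : ∀ p q : ℝ, IntervalIntegrable
      (fun s => (Dd θ (l - |s|) - x ^ 2 * Ef θ (l - |s|)) * Real.cos (a + s * x)) volume p q := by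
    intro p q
    have i1 := Dd_int hθ hc1 hcos (fun s => Real.abs_cos_le_one _) p q
    have i2 : IntervalIntegrable (fun s => x ^ 2 * Ef θ (l - |s|) * Real.cos (a + s * x)) volume
        p q := ((continuous_const.mul (hEc.comp hc1)).mul hcos).intervalIntegrable _ _
    exact (i1.sub i2).congr fun s _ => by
      ring
  rw [← intervalIntegral.integral_add_adjacent_intervals (hint (-l) 0) (hint 0 l)]
  have hl0 : 0 ≤ l := by linarith
  have e1 : ∫ s in (-l)..(0 : ℝ), (Dd θ (l - |s|) - x ^ 2 * Ef θ (l - |s|)) *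
      Real.cos (a + s * x) = -(x * Ef θ l * Real.sin a) := by
    rw [← line_left hθ hl a x]
    refine intervalIntegral.integral_congr fun s hs => ?_
    rw [Set.uIcc_of_le (by linarith)] at hs
    have : l - |s| = l + s := by
      rw [abs_of_nonpos hs.2]
      ring
    show (Dd θ (l - |s|) - x ^ 2 * Ef θ (l - |s|)) * Real.cos (a + s * x) = _
    rw [this]
  have e2 : ∫ s in (0 : ℝ)..l, (Dd θ (l - |s|) - x ^ 2 * Ef θ (l - |s|)) *
      Real.cos (a + s * x) = x * Ef θ l * Real.sin a := by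
    rw [← line_right hθ hl a x]
    refine intervalIntegral.integral_congr fun s hs => ?_
    rw [Set.uIcc_of_le hl0] at hs
    show (Dd θ (l - |s|) - x ^ 2 * Ef θ (l - |s|)) * Real.cos (a + s * x) = _
    rw [abs_of_nonneg hs.1]
  rw [e1, e2]
  ring

private theorem Ib_gt {b : ℕ} {l : ℝ} (h : l ∈ Ib b) : (1 / 2 : ℝ) ^ (b + 1) < l := by
  unfold Ib at h
  split_ifs at h with hb
  · rw [hb, zero_add, pow_one]
    exact h
  · exact h.1

private theorem bv_self (i : Fin n) : (bv i : V n) i = 1 := by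
  simp [bv]

private theorem inner_bv (ξ : V n) (i : Fin n) : inner ℝ ξ (bv i) = ξ i := by
  rw [bv, EuclideanSpace.inner_single_right]
  simp

private theorem int_w {μ : Measure (V n)} [IsProbabilityMeasure μ] {w : V n → ℝ} (hw : Wtt w)
    (ξ : V n) : Integrable (fun y => w y * Real.cos (inner ℝ ξ y)) μ := by
  obtain ⟨B, hB⟩ := hw.bdd
  have hc : Measurable fun y : V n => Real.cos (inner ℝ ξ y) := by
    have : Continuous fun y : V n => Real.cos (inner ℝ ξ y) := by fun_prop
    exact this.measurable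
  refine Integrable.of_bound (hw.meas.mul hc).aestronglyMeasurable B
    (Filter.Eventually.of_forall fun y => ?_)
  rw [Real.norm_eq_abs, abs_mul]
  calc |w y| * |Real.cos (inner ℝ ξ y)| ≤ |w y| * 1 :=
        mul_le_mul_of_nonneg_left (Real.abs_cos_le_one _) (abs_nonneg _)
    _ = |w y| := mul_one _
    _ ≤ B := hB y

theorem wsym (hK : Unc K) (b : ℕ) {θ : ℝ} (hθ : 0 < θ) (hθb : θ ≤ (1 / 2) ^ (b + 1)) (i : Fin n)
    (ξ : V n) : kvs (MX.unif K) (wd K b θ i) ξ = ξ i ^ 2 * kvs (MX.unif K) (we K b θ i) ξ := by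
  classical
  have hprob := hK.prob
  have hwd := wtt_wd hK b hθ i
  have hwe := wtt_we hK b hθ i
  obtain ⟨B1, hB1⟩ := hwd.bdd
  obtain ⟨B2, hB2⟩ := hwe.bdd
  have hc : Measurable fun y : V n => Real.cos (inner ℝ ξ y) := by
    have : Continuous fun y : V n => Real.cos (inner ℝ ξ y) := by fun_prop
    exact this.measurable
  have hz := hK.line_zero i
    (F := fun y => (wd K b θ i y - ξ i ^ 2 * we K b θ i y) * Real.cos (inner ℝ ξ y))
    ((hwd.meas.sub (hwe.meas.const_mul _)).mul hc)
    ⟨B1 + ξ i ^ 2 * B2, fun y => by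
      rw [abs_mul]
      have h1 : |wd K b θ i y - ξ i ^ 2 * we K b θ i y| ≤ B1 + ξ i ^ 2 * B2 := by
        refine (abs_sub _ _).trans ?_
        rw [abs_mul, abs_of_nonneg (sq_nonneg (ξ i))]
        exact add_le_add (hB1 y) (mul_le_mul_of_nonneg_left (hB2 y) (sq_nonneg _))
      calc |wd K b θ i y - ξ i ^ 2 * we K b θ i y| * |Real.cos (inner ℝ ξ y)|
          ≤ |wd K b θ i y - ξ i ^ 2 * we K b θ i y| * 1 :=
            mul_le_mul_of_nonneg_left (Real.abs_cos_le_one _) (abs_nonneg _)
        _ = |wd K b θ i y - ξ i ^ 2 * we K b θ i y| := mul_one _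
        _ ≤ _ := h1⟩
    (by
      intro y hy hl0 _
      set l := hl K i y with hld
      by_cases hI : l ∈ Ib b
      · have hθl : θ ≤ l := hθb.trans (Ib_gt hI).le
        have e : ∀ s : ℝ, (wd K b θ i (y + s • bv i) - ξ i ^ 2 * we K b θ i (y + s • bv i)) *
            Real.cos (inner ℝ ξ (y + s • bv i)) =
            (Dd θ (l - |s|) - ξ i ^ 2 * Ef θ (l - |s|)) *
              Real.cos (inner ℝ ξ y + s * ξ i) := by
          intro s
          have h1 : hl K i (y + s • bv i) = l := hl_add i y s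
          have h2 : (y + s • bv i) i = s := by
            rw [PiLp.add_apply, PiLp.smul_apply, bv_self, hy, zero_add, smul_eq_mul, mul_one]
          have h3 : inner ℝ ξ (y + s • bv i) = inner ℝ ξ y + s * ξ i := by
            rw [inner_add_right, inner_smul_right, inner_bv]
          unfold wd wt we Dd
          simp only [h1, h2, h3, hI, true_and, if_true]
        simp only [e]
        exact line_full hθ hθl _ _
      · have e : ∀ s : ℝ, (wd K b θ i (y + s • bv i) - ξ i ^ 2 * we K b θ i (y + s • bv i)) *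
            Real.cos (inner ℝ ξ (y + s • bv i)) = 0 := by
          intro s
          have h1 : hl K i (y + s • bv i) = l := hl_add i y s
          unfold wd wt we
          simp only [h1, hI, false_and, if_false, sub_zero, mul_zero, zero_mul]
        simp only [e]
        exact intervalIntegral.integral_zero)
  unfold kvs
  have e1 : ∫ y, (wd K b θ i y - ξ i ^ 2 * we K b θ i y) * Real.cos (inner ℝ ξ y)
      ∂(MX.unif K) = ∫ y, wd K b θ i y * Real.cos (inner ℝ ξ y) ∂(MX.unif K) -
        ξ i ^ 2 * ∫ y, we K b θ i y * Real.cos (inner ℝ ξ y) ∂(MX.unif K) := by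
    rw [← integral_const_mul, ← integral_sub (int_w hwd ξ) ((int_w hwe ξ).const_mul _)]
    refine integral_congr_ae (Filter.Eventually.of_forall fun y => ?_)
    show (wd K b θ i y - ξ i ^ 2 * we K b θ i y) * Real.cos (inner ℝ ξ y) = _
    ring
  rw [hz] at e1
  linarith

private theorem mul_unique {τ : V n → ℝ} {f g k : V n → ℝ} (hg : Nice g) (hk : Nice k)
    (h1 : IsMul τ f g) (h2 : IsMul τ f k) : g = k := by
  have h3 := IsMul.sub hg hk h1 h2
  have h4 : ∀ ξ, fh (fun x => g x - k x) ξ = 0 := by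
    intro ξ
    rw [h3 ξ]
    simp
  have h5 := plancherel (hg.sub hk)
  have h6 : ∫⁻ ξ : V n, ‖fh (fun x => g x - k x) ξ‖ₑ ^ (2 : ℝ) = 0 := by
    simp only [h4]
    simp
  rw [h6] at h5
  have hm : Measurable fun x => ‖g x - k x‖ₑ ^ (2 : ℝ) :=
    ((hg.sub hk).cont.measurable.enorm).pow_const _
  have h7 := (lintegral_eq_zero_iff hm).mp h5.symm
  have h8 : g =ᵐ[volume] k := by
    filter_upwards [h7] with x hx
    have h9 : ‖g x - k x‖ₑ ^ (2 : ℝ) = 0 := hx
    rw [ENNReal.rpow_eq_zero_iff] at h9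
    rcases h9 with ⟨h9, -⟩ | ⟨-, h9⟩
    · rw [enorm_eq_zero] at h9
      exact sub_eq_zero.mp h9
    · norm_num at h9
  exact (Continuous.ae_eq_iff_eq volume hg.cont hk.cont).mp h8

/-- `d_i = (1 - H_i) (d_i + e_i)`. -/
theorem wd_op (hK : Unc K) (b : ℕ) {θ : ℝ} (hθ : 0 < θ) (hθb : θ ≤ (1 / 2) ^ (b + 1)) (i : Fin n)
    {f : V n → ℝ} (hf : Nice f) :
    kv (MX.unif K) (wd K b θ i) f =
      om (cv (dm lap i)) (kv (MX.unif K) (fun y => wd K b θ i y + we K b θ i y) f) := by
  have hμ := hK.symP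
  have hprob := hK.prob
  have hwd := wtt_wd hK b hθ i
  have hwe := wtt_we hK b hθ i
  have hws : Wtt (fun y => wd K b θ i y + we K b θ i y) := by
    obtain ⟨B1, hB1⟩ := hwd.bdd
    obtain ⟨B2, hB2⟩ := hwe.bdd
    refine ⟨hwd.meas.add hwe.meas, ⟨B1 + B2, fun y => ?_⟩, fun y => ?_⟩
    · exact (abs_add_le _ _).trans (add_le_add (hB1 y) (hB2 y))
    · show wd K b θ i (-y) + we K b θ i (-y) = _
      rw [hwd.even, hwe.even]
  have hL := mul_kv hμ hwd
  have hR := (Mul.cv (n := n) (symP_dm symR_lap i)).om.comp (mul_kv hμ hws)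
  refine mul_unique (hL.nice f hf) (hR.nice f hf) (hL.mul f hf) ?_
  have h1 := hR.mul f hf
  intro ξ
  rw [h1 ξ]
  congr 2
  set η : V n := (2 * Real.pi) • ξ with hη
  have h2 : kvs (MX.unif K) (fun y => wd K b θ i y + we K b θ i y) η =
      kvs (MX.unif K) (wd K b θ i) η + kvs (MX.unif K) (we K b θ i) η := by
    unfold kvs
    rw [← integral_add (int_w hwd η) (int_w hwe η)]
    refine integral_congr_ae (Filter.Eventually.of_forall fun y => ?_)
    show (wd K b θ i y + we K b θ i y) * Real.cos (inner ℝ η y) = _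
    ring
  show (1 - ft (dm lap i) η) * kvs (MX.unif K) (fun y => wd K b θ i y + we K b θ i y) η = _
  rw [h2, wsym hK b hθ hθb i η, ft_dm symR_lap, cs_lap]
  have h3 : (1 : ℝ) + η i ^ 2 ≠ 0 := by positivity
  field_simp
  ring

end Pool.Agent.UB
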