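import Pool.Agent.UB.Kv
import Pool.Agent.UB.Chord

/-!
# UB-Wts: the weights

PLAN.  Measurability from `Unc.measurable_hl`, boundedness from the definitions (`θ > 0`), evenness from `Unc.hl_even`.
`|wd θ| ≤ wt θ`: `wt (θ/2) - wt θ` is `2/θ - 1/θ` if `l - |y_i| < θ/2`, `-1/θ` if `θ/2 ≤ l - |y_i| < θ`.
`|we| ≤ θ/4`: `0 ≤ u²/2 ≤ θ²/8` for `0 ≤ u < θ/2`, `θ²/8 ≤ θ²/4 - (θ-u)²/2 ≤ θ²/4` for `θ/2 ≤ u < θ`.
`layer`: if `l = hl ≤ r` use `ws = r⁻¹`; otherwise `l ∈ Ib b` for exactly one `b`, and `b < m` because `l > 2^(-m)`.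
-/

set_option autoImplicit false

open MeasureTheory Set
open scoped ENNReal NNReal

namespace Pool.Agent.UB

open Pool.Agent.CB

variable {n : ℕ} {K : Set (V n)}

private theorem meas_coord (i : Fin n) : Measurable fun y : V n => y i :=
  (EuclideanSpace.proj (𝕜 := ℝ) i).continuous.measurable

private theorem meas_Ib (b : ℕ) : MeasurableSet (Ib b) := by
  unfold Ib
  split_ifs
  · exact measurableSet_Ioi
  · exact measurableSet_Ioc

private theorem meas_gap (hK : Unc K) (i : Fin n) : Measurable fun y : V n => hl K i y - |y i| :=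
  (hK.measurable_hl i).sub (meas_coord i).abs

private theorem abs_neg_coord (y : V n) (j : Fin n) : |(-y) j| = |y j| := by
  rw [PiLp.neg_apply, abs_neg]

private theorem wt_even (hK : Unc K) (b : ℕ) (θ : ℝ) (i : Fin n) {y z : V n}
    (h : ∀ j, |z j| = |y j|) : wt K b θ i z = wt K b θ i y := by
  unfold wt
  rw [hK.hl_even i h, h i]

theorem wt_nonneg (b : ℕ) {θ : ℝ} (hθ : 0 < θ) (i : Fin n) (y : V n) : 0 ≤ wt K b θ i y := by
  unfold wt
  split_ifs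
  · exact inv_nonneg.mpr hθ.le
  · exact le_rfl

theorem wt_le (b : ℕ) {θ : ℝ} (hθ : 0 < θ) (i : Fin n) (y : V n) : wt K b θ i y ≤ θ⁻¹ := by
  unfold wt
  split_ifs
  · exact le_rfl
  · exact inv_nonneg.mpr hθ.le

theorem ws_nonneg {r : ℝ} (hr : 0 < r) (i : Fin n) (y : V n) : 0 ≤ ws K r i y := by
  unfold ws
  split_ifs
  · exact inv_nonneg.mpr hr.le
  · exact le_rfl

theorem ws_le {r : ℝ} (hr : 0 < r) (i : Fin n) (y : V n) : ws K r i y ≤ r⁻¹ := by
  unfold ws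
  split_ifs
  · exact le_rfl
  · exact inv_nonneg.mpr hr.le

theorem abs_wd_le (b : ℕ) {θ : ℝ} (hθ : 0 < θ) (i : Fin n) (y : V n) :
    |wd K b θ i y| ≤ wt K b θ i y := by
  have hi : 0 < θ⁻¹ := inv_pos.mpr hθ
  have h2 : (θ / 2)⁻¹ = 2 * θ⁻¹ := by
    rw [inv_div]
    ring
  unfold wd wt
  by_cases h1 : hl K i y ∈ Ib b
  · by_cases h3 : hl K i y - |y i| < θ / 2
    · have h4 : hl K i y - |y i| < θ := by linarith
      rw [if_pos ⟨h1, h3⟩, if_pos ⟨h1, h4⟩, h2]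
      rw [show 2 * θ⁻¹ - θ⁻¹ = θ⁻¹ by ring, abs_of_pos hi]
    · rw [if_neg (fun h => h3 h.2)]
      by_cases h4 : hl K i y - |y i| < θ
      · rw [if_pos ⟨h1, h4⟩, zero_sub, abs_neg, abs_of_pos hi]
      · rw [if_neg (fun h => h4 h.2), sub_zero, abs_zero]
  · rw [if_neg (fun h => h1 h.1), if_neg (fun h => h1 h.1), sub_zero, abs_zero]

private theorem abs_Ef_le {θ : ℝ} (hθ : 0 < θ) (u : ℝ) : |Ef θ u| ≤ θ / 4 := by
  have hi : 0 < θ⁻¹ := inv_pos.mpr hθ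
  have hq : 0 < θ / 4 := by linarith
  have hm : θ⁻¹ * (θ ^ 2 / 4) = θ / 4 := by
    field_simp
  unfold Ef
  split_ifs with h1 h2 h3
  · rw [abs_zero]
    exact hq.le
  · push Not at h1
    have h4 : 0 ≤ u ^ 2 / 2 := by positivity
    have h5 : u ^ 2 / 2 ≤ θ ^ 2 / 4 := by nlinarith
    rw [abs_neg, abs_of_nonneg (mul_nonneg hi.le h4)]
    calc θ⁻¹ * (u ^ 2 / 2) ≤ θ⁻¹ * (θ ^ 2 / 4) := mul_le_mul_of_nonneg_left h5 hi.le
      _ = θ / 4 := hm
  · push Not at h1 h2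
    have h4 : 0 ≤ θ ^ 2 / 4 - (θ - u) ^ 2 / 2 := by nlinarith
    have h5 : θ ^ 2 / 4 - (θ - u) ^ 2 / 2 ≤ θ ^ 2 / 4 := by
      have : 0 ≤ (θ - u) ^ 2 := sq_nonneg _
      linarith
    rw [abs_neg, abs_of_nonneg (mul_nonneg hi.le h4)]
    calc θ⁻¹ * (θ ^ 2 / 4 - (θ - u) ^ 2 / 2) ≤ θ⁻¹ * (θ ^ 2 / 4) :=
          mul_le_mul_of_nonneg_left h5 hi.le
      _ = θ / 4 := hm
  · rw [abs_neg, abs_of_pos hq]

theorem abs_we_le (hK : Unc K) (b : ℕ) {θ : ℝ} (hθ : 0 < θ) (i : Fin n) (y : V n) :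
    |we K b θ i y| ≤ θ / 4 := by
  unfold we
  split_ifs
  · exact abs_Ef_le hθ _
  · rw [abs_zero]
    linarith

/-- The weights depend on the absolute values of the coordinates only. -/
theorem wd_sign (hK : Unc K) (b : ℕ) (θ : ℝ) (i : Fin n) {y z : V n} (h : ∀ j, |z j| = |y j|) :
    wd K b θ i z = wd K b θ i y := by
  unfold wd
  rw [wt_even hK b (θ / 2) i h, wt_even hK b θ i h]

theorem we_sign (hK : Unc K) (b : ℕ) (θ : ℝ) (i : Fin n) {y z : V n} (h : ∀ j, |z j| = |y j|) :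
    we K b θ i z = we K b θ i y := by
  unfold we
  rw [hK.hl_even i h, h i]

theorem wtt_wt (hK : Unc K) (b : ℕ) {θ : ℝ} (hθ : 0 < θ) (i : Fin n) : Wtt (wt K b θ i) := by
  refine ⟨?_, ⟨θ⁻¹, fun y => ?_⟩, fun y => wt_even hK b θ i (abs_neg_coord y)⟩
  · unfold wt
    refine Measurable.ite ?_ measurable_const measurable_const
    exact (hK.measurable_hl i (meas_Ib b)).inter
      (measurableSet_lt (meas_gap hK i) measurable_const)
  · rw [abs_of_nonneg (wt_nonneg b hθ i y)]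
    exact wt_le b hθ i y

theorem wtt_wd (hK : Unc K) (b : ℕ) {θ : ℝ} (hθ : 0 < θ) (i : Fin n) : Wtt (wd K b θ i) := by
  refine ⟨?_, ⟨θ⁻¹, fun y => ?_⟩, fun y => wd_sign hK b θ i (abs_neg_coord y)⟩
  · unfold wd
    exact (wtt_wt hK b (half_pos hθ) i).meas.sub (wtt_wt hK b hθ i).meas
  · exact (abs_wd_le b hθ i y).trans (wt_le b hθ i y)

private theorem meas_Ef (θ : ℝ) : Measurable (Ef θ) := by
  unfold Ef
  refine Measurable.ite measurableSet_Iio measurable_const ?_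
  refine Measurable.ite measurableSet_Iio (by fun_prop) ?_
  exact Measurable.ite measurableSet_Iio (by fun_prop) measurable_const

theorem wtt_we (hK : Unc K) (b : ℕ) {θ : ℝ} (hθ : 0 < θ) (i : Fin n) : Wtt (we K b θ i) := by
  refine ⟨?_, ⟨θ / 4, abs_we_le hK b hθ i⟩, fun y => we_sign hK b θ i (abs_neg_coord y)⟩
  unfold we
  refine Measurable.ite ?_ ?_ measurable_const
  · exact hK.measurable_hl i (meas_Ib b)
  · exact (meas_Ef θ).comp (meas_gap hK i)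

theorem wtt_ws (hK : Unc K) {r : ℝ} (hr : 0 < r) (i : Fin n) : Wtt (ws K r i) := by
  refine ⟨?_, ⟨r⁻¹, fun y => ?_⟩, fun y => ?_⟩
  · unfold ws
    exact Measurable.ite (measurableSet_le (hK.measurable_hl i) measurable_const)
      measurable_const measurable_const
  · rw [abs_of_nonneg (ws_nonneg hr i y)]
    exact ws_le hr i y
  · unfold ws
    rw [hK.hl_even i (abs_neg_coord y)]

private theorem exists_class {m : ℕ} (hm : 1 ≤ m) {l : ℝ} (hl : (1 / 2 : ℝ) ^ m < l) :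
    ∃ b, b < m ∧ l ∈ Ib b := by
  classical
  have hex : ∃ k : ℕ, (1 / 2 : ℝ) ^ (k + 1) < l := ⟨m - 1, by rwa [Nat.sub_add_cancel hm]⟩
  have h1 := Nat.find_spec hex
  have h2 : Nat.find hex ≤ m - 1 := Nat.find_min' hex (by rwa [Nat.sub_add_cancel hm])
  have h3 : ∀ j, j < Nat.find hex → ¬ (1 / 2 : ℝ) ^ (j + 1) < l := fun j hj => Nat.find_min hex hj
  obtain ⟨k, hk⟩ : ∃ k, k = Nat.find hex := ⟨_, rfl⟩
  rw [← hk] at h1 h2 h3
  refine ⟨k, by omega, ?_⟩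
  unfold Ib
  split_ifs with h0
  · rw [h0, zero_add, pow_one] at h1
    exact h1
  · refine ⟨h1, ?_⟩
    have h4 := h3 (k - 1) (by omega)
    rw [Nat.sub_add_cancel (by omega : 1 ≤ k)] at h4
    exact not_lt.mp h4

open Classical in
/-- The decomposition of the boundary layer of width `r = 2^(-m)`. -/
theorem layer (hK : Unc K) {m : ℕ} (hm : 1 ≤ m) (i : Fin n) {y : V n} (hy : y ∈ K) :
    (if hl K i y - |y i| < (1 / 2 : ℝ) ^ m then (1 : ℝ) else 0) ≤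
      (1 / 2 : ℝ) ^ m * (∑ b ∈ Finset.range m, wt K b ((1 / 2) ^ m) i y + ws K ((1 / 2) ^ m) i y) := by
  have hr : (0 : ℝ) < (1 / 2 : ℝ) ^ m := by positivity
  have hsum : 0 ≤ ∑ b ∈ Finset.range m, wt K b ((1 / 2) ^ m) i y :=
    Finset.sum_nonneg fun b _ => wt_nonneg b hr i y
  have hws : 0 ≤ ws K ((1 / 2) ^ m) i y := ws_nonneg hr i y
  split_ifs with h1
  · by_cases h2 : hl K i y ≤ (1 / 2 : ℝ) ^ m
    · have h3 : ws K ((1 / 2) ^ m) i y = ((1 / 2 : ℝ) ^ m)⁻¹ := by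
        unfold ws
        rw [if_pos h2]
      rw [mul_add, h3, mul_inv_cancel₀ hr.ne']
      have := mul_nonneg hr.le hsum
      linarith
    · push Not at h2
      obtain ⟨b, hb, hlb⟩ := exists_class hm h2
      have h3 : wt K b ((1 / 2) ^ m) i y = ((1 / 2 : ℝ) ^ m)⁻¹ := by
        unfold wt
        rw [if_pos ⟨hlb, h1⟩]
      have h4 : wt K b ((1 / 2) ^ m) i y ≤ ∑ b ∈ Finset.range m, wt K b ((1 / 2) ^ m) i y :=
        Finset.single_le_sum (f := fun b => wt K b ((1 / 2) ^ m) i y)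
          (fun b _ => wt_nonneg b hr i y) (Finset.mem_range.mpr hb)
      rw [h3] at h4
      calc (1 : ℝ) = (1 / 2 : ℝ) ^ m * ((1 / 2 : ℝ) ^ m)⁻¹ := (mul_inv_cancel₀ hr.ne').symm
        _ ≤ _ := mul_le_mul_of_nonneg_left (by linarith) hr.le
  · exact mul_nonneg hr.le (by linarith)

end Pool.Agent.UB
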